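import Pool.Agent.Helper18.BI.ExtL

/-!
# BI-13 The Laver type forcing: the axioms of a name for a forcing notion

TO PROVE (in place).

* `vq_mono`, `lq_mono`: all clauses are universal statements about conditions below `p`.
* `lq_refl`: `e = .hd s Φ` (for `e = .nd a` the hypothesis is `False`).  Second clause: `nm (Φ t) q v` and
  `nm (Φ t) q v'` give `v = v'` by `Okc`, and `vle v v`.  Third clause: `s <+: u` and `u ++ [n] <+: s` are
  contradictory (lengths).
* `lq_trans`: `e = .hd s Φ`, `e' = .hd s' Φ'`, `e'' = .hd s'' Φ''` (all other cases contradict one of the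
  hypotheses).  Second clause: let `q ≤ p`, `nm (Φ t) q v`, `nm (Φ'' t) q v''`.  By `Okc` for `Φ' t` there are `q' ≤ q` and
  `v'` with `nm (Φ' t) q' v'`; by `hnm` also `nm (Φ t) q' v` and `nm (Φ'' t) q' v''`; so
  `vle v v'`, `vle v' v''`.  Third clause: let `s <+: u`, `u ++ [n] <+: s''`, `q ≤ p`, `nm (Φ u) q v`.
  If `u ++ [n] <+: s'` use the hypothesis for `e'`, `e`.  Otherwise `s' <+: u` (both `s'` and `u ++ [n]` are prefixes
  of `s''`, so they are comparable, `List.prefix_or_prefix_of_prefix`; if `s' <+: u ++ [n]` and not conversely, then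
  `s'` is shorter than `u ++ [n]` and `s' <+: u`).  Use `ins_dense`: for `q1 ≤ q` choose `q2 ≤ q1`, `v'` with
  `nm (Φ' u) q2 v'`; then `InS r v' n q2` by the hypothesis for `e''`, `e'`, `vle v v'` by the second clause for
  `e'`, `e`, and `ins_anti` gives `InS r v n q2`.
-/

set_option autoImplicit false

namespace BI

variable {P Cd : Type} [Preorder P] {r : Om → ℕ → P → Prop} {A : Om → P → Prop}
  {nm : Cd → P → Val → Prop}

theorem vq_mono {p q : P} {e : Ent Cd} (h : q ≤ p) (hv : VQ A nm p e) : VQ A nm q e := by
  cases e with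
  | nd a => exact hv
  | hd s Φ =>
    intro t
    obtain ⟨h1, h2, h3⟩ := hv t
    exact ⟨fun q' hq' => h1 q' (hq'.trans h), fun q' hq' => h2 q' (hq'.trans h),
      fun q' hq' => h3 q' (hq'.trans h)⟩

theorem lq_mono {p q : P} {e' e : Ent Cd} (h : q ≤ p) (hl : LQ r nm p e' e) : LQ r nm q e' e := by
  cases e' with
  | nd a => cases e <;> exact hl
  | hd s' Φ' =>
    cases e with
    | nd a => exact hl
    | hd s Φ =>
      obtain ⟨h1, h2, h3⟩ := hl
      exact ⟨h1, fun t q' hq' => h2 t q' (hq'.trans h),
        fun u n hu hn q' hq' => h3 u n hu hn q' (hq'.trans h)⟩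

theorem lq_refl {p : P} {e : Ent Cd} (hv : VQ A nm p e) : LQ r nm p e e := by
  cases e with
  | nd a => exact hv.elim
  | hd s Φ =>
    refine ⟨List.prefix_rfl, fun t q hq v v' h1 h2 => ?_, fun u n hu hn => ?_⟩
    · have h3 := (hv t).2.1 q hq v v' h1 h2
      rw [h3]
      exact ⟨Finset.Subset.refl _, le_refl _⟩
    · exfalso
      have h1 := hu.length_le
      have h2 := hn.length_le
      simp only [List.length_append, List.length_cons, List.length_nil] at h2
      omega

theorem lq_trans (hr : ∀ α n, Reg (r α n)) (hnm : ∀ c p q v, q ≤ p → nm c p v → nm c q v)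
    {p : P} {e'' e' e : Ent Cd} (hv : VQ A nm p e') (h1 : LQ r nm p e'' e') (h2 : LQ r nm p e' e) :
    LQ r nm p e'' e := by
  cases e' with
  | nd a => exact hv.elim
  | hd s' Φ' =>
    cases e'' with
    | nd a => exact h1.elim
    | hd s'' Φ'' =>
      cases e with
      | nd a => exact h2.elim
      | hd s Φ =>
        obtain ⟨a1, a2, a3⟩ := h1
        obtain ⟨b1, b2, b3⟩ := h2
        refine ⟨b1.trans a1, fun t q hq v v'' hvv hvv'' => ?_, fun u n hu hn q hq v hvv => ?_⟩
        · obtain ⟨q', hq', v', hv'⟩ := (hv t).1 q hq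
          have c1 := b2 t q' (hq'.trans hq) v v' (hnm _ _ _ _ hq' hvv) hv'
          have c2 := a2 t q' (hq'.trans hq) v' v'' hv' (hnm _ _ _ _ hq' hvv'')
          exact ⟨c1.1.trans c2.1, c1.2.trans c2.2⟩
        · by_cases hcase : (u ++ [n]) <+: s'
          · exact b3 u n hu hcase q hq v hvv
          · have hs'u : s' <+: u := by
              rcases List.prefix_or_prefix_of_prefix a1 hn with h3 | h3
              · have hlen : s'.length < (u ++ [n]).length := by
                  rcases lt_or_eq_of_le h3.length_le with h4 | h4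
                  · exact h4
                  · exact absurd (by rw [h3.eq_of_length h4]) hcase
                have hle : s'.length ≤ u.length := by
                  simp only [List.length_append, List.length_cons, List.length_nil] at hlen
                  omega
                exact List.prefix_of_prefix_length_le h3 (List.prefix_append _ _) hle
              · exact absurd h3 hcase
            refine ins_dense hr (fun q1 hq1 => ?_)
            obtain ⟨q2, hq2, v', hv'⟩ := (hv u).1 q1 (hq1.trans hq)
            have hq2p : q2 ≤ p := (hq2.trans hq1).trans hq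
            have c1 := a3 u n hs'u hn q2 hq2p v' hv'
            have c2 := b2 u q2 hq2p v v' (hnm _ _ _ _ (hq2.trans hq1) hvv) hv'
            exact ⟨q2, hq2, ins_anti c2 c1⟩

end BI
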