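import Pool.Agent.Helper18.BI.Core

/-!
# BI-14 The forcing with a Suslin tree: the axioms of a name for a forcing notion

TO PROVE (in place).  `vr_mono`: `q ≤ p ≤ p0`.  `lr_mono`: `hR`.  `lr_refl`: `a = a`.  `lr_trans`: `e = .nd a`,
`e' = .nd a'`, `e'' = .nd a''`; `a = a' ∨ R a a' p`, `a' = a'' ∨ R a' a'' p`; use `PreSus.trans` at `p ≤ p0`.
`presus_mono`: all clauses are about conditions below `p`.
-/

set_option autoImplicit false

namespace BI

variable {P Cd : Type} [Preorder P] {R : Om → Om → P → Prop} {p0 : P}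

theorem presus_mono {p q : P} (h : q ≤ p) (hp : PreSus R p) : PreSus R q where
  lt := fun a b r hr hR => hp.lt a b r (hr.trans h) hR
  trans := fun a b c r hr h1 h2 => hp.trans a b c r (hr.trans h) h1 h2
  tree := fun a b c r hr h0 h1 h2 => hp.tree a b c r (hr.trans h) h0 h1 h2
  succ := fun a x r hr => hp.succ a x r (hr.trans h)
  anti := fun X hX r hr h1 => hp.anti X hX r (hr.trans h) h1

theorem vr_mono {p q : P} {e : Ent Cd} (h : q ≤ p) (hv : VR R p0 p e) : VR R p0 q e := by
  cases e with
  | nd a => exact ⟨h.trans hv.1, hv.2⟩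
  | hd s Φ => exact hv

theorem lr_mono (hR : ∀ a b p q, q ≤ p → R a b p → R a b q) {p q : P} {e' e : Ent Cd} (h : q ≤ p)
    (hl : LR R p e' e) : LR R q e' e := by
  cases e' with
  | nd a' =>
    cases e with
    | nd a =>
      rcases hl with hl | hl
      · exact Or.inl hl
      · exact Or.inr (hR _ _ _ _ h hl)
    | hd s Φ => exact hl
  | hd s Φ => exact hl

theorem lr_refl {p : P} {e : Ent Cd} (hv : VR R p0 p e) : LR R p e e := by
  cases e with
  | nd a => exact Or.inl rfl
  | hd s Φ => exact hv.elim

theorem lr_trans {p : P} {e'' e' e : Ent Cd} (hv : VR R p0 p e') (h1 : LR R p e'' e')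
    (h2 : LR R p e' e) : LR R p e'' e := by
  cases e' with
  | hd s Φ => exact hv.elim
  | nd a' =>
    cases e'' with
    | hd s Φ => exact h1.elim
    | nd a'' =>
      cases e with
      | hd s Φ => exact h2.elim
      | nd a =>
        rcases h1 with h1 | h1
        · subst h1
          exact h2
        · rcases h2 with h2 | h2
          · subst h2
            exact Or.inr h1
          · exact Or.inr (hv.2.trans _ _ _ _ hv.1 h2 h1)

end BI
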