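import Pool.Agent.Helper18.BI.Loc
import Pool.Agent.Helper18.BI.AxQ
import Pool.Agent.Helper18.BI.AxT

/-!
# BI-30 The names used at a stage satisfy the axioms

TO PROVE (in place).  `S` is a finite support iteration (any), so `S.P i = PT S.V S.L i` is a preorder.

* `tv_reg`: the truth value of a code is regular: (→) for `q' ≤ q` take `q'` itself (transitivity); (←) given
  `q' ≤ q`, take `r ≤ q'` with the property and apply it to `r ≤ r`.
* `nmc_mono`: transitivity.
* `st_Vm`, `st_Lm`, `st_Lr`, `st_Lt`: unfold `stV`, `stL`; the condition `p` becomes `⟨p, h⟩ : S.P i`; proof irrelevance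
  identifies the various proofs of `IsC S.V i p`.  Split on `b i` (`rcases hb : b i with ...` and `simp only [stV, hb]`).
  In the case `.qs r A` use `vq_mono`, `lq_mono`, `lq_refl`, `lq_trans` (with `hr = tv_reg`, `hnm = nmc_mono`), in the
  case `.tr p0 R` use `vr_mono`, `lr_mono`, `lr_refl`, `lr_trans` (`hR` from `tv_reg`).
  `cle S.L q p` is by definition `(⟨q, _⟩ : S.P i) ≤ ⟨p, _⟩`.
-/

set_option autoImplicit false

namespace BI

variable {P0 J Cd : Type} [Preorder P0] [LinearOrder J]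
  (dec : Cd → ℕ → Option (Con P0 J (Ent Cd) × Val)) (b : J → Par P0 J Cd) (S : FSys P0 J (Ent Cd))

theorem tv_reg (i : J) (c : Cd) : Reg (tv dec S.V S.L i c) := by
  intro p
  constructor
  · intro h q hq
    exact ⟨q, le_refl (α := S.P i) q, fun q' hq' => h q' (le_trans (α := S.P i) hq' hq)⟩
  · intro h q' hq'
    obtain ⟨r, hr, hU⟩ := h q' hq'
    obtain ⟨q'', h1, h2⟩ := hU r (le_refl (α := S.P i) r)
    exact ⟨q'', le_trans (α := S.P i) h1 hr, h2⟩

theorem nmc_mono (i : J) (c : Cd) (p q : S.P i) (v : Val) (h : q ≤ p)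
    (hp : nmc dec S.V S.L i c p v) : nmc dec S.V S.L i c q v := by
  obtain ⟨k, x, h1, h2, h3⟩ := hp
  exact ⟨k, x, h1, h2, le_trans (α := S.P i) h h3⟩

theorem st_Vm (i : J) (p q : Con P0 J (Ent Cd)) (e : Ent Cd) (hp : IsC S.V i p) (hq : IsC S.V i q)
    (h : cle S.L q p) (he : stV dec b S.V S.L i p e) : stV dec b S.V S.L i q e := by
  have hle : @LE.le (S.P i) _ ⟨q, hq⟩ ⟨p, hp⟩ := h
  unfold stV at he ⊢
  obtain ⟨h0, he⟩ := he
  refine ⟨hq, ?_⟩
  cases hb : b i with
  | qs r A =>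
    rw [hb] at he
    exact vq_mono (P := S.P i) hle he
  | tr p0 R =>
    rw [hb] at he
    obtain ⟨h1, he⟩ := he
    exact ⟨h1, vr_mono (P := S.P i) hle he⟩

theorem st_Lm (i : J) (p q : Con P0 J (Ent Cd)) (e' e : Ent Cd) (hp : IsC S.V i p) (hq : IsC S.V i q)
    (h : cle S.L q p) (he : stL dec b S.V S.L i p e' e) : stL dec b S.V S.L i q e' e := by
  have hle : @LE.le (S.P i) _ ⟨q, hq⟩ ⟨p, hp⟩ := h
  unfold stL at he ⊢
  obtain ⟨h0, he⟩ := he
  refine ⟨hq, ?_⟩
  cases hb : b i with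
  | qs r A =>
    rw [hb] at he
    exact lq_mono (P := S.P i) hle he
  | tr p0 R =>
    rw [hb] at he
    exact lr_mono (P := S.P i) (fun a c x y hxy hx => (tv_reg dec S i (R a c)).mono hxy hx) hle he

theorem st_Lr (i : J) (p : Con P0 J (Ent Cd)) (e : Ent Cd) (hp : IsC S.V i p)
    (he : stV dec b S.V S.L i p e) : stL dec b S.V S.L i p e e := by
  unfold stV at he
  unfold stL
  obtain ⟨h0, he⟩ := he
  refine ⟨hp, ?_⟩
  cases hb : b i with
  | qs r A =>
    rw [hb] at he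
    exact lq_refl (P := S.P i) he
  | tr p0 R =>
    rw [hb] at he
    obtain ⟨h1, he⟩ := he
    exact lr_refl (P := S.P i) he

theorem st_Lt (i : J) (p : Con P0 J (Ent Cd)) (e'' e' e : Ent Cd) (hp : IsC S.V i p)
    (h1 : stV dec b S.V S.L i p e'') (h2 : stV dec b S.V S.L i p e') (h3 : stV dec b S.V S.L i p e)
    (h4 : stL dec b S.V S.L i p e'' e') (h5 : stL dec b S.V S.L i p e' e) :
    stL dec b S.V S.L i p e'' e := by
  unfold stV at h2
  unfold stL at h4 h5 ⊢
  obtain ⟨_, h2⟩ := h2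
  obtain ⟨_, h4⟩ := h4
  obtain ⟨_, h5⟩ := h5
  refine ⟨hp, ?_⟩
  cases hb : b i with
  | qs r A =>
    rw [hb] at h2 h4 h5
    exact lq_trans (P := S.P i) (fun a n => tv_reg dec S i (r a n))
      (fun c x y v hxy hx => nmc_mono dec S i c x y v hxy hx) h2 h4 h5
  | tr p0 R =>
    rw [hb] at h2 h4 h5
    obtain ⟨_, h2⟩ := h2
    exact lr_trans (P := S.P i) h2 h4 h5

end BI
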