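import Pool.Agent.Helper18.BI.Core

/-!
# Finite support iterations: restrictions and amalgamation
-/

set_option autoImplicit false

namespace BI

section

variable {P0 J E : Type} [LinearOrder J]

theorem Con.res_res (p : Con P0 J E) (i j : J) : (p.res i).res j = p.res (min i j) := by
  ext1
  · rfl
  · funext k
    by_cases h1 : k < j <;> by_cases h2 : k < i <;> simp [Con.res, h1, h2]

theorem Con.res_res_of_le (p : Con P0 J E) {i j : J} (h : j ≤ i) : (p.res i).res j = p.res j := by
  rw [Con.res_res, min_eq_right h]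

theorem Con.ent_res_of_lt (p : Con P0 J E) {i j : J} (h : j < i) : (p.res i).ent j = p.ent j := by
  simp [Con.res, h]

theorem Con.ent_res_eq_some {p : Con P0 J E} {i j : J} {e : E} (h : (p.res i).ent j = some e) :
    j < i ∧ p.ent j = some e := by
  by_cases h1 : j < i
  · exact ⟨h1, by simpa [Con.res, h1] using h⟩
  · simp [Con.res, h1] at h

theorem Con.res_base (p : Con P0 J E) (i : J) : (p.res i).base = p.base := rfl

variable {V : J → Con P0 J E → E → Prop}

theorem IsC.res {i : J} {p : Con P0 J E} (h : IsC V i p) (j : J) : IsC V j (p.res j) := by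
  refine ⟨h.1.subset fun k hk => ?_, fun k e hk => ?_⟩
  · intro h1
    apply hk
    by_cases h2 : k < j
    · rw [Con.ent_res_of_lt _ h2]; exact h1
    · simp [Con.res, h2]
  · obtain ⟨h1, h2⟩ := Con.ent_res_eq_some hk
    refine ⟨h1, ?_⟩
    rw [Con.res_res_of_le _ h1.le]
    exact (h.2 k e h2).2

theorem IsC.res_eq {i j : J} {p : Con P0 J E} (h : IsC V i p) (hij : i ≤ j) : p.res j = p := by
  ext1
  · rfl
  · funext k
    by_cases h1 : k < j
    · exact Con.ent_res_of_lt _ h1
    · have h2 : p.ent k = none := by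
        rcases h3 : p.ent k with _ | e
        · rfl
        · exact absurd ((h.2 k e h3).1.trans_le hij) h1
      simp [Con.res, h1, h2]

theorem cle.res [LE P0] {L : J → Con P0 J E → E → E → Prop} {p q : Con P0 J E} (h : cle L p q) (i : J) :
    cle L (p.res i) (q.res i) := by
  refine ⟨h.1, fun j e he => ?_⟩
  obtain ⟨h1, h2⟩ := Con.ent_res_eq_some he
  obtain ⟨e', h3, h4⟩ := h.2 j e h2
  refine ⟨e', (Con.ent_res_of_lt _ h1).trans h3, ?_⟩
  rw [Con.res_res_of_le _ h1.le]
  exact h4

end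

variable {P0 J E : Type} [Preorder P0] [LinearOrder J]

namespace FSys

theorem cle_refl (S : FSys P0 J E) {i : J} {p : Con P0 J E} (h : IsC S.V i p) : cle S.L p p :=
  ⟨le_refl _, fun j e he => ⟨e, he, S.Lr _ _ _ (h.res j) (h.2 j e he).2⟩⟩

theorem cle_trans (S : FSys P0 J E) {i : J} {p q r : Con P0 J E} (hp : IsC S.V i p) (hq : IsC S.V i q)
    (hr : IsC S.V i r) (h1 : cle S.L p q) (h2 : cle S.L q r) : cle S.L p r := by
  refine ⟨h1.1.trans h2.1, fun j e he => ?_⟩
  obtain ⟨e', h3, h4⟩ := h2.2 j e he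
  obtain ⟨e'', h5, h6⟩ := h1.2 j e' h3
  have h7 : S.V j (q.res j) e' := (hq.2 j e' h3).2
  have h8 : S.V j (p.res j) e' := S.Vm _ _ _ _ (hq.res j) (hp.res j) (h1.res j) h7
  have h9 : S.V j (r.res j) e := (hr.2 j e he).2
  have h10 : S.V j (q.res j) e := S.Vm _ _ _ _ (hr.res j) (hq.res j) (h2.res j) h9
  have h11 : S.V j (p.res j) e := S.Vm _ _ _ _ (hq.res j) (hp.res j) (h1.res j) h10
  exact ⟨e'', h5, S.Lt _ _ _ _ _ (hp.res j) (hp.2 j e'' h5).2 h8 h11 h6
    (S.Lm _ _ _ _ _ (hq.res j) (hp.res j) (h1.res j) h4)⟩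

end FSys

instance (S : FSys P0 J E) (i : J) : Preorder (PT S.V S.L i) where
  le a b := a ≤ b
  le_refl a := S.cle_refl a.2
  le_trans a b c h1 h2 := S.cle_trans a.2 b.2 c.2 h1 h2

namespace FSys

theorem le_iff (S : FSys P0 J E) {i : J} {a b : S.P i} : a ≤ b ↔ cle S.L a.1 b.1 := Iff.rfl

/-- The canonical map from `P_i` to `P_j`: the restriction for `j ≤ i`, the inclusion for `i ≤ j`. -/
def rs (S : FSys P0 J E) (i j : J) (p : S.P i) : S.P j := ⟨p.1.res j, p.2.res j⟩

theorem rs_base (S : FSys P0 J E) (i j : J) (p : S.P i) : (S.rs i j p).1.base = p.1.base := rfl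

theorem rs_mono (S : FSys P0 J E) (i j : J) {p q : S.P i} (h : p ≤ q) : S.rs i j p ≤ S.rs i j q :=
  cle.res h j

/-- inclusions -/
theorem rs_incl (S : FSys P0 J E) {i j : J} (h : i ≤ j) (p : S.P i) : (S.rs i j p).1 = p.1 :=
  p.2.res_eq h

theorem rs_le_rs_iff (S : FSys P0 J E) {i j : J} (h : i ≤ j) {p q : S.P i} :
    S.rs i j p ≤ S.rs i j q ↔ p ≤ q := by
  show cle S.L (S.rs i j p).1 (S.rs i j q).1 ↔ cle S.L p.1 q.1
  rw [S.rs_incl h, S.rs_incl h]

theorem rs_rs (S : FSys P0 J E) {i j k : J} (h : k ≤ j ∨ i ≤ j) (p : S.P i) :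
    S.rs j k (S.rs i j p) = S.rs i k p := by
  apply Subtype.ext
  show (p.1.res j).res k = p.1.res k
  rcases h with h | h
  · exact Con.res_res_of_le _ h
  · rw [p.2.res_eq h]

theorem rs_self (S : FSys P0 J E) (i : J) (p : S.P i) : S.rs i i p = p :=
  Subtype.ext (p.2.res_eq le_rfl)

/-- restriction after inclusion is the identity -/
theorem rs_rs_self (S : FSys P0 J E) {i j : J} (h : i ≤ j) (p : S.P i) :
    S.rs j i (S.rs i j p) = p := by
  rw [S.rs_rs (Or.inr h), S.rs_self]

/-- a condition is stronger than its restriction -/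
theorem le_rs (S : FSys P0 J E) {i j : J} (_h : j ≤ i) (p : S.P i) : p ≤ S.rs j i (S.rs i j p) := by
  refine ⟨le_refl _, fun k e he => ?_⟩
  obtain ⟨_, h2⟩ := Con.ent_res_eq_some he
  obtain ⟨_, h4⟩ := Con.ent_res_eq_some h2
  exact ⟨e, h4, S.Lr _ _ _ (p.2.res k) (p.2.2 k e h4).2⟩

/-- a condition of `P_j` is stronger than `p ∈ P_i` iff ... -/
theorem le_rs_iff (S : FSys P0 J E) {i j : J} (h : j ≤ i) {p : S.P i} {q : S.P j} :
    p ≤ S.rs j i q ↔ S.rs i j p ≤ q := by
  constructor
  · intro h1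
    have h2 := S.rs_mono i j h1
    rwa [S.rs_rs_self h] at h2
  · intro h1
    exact (S.le_rs h p).trans ((S.rs_le_rs_iff h).2 h1)

/-- The amalgamation of `q` (below `j`) and `p` (from `j` on). -/
def glu (j : J) (q p : Con P0 J E) : Con P0 J E := ⟨q.base, fun k => if k < j then q.ent k else p.ent k⟩

theorem glu_ent_lt {j k : J} (q p : Con P0 J E) (h : k < j) : (glu j q p).ent k = q.ent k := by
  simp [glu, h]

theorem glu_ent_ge {j k : J} (q p : Con P0 J E) (h : ¬ k < j) : (glu j q p).ent k = p.ent k := by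
  simp [glu, h]

theorem glu_res_of_le {j k : J} (q p : Con P0 J E) (h : k ≤ j) : (glu j q p).res k = q.res k := by
  ext1
  · rfl
  · funext l
    by_cases h1 : l < k
    · simp [Con.res, h1, glu, h1.trans_le h]
    · simp [Con.res, h1]

theorem amalgam (S : FSys P0 J E) [WellFoundedLT J] {i j : J} (h : j ≤ i) (p : S.P i) (q : S.P j)
    (hq : q ≤ S.rs i j p) :
    ∃ r : S.P i, r ≤ p ∧ r ≤ S.rs j i q ∧ S.rs i j r = q ∧ ∀ k, ¬ k < j → r.1.ent k = p.1.ent k := by
  have hfin : {k | (glu j q.1 p.1).ent k ≠ none}.Finite := by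
    refine (q.2.1.union p.2.1).subset fun k hk => ?_
    by_cases h1 : k < j
    · left
      simpa [glu_ent_lt _ _ h1] using hk
    · right
      simpa [glu_ent_ge _ _ h1] using hk
  have key : ∀ k, k ≤ i → IsC S.V k ((glu j q.1 p.1).res k) ∧
      cle S.L ((glu j q.1 p.1).res k) (p.1.res k) := by
    intro k
    induction k using WellFoundedLT.induction with
    | ind k ih =>
      intro hk
      rcases le_total k j with hkj | hjk
      · rw [glu_res_of_le _ _ hkj]
        refine ⟨q.2.res k, ?_⟩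
        have h1 := cle.res hq k
        have h2 : (S.rs i j p).1.res k = p.1.res k := Con.res_res_of_le _ hkj
        rwa [h2] at h1
      · constructor
        · refine ⟨hfin.subset fun l hl => ?_, fun l e hl => ?_⟩
          · intro h1
            apply hl
            by_cases h2 : l < k
            · rw [Con.ent_res_of_lt _ h2]; exact h1
            · simp [Con.res, h2]
          · obtain ⟨h1, h2⟩ := Con.ent_res_eq_some hl
            refine ⟨h1, ?_⟩
            rw [Con.res_res_of_le _ h1.le]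
            by_cases h3 : l < j
            · rw [glu_res_of_le _ _ h3.le]
              rw [glu_ent_lt _ _ h3] at h2
              exact (q.2.2 l e h2).2
            · rw [glu_ent_ge _ _ h3] at h2
              obtain ⟨h4, h5⟩ := ih l h1 (h1.le.trans hk)
              exact S.Vm _ _ _ _ (p.2.res l) h4 h5 (p.2.2 l e h2).2
        · refine ⟨hq.1, fun l e hl => ?_⟩
          obtain ⟨h1, h2⟩ := Con.ent_res_eq_some hl
          rw [Con.res_res_of_le _ h1.le]
          by_cases h3 : l < j
          · have h4 : (S.rs i j p).1.ent l = some e := (Con.ent_res_of_lt _ h3).trans h2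
            obtain ⟨e', h5, h6⟩ := hq.2 l e h4
            refine ⟨e', ?_, ?_⟩
            · rw [Con.ent_res_of_lt _ h1, glu_ent_lt _ _ h3]; exact h5
            · rw [glu_res_of_le _ _ h3.le]; exact h6
          · obtain ⟨h4, h5⟩ := ih l h1 (h1.le.trans hk)
            refine ⟨e, ?_, ?_⟩
            · rw [Con.ent_res_of_lt _ h1, glu_ent_ge _ _ h3]; exact h2
            · exact S.Lr _ _ _ h4 (S.Vm _ _ _ _ (p.2.res l) h4 h5 (p.2.2 l e h2).2)
  have hres : (glu j q.1 p.1).res i = glu j q.1 p.1 := by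
    ext1
    · rfl
    · funext k
      by_cases h1 : k < i
      · exact Con.ent_res_of_lt _ h1
      · have h2 : ¬ k < j := fun h2 => h1 (h2.trans_le h)
        have h3 : p.1.ent k = none := by
          rcases h3 : p.1.ent k with _ | e
          · rfl
          · exact absurd (p.2.2 k e h3).1 h1
        rw [glu_ent_ge _ _ h2, h3]
        simp [Con.res, h1]
  obtain ⟨h1, h2⟩ := key i le_rfl
  rw [hres] at h1 h2
  rw [p.2.res_eq le_rfl] at h2
  have h3 : (glu j q.1 p.1).res j = q.1 := by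
    rw [glu_res_of_le _ _ le_rfl, q.2.res_eq le_rfl]
  refine ⟨⟨_, h1⟩, h2, ?_, Subtype.ext h3, fun k hk => glu_ent_ge _ _ hk⟩
  rw [S.le_rs_iff h]
  have h4 : S.rs i j ⟨glu j q.1 p.1, h1⟩ = q := Subtype.ext h3
  rw [h4]

/-- the name of the forcing notion used at stage `j` -/
def es (S : FSys P0 J E) (j : J) : ESys (S.P j) E where
  V p e := S.V j p.1 e
  L p e' e := S.L j p.1 e' e
  Vm p q e h := S.Vm j _ _ _ p.2 q.2 h
  Lm p q e' e h := S.Lm j _ _ _ _ p.2 q.2 h
  Lr p e := S.Lr j _ _ p.2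
  Lt p e'' e' e := S.Lt j _ _ _ _ p.2

/-- the map from `P_i` to the two step iteration of `P_j` and the forcing of stage `j`, for `j < i` -/
def pj (S : FSys P0 J E) {i j : J} (_h : j < i) (p : S.P i) : TS (S.es j) :=
  ⟨S.rs i j p, p.1.ent j, fun e he => (p.2.2 j e he).2⟩

theorem pj_mono (S : FSys P0 J E) {i j : J} (h : j < i) {p q : S.P i} (hpq : p ≤ q) :
    S.pj h p ≤ S.pj h q := ⟨S.rs_mono i j hpq, fun e he => hpq.2 j e he⟩

end FSys

end BI
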