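import Pool.Agent.Helper18.BI.Lift

/-!
# Strengthening the base of a condition
-/

set_option autoImplicit false

namespace BI

theorem base_ext {P0 J E : Type} [Preorder P0] [LinearOrder J] [WellFoundedLT J] (S : FSys P0 J E)
    {i : J} (q : S.P i) (p0 : P0) (h : p0 ≤ q.1.base) : ∃ q' : S.P i, q' ≤ q ∧ q'.1.base = p0 := by
  obtain ⟨c', hc, hcq⟩ := S.patch q ⟨p0, q.1.ent⟩ q.2.1 h (fun k e hk => (q.2.2 k e hk).1)
    (fun k hk h4 h5 => ⟨fun e he => S.Vm _ _ _ _ (q.2.res k) h4 h5 (q.2.2 k e he).2, fun e he =>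
      ⟨e, he, S.Lr _ _ _ h4 (S.Vm _ _ _ _ (q.2.res k) h4 h5 (q.2.2 k e he).2)⟩⟩)
  exact ⟨c', hcq, by rw [hc]⟩

end BI
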