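import Pool.Agent.Helper18.BI.CohDefs

/-!
# BI-34 Cardinalities

TO PROVE (in place).  Let `λ = 2 ^ aleph 1`.  Facts: `λ ^ aleph 1 = λ`, `λ ^ aleph0 ≤ λ` (`Cardinal.power_mul`,
`Cardinal.aleph0_mul_eq`, `Cardinal.mul_eq_self`, `Cardinal.power_le_power_left`), `aleph0 ≤ λ`, `λ * λ = λ`, `λ + λ = λ`,
`mk Om = aleph 1`.
* `mk_ent`: `Ent Cd` is the union of the ranges of `nd` and `hd` (it injects into `Om ⊕ (List Nd × (List Nd → Cd))`); `List Nd` is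
  countable, so `mk (List Nd → Cd) ≤ λ ^ aleph0 ≤ λ`.
* `mk_seq`: lists over a type of cardinality `≤ λ` form a type of cardinality `≤ λ` (`Cardinal.mk_list_le_max`), `Val` has
  cardinality `aleph 1` (`Finset Om` injects into lists, or `Cardinal.mk_finset_of_infinite`), options add one element.
* `mk_par`: products and functions from `Om`, `Om × ℕ`, `Om × Om`.
* `mk_coh`: `Coh` injects into `Finset ((Om × Om) × Bool)` (the graph), of cardinality `aleph 1`.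
* `exists_surj`: from `mk β ≤ mk α` and `Nonempty β`.
-/

set_option autoImplicit false

open Cardinal

namespace BI

theorem mk_om : #Om = ℵ_ 1 := by
  unfold Om
  rw [Cardinal.mk_toType, Ordinal.card_omega]

theorem bka_aleph0 : ℵ₀ ≤ 2 ^ (ℵ_ 1 : Cardinal.{0}) :=
  (aleph0_le_aleph 1).trans (cantor _).le

theorem bka_mul {a b : Cardinal.{0}} (ha : a ≤ 2 ^ (ℵ_ 1 : Cardinal.{0}))
    (hb : b ≤ 2 ^ (ℵ_ 1 : Cardinal.{0})) : a * b ≤ 2 ^ (ℵ_ 1 : Cardinal.{0}) :=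
  (mul_le_mul' ha hb).trans (mul_eq_self bka_aleph0).le

theorem bka_add {a b : Cardinal.{0}} (ha : a ≤ 2 ^ (ℵ_ 1 : Cardinal.{0}))
    (hb : b ≤ 2 ^ (ℵ_ 1 : Cardinal.{0})) : a + b ≤ 2 ^ (ℵ_ 1 : Cardinal.{0}) :=
  (add_le_add ha hb).trans (add_eq_self bka_aleph0).le

theorem bka_pow {a b : Cardinal.{0}} (ha : a ≤ 2 ^ (ℵ_ 1 : Cardinal.{0}))
    (hb : b ≤ ℵ_ 1) : a ^ b ≤ 2 ^ (ℵ_ 1 : Cardinal.{0}) := by
  have h0 : (2 ^ (ℵ_ 1 : Cardinal.{0}) : Cardinal.{0}) ≠ 0 :=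
    (lt_of_lt_of_le aleph0_pos bka_aleph0).ne'
  calc a ^ b ≤ (2 ^ (ℵ_ 1 : Cardinal.{0})) ^ b := power_le_power_right ha
    _ ≤ (2 ^ (ℵ_ 1 : Cardinal.{0})) ^ (ℵ_ 1 : Cardinal.{0}) := power_le_power_left h0 hb
    _ = 2 ^ (ℵ_ 1 : Cardinal.{0}) := by
        rw [← power_mul, mul_eq_self (aleph0_le_aleph 1)]

theorem bka_one : (1 : Cardinal.{0}) ≤ 2 ^ (ℵ_ 1 : Cardinal.{0}) :=
  one_lt_aleph0.le.trans bka_aleph0

theorem bka_prod {α β : Type} (ha : #α ≤ 2 ^ (ℵ_ 1 : Cardinal.{0}))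
    (hb : #β ≤ 2 ^ (ℵ_ 1 : Cardinal.{0})) : #(α × β) ≤ 2 ^ (ℵ_ 1 : Cardinal.{0}) := by
  rw [mk_prod, lift_id, lift_id]
  exact bka_mul ha hb

theorem bka_sum {α β : Type} (ha : #α ≤ 2 ^ (ℵ_ 1 : Cardinal.{0}))
    (hb : #β ≤ 2 ^ (ℵ_ 1 : Cardinal.{0})) : #(α ⊕ β) ≤ 2 ^ (ℵ_ 1 : Cardinal.{0}) := by
  rw [mk_sum, lift_id, lift_id]
  exact bka_add ha hb

theorem bka_fun {α β : Type} (ha : #α ≤ ℵ_ 1)
    (hb : #β ≤ 2 ^ (ℵ_ 1 : Cardinal.{0})) : #(α → β) ≤ 2 ^ (ℵ_ 1 : Cardinal.{0}) := by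
  rw [mk_arrow, lift_id, lift_id]
  exact bka_pow hb ha

theorem bka_list {α : Type} (ha : #α ≤ 2 ^ (ℵ_ 1 : Cardinal.{0})) :
    #(List α) ≤ 2 ^ (ℵ_ 1 : Cardinal.{0}) :=
  (mk_list_le_max α).trans (max_le bka_aleph0 ha)

theorem bka_option {α : Type} (ha : #α ≤ 2 ^ (ℵ_ 1 : Cardinal.{0})) :
    #(Option α) ≤ 2 ^ (ℵ_ 1 : Cardinal.{0}) := by
  rw [mk_option]
  exact bka_add ha bka_one

theorem bka_ctb {α : Type} [Countable α] : #α ≤ ℵ_ 1 :=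
  (mk_le_aleph0 (α := α)).trans (aleph0_le_aleph 1)

theorem bka_om : #Om ≤ 2 ^ (ℵ_ 1 : Cardinal.{0}) := mk_om.le.trans (cantor _).le

theorem mk_ent (Cd : Type) (h : #Cd ≤ 2 ^ (ℵ_ 1 : Cardinal.{0})) :
    #(Ent Cd) ≤ 2 ^ (ℵ_ 1 : Cardinal.{0}) := by
  let f : Ent Cd → Om ⊕ (List Nd × (List Nd → Cd)) := fun e =>
    match e with
    | .nd a => Sum.inl a
    | .hd s Φ => Sum.inr (s, Φ)
  have hf : Function.Injective f := by
    intro x y hxy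
    cases x with
    | nd a =>
      cases y with
      | nd b =>
        have : (Sum.inl a : Om ⊕ (List Nd × (List Nd → Cd))) = Sum.inl b := hxy
        rw [Sum.inl.inj this]
      | hd s Φ =>
        have : (Sum.inl a : Om ⊕ (List Nd × (List Nd → Cd))) = Sum.inr (s, Φ) := hxy
        exact absurd this (by simp)
    | hd s Φ =>
      cases y with
      | nd b =>
        have : (Sum.inr (s, Φ) : Om ⊕ (List Nd × (List Nd → Cd))) = Sum.inl b := hxy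
        exact absurd this (by simp)
      | hd s' Φ' =>
        have : (Sum.inr (s, Φ) : Om ⊕ (List Nd × (List Nd → Cd))) = Sum.inr (s', Φ') := hxy
        have h2 := Sum.inr.inj this
        rw [(Prod.mk.inj h2).1, (Prod.mk.inj h2).2]
  refine (mk_le_of_injective hf).trans ?_
  exact bka_sum bka_om (bka_prod (bka_ctb.trans (cantor _).le) (bka_fun bka_ctb h))

theorem mk_seq (P0 J E : Type) (h0 : #P0 ≤ 2 ^ (ℵ_ 1 : Cardinal.{0}))
    (hJ : #J ≤ 2 ^ (ℵ_ 1 : Cardinal.{0})) (hE : #E ≤ 2 ^ (ℵ_ 1 : Cardinal.{0})) :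
    #(ℕ → Option ((P0 × List (J × E)) × Val)) ≤ 2 ^ (ℵ_ 1 : Cardinal.{0}) := by
  have hfin : #(Finset Om) ≤ 2 ^ (ℵ_ 1 : Cardinal.{0}) := by
    have h1 : #(Finset Om) ≤ #(Set Om) :=
      mk_le_of_injective (f := fun s : Finset Om => (s : Set Om)) Finset.coe_injective
    rw [mk_set, mk_om] at h1
    exact h1
  exact bka_fun bka_ctb (bka_option (bka_prod (bka_prod h0 (bka_list (bka_prod hJ hE)))
    (bka_prod hfin (bka_ctb.trans (cantor _).le))))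

theorem mk_par (P0 J E Cd : Type) (h0 : #P0 ≤ 2 ^ (ℵ_ 1 : Cardinal.{0}))
    (hJ : #J ≤ 2 ^ (ℵ_ 1 : Cardinal.{0})) (hE : #E ≤ 2 ^ (ℵ_ 1 : Cardinal.{0}))
    (hC : #Cd ≤ 2 ^ (ℵ_ 1 : Cardinal.{0})) :
    #(((Om → ℕ → Cd) × (Om → Cd)) ⊕ ((P0 × List (J × E)) × (Om → Om → Cd))) ≤
      2 ^ (ℵ_ 1 : Cardinal.{0}) :=
  bka_sum (bka_prod (bka_fun mk_om.le (bka_fun bka_ctb hC)) (bka_fun mk_om.le hC))
    (bka_prod (bka_prod h0 (bka_list (bka_prod hJ hE)))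
      (bka_fun mk_om.le (bka_fun mk_om.le hC)))

theorem mk_coh : #Coh ≤ 2 ^ (ℵ_ 1 : Cardinal.{0}) := by
  have h1 : #Coh ≤ #(Om × Om → Option Bool) :=
    mk_le_of_injective (f := fun x : Coh => x.1) Subtype.val_injective
  refine h1.trans (bka_fun ?_ (bka_option (bka_ctb.trans (cantor _).le)))
  rw [mk_prod, lift_id, mk_om, mul_eq_self (aleph0_le_aleph 1)]

theorem exists_surj {α β : Type} (h : #β ≤ #α) (hβ : Nonempty β) :
    ∃ f : α → β, Function.Surjective f := by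
  obtain ⟨g⟩ := (Cardinal.le_def β α).1 h
  exact ⟨Function.invFun g, Function.invFun_surjective g.injective⟩

end BI
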