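import Pool.Agent.Helper18.BI.Defs

/-!
# BI-11 The type of the countable ordinals

TO PROVE (in place): basic facts on `Om = (Ordinal.omega 1).ToType`.

Hints.  `Cardinal.mk Om = aleph 1` (`Ordinal.mk_toType`, `Cardinal.ord_aleph` / `Ordinal.card_omega`), so `Om` is uncountable; an
initial segment `Set.Iio x` has cardinality `< aleph 1` (`Cardinal.mk_Iio_ord_toType` or
`Ordinal.mk_Iio_ordinal`, `Cardinal.lt_aleph_one_iff` style: `lt_aleph_one_iff_le_aleph0`), hence it is countable.
A countable set `X` is bounded: otherwise `Set.univ = ⋃ x ∈ X, Set.Iic x` would be countable.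
Surjections: `Cardinal.mk (Om × Om) = aleph 1`, `Cardinal.mk (Om × ℕ) = aleph 1` (`Cardinal.mul_eq_self` etc.).
-/

set_option autoImplicit false

namespace BI

theorem om_mk : Cardinal.mk Om = Cardinal.aleph 1 := by
  rw [Cardinal.mk_toType, ← Cardinal.ord_aleph, Cardinal.card_ord]

theorem om_Iio_aux (o : Ordinal) (h : o = (Cardinal.aleph 1).ord) (x : o.ToType) :
    Cardinal.mk (Set.Iio x) < Cardinal.aleph 1 := by
  subst h
  exact Cardinal.mk_Iio_toType_ord_lt x

theorem om_Iio (x : Om) : (Set.Iio x).Countable := by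
  rw [Cardinal.countable_iff_lt_aleph_one]
  exact om_Iio_aux _ (Cardinal.ord_aleph 1).symm x

theorem om_Iic (x : Om) : (Set.Iic x).Countable := by
  have h : Set.Iic x = insert x (Set.Iio x) := by
    ext y
    simp only [Set.mem_Iic, Set.mem_insert_iff, Set.mem_Iio]
    exact le_iff_eq_or_lt
  rw [h]
  exact (om_Iio x).insert x

theorem om_not_countable : ¬ (Set.univ : Set Om).Countable := by
  rw [Cardinal.countable_iff_lt_aleph_one, Cardinal.mk_univ, om_mk]
  exact lt_irrefl _

/-- countable sets are bounded -/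
theorem om_bdd {X : Set Om} (h : X.Countable) : ∃ x : Om, ∀ b ∈ X, b < x := by
  by_contra hcon
  push Not at hcon
  apply om_not_countable
  refine (h.biUnion fun b _ => om_Iic b).mono ?_
  intro x _
  obtain ⟨b, hb, hx⟩ := hcon x
  exact Set.mem_biUnion hb hx

theorem om_exists_gt (x : Om) : ∃ y : Om, x < y := by
  obtain ⟨y, hy⟩ := om_bdd (Set.countable_singleton x)
  exact ⟨y, hy x rfl⟩

theorem om_infinite : Infinite Om := by
  by_contra h
  rw [not_infinite_iff_finite] at h
  exact om_not_countable (Set.toFinite _).countable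

/-- uncountable sets are unbounded -/
theorem om_unb {X : Set Om} (h : ¬ X.Countable) (x : Om) : ∃ b ∈ X, x < b := by
  by_contra hcon
  push Not at hcon
  exact h ((om_Iic x).mono fun b hb => hcon b hb)

theorem om_nonempty : Nonempty Om := by
  haveI := om_infinite
  infer_instance

theorem om_surj_prod : ∃ g : Om → Om × Om, Function.Surjective g := by
  have h : Cardinal.mk (Om × Om) = Cardinal.mk Om := by
    rw [Cardinal.mk_prod, Cardinal.lift_id, om_mk]
    exact Cardinal.mul_eq_self (Cardinal.aleph0_le_aleph 1)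
  obtain ⟨e⟩ := Cardinal.eq.1 h
  exact ⟨e.symm, e.symm.surjective⟩

theorem om_surj_nat : ∃ g : Om → Om × ℕ, Function.Surjective g := by
  obtain ⟨g, hg⟩ := om_surj_prod
  haveI := om_infinite
  obtain ⟨f, hf⟩ : ∃ f : Om → ℕ, Function.Surjective f := by
    obtain ⟨e⟩ : Nonempty (ℕ ↪ Om) := ⟨Infinite.natEmbedding Om⟩
    exact ⟨Function.invFun e, Function.invFun_surjective e.injective⟩
  refine ⟨fun x => ((g x).1, f (g x).2), ?_⟩
  rintro ⟨a, n⟩
  obtain ⟨b, hb⟩ := hf n
  obtain ⟨x, hx⟩ := hg (a, b)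
  refine ⟨x, ?_⟩
  change ((g x).1, f (g x).2) = (a, n)
  rw [hx, hb]

/-- a map from a countable type is bounded -/
theorem om_bdd_range {ι : Type} [Countable ι] (f : ι → Om) : ∃ x : Om, ∀ i, f i < x := by
  obtain ⟨x, hx⟩ := om_bdd (Set.countable_range f)
  exact ⟨x, fun i => hx _ (Set.mem_range_self i)⟩

end BI
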