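import Pool.Agent.Helper18.BI.BookA
import Pool.Agent.Helper18.BI.OmL

/-!
# BI-35 The index set of the iteration

TO PROVE (in place).  Let `W = (ℵ_ 2).ord.ToType` (or `(Ordinal.omega 2).ToType`), `Λ = (2 ^ ℵ_ 1).ord.ToType`, and
`J = WithTop (W ×ₗ Λ)` (lexicographic product with a largest element added); it is a well-order
(instances for `Prod.Lex` and `WithTop`; use `Classical` instances where necessary).
* `#J ≤ 2 ^ ℵ_ 1`: `#W = ℵ_ 2 ≤ 2 ^ ℵ_ 1` because `ℵ_ 1 < 2 ^ ℵ_ 1` (Cantor) and `ℵ_ 2 = succ (ℵ_ 1)`.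
* `W` has no largest element, and every function `g : Om → W` is bounded: `∃ w, ∀ a, g a < w`, because `ℵ_ 2` is a regular
  cardinal and `#Om = ℵ_ 1 < ℵ_ 2` (`Cardinal.isRegular_aleph_succ` / `isRegular_succ`; `Ordinal.cof`-lemmas such as
  `Ordinal.iSup_lt_ord`, or a direct cardinality argument: if `g` were unbounded then `W = ⋃ a, Set.Iic (g a)` would have
  cardinality at most `ℵ_ 1 * ℵ_ 1`, since every `Set.Iic w` has cardinality `≤ ℵ_ 1`).
* first three properties: `⊤` is not the minimum; for `j = ↑(a, x)` take `k = ↑(a', x)` with `a < a'`; for `f : Om → J` with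
  `f a < ⊤` write `f a = ↑(g a, h a)`, `w > g a` for all `a`, `i = ↑(w, x0)`.
* the function `b`: `Λ` surjects onto `X` (`exists_surj`), `par : Λ → X`; `b ↑(a, x) = par x`, `b ⊤` arbitrary.  For `x`
  and `i = ↑(a, x)` take `a' > a` and `y` with `par y = x`, `j = ↑(a', y)`.
-/

set_option autoImplicit false

open Cardinal

namespace BI

theorem exists_index : ∃ (J : Type) (_ : LinearOrder J) (_ : WellFoundedLT J) (_ : OrderTop J),
    #J ≤ 2 ^ (ℵ_ 1 : Cardinal.{0}) ∧ (∃ j : J, j < ⊤) ∧ (∀ j : J, j < ⊤ → ∃ k : J, j < k ∧ k < ⊤) ∧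
    (∀ f : Om → J, (∀ a, f a < ⊤) → ∃ i : J, i < ⊤ ∧ ∀ a, f a < i) ∧
    ∀ X : Type, #X ≤ 2 ^ (ℵ_ 1 : Cardinal.{0}) → Nonempty X →
      ∃ b : J → X, ∀ (x : X) (i : J), i < ⊤ → ∃ j : J, i ≤ j ∧ j < ⊤ ∧ b j = x := by
  classical
  set W : Type := (ℵ_ 2 : Cardinal.{0}).ord.ToType with hW
  set L : Type := (2 ^ ℵ_ 1 : Cardinal.{0}).ord.ToType with hL
  have hWc : #W = ℵ_ 2 := Cardinal.mk_ord_toType _
  have hLc : #L = 2 ^ (ℵ_ 1 : Cardinal.{0}) := Cardinal.mk_ord_toType _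
  have h12 : (ℵ_ 1 : Cardinal.{0}) < ℵ_ 2 := Cardinal.aleph_lt_aleph.2 (by norm_num)
  have hsucc : (ℵ_ 2 : Cardinal.{0}) = Order.succ (ℵ_ 1) := by
    rw [Cardinal.succ_aleph, one_add_one_eq_two]
  have hle : (ℵ_ 2 : Cardinal.{0}) ≤ 2 ^ (ℵ_ 1 : Cardinal.{0}) := by
    rw [hsucc]
    exact Order.succ_le_of_lt (Cardinal.cantor _)
  have h0 : ℵ₀ ≤ (2 : Cardinal.{0}) ^ (ℵ_ 1 : Cardinal.{0}) :=
    (Cardinal.aleph0_le_aleph 2).trans hle
  have hLne : Nonempty L := by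
    rw [← Cardinal.mk_ne_zero_iff, hLc]
    exact (lt_of_lt_of_le Cardinal.aleph0_pos h0).ne'
  have hWne : Nonempty W := by
    rw [← Cardinal.mk_ne_zero_iff, hWc]
    exact (Cardinal.aleph_pos 2).ne'
  -- boundedness
  have hIic : ∀ w : W, #(Set.Iic w) ≤ ℵ_ 1 := by
    intro w
    have h1 : #(Set.Iio w) < ℵ_ 2 := by
      have := Cardinal.mk_Iio_toType_ord_lt (c := ℵ_ 2) w
      exact this
    have h2 : Set.Iic w = insert w (Set.Iio w) := by
      ext x
      simp [le_iff_eq_or_lt]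
    rw [h2]
    refine (Cardinal.mk_insert_le).trans ?_
    have h3 : #(Set.Iio w) ≤ ℵ_ 1 := by
      exact Order.lt_succ_iff.1 (lt_of_lt_of_eq h1 hsucc)
    exact Cardinal.add_le_of_le (Cardinal.aleph0_le_aleph 1) h3
      ((Cardinal.one_le_aleph0).trans (Cardinal.aleph0_le_aleph 1))
  have hbd : ∀ g : Om → W, ∃ w, ∀ a, g a < w := by
    intro g
    by_contra hcon
    push Not at hcon
    have h1 : (Set.univ : Set W) ⊆ ⋃ a, Set.Iic (g a) := by
      intro w _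
      obtain ⟨a, ha⟩ := hcon w
      exact Set.mem_iUnion.2 ⟨a, ha⟩
    have h2 : #W ≤ ℵ_ 1 := by
      rw [← Cardinal.mk_univ]
      refine (Cardinal.mk_le_mk_of_subset h1).trans ?_
      refine (Cardinal.mk_iUnion_le _).trans ?_
      have h3 : #Om = ℵ_ 1 := om_mk
      rw [h3]
      refine Cardinal.mul_le_of_le ?_ le_rfl ?_
      · exact Cardinal.aleph0_le_aleph 1
      · exact ciSup_le' fun a => hIic (g a)
    rw [hWc] at h2
    exact absurd h2 (not_le.2 h12)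
  have hgt : ∀ w : W, ∃ w', w < w' := by
    intro w
    obtain ⟨w', hw'⟩ := hbd fun _ => w
    exact ⟨w', hw' (Classical.choice om_nonempty)⟩
  refine ⟨WithTop (W ×ₗ L), inferInstance, inferInstance, inferInstance, ?_, ?_, ?_, ?_, ?_⟩
  · have h1 : #(WithTop (W ×ₗ L)) = #(W × L) + 1 := Cardinal.mk_option
    rw [h1, Cardinal.mk_prod, Cardinal.lift_id, Cardinal.lift_id, hWc, hLc]
    refine Cardinal.add_le_of_le h0 ?_ (Cardinal.one_le_aleph0.trans h0)
    exact Cardinal.mul_le_of_le h0 hle le_rfl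
  · exact ⟨((toLex (Classical.choice hWne, Classical.choice hLne) : W ×ₗ L) : WithTop (W ×ₗ L)),
      WithTop.coe_lt_top _⟩
  · intro j hj
    lift j to W ×ₗ L using hj.ne
    obtain ⟨w', hw'⟩ := hgt (ofLex j).1
    refine ⟨((toLex (w', (ofLex j).2) : W ×ₗ L) : WithTop (W ×ₗ L)), ?_, WithTop.coe_lt_top _⟩
    rw [WithTop.coe_lt_coe, Prod.Lex.lt_iff]
    exact Or.inl hw'
  · intro f hf
    have h1 : ∀ a, ∃ g : W ×ₗ L, f a = (g : WithTop (W ×ₗ L)) := by
      intro a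
      exact ⟨(f a).untop (hf a).ne, (WithTop.coe_untop _ _).symm⟩
    choose g hg using h1
    obtain ⟨w, hw⟩ := hbd fun a => (ofLex (g a)).1
    refine ⟨((toLex (w, Classical.choice hLne) : W ×ₗ L) : WithTop (W ×ₗ L)), WithTop.coe_lt_top _,
      fun a => ?_⟩
    rw [hg a, WithTop.coe_lt_coe, Prod.Lex.lt_iff]
    exact Or.inl (hw a)
  · intro X hX hXn
    obtain ⟨par, hpar⟩ : ∃ par : L → X, Function.Surjective par := by
      rw [← hLc] at hX
      obtain ⟨e⟩ := hX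
      exact ⟨Function.invFun e, Function.invFun_surjective e.injective⟩
    refine ⟨fun j => if h : j ≠ ⊤ then par (ofLex (j.untop h)).2 else Classical.choice hXn, ?_⟩
    intro x i hi
    lift i to W ×ₗ L using hi.ne
    obtain ⟨w', hw'⟩ := hgt (ofLex i).1
    obtain ⟨y, hy⟩ := hpar x
    refine ⟨((toLex (w', y) : W ×ₗ L) : WithTop (W ×ₗ L)), ?_, WithTop.coe_lt_top _, ?_⟩
    · rw [WithTop.coe_le_coe]
      refine le_of_lt ?_
      rw [Prod.Lex.lt_iff]
      exact Or.inl hw'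
    · beta_reduce
      rw [dif_pos (WithTop.coe_ne_top)]
      rw [WithTop.untop_coe]
      exact hy

end BI
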