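import Pool.Agent.Helper18.BI.BookB

/-!
# BI-36 Existence of codes and of the bookkeeping function

TO PROVE (in place).  Let `J` be given by `exists_index`, `Cd = Om → Bool`, of cardinality `2 ^ ℵ_ 1`
(`mk_om`, `Cardinal.mk_arrow`).  Let `E = Ent Cd`, `F = P0 × List (J × E)` and
`toCon : F → Con P0 J E`, `toCon (p, l) = ⟨p, fun j => (l.find? (fun x => x.1 = j)).map Prod.snd⟩` (with classical
decidability).  Every `x : Con P0 J E` with finite support is in the range of `toCon`: take the list of all pairs
`(j, e)` with `x.ent j = some e`, `j` in the support (`Finset.toList` of the support, mapped; each `j` occurs only once).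
By `mk_ent`, `mk_seq`, `exists_surj` there is a surjection `g : Cd → (ℕ → Option (F × Val))`; put
`dec c k = (g c k).map (fun y => (toCon y.1, y.2))`.  `code`: for `s` with finite supports choose for every `k` a preimage of `s k`
(an option of an element of `F × Val`), and use that `g` is onto; conclude by `funext`.
By `mk_par` and the last property of `exists_index`, with
`X = ((Om → ℕ → Cd) × (Om → Cd)) ⊕ (F × (Om → Om → Cd))`, there is `b0 : J → X`; put
`b j = match b0 j with | .inl (r, A) => .qs r A | .inr (x, R) => .tr (toCon x) R`.  The properties `qs` and `tr` of `Book` follow.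
-/

set_option autoImplicit false

open Cardinal

namespace BI

/-- conditions from finite lists -/
noncomputable def toCon {P0 J E : Type} (y : P0 × List (J × E)) : Con P0 J E := by
  classical
  exact ⟨y.1, fun j => (y.2.find? (fun x => decide (x.1 = j))).map Prod.snd⟩

theorem exists_toCon {P0 J E : Type} (x : Con P0 J E) (hx : {j | x.ent j ≠ none}.Finite) :
    ∃ y : P0 × List (J × E), toCon y = x := by
  classical
  have key : ∀ (l0 : List J) (j : J),
      ((l0.filterMap (fun j => (x.ent j).map (fun e => (j, e)))).find?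
        (fun z => decide (z.1 = j))).map Prod.snd = if j ∈ l0 then x.ent j else none := by
    intro l0
    induction l0 with
    | nil => intro j; simp
    | cons k l0 ih =>
      intro j
      rcases hk : x.ent k with _ | e
      · rw [List.filterMap_cons_none (by simp [hk]), ih j]
        by_cases hjk : j = k
        · subst hjk
          simp [hk]
        · simp [hjk]
      · rw [List.filterMap_cons_some (b := (k, e)) (by simp [hk]), List.find?_cons]
        by_cases hjk : k = j
        · subst hjk
          simp [hk]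
        · have h1 : ¬ j = k := fun h => hjk h.symm
          simp only [decide_eq_false hjk, ih j, List.mem_cons, h1, false_or]
  refine ⟨(x.base, hx.toFinset.toList.filterMap (fun j => (x.ent j).map (fun e => (j, e)))), ?_⟩
  apply Con.ext
  · rfl
  · funext j
    refine (key hx.toFinset.toList j).trans ?_
    by_cases hj : x.ent j = none
    · simp [hj]
    · simp [hj]

theorem exists_book (P0 : Type) (h0 : #P0 ≤ 2 ^ (ℵ_ 1 : Cardinal.{0})) (hne : Nonempty P0) :
    ∃ (J : Type) (_ : LinearOrder J) (_ : WellFoundedLT J) (_ : OrderTop J) (Cd : Type)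
      (dec : Cd → ℕ → Option (Con P0 J (Ent Cd) × Val)) (b : J → Par P0 J Cd), Book dec b := by
  classical
  obtain ⟨J, iLO, iWF, iOT, hJ, hneJ, hlim, hcof, hbk⟩ := exists_index
  have hCd : #(Om → Bool) = 2 ^ (ℵ_ 1 : Cardinal.{0}) := by
    rw [← Cardinal.power_def, mk_om, Cardinal.mk_bool]
  have hE : #(Ent (Om → Bool)) ≤ 2 ^ (ℵ_ 1 : Cardinal.{0}) := mk_ent _ hCd.le
  obtain ⟨g, hg⟩ := exists_surj (α := Om → Bool)
    (β := ℕ → Option ((P0 × List (J × Ent (Om → Bool))) × Val))
    (by rw [hCd]; exact mk_seq P0 J _ h0 hJ hE) ⟨fun _ => none⟩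
  obtain ⟨b0, hb0⟩ := hbk (((Om → ℕ → (Om → Bool)) × (Om → (Om → Bool))) ⊕
      ((P0 × List (J × Ent (Om → Bool))) × (Om → Om → (Om → Bool))))
    (mk_par P0 J _ _ h0 hJ hE hCd.le) ⟨Sum.inl (fun _ _ _ => false, fun _ _ => false)⟩
  refine ⟨J, iLO, iWF, iOT, Om → Bool,
    fun c k => (g c k).map (fun y => (toCon y.1, y.2)),
    fun j => match b0 j with
      | .inl y => .qs y.1 y.2
      | .inr y => .tr (toCon y.1) y.2, ?_⟩
  refine ⟨?_, hneJ, hlim, hcof, ?_, ?_⟩
  · intro s hs
    have h1 : ∀ k, ∃ o : Option ((P0 × List (J × Ent (Om → Bool))) × Val),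
        o.map (fun y => (toCon y.1, y.2)) = s k := by
      intro k
      rcases hk : s k with _ | ⟨x, v⟩
      · exact ⟨none, rfl⟩
      · obtain ⟨y, hy⟩ := exists_toCon x (hs k x v hk)
        exact ⟨some (y, v), by simp [hy]⟩
    choose s' hs' using h1
    obtain ⟨c, hc⟩ := hg s'
    refine ⟨c, ?_⟩
    funext k
    rw [hc]
    exact hs' k
  · intro r A i hi
    obtain ⟨j, h1, h2, h3⟩ := hb0 (Sum.inl (r, A)) i hi
    refine ⟨j, h1, h2, ?_⟩
    simp only [h3]
  · intro p R i hp hi
    obtain ⟨y, hy⟩ := exists_toCon p hp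
    obtain ⟨j, h1, h2, h3⟩ := hb0 (Sum.inr (y, R)) i hi
    refine ⟨j, h1, h2, ?_⟩
    simp only [h3, hy]

end BI
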