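import Pool.Agent.Helper18.BI.AxS
import Pool.Agent.Helper18.BI.OmL

/-!
# BI-32 Codes for names

TO PROVE (in place).

`max_antichain`: in a forcing notion with the countable chain condition, for every set `W` of conditions there is a
countable set `𝒜 ⊆ W` of pairwise incompatible conditions such that every condition in `W` is compatible with an element
of `𝒜` (Zorn: `zorn_subset` for the antichains contained in `W`; if `w ∈ W` were incompatible with all elements of a maximal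
`𝒜`, then `insert w 𝒜` would be a bigger antichain; `w ∉ 𝒜` since `w` is compatible with itself).

`mix_nmc`: given `p`, `Θ`, let `W = {a | a ≤ p ∧ ∃ v, Θ a v}`, `𝒜` from `max_antichain`, and choose `val a` with
`Θ a (val a)` for `a ∈ 𝒜`.  Let `s : ℕ → Option (Con × Val)` enumerate the pairs `(a.1, val a)`, `a ∈ 𝒜` (the set of these
pairs is countable; use `Set.Countable` and `Option`: there is `s` such that `s k = some x` for some `k` iff `x` is such a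
pair; `Set.Countable.exists_eq_range` after adding `none`).  All `a.1` have finite support, so `hcode` gives `c` with
`dec c = s`.  Then `nmc c q v` iff there is `a ∈ 𝒜` with `q ≤ a`, `v = val a`.  Hence `nmc c q v → Θ q v` by monotonicity;
uniqueness: `q ≤ a`, `q ≤ a'` implies `a = a'`; density: for `q ≤ p` take `q1 ≤ q` with `∃ v, Θ q1 v`; `q1 ∈ W` is
compatible with some `a ∈ 𝒜`.

`code_of`: let `U` be a regular statement on `S.P ⊤`.  Let `W = {a | U a}`, `𝒜` from `max_antichain`.  The set of all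
`j` with `∃ a ∈ 𝒜, a.1.ent j ≠ none` is a countable set of elements `< ⊤`; by `hB.cof` (enumerate the countable set by
`Om`; it may be empty, then use `hB.ne`; `Om` surjects onto every nonempty countable set, compose `om_surj_nat` with an
enumeration) there is `i < ⊤` bigger than all of them.  So `IsC S.V j a.1` for all `j ≥ i`, `a ∈ 𝒜` (`a.2` and the bound).
Let `c` code an enumeration of the pairs `(a.1, (∅, 0))`, `a ∈ 𝒜`.  For `j ≥ i` and `q : S.P j`: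
`tv j c q ↔ ∀ q' ≤ q, ∃ q'' ≤ q', ∃ a ∈ 𝒜, q'' ≤ a_j`, where `a_j : S.P j` is `S.rs ⊤ j a`, and `S.rs j ⊤ a_j = a`.
 (→) Suppose `tv j c q`; we show `U (S.rs j ⊤ q)` by regularity.  Let `w ≤ S.rs j ⊤ q`; `S.rs ⊤ j w ≤ q`
 (`le_rs_iff`), so there are `q'' ≤ S.rs ⊤ j w` and `a ∈ 𝒜` with `q'' ≤ a_j`; `S.amalgam` gives `r ≤ w` with
 `r ≤ S.rs j ⊤ q'' ≤ a`, so `U r`.
 (←) Suppose `U (S.rs j ⊤ q)`, `q' ≤ q`; then `U (S.rs j ⊤ q')`, so `S.rs j ⊤ q'` is compatible with some `a ∈ 𝒜`: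
 `w ≤ S.rs j ⊤ q'`, `w ≤ a`; take `q'' = S.rs ⊤ j w ≤ q'`, `≤ a_j`.
Second statement: `U q ↔ U (S.rs j ⊤ (S.rs ⊤ j q))`: (←) `q ≤ S.rs j ⊤ (S.rs ⊤ j q)` (`le_rs`).  (→) by the first
statement it suffices to show `tv j c (S.rs ⊤ j q)`: for `q' ≤ S.rs ⊤ j q` take `r ≤ q` with `r ≤ S.rs j ⊤ q'`
(`amalgam`); `U r`, so `r` is compatible with some `a ∈ 𝒜`; `w ≤ r`, `w ≤ a`; `q'' = S.rs ⊤ j w`.
-/

set_option autoImplicit false

namespace BI

theorem max_antichain {P : Type} [Preorder P] (hP : CCC P) (W : Set P) :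
    ∃ 𝒜 ⊆ W, 𝒜.Countable ∧ (∀ a ∈ 𝒜, ∀ b ∈ 𝒜, a ≠ b → ¬ Cmp a b) ∧ ∀ w ∈ W, ∃ a ∈ 𝒜, Cmp w a := by
  obtain ⟨A, hA⟩ := zorn_subset {A : Set P | A ⊆ W ∧ ∀ a ∈ A, ∀ b ∈ A, a ≠ b → ¬ Cmp a b} (by
    intro c hc hchain
    refine ⟨⋃₀ c, ⟨?_, ?_⟩, fun s hs => Set.subset_sUnion_of_mem hs⟩
    · exact Set.sUnion_subset fun s hs => (hc hs).1
    · rintro a ⟨s, hs, has⟩ b ⟨t, ht, hbt⟩ hab
      rcases hchain.total hs ht with hst | hst
      · exact (hc ht).2 a (hst has) b hbt hab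
      · exact (hc hs).2 a has b (hst hbt) hab)
  obtain ⟨⟨hAW, hanti⟩, hmax⟩ := hA
  refine ⟨A, hAW, hP A hanti, hanti, fun r hr => ?_⟩
  by_contra hcon
  push Not at hcon
  have h1 : insert r A ⊆ A := by
    refine hmax ⟨Set.insert_subset hr hAW, ?_⟩ (Set.subset_insert _ _)
    rintro a (rfl | ha) b (rfl | hb) hab hc
    · exact hab rfl
    · exact hcon b hb hc
    · obtain ⟨c, h1, h2⟩ := hc
      exact hcon a ha ⟨c, h2, h1⟩
    · exact hanti a ha b hb hab hc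
  exact hcon r (h1 (Set.mem_insert _ _)) ⟨r, le_refl r, le_refl r⟩

theorem exists_enum {X : Type} {Z : Set X} (hZ : Z.Countable) :
    ∃ s : ℕ → Option X, (∀ k x, s k = some x → x ∈ Z) ∧ ∀ x ∈ Z, ∃ k, s k = some x := by
  rcases Set.eq_empty_or_nonempty Z with h | h
  · refine ⟨fun _ => none, fun k x hk => by simp at hk, fun x hx => ?_⟩
    rw [h] at hx
    exact absurd hx (Set.notMem_empty x)
  · obtain ⟨f, hf⟩ := hZ.exists_eq_range h
    refine ⟨fun k => some (f k), fun k x hk => ?_, fun x hx => ?_⟩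
    · rw [hf]
      exact ⟨k, by simpa using hk⟩
    · rw [hf] at hx
      obtain ⟨k, rfl⟩ := hx
      exact ⟨k, rfl⟩

theorem mix_nmc {P0 J Cd : Type} [Preorder P0] [LinearOrder J]
    (dec : Cd → ℕ → Option (Con P0 J (Ent Cd) × Val)) (S : FSys P0 J (Ent Cd))
    (hcode : ∀ s : ℕ → Option (Con P0 J (Ent Cd) × Val),
      (∀ k x v, s k = some (x, v) → {j | x.ent j ≠ none}.Finite) → ∃ c, dec c = s)
    (i : J) (hP : CCC (S.P i)) : Mix (nmc dec S.V S.L i) := by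
  classical
  intro p Θ hmono hdense
  obtain ⟨𝒜, hAW, hAc, hAanti, hAm⟩ := max_antichain hP {a | a ≤ p ∧ ∃ v, Θ a v}
  have hval : ∀ a : S.P i, ∃ v : Val, a ∈ 𝒜 → Θ a v := by
    intro a
    by_cases ha : a ∈ 𝒜
    · obtain ⟨v, hv⟩ := (hAW ha).2
      exact ⟨v, fun _ => hv⟩
    · exact ⟨(∅, 0), fun h => absurd h ha⟩
  choose val hval using hval
  obtain ⟨s, hs1, hs2⟩ := exists_enum (hAc.image (fun a : S.P i => (a.1, val a)))
  obtain ⟨c, hc⟩ := hcode s (by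
    intro k x v hk
    obtain ⟨a, ha, hax⟩ := hs1 k _ hk
    have h1 : a.1 = x := congrArg Prod.fst hax
    rw [← h1]
    exact a.2.1)
  have hnmc : ∀ q v, nmc dec S.V S.L i c q v ↔ ∃ a ∈ 𝒜, q ≤ a ∧ val a = v := by
    intro q v
    constructor
    · rintro ⟨k, x, hk, hx, hq⟩
      rw [hc] at hk
      obtain ⟨a, ha, hax⟩ := hs1 k _ hk
      have h1 : a.1 = x := congrArg Prod.fst hax
      have h2 : val a = v := congrArg Prod.snd hax
      refine ⟨a, ha, ?_, h2⟩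
      have h3 : a = (⟨x, hx⟩ : S.P i) := Subtype.ext h1
      rw [h3]
      exact hq
    · rintro ⟨a, ha, hqa, rfl⟩
      obtain ⟨k, hk⟩ := hs2 (a.1, val a) ⟨a, ha, rfl⟩
      exact ⟨k, a.1, by rw [hc]; exact hk, a.2, hqa⟩
  refine ⟨c, ?_, ?_, ?_⟩
  · intro q hq
    obtain ⟨q1, hq1, v, hv⟩ := hdense q hq
    obtain ⟨a, ha, w, hw1, hw2⟩ := hAm q1 ⟨hq1.trans hq, v, hv⟩
    exact ⟨w, hw1.trans hq1, val a, (hnmc w _).2 ⟨a, ha, hw2, rfl⟩⟩
  · intro q _ v w hv hw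
    obtain ⟨a, ha, hqa, rfl⟩ := (hnmc q v).1 hv
    obtain ⟨a', ha', hqa', rfl⟩ := (hnmc q w).1 hw
    by_cases h : a = a'
    · rw [h]
    · exact absurd ⟨q, hqa, hqa'⟩ (hAanti a ha a' ha' h)
  · intro q _ v hv
    obtain ⟨a, ha, hqa, rfl⟩ := (hnmc q v).1 hv
    exact hmono a q _ hqa (hval a ha)

theorem code_of {P0 J Cd : Type} [Preorder P0] [LinearOrder J] [WellFoundedLT J] [OrderTop J]
    (dec : Cd → ℕ → Option (Con P0 J (Ent Cd) × Val)) (b : J → Par P0 J Cd) (hB : Book dec b)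
    (S : FSys P0 J (Ent Cd)) (hP : CCC (S.P ⊤)) (U : S.P ⊤ → Prop) (hU : Reg U) :
    ∃ (c : Cd) (i : J), i < ⊤ ∧ ∀ j, i ≤ j → (∀ q : S.P j, tv dec S.V S.L j c q ↔ U (S.rs j ⊤ q)) ∧
      ∀ q : S.P ⊤, U q ↔ U (S.rs j ⊤ (S.rs ⊤ j q)) := by
  classical
  obtain ⟨𝒜, hAW, hAc, hAanti, hAm⟩ := max_antichain hP {a | U a}
  have hsup : {j | ∃ a ∈ 𝒜, a.1.ent j ≠ none}.Countable := by
    have h1 : {j | ∃ a ∈ 𝒜, a.1.ent j ≠ none} = ⋃ a ∈ 𝒜, {j | a.1.ent j ≠ none} := by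
      ext j
      simp
    rw [h1]
    exact hAc.biUnion fun a _ => a.2.1.countable
  have hlt : ∀ j ∈ {j | ∃ a ∈ 𝒜, a.1.ent j ≠ none}, j < ⊤ := by
    rintro j ⟨a, ha, hj⟩
    obtain ⟨e, he⟩ := Option.ne_none_iff_exists'.1 hj
    exact (a.2.2 j e he).1
  obtain ⟨i, hi, hbd⟩ : ∃ i : J, i < ⊤ ∧ ∀ j ∈ {j | ∃ a ∈ 𝒜, a.1.ent j ≠ none}, j < i := by
    rcases Set.eq_empty_or_nonempty {j | ∃ a ∈ 𝒜, a.1.ent j ≠ none} with h | h
    · obtain ⟨j, hj⟩ := hB.ne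
      refine ⟨j, hj, fun k hk => ?_⟩
      rw [h] at hk
      exact absurd hk (Set.notMem_empty k)
    · obtain ⟨f, hf⟩ := hsup.exists_eq_range h
      obtain ⟨g, hg⟩ := om_surj_nat
      obtain ⟨i, hi, hb⟩ := hB.cof (fun a => f (g a).2) (fun a => hlt _ (by
        rw [hf]
        exact ⟨_, rfl⟩))
      refine ⟨i, hi, fun j hj => ?_⟩
      rw [hf] at hj
      obtain ⟨n, rfl⟩ := hj
      obtain ⟨x0⟩ := om_nonempty
      obtain ⟨a, ha⟩ := hg (x0, n)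
      have h1 := hb a
      simp only [ha] at h1
      exact h1
  obtain ⟨s, hs1, hs2⟩ := exists_enum (hAc.image (fun a : S.P ⊤ => (a.1, ((∅, 0) : Val))))
  obtain ⟨c, hc⟩ := hB.code s (by
    intro k x v hk
    obtain ⟨a, ha, hax⟩ := hs1 k _ hk
    have h1 : a.1 = x := congrArg Prod.fst hax
    rw [← h1]
    exact a.2.1)
  have hnone : ∀ a ∈ 𝒜, ∀ k, i ≤ k → a.1.ent k = none := by
    intro a ha k hk
    by_contra h
    exact absurd (hbd k ⟨a, ha, h⟩) (not_lt.2 hk)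
  have hres : ∀ a ∈ 𝒜, ∀ j, i ≤ j → a.1.res j = a.1 := by
    intro a ha j hj
    apply Con.ext
    · rfl
    · funext k
      by_cases hk : k < j
      · exact Con.ent_res_of_lt _ hk
      · have h1 := hnone a ha k (hj.trans (not_lt.1 hk))
        rw [h1]
        simp [Con.res, hk]
  have hback : ∀ a ∈ 𝒜, ∀ j, i ≤ j → S.rs j ⊤ (S.rs ⊤ j a) = a := by
    intro a ha j hj
    apply Subtype.ext
    rw [S.rs_incl le_top]
    exact hres a ha j hj
  refine ⟨c, i, hi, fun j hj => ?_⟩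
  have htv : ∀ q : S.P j, tv dec S.V S.L j c q ↔
      ∀ q', q' ≤ q → ∃ q'', q'' ≤ q' ∧ ∃ a ∈ 𝒜, q'' ≤ S.rs ⊤ j a := by
    intro q
    constructor
    · intro h q' hq'
      obtain ⟨q'', h1, k, x, v, hk, hx, h2⟩ := h q' hq'
      rw [hc] at hk
      obtain ⟨a, ha, hax⟩ := hs1 k _ hk
      have h3 : a.1 = x := congrArg Prod.fst hax
      refine ⟨q'', h1, a, ha, ?_⟩
      have h4 : S.rs ⊤ j a = (⟨x, hx⟩ : S.P j) := Subtype.ext ((hres a ha j hj).trans h3)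
      rw [h4]
      exact h2
    · intro h q' hq'
      obtain ⟨q'', h1, a, ha, h2⟩ := h q' hq'
      obtain ⟨k, hk⟩ := hs2 (a.1, ((∅, 0) : Val)) ⟨a, ha, rfl⟩
      have h3 : (S.rs ⊤ j a).1 = a.1 := hres a ha j hj
      have h5 : IsC S.V j a.1 := h3 ▸ (S.rs ⊤ j a).2
      refine ⟨q'', h1, k, a.1, (∅, 0), by rw [hc]; exact hk, h5, ?_⟩
      have h4 : S.rs ⊤ j a = (⟨a.1, h5⟩ : S.P j) := Subtype.ext h3
      rw [← h4]
      exact h2
  have hfirst : ∀ q : S.P j, tv dec S.V S.L j c q ↔ U (S.rs j ⊤ q) := by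
    intro q
    rw [htv]
    constructor
    · intro h
      refine (hU _).2 fun w hw => ?_
      have hw' : S.rs ⊤ j w ≤ q := (S.le_rs_iff le_top).1 hw
      obtain ⟨q'', h1, a, ha, h2⟩ := h _ hw'
      obtain ⟨r, hr1, hr2, _⟩ := S.amalgam le_top w q'' h1
      refine ⟨r, hr1, ?_⟩
      have h3 : r ≤ a := by
        refine hr2.trans ?_
        rw [← hback a ha j hj]
        exact S.rs_mono j ⊤ h2
      exact hU.mono h3 (hAW ha)
    · intro h q' hq'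
      have h1 : U (S.rs j ⊤ q') := hU.mono (S.rs_mono j ⊤ hq') h
      obtain ⟨a, ha, w, hw1, hw2⟩ := hAm _ h1
      exact ⟨S.rs ⊤ j w, (S.le_rs_iff le_top).1 hw1, a, ha, S.rs_mono ⊤ j hw2⟩
  refine ⟨hfirst, fun q => ⟨fun hq => ?_, fun hq => hU.mono (S.le_rs le_top q) hq⟩⟩
  rw [← hfirst, htv]
  intro q' hq'
  obtain ⟨r, hr1, hr2, _⟩ := S.amalgam le_top q q' hq'
  obtain ⟨a, ha, w, hw1, hw2⟩ := hAm r (hU.mono hr1 hq)
  exact ⟨S.rs ⊤ j w, (S.le_rs_iff le_top).1 (hw1.trans hr2), a, ha, S.rs_mono ⊤ j hw2⟩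

end BI
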