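import Mathlib

/-!
# BI-02 Delta system lemma

TO PROVE (in place): an uncountable family of finite sets has an uncountable subfamily which is a
Delta system.

Proof.  We first prove by induction on `n`: for all `f : ι → Finset J`, `S` uncountable with
`(f x).card = n` for `x ∈ S` the conclusion holds.
* `n = 0`: all `f x` are empty, `T = S`, `ρ = ∅`.
* `n + 1`, case 1: there is `a : J` such that `S' = {x ∈ S | a ∈ f x}` is uncountable.  Apply the induction
  hypothesis to `fun x => (f x).erase a` and `S'`: get `T`, `ρ'`, and put `ρ = insert a ρ'`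
  (`f x = insert a ((f x).erase a)`; `Finset.insert_inter_distrib` or membership by cases).
* case 2: for every `a` the set `{x ∈ S | a ∈ f x}` is countable.  By Zorn (`zorn_subset`) there is a maximal
  `T ⊆ S` such that the sets `f x`, `x ∈ T`, are pairwise disjoint.  If `T` were countable, then
  `U = ⋃ x ∈ T, (f x : Set J)` would be countable, and the set of `y ∈ S` with `f y ∩ U ≠ ∅` would be a
  countable union of countable sets; hence some `y ∈ S` lies neither in this set nor in `T` (both
  countable), and `insert y T` contradicts the maximality of `T`.  So `T` is uncountable, `ρ = ∅`.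
For the theorem: `S = ⋃ n, {x ∈ S | (f x).card = n}`, so one of these sets is uncountable.
-/

set_option autoImplicit false

namespace BI

theorem delta_aux {ι J : Type} [DecidableEq J] (n : ℕ) : ∀ (f : ι → Finset J) (S : Set ι),
    ¬ S.Countable → (∀ x ∈ S, (f x).card = n) →
    ∃ T ⊆ S, ¬ T.Countable ∧ ∃ ρ : Finset J, ∀ x ∈ T, ∀ y ∈ T, x ≠ y → f x ∩ f y = ρ := by
  induction n with
  | zero =>
    intro f S hS hcard
    refine ⟨S, subset_rfl, hS, ∅, ?_⟩
    intro x hx y _ _
    have h1 : f x = ∅ := Finset.card_eq_zero.mp (hcard x hx)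
    rw [h1, Finset.empty_inter]
  | succ n ih =>
    intro f S hS hcard
    by_cases hc : ∃ a : J, ¬ {x ∈ S | a ∈ f x}.Countable
    · obtain ⟨a, ha⟩ := hc
      obtain ⟨T, hTS, hT, ρ, hρ⟩ := ih (fun x => (f x).erase a) {x ∈ S | a ∈ f x} ha (by
        intro x hx
        have h1 := hcard x hx.1
        show ((f x).erase a).card = n
        rw [Finset.card_erase_of_mem hx.2, h1]
        rfl)
      refine ⟨T, fun x hx => (hTS hx).1, hT, insert a ρ, ?_⟩
      intro x hx y hy hxy
      have hax : a ∈ f x := (hTS hx).2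
      have hay : a ∈ f y := (hTS hy).2
      have h := hρ x hx y hy hxy
      rw [← h]
      ext b
      simp only [Finset.mem_inter, Finset.mem_insert, Finset.mem_erase]
      constructor
      · rintro ⟨h1, h2⟩
        by_cases hb : b = a
        · exact Or.inl hb
        · exact Or.inr ⟨⟨hb, h1⟩, hb, h2⟩
      · rintro (h1 | ⟨⟨_, h1⟩, _, h2⟩)
        · subst h1
          exact ⟨hax, hay⟩
        · exact ⟨h1, h2⟩
    · push Not at hc
      obtain ⟨T, hT⟩ := zorn_subset
        {T : Set ι | T ⊆ S ∧ ∀ x ∈ T, ∀ y ∈ T, x ≠ y → f x ∩ f y = ∅} (by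
          intro c hcc hchain
          refine ⟨⋃₀ c, ⟨?_, ?_⟩, fun s hs => Set.subset_sUnion_of_mem hs⟩
          · exact Set.sUnion_subset fun s hs => (hcc hs).1
          · rintro x ⟨s, hs, hxs⟩ y ⟨t, ht, hyt⟩ hxy
            rcases hchain.total hs ht with h | h
            · exact (hcc ht).2 x (h hxs) y hyt hxy
            · exact (hcc hs).2 x hxs y (h hyt) hxy)
      have hTm := hT.prop
      refine ⟨T, hTm.1, ?_, ∅, hTm.2⟩
      intro hTc
      have hU : (⋃ x ∈ T, (f x : Set J)).Countable :=
        hTc.biUnion fun x _ => (f x).countable_toSet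
      have hW : (⋃ a ∈ (⋃ x ∈ T, (f x : Set J)), {x ∈ S | a ∈ f x}).Countable :=
        hU.biUnion fun a _ => hc a
      have hne : ¬ (S \ ((⋃ a ∈ (⋃ x ∈ T, (f x : Set J)), {x ∈ S | a ∈ f x}) ∪ T)).Countable := by
        intro h
        apply hS
        refine ((h.union (hW.union hTc)).mono ?_)
        intro x hx
        by_cases hx' : x ∈ (⋃ a ∈ (⋃ x ∈ T, (f x : Set J)), {x ∈ S | a ∈ f x}) ∪ T
        · exact Or.inr hx'
        · exact Or.inl ⟨hx, hx'⟩
      have hne' : (S \ ((⋃ a ∈ (⋃ x ∈ T, (f x : Set J)), {x ∈ S | a ∈ f x}) ∪ T)).Nonempty := by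
        by_contra h
        rw [Set.not_nonempty_iff_eq_empty] at h
        rw [h] at hne
        exact hne Set.countable_empty
      obtain ⟨y, hyS, hy⟩ := hne'
      have hyT : y ∉ T := fun h => hy (Or.inr h)
      have hdis : ∀ x ∈ T, ∀ b, b ∈ f x → b ∉ f y := by
        intro x hx b hbx hby
        apply hy
        left
        rw [Set.mem_iUnion₂]
        refine ⟨b, ?_, hyS, hby⟩
        rw [Set.mem_iUnion₂]
        exact ⟨x, hx, hbx⟩
      have hins : insert y T ∈ {T : Set ι | T ⊆ S ∧ ∀ x ∈ T, ∀ y ∈ T, x ≠ y → f x ∩ f y = ∅} := by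
        refine ⟨Set.insert_subset hyS hTm.1, ?_⟩
        intro x hx z hz hxz
        rcases Set.mem_insert_iff.mp hx with hxy | hx'
        · subst hxy
          rcases Set.mem_insert_iff.mp hz with rfl | hz
          · exact absurd rfl hxz
          · rw [Finset.eq_empty_iff_forall_notMem]
            intro b hb
            rw [Finset.mem_inter] at hb
            exact hdis z hz b hb.2 hb.1
        · rcases Set.mem_insert_iff.mp hz with hzy | hz'
          · subst hzy
            rw [Finset.eq_empty_iff_forall_notMem]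
            intro b hb
            rw [Finset.mem_inter] at hb
            exact hdis x hx' b hb.1 hb.2
          · exact hTm.2 x hx' z hz' hxz
      have := hT.le_of_ge hins (Set.subset_insert y T)
      exact hyT (this (Set.mem_insert y T))

theorem delta_system {ι J : Type} [DecidableEq J] (f : ι → Finset J) (S : Set ι) (hS : ¬ S.Countable) :
    ∃ T ⊆ S, ¬ T.Countable ∧ ∃ ρ : Finset J, ∀ x ∈ T, ∀ y ∈ T, x ≠ y → f x ∩ f y = ρ := by
  have h1 : ∃ n : ℕ, ¬ {x ∈ S | (f x).card = n}.Countable := by
    by_contra h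
    push Not at h
    apply hS
    refine (Set.countable_iUnion h).mono ?_
    intro x hx
    rw [Set.mem_iUnion]
    exact ⟨(f x).card, hx, rfl⟩
  obtain ⟨n, hn⟩ := h1
  obtain ⟨T, hTS, hT, hρ⟩ := delta_aux n f _ hn (fun x hx => hx.2)
  exact ⟨T, fun x hx => (hTS hx).1, hT, hρ⟩

end BI
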