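import Pool.Agent.Helper18.BI.CohDefs
import Pool.Agent.Helper18.BI.Delta

/-!
# BI-03 Cohen forcing has the countable chain condition

TO PROVE (in place): `coh_delta` and `coh_ccc`.

`coh_delta`: from an uncountable family of conditions one gets an uncountable subfamily of pairwise
compatible conditions, in the following strong form: there are a finite set `ρ` and `m` such that the domains
form a Delta system with root `ρ`, the conditions agree on `ρ`, and the domains have at most `m` elements.
Proof: apply `delta_system` to `f x := (c x).2.toFinset` (the domain, a `Finset (Om × Om)`, use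
`Classical.decEq`), to get `T1` and `ρ`.  The function `x ↦ fun y : ρ => (c x).1 y` takes values in the
finite (hence countable) type `ρ → Option Bool`, and the number of elements of the domain is a natural number; so
`T1` is a countable union of sets on which both are constant, and one of them is uncountable.

`coh_ccc`: let `S` be an antichain and suppose it is not countable.  Apply `coh_delta` with `ι = Coh`, `c = id`:
there are `x ≠ y` in `T` (an uncountable set has two different elements).  The union `z` (`z.1 w = x.1 w` if this is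
not `none`, otherwise `y.1 w`) is a condition (finite domain) with `z ≤ x`, and `z ≤ y`: if `y.1 w = some b` and
`x.1 w ≠ none` then `w` belongs to both domains, so `w ∈ ρ` and `x.1 w = y.1 w`.
-/

set_option autoImplicit false

namespace BI

theorem coh_delta {ι : Type} (c : ι → Coh) (S : Set ι) (hS : ¬ S.Countable) :
    ∃ T ⊆ S, ¬ T.Countable ∧ ∃ (ρ : Set (Om × Om)) (m : ℕ),
      (∀ x ∈ T, ∀ y ∈ T, x ≠ y → ∀ w, (c x).1 w ≠ none → (c y).1 w ≠ none → w ∈ ρ) ∧
      (∀ x ∈ T, ∀ y ∈ T, ∀ w ∈ ρ, (c x).1 w = (c y).1 w) ∧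
      (∀ x ∈ T, (c x).2.toFinset.card ≤ m) := by
  classical
  obtain ⟨T1, hT1S, hT1, ρ, hρ⟩ := delta_system (fun x => (c x).2.toFinset) S hS
  let g : ι → (ρ → Option Bool) × ℕ :=
    fun x => (fun w => (c x).1 w.1, (c x).2.toFinset.card)
  have hex : ∃ v, ¬ {x ∈ T1 | g x = v}.Countable := by
    by_contra hcon
    push Not at hcon
    apply hT1
    have h1 : (⋃ v, {x ∈ T1 | g x = v}).Countable := Set.countable_iUnion hcon
    refine h1.mono fun x hx => ?_
    exact Set.mem_iUnion.2 ⟨g x, hx, rfl⟩
  obtain ⟨v, hv⟩ := hex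
  refine ⟨{x ∈ T1 | g x = v}, fun x hx => hT1S hx.1, hv, (ρ : Set (Om × Om)), v.2, ?_, ?_, ?_⟩
  · intro x hx y hy hxy w hw1 hw2
    have h1 := hρ x hx.1 y hy.1 hxy
    have h2 : w ∈ (c x).2.toFinset ∩ (c y).2.toFinset := by
      rw [Finset.mem_inter, Set.Finite.mem_toFinset, Set.Finite.mem_toFinset]
      exact ⟨hw1, hw2⟩
    rw [h1] at h2
    exact h2
  · intro x hx y hy w hw
    have h1 : (g x).1 ⟨w, hw⟩ = (g y).1 ⟨w, hw⟩ := by rw [hx.2, hy.2]
    exact h1
  · intro x hx
    have h1 : (g x).2 = v.2 := by rw [hx.2]
    exact h1.le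

theorem coh_ccc : CCC Coh := by
  classical
  intro S hS
  by_contra hcon
  obtain ⟨T, hTS, hT, ρ, m, h1, h2, -⟩ := coh_delta (fun x : Coh => x) S hcon
  obtain ⟨x, hx, y, hy, hxy⟩ : T.Nontrivial := by
    by_contra hn
    exact hT (Set.not_nontrivial_iff.1 hn).countable
  apply hS x (hTS hx) y (hTS hy) hxy
  refine ⟨⟨fun w => if x.1 w ≠ none then x.1 w else y.1 w, ?_⟩, ?_, ?_⟩
  · refine (x.2.union y.2).subset fun w hw => ?_
    by_cases h : x.1 w ≠ none
    · exact Or.inl h
    · refine Or.inr ?_
      have h3 : (if x.1 w ≠ none then x.1 w else y.1 w) ≠ none := hw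
      rw [if_neg h] at h3
      exact h3
  · intro w b hb
    have h3 : x.1 w ≠ none := by rw [hb]; exact Option.some_ne_none b
    change (if x.1 w ≠ none then x.1 w else y.1 w) = some b
    rw [if_pos h3]
    exact hb
  · intro w b hb
    have h3 : y.1 w ≠ none := by rw [hb]; exact Option.some_ne_none b
    change (if x.1 w ≠ none then x.1 w else y.1 w) = some b
    by_cases h : x.1 w ≠ none
    · rw [if_pos h]
      have h4 := h2 x hx y hy w (h1 x hx y hy hxy w h h3)
      rw [← hb]
      exact h4
    · rw [if_neg h]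
      exact hb

end BI
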