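import Pool.Agent.Helper18.BI.CohA

/-!
# BI-04 names in the Cohen extension and the generic rows

TO PROVE (in place): for a `Coh`-name `E` for a subset of `Om` and `b : Bool` there are only countably many `δ`
such that some condition `p` forces: `E` is infinite and `c(δ, e) = b` for all `e ∈ E`, where `c` is the generic
function.

Proof.  Suppose not; for `δ` in the uncountable set `S` choose `p δ` with `InfB E (p δ)` and
`SubB E (fun e q => q.1 (δ, e) = some b) (p δ)`.  Apply `coh_delta` to `p` and `S`: `T`, `ρ`, `m`.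
Choose `δ0 ∈ T`.  By `InfB E (p δ0)`, applied `m + 1` times (successively extending the condition, with `F` the
elements found so far, and using `Mon E`), there are `r ≤ p δ0` and a finset `G` with `G.card = m + 1` and
`E e r` for all `e ∈ G` (prove `∀ k, ∃ r ≤ p δ0, ∃ G : Finset Om, G.card = k ∧ ∀ e ∈ G, E e r` by induction on `k`).
The domain of `r` is finite.  For all but finitely many `δ ∈ T`:
 (a) the domain of `p δ` meets the domain of `r` only in `ρ`: each `w ∈ dom r` with `w ∉ ρ` belongs to `dom (p δ)`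
     for at most one `δ ∈ T` (two different `δ` would give `w ∈ ρ`);
 (b) no `(δ, e)` belongs to the domain of `r` (finitely many first coordinates);
 (c) `δ ≠ δ0`.
Since `T` is uncountable, hence infinite, there is `δ ∈ T` with (a), (b), (c).  Since `dom (p δ)` has at most `m`
elements and `G` has `m + 1` elements, there is `e ∈ G` with `(p δ).1 (δ, e) = none`.  Let `z` be the condition
with `z.1 (δ, e) = some (!b)`, and for `w ≠ (δ, e)`: `z.1 w = r.1 w` if this is not `none`, otherwise
`(p δ).1 w`.  It is a condition (finite domain).  `z ≤ r`: if `r.1 w = some b'` then `w ≠ (δ, e)` by (b).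
`z ≤ p δ`: let `(p δ).1 w = some b'`; `w ≠ (δ, e)`; if `r.1 w ≠ none` then `w ∈ ρ` by (a), hence
`(p δ0).1 w = (p δ).1 w = some b'`, and `r ≤ p δ0` gives `r.1 w = some b'`.
Now `E e z` by `Mon E`, so `SubB` at `p δ` gives `s ≤ z` with `s.1 (δ, e) = some b`; but
`s.1 (δ, e) = some (!b)` because `s ≤ z`.  Contradiction.
-/

set_option autoImplicit false

namespace BI

theorem coh_lemma (E : Om → Coh → Prop) (hE : Mon E) (b : Bool) :
    {δ : Om | ∃ p : Coh, InfB E p ∧ SubB E (fun e q => q.1 (δ, e) = some b) p}.Countable := by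
  classical
  by_contra hcon
  set S : Set Om := {δ : Om | ∃ p : Coh, InfB E p ∧ SubB E (fun e q => q.1 (δ, e) = some b) p}
    with hSdef
  have hne : Nonempty Coh := ⟨⟨fun _ => none, by simp⟩⟩
  have hch : ∀ δ : Om, ∃ p : Coh, δ ∈ S →
      InfB E p ∧ SubB E (fun e q => q.1 (δ, e) = some b) p := by
    intro δ
    by_cases hδ : δ ∈ S
    · obtain ⟨p, hp⟩ := hδ
      exact ⟨p, fun _ => hp⟩
    · exact ⟨Classical.choice hne, fun h => absurd h hδ⟩
  choose p hp using hch
  obtain ⟨T, hTS, hT, ρ, m, h1, h2, h3⟩ := coh_delta p S hcon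
  have hTinf : T.Infinite := fun h => hT h.countable
  obtain ⟨δ0, hδ0⟩ := hTinf.nonempty
  -- finding `m + 1` elements
  have hfind : ∀ k : ℕ, ∃ r : Coh, r ≤ p δ0 ∧ ∃ G : Finset Om, G.card = k ∧ ∀ e ∈ G, E e r := by
    intro k
    induction k with
    | zero => exact ⟨p δ0, le_refl _, ∅, rfl, by simp⟩
    | succ k ih =>
      obtain ⟨r, hr, G, hG, hGE⟩ := ih
      obtain ⟨r', hr', e, he, hEe⟩ := (hp δ0 (hTS hδ0)).1 G r hr
      refine ⟨r', hr'.trans hr, insert e G, ?_, ?_⟩
      · rw [Finset.card_insert_of_notMem he, hG]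
      · intro x hx
        rcases Finset.mem_insert.1 hx with rfl | hx
        · exact hEe
        · exact hE x r r' hr' (hGE x hx)
  obtain ⟨r, hr, G, hG, hGE⟩ := hfind (m + 1)
  -- bad indices
  have hbad1 : {δ ∈ T | ∃ w, r.1 w ≠ none ∧ w ∉ ρ ∧ (p δ).1 w ≠ none}.Finite := by
    have hsub : {δ ∈ T | ∃ w, r.1 w ≠ none ∧ w ∉ ρ ∧ (p δ).1 w ≠ none} ⊆
        ⋃ w ∈ {w | r.1 w ≠ none}, {δ ∈ T | w ∉ ρ ∧ (p δ).1 w ≠ none} := by
      rintro δ ⟨hδ, w, hw1, hw2, hw3⟩
      simp only [Set.mem_iUnion]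
      exact ⟨w, hw1, hδ, hw2, hw3⟩
    refine Set.Finite.subset (Set.Finite.biUnion r.2 ?_) hsub
    intro w _
    refine Set.Subsingleton.finite ?_
    rintro x ⟨hx, hxρ, hxw⟩ y ⟨hy, _, hyw⟩
    by_contra hxy
    exact hxρ (h1 x hx y hy hxy w hxw hyw)
  have hbad2 : {δ : Om | ∃ e, r.1 (δ, e) ≠ none}.Finite := by
    refine (r.2.image Prod.fst).subset ?_
    rintro δ ⟨e, he⟩
    exact ⟨(δ, e), he, rfl⟩
  obtain ⟨δ, hδT, hδ⟩ : ∃ δ ∈ T, δ ∉ ({δ ∈ T | ∃ w, r.1 w ≠ none ∧ w ∉ ρ ∧ (p δ).1 w ≠ none} ∪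
      {δ : Om | ∃ e, r.1 (δ, e) ≠ none}) := by
    obtain ⟨δ, hδ, hδ'⟩ := (hTinf.sdiff (hbad1.union hbad2)).nonempty
    exact ⟨δ, hδ, hδ'⟩
  have ha : ∀ w, r.1 w ≠ none → (p δ).1 w ≠ none → w ∈ ρ := by
    intro w hw1 hw2
    by_contra hw3
    exact hδ (Or.inl ⟨hδT, w, hw1, hw3, hw2⟩)
  have hb : ∀ e, r.1 (δ, e) = none := by
    intro e
    by_contra hw
    exact hδ (Or.inr ⟨e, hw⟩)
  obtain ⟨e, heG, he⟩ : ∃ e ∈ G, (p δ).1 (δ, e) = none := by
    by_contra hall
    push Not at hall
    have hcard : G.card ≤ (p δ).2.toFinset.card := by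
      refine Finset.card_le_card_of_injOn (fun e => (δ, e)) ?_ ?_
      · intro e he
        have := hall e he
        simp only [Set.Finite.coe_toFinset]
        exact this
      · intro x _ y _ hxy
        exact (Prod.mk.inj hxy).2
    have := h3 δ hδT
    omega
  -- the common extension
  let zf : Om × Om → Option Bool := fun w =>
    if w = (δ, e) then some (!b) else if r.1 w ≠ none then r.1 w else (p δ).1 w
  have hzfin : {w | zf w ≠ none}.Finite := by
    refine ((Set.finite_singleton (δ, e)).union (r.2.union (p δ).2)).subset ?_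
    intro w hw
    by_cases hw1 : w = (δ, e)
    · exact Or.inl hw1
    · by_cases hw2 : r.1 w ≠ none
      · exact Or.inr (Or.inl hw2)
      · refine Or.inr (Or.inr ?_)
        have hw' : (if w = (δ, e) then some (!b) else if r.1 w ≠ none then r.1 w
          else (p δ).1 w) ≠ none := hw
        rw [if_neg hw1, if_neg hw2] at hw'
        exact hw'
  let z : Coh := ⟨zf, hzfin⟩
  have hzr : z ≤ r := by
    intro w b' hw
    have hw1 : w ≠ (δ, e) := by
      rintro rfl
      rw [hb e] at hw
      exact absurd hw (by simp)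
    have hw2 : r.1 w ≠ none := by rw [hw]; simp
    change (if w = (δ, e) then some (!b) else if r.1 w ≠ none then r.1 w
          else (p δ).1 w) = some b'
    rw [if_neg hw1, if_pos hw2, hw]
  have hzp : z ≤ p δ := by
    intro w b' hw
    have hw1 : w ≠ (δ, e) := by
      rintro rfl
      rw [he] at hw
      exact absurd hw (by simp)
    have hw2 : (p δ).1 w ≠ none := by rw [hw]; simp
    change (if w = (δ, e) then some (!b) else if r.1 w ≠ none then r.1 w
          else (p δ).1 w) = some b'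
    rw [if_neg hw1]
    by_cases hw3 : r.1 w ≠ none
    · rw [if_pos hw3]
      have hwρ := ha w hw3 hw2
      have h4 := h2 δ hδT δ0 hδ0 w hwρ
      exact hr w b' (by rw [← h4, hw])
    · rw [if_neg hw3, hw]
  obtain ⟨s, hs, hsv⟩ := (hp δ (hTS hδT)).2 e z hzp (hE e r z hzr (hGE e heG))
  have h5 : s.1 (δ, e) = some (!b) := by
    refine hs (δ, e) (!b) ?_
    change (if (δ, e) = (δ, e) then some (!b) else if r.1 (δ, e) ≠ none then r.1 (δ, e)
          else (p δ).1 (δ, e)) = some (!b)
    rw [if_pos rfl]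
  have h6 : s.1 (δ, e) = some b := hsv
  rw [h5] at h6
  have h7 := Option.some.inj h6
  cases b <;> simp at h7

end BI
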