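import Pool.Agent.Helper18.BI.Core

/-!
# Cohen forcing: finite partial functions from `Om × Om` to `Bool`
-/

set_option autoImplicit false

namespace BI

/-- finite partial functions from `Om × Om` to `Bool`, ordered by reverse extension -/
def Coh : Type := {f : Om × Om → Option Bool // {x | f x ≠ none}.Finite}

instance : Preorder Coh where
  le q p := ∀ x b, p.1 x = some b → q.1 x = some b
  le_refl _ _ _ h := h
  le_trans _ _ _ h1 h2 x b h := h1 x b (h2 x b h)

theorem Coh.le_iff {q p : Coh} : q ≤ p ↔ ∀ x b, p.1 x = some b → q.1 x = some b := Iff.rfl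

end BI
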