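import Pool.Agent.Helper18.BI.Core

/-!
# The complete Boolean algebra of regular open sets of conditions
-/

set_option autoImplicit false

namespace BI

/-- regular open sets of conditions -/
def RO (P : Type) [Preorder P] : Type := {U : P → Prop // Reg U}

namespace RO

variable {P : Type} [Preorder P]

theorem down (U : RO P) {p q : P} (h : q ≤ p) (hp : U.1 p) : U.1 q :=
  (U.2 q).2 fun q' hq' => (U.2 p).1 hp q' (hq'.trans h)

theorem of_dense (U : RO P) {p : P} (h : ∀ q, q ≤ p → ∃ r, r ≤ q ∧ U.1 r) : U.1 p := (U.2 p).2 h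

@[ext] theorem ext {U W : RO P} (h : ∀ p, U.1 p ↔ W.1 p) : U = W :=
  Subtype.ext (funext fun p => propext (h p))

/-- the regularization of a statement (`p` forces the statement iff it holds densely below `p`) -/
def cl (U : P → Prop) (hU : ∀ p q, q ≤ p → U p → U q) : RO P :=
  ⟨fun p => ∀ q, q ≤ p → ∃ r, r ≤ q ∧ U r, by
    intro p
    constructor
    · intro h q hq
      obtain ⟨r, hr, hU'⟩ := h q hq
      exact ⟨r, hr, fun q' hq' => ⟨q', le_refl _, hU _ _ hq' hU'⟩⟩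
    · intro h q hq
      obtain ⟨r, hr, hU'⟩ := h q hq
      obtain ⟨r', hr', h3⟩ := hU' r (le_refl _)
      exact ⟨r', hr'.trans hr, h3⟩⟩

theorem mem_cl {U : P → Prop} {hU : ∀ p q, q ≤ p → U p → U q} {p : P} :
    (cl U hU).1 p ↔ ∀ q, q ≤ p → ∃ r, r ≤ q ∧ U r := Iff.rfl

instance : PartialOrder (RO P) where
  le U W := ∀ p, U.1 p → W.1 p
  le_refl U p h := h
  le_trans U W Z h1 h2 p h := h2 p (h1 p h)
  le_antisymm U W h1 h2 := RO.ext fun p => ⟨h1 p, h2 p⟩

theorem le_iff {U W : RO P} : U ≤ W ↔ ∀ p, U.1 p → W.1 p := Iff.rfl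

instance : SupSet (RO P) where
  sSup A := cl (fun p => ∃ U ∈ A, U.1 p) (by
    rintro p q hq ⟨U, hU, hp⟩
    exact ⟨U, hU, U.down hq hp⟩)

instance : InfSet (RO P) where
  sInf A := ⟨fun p => ∀ U ∈ A, U.1 p, by
    intro p
    constructor
    · intro h q hq
      exact ⟨q, le_refl _, fun U hU => U.down hq (h U hU)⟩
    · intro h U hU
      refine U.of_dense fun q hq => ?_
      obtain ⟨r, hr, h3⟩ := h q hq
      exact ⟨r, hr, h3 U hU⟩⟩

instance : CompleteLattice (RO P) :=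
  { completeLatticeOfSup (RO P) (by
      intro A
      constructor
      · intro U hU p hp q hq
        exact ⟨q, le_refl _, U, hU, U.down hq hp⟩
      · intro W hW p hp
        refine W.of_dense fun q hq => ?_
        obtain ⟨r, hr, U, hU, h3⟩ := hp q hq
        exact ⟨r, hr, hW hU r h3⟩) with
    inf := fun U W => ⟨fun p => U.1 p ∧ W.1 p, by
      intro p
      constructor
      · intro h q hq
        exact ⟨q, le_refl _, U.down hq h.1, W.down hq h.2⟩
      · intro h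
        refine ⟨U.of_dense fun q hq => ?_, W.of_dense fun q hq => ?_⟩
        · obtain ⟨r, hr, h3⟩ := h q hq
          exact ⟨r, hr, h3.1⟩
        · obtain ⟨r, hr, h3⟩ := h q hq
          exact ⟨r, hr, h3.2⟩⟩
    inf_le_left := fun U W p h => h.1
    inf_le_right := fun U W p h => h.2
    le_inf := fun U W Z h1 h2 p h => ⟨h1 p h, h2 p h⟩
    sInf := sInf
    isGLB_sInf := by
      intro A
      exact ⟨fun U hU p hp => hp U hU, fun W hW p hp U hU => hW hU p hp⟩ }

instance : Compl (RO P) where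
  compl U := ⟨fun p => ∀ q, q ≤ p → ¬ U.1 q, by
    intro p
    constructor
    · intro h q hq
      exact ⟨q, le_refl _, fun q' hq' => h q' (hq'.trans hq)⟩
    · intro h q hq hU
      obtain ⟨r, hr, h3⟩ := h q hq
      exact h3 r (le_refl _) (U.down hr hU)⟩

theorem mem_inf {U W : RO P} {p : P} : (U ⊓ W).1 p ↔ U.1 p ∧ W.1 p := Iff.rfl

theorem mem_compl {U : RO P} {p : P} : (Uᶜ).1 p ↔ ∀ q, q ≤ p → ¬ U.1 q := Iff.rfl

theorem mem_sSup {A : Set (RO P)} {p : P} :
    (sSup A).1 p ↔ ∀ q, q ≤ p → ∃ r, r ≤ q ∧ ∃ U ∈ A, U.1 r := Iff.rfl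

theorem mem_sInf {A : Set (RO P)} {p : P} : (sInf A).1 p ↔ ∀ U ∈ A, U.1 p := Iff.rfl

theorem mem_iSup {ι : Sort*} {f : ι → RO P} {p : P} :
    (⨆ i, f i).1 p ↔ ∀ q, q ≤ p → ∃ r, r ≤ q ∧ ∃ i, (f i).1 r := by
  rw [iSup, mem_sSup]
  simp

theorem mem_iInf {ι : Sort*} {f : ι → RO P} {p : P} : (⨅ i, f i).1 p ↔ ∀ i, (f i).1 p := by
  rw [iInf, mem_sInf]
  simp

theorem mem_sup {U W : RO P} {p : P} :
    (U ⊔ W).1 p ↔ ∀ q, q ≤ p → ∃ r, r ≤ q ∧ (U.1 r ∨ W.1 r) := by
  rw [← sSup_pair, mem_sSup]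
  simp

theorem mem_top (p : P) : (⊤ : RO P).1 p := by
  have h : (cl (fun _ : P => True) (fun _ _ _ h => h)) ≤ (⊤ : RO P) := le_top
  exact h p fun q _ => ⟨q, le_refl _, trivial⟩

theorem not_mem_bot (p : P) : ¬ (⊥ : RO P).1 p := by
  intro hp
  have h : (⊥ : RO P) ≤ ⟨fun _ => False, fun p => ⟨fun h => h.elim, fun h => by
    obtain ⟨r, _, h3⟩ := h p (le_refl _)
    exact h3⟩⟩ := bot_le
  exact h p hp

instance : BooleanAlgebra (RO P) :=
  { (inferInstance : CompleteLattice (RO P)), (inferInstance : Compl (RO P)) with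
    sdiff := fun U W => U ⊓ Wᶜ
    himp := fun U W => W ⊔ Uᶜ
    le_sup_inf := by
      intro U W Z p hp
      rw [mem_inf, mem_sup, mem_sup] at hp
      rw [mem_sup]
      intro q hq
      obtain ⟨r, hr, h1⟩ := hp.1 q hq
      obtain ⟨r', hr', h2⟩ := hp.2 r (hr.trans hq)
      refine ⟨r', hr'.trans hr, ?_⟩
      rcases h1 with h1 | h1
      · exact Or.inl (U.down hr' h1)
      · rcases h2 with h2 | h2
        · exact Or.inl h2
        · exact Or.inr ⟨W.down hr' h1, h2⟩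
    inf_compl_le_bot := by
      intro U p hp
      exact absurd hp.1 (hp.2 p (le_refl _))
    top_le_sup_compl := by
      intro U p _
      rw [mem_sup]
      intro q _
      by_cases h : ∃ r, r ≤ q ∧ U.1 r
      · obtain ⟨r, hr, h3⟩ := h
        exact ⟨r, hr, Or.inl h3⟩
      · push Not at h
        exact ⟨q, le_refl _, Or.inr h⟩
    sdiff_eq := fun _ _ => rfl
    himp_eq := fun _ _ => rfl }

instance : CompleteBooleanAlgebra (RO P) :=
  { (inferInstance : CompleteLattice (RO P)), (inferInstance : BooleanAlgebra (RO P)) with }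

theorem mem_himp {U W : RO P} {p : P} : (U ⇨ W).1 p ↔ ∀ q, q ≤ p → U.1 q → W.1 q := by
  rw [himp_eq, mem_sup]
  constructor
  · intro h q hq hU
    refine W.of_dense fun q' hq' => ?_
    obtain ⟨r, hr, h1 | h1⟩ := h q' (hq'.trans hq)
    · exact ⟨r, hr, h1⟩
    · exact absurd (U.down (hr.trans hq') hU) (h1 r (le_refl _))
  · intro h q hq
    by_cases h1 : ∃ r, r ≤ q ∧ U.1 r
    · obtain ⟨r, hr, h3⟩ := h1
      exact ⟨r, hr, Or.inl (h r (hr.trans hq) h3)⟩
    · push Not at h1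
      exact ⟨q, le_refl _, Or.inr h1⟩

theorem mem_iff {U W : RO P} {p : P} : (bIff U W).1 p ↔ ∀ q, q ≤ p → (U.1 q ↔ W.1 q) := by
  rw [bIff, mem_inf, mem_himp, mem_himp]
  exact ⟨fun h q hq => ⟨h.1 q hq, h.2 q hq⟩, fun h => ⟨fun q hq => (h q hq).1, fun q hq => (h q hq).2⟩⟩

/-- the complement, for a statement which is not decided -/
theorem exists_compl {U : RO P} {p : P} (h : ¬ U.1 p) : ∃ q, q ≤ p ∧ (Uᶜ).1 q := by
  by_contra hcon
  push Not at hcon
  refine h (U.of_dense fun q hq => ?_)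
  have h1 := hcon q hq
  rw [mem_compl] at h1
  push Not at h1
  exact h1

theorem eq_top_iff {U : RO P} : U = ⊤ ↔ ∀ p, U.1 p :=
  ⟨fun h p => h ▸ mem_top p, fun h => RO.ext fun p => ⟨fun _ => mem_top p, fun _ => h p⟩⟩

theorem eq_bot_iff {U : RO P} : U = ⊥ ↔ ∀ p, ¬ U.1 p :=
  ⟨fun h p => h ▸ not_mem_bot p, fun h => RO.ext fun p => ⟨fun h1 => absurd h1 (h p), fun h1 =>
    absurd h1 (not_mem_bot p)⟩⟩

end RO

end BI
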