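import Pool.Agent.Helper18.BI.CohB
import Pool.Agent.Helper18.BI.BaseX
import Pool.Agent.Helper18.BI.RO
import Pool.Agent.Helper18.BI.OmL

/-!
# BI-42 The Cohen family in the final model

`cohA α δ` is the truth value of: `c(δ, α) = true`, where `c : Om × Om → Bool` is the generic function of the base.

TO PROVE (in place).
* `cohA_true`: take `q'' = q'` (the order of `Coh`: `≤` preserves values).  `cohA_false`: if `q' ≤ q` and `(cohA α δ).1 q'` then some
  `q'' ≤ q'` has the value `some true`, but it also has `some false`.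
* `cohA_dec`: from the definition, with `q' = q`.  `cohA_compl_dec`: if `q.1.base.1 (δ, α) = some true` then `cohA_true`
  contradicts the hypothesis; if it is `some false` take `q`; if it is `none` extend the base by this one value (a
  condition of `Coh` below `q.1.base`) and use `base_ext`.
* `fresh`: the domain of `q.1.base` is finite, so the set of first coordinates is finite, hence bounded; take
  `δ` bigger than `x` and than all of them.
* `set_row`: the function which has the value `some (g α)` at `(δ, α)` for `α ∈ F` and agrees with `q.1.base` elsewhere is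
  a condition of `Coh`, below `q.1.base` because `q.1.base.1 (δ, α) = none` for all `α`; use `base_ext`.
-/

set_option autoImplicit false

namespace BI

section

variable {J E : Type} [LinearOrder J] {S : FSys Coh J E} {i : J}

/-- the truth value of `c(δ, α) = true` -/
def cohA (S : FSys Coh J E) (i : J) (α δ : Om) : RO (S.P i) :=
  RO.cl (fun q => q.1.base.1 (δ, α) = some true) fun _ _ h hp => h.1 _ _ hp

theorem cohA_true {q : S.P i} {α δ : Om} (h : q.1.base.1 (δ, α) = some true) : (cohA S i α δ).1 q := by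
  intro q' hq'
  exact ⟨q', le_refl _, hq'.1 _ _ h⟩

theorem cohA_false {q : S.P i} {α δ : Om} (h : q.1.base.1 (δ, α) = some false) :
    ((cohA S i α δ)ᶜ).1 q := by
  rw [RO.mem_compl]
  intro q' hq' hA
  obtain ⟨q'', hq'', h2⟩ := hA q' (le_refl _)
  have h3 : q''.1.base.1 (δ, α) = some false := hq''.1 _ _ (hq'.1 _ _ h)
  have h4 : q''.1.base.1 (δ, α) = some true := h2
  rw [h3] at h4
  simp at h4

theorem cohA_dec {q : S.P i} {α δ : Om} (h : (cohA S i α δ).1 q) :
    ∃ q', q' ≤ q ∧ q'.1.base.1 (δ, α) = some true := by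
  obtain ⟨r, hr, h2⟩ := h q (le_refl _)
  exact ⟨r, hr, h2⟩

/-- extending the base by finitely many values -/
private theorem cohF_aux [WellFoundedLT J] (q : S.P i) {δ : Om} (F : Finset Om)
    (hδ : ∀ α ∈ F, q.1.base.1 (δ, α) = none) (g : Om → Bool) :
    ∃ q', q' ≤ q ∧ ∀ α ∈ F, q'.1.base.1 (δ, α) = some (g α) := by
  classical
  let f : Om × Om → Option Bool := fun w =>
    if w.1 = δ ∧ w.2 ∈ F then some (g w.2) else q.1.base.1 w
  have hf : {w | f w ≠ none}.Finite := by
    refine ((F.finite_toSet.image (fun α => (δ, α))).union q.1.base.2).subset ?_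
    intro w hw
    by_cases h1 : w.1 = δ ∧ w.2 ∈ F
    · left
      refine ⟨w.2, h1.2, ?_⟩
      exact Prod.ext h1.1.symm rfl
    · right
      have hw' : f w ≠ none := hw
      simp only [f, if_neg h1] at hw'
      exact hw'
  let p0 : Coh := ⟨f, hf⟩
  have hp0 : p0 ≤ q.1.base := by
    intro w b' hw
    have h1 : ¬ (w.1 = δ ∧ w.2 ∈ F) := by
      rintro ⟨h1, h2⟩
      have h3 := hδ w.2 h2
      rw [← h1] at h3
      rw [show w = (w.1, w.2) from rfl] at hw
      rw [h3] at hw
      simp at hw
    change (if w.1 = δ ∧ w.2 ∈ F then some (g w.2) else q.1.base.1 w) = some b'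
    rw [if_neg h1, hw]
  obtain ⟨q', hq', hb⟩ := base_ext S q p0 hp0
  refine ⟨q', hq', fun α hα => ?_⟩
  rw [hb]
  change (if δ = δ ∧ α ∈ F then some (g α) else q.1.base.1 (δ, α)) = some (g α)
  rw [if_pos ⟨rfl, hα⟩]

theorem cohA_compl_dec [WellFoundedLT J] {q : S.P i} {α δ : Om} (h : ((cohA S i α δ)ᶜ).1 q) :
    ∃ q', q' ≤ q ∧ q'.1.base.1 (δ, α) = some false := by
  rcases h1 : q.1.base.1 (δ, α) with _ | b
  · obtain ⟨q', hq', h2⟩ := cohF_aux q (δ := δ) {α} (by simpa using h1) (fun _ => false)
    exact ⟨q', hq', h2 α (Finset.mem_singleton_self α)⟩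
  · cases b with
    | true => exact absurd (cohA_true h1) ((RO.mem_compl.1 h) q (le_refl _))
    | false => exact ⟨q, le_refl _, h1⟩

theorem fresh (q : S.P i) (x : Om) : ∃ δ, x < δ ∧ ∀ α, q.1.base.1 (δ, α) = none := by
  have h1 : (insert x (Prod.fst '' {w | q.1.base.1 w ≠ none})).Countable :=
    ((q.1.base.2.image Prod.fst).insert x).countable
  obtain ⟨δ, hδ⟩ := om_bdd h1
  refine ⟨δ, hδ x (Set.mem_insert _ _), fun α => ?_⟩
  by_contra h2
  exact lt_irrefl δ (hδ δ (Set.mem_insert_of_mem _ ⟨(δ, α), h2, rfl⟩))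

theorem set_row [WellFoundedLT J] (q : S.P i) {δ : Om} (hδ : ∀ α, q.1.base.1 (δ, α) = none)
    (F : Finset Om) (g : Om → Bool) : ∃ q', q' ≤ q ∧ ∀ α ∈ F, q'.1.base.1 (δ, α) = some (g α) :=
  cohF_aux q F (fun α _ => hδ α) g

end

end BI
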