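import Pool.Agent.Helper18.BI.RO
import Pool.Agent.Helper18.BI.OmL
import Pool.Agent.Helper18.BI.Codes

/-!
# BI-37 Countable sets of countable ordinals in the Boolean valued model

TO PROVE (in place).  Membership in suprema, infima, complements of regular open sets: see `RO.lean` (`RO.mem_iSup`,
`RO.mem_iInf`, `RO.mem_himp`, `RO.mem_compl`, ...).

* `ctb_of_bdd`: let `g : ℕ → Om` be an enumeration of the countable nonempty set `Set.Iic x` (`om_Iic`).  The name
  `f : Fn (RO P) ℕ Om` with `f.val n y = if g n = y then ⊤ else ⊥` (`total`: the supremum is `≥ f.val n (g n) = ⊤`; `uniq`: at least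
  one of the two values is `⊥`).  Show `(⨅ y, S y ⇨ ⨆ n, f.val n y).1 p`: let `q ≤ p`, `(S y).1 q`; then `¬ x < y`, so `y ∈ Iic x`,
  `y = g n` for some `n` and `⨆ n, f.val n y = ⊤`.
* `unc_iff`, (→): let `x`, `q ≤ p` and suppose there are no `q' ≤ q`, `b > x` with `(S b).1 q'`.  Then `(bCtb S).1 q` by
  `ctb_of_bdd`, contradiction to `(bCtb S)ᶜ.1 p`.
* `unc_iff`, (←): suppose `q ≤ p` and `(bCtb S).1 q`.  There are `q1 ≤ q` and a name `f` with
  `(⨅ y, S y ⇨ ⨆ n, f.val n y).1 q1`.  For every `n` the set of all `y` with `f.val n y ≠ ⊥` is countable: choose a condition in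
  each of these `f.val n y`; conditions for different `y` are incompatible by `f.uniq`, so by `CCC P` (`max_antichain` is not
  needed) the set of these conditions, and hence the set of the `y`, is countable.  So there is `x` such that `f.val n y = ⊥` for all
  `n` and all `y > x` (`om_bdd`, `om_bdd_range`).  By hypothesis there are `q' ≤ q1`, `b > x` with `(S b).1 q'`; then
  `(⨆ n, f.val n b).1 q'`, but `⨆ n, f.val n b = ⊥`: contradiction.
* `ro_ccc`: let `A` be a set of nonzero pairwise disjoint elements of `RO P`; choose for `U ∈ A` a condition in `U`; different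
  `U` give incompatible conditions (a common extension would be in `U ⊓ W = ⊥`), so `A` is countable.
-/

set_option autoImplicit false

namespace BI

variable {P : Type} [Preorder P]

theorem ctb_of_bdd (S : Om → RO P) (p : P) (x : Om) (h : ∀ b, x < b → ∀ q, q ≤ p → ¬ (S b).1 q) :
    (bCtb S).1 p := by
  classical
  obtain ⟨g, hg⟩ := (om_Iic x).exists_eq_range ⟨x, le_refl x⟩
  let f : Fn (RO P) ℕ Om :=
    { val := fun n y => if g n = y then ⊤ else ⊥
      total := fun n => le_antisymm le_top (le_iSup_of_le (g n) (by rw [if_pos rfl]))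
      uniq := by
        intro n y y' hyy
        by_cases h1 : g n = y
        · have h2 : g n ≠ y' := fun h3 => hyy (h1.symm.trans h3)
          rw [if_neg h2, inf_bot_eq]
        · rw [if_neg h1, bot_inf_eq] }
  have key : (⨅ y : Om, S y ⇨ ⨆ n : ℕ, f.val n y).1 p := by
    rw [RO.mem_iInf]
    intro y
    rw [RO.mem_himp]
    intro q hq hS
    have hy : y ∈ Set.Iic x := by
      rw [Set.mem_Iic]
      by_contra hcon
      exact h y (not_le.1 hcon) q hq hS
    rw [hg] at hy
    obtain ⟨n, rfl⟩ := hy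
    have h1 : (⊤ : RO P) ≤ ⨆ m : ℕ, f.val m (g n) := by
      refine le_iSup_of_le n ?_
      change ⊤ ≤ (if g n = g n then (⊤ : RO P) else ⊥)
      rw [if_pos rfl]
    exact RO.le_iff.1 h1 q (RO.mem_top q)
  exact RO.le_iff.1 (le_iSup (fun f : Fn (RO P) ℕ Om => ⨅ y : Om, S y ⇨ ⨆ n : ℕ, f.val n y) f) p key

theorem ctb_aux (hP : CCC P) {ι : Type*} (F : ι → RO P) (T : Set ι) (hne : ∀ i ∈ T, F i ≠ ⊥)
    (hd : ∀ i ∈ T, ∀ j ∈ T, i ≠ j → F i ⊓ F j = ⊥) : T.Countable := by
  classical
  rcases Set.eq_empty_or_nonempty T with hT | ⟨i0, hi0⟩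
  · rw [hT]
    exact Set.countable_empty
  have hex : ∀ i ∈ T, ∃ p, (F i).1 p := by
    intro i hi
    by_contra hcon
    push Not at hcon
    exact hne i hi (RO.eq_bot_iff.2 hcon)
  obtain ⟨p0, _⟩ := hex i0 hi0
  have hch : ∀ i, ∃ p : P, i ∈ T → (F i).1 p := by
    intro i
    by_cases hi : i ∈ T
    · obtain ⟨p, hp⟩ := hex i hi
      exact ⟨p, fun _ => hp⟩
    · exact ⟨p0, fun h => absurd h hi⟩
  choose c hc using hch
  have hdis : ∀ i ∈ T, ∀ j ∈ T, i ≠ j → ∀ r, r ≤ c i → ¬ r ≤ c j := by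
    intro i hi j hj hij r h1 h2
    have h3 : (F i ⊓ F j).1 r := RO.mem_inf.2 ⟨(F i).down h1 (hc i hi), (F j).down h2 (hc j hj)⟩
    rw [hd i hi j hj hij] at h3
    exact RO.not_mem_bot r h3
  refine Set.countable_of_injective_of_countable_image (f := c) ?_ ?_
  · intro i hi j hj hij
    by_contra hne
    exact hdis i hi j hj hne (c i) (le_refl _) (hij ▸ le_refl _)
  · refine hP _ ?_
    rintro _ ⟨i, hi, rfl⟩ _ ⟨j, hj, rfl⟩ hij
    rintro ⟨r, h1, h2⟩
    refine hdis i hi j hj (fun h => hij (by rw [h])) r h1 h2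

theorem unc_iff (hP : CCC P) (S : Om → RO P) (p : P) :
    ((bCtb S)ᶜ).1 p ↔ ∀ (x : Om) (q : P), q ≤ p → ∃ q', q' ≤ q ∧ ∃ b, x < b ∧ (S b).1 q' := by
  rw [RO.mem_compl]
  constructor
  · intro h x q hq
    by_contra hcon
    push Not at hcon
    refine h q hq (ctb_of_bdd S q x fun b hb q' hq' => hcon q' hq' b hb)
  · intro h q hq hS
    unfold bCtb at hS
    rw [RO.mem_iSup] at hS
    obtain ⟨q1, hq1, f, hf⟩ := hS q (le_refl q)
    rw [RO.mem_iInf] at hf
    have hctb : ∀ n, {y | f.val n y ≠ ⊥}.Countable := fun n =>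
      ctb_aux hP (fun y => f.val n y) {y | f.val n y ≠ ⊥} (fun y hy => hy)
        (fun y _ y' _ hyy => f.uniq n y y' hyy)
    obtain ⟨x, hx⟩ := om_bdd (Set.countable_iUnion hctb)
    obtain ⟨q', hq', b, hb, hSb⟩ := h x q1 (hq1.trans hq)
    have h1 := RO.mem_himp.1 (hf b) q' hq' hSb
    have h2 : (⨆ n : ℕ, f.val n b) = ⊥ := by
      rw [iSup_eq_bot]
      intro n
      by_contra hne
      exact absurd (hx b (Set.mem_iUnion.2 ⟨n, hne⟩)) (not_lt.2 hb.le)
    rw [h2] at h1
    exact RO.not_mem_bot q' h1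

theorem ro_ccc (hP : CCC P) : bCCC (RO P) := by
  intro S h1 h2
  exact ctb_aux hP (fun U => U) S h1 h2

theorem ro_nontrivial [Nonempty P] : Nontrivial (RO P) := by
  obtain ⟨p⟩ := ‹Nonempty P›
  refine ⟨⟨⊤, ⊥, fun h => ?_⟩⟩
  have h1 := RO.mem_top p
  rw [h] at h1
  exact RO.not_mem_bot p h1

end BI
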