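import Pool.Agent.Helper18.BI.CohF
import Pool.Agent.Helper18.BI.Ctb

/-!
# BI-43 The Cohen family is independent

TO PROVE (in place).  The family is `A α δ = cohA S i α δ`.

* `coh_inj`: by `RO.eq_top_iff` and `RO.mem_iInf`: let `α ≠ β`, `p` a condition; `RO.mem_iSup`: let `q ≤ p`.  Take `δ` from
  `fresh q` (any `x`), and `q' ≤ q` from `set_row` with `F = {α, β}`, `g α = true`, `g β = false`.  `(A α δ).1 q'` and
  `((A β δ)ᶜ).1 q'` (`cohA_true`, `cohA_false`), so `((bIff (A α δ) (A β δ))ᶜ).1 q'` (`RO.mem_compl`, `RO.mem_iff`).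
* `coh_fin`: let `X h : Om → RO (S.P i)`; `RO.mem_himp`: let `(bFin X).1 p`; we show `((bCtb (bCell A X h))ᶜ).1 p` by `unc_iff`.  Let
  `x`, `q ≤ p`.  There are `q1 ≤ q`, `F : Finset Om` with `(⨅ a, ⨅ (_ : a ∉ F), (X a)ᶜ).1 q1`.  By induction on the
  finset `F` there is `q2 ≤ q1` deciding `h α` for every `α ∈ F`: `(h α).1 q2 ∨ ((h α)ᶜ).1 q2` (`RO.exists_compl`,
  monotonicity `RO.down`).  Let `g α = true` iff `(h α).1 q2` (classical).  Take `δ > x` from `fresh q2` and `q3 ≤ q2` from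
  `set_row`.  Then `(bCell A X h δ).1 q3`: by `RO.mem_iInf`, `RO.mem_himp` let `q4 ≤ q3`, `(X α).1 q4`.  `α ∈ F`
  (otherwise `((X α)ᶜ).1 q1`).  If `g α = true` then `(A α δ)` and `h α` hold at `q4`, and below; if `g α = false` then
  `(A α δ)ᶜ` and `(h α)ᶜ` hold at `q4`; in both cases `(bIff (A α δ) (h α)).1 q4` (`RO.mem_iff`).
-/

set_option autoImplicit false

namespace BI

variable {J E : Type} [LinearOrder J] [WellFoundedLT J]

theorem coh_inj (S : FSys Coh J E) (i : J) :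
    (⨅ α : Om, ⨅ β : Om, ⨅ _ : α ≠ β, ⨆ δ : Om, (bIff (cohA S i α δ) (cohA S i β δ))ᶜ) = ⊤ := by
  classical
  rw [RO.eq_top_iff]
  intro p
  simp only [RO.mem_iInf]
  intro α β hαβ
  rw [RO.mem_iSup]
  intro q _
  obtain ⟨δ, _, hδ⟩ := fresh q α
  obtain ⟨q', hq', h⟩ := set_row q hδ {α, β} (fun a => decide (a = α))
  have h1 : q'.1.base.1 (δ, α) = some true := by simpa using h α (by simp)
  have h2 : q'.1.base.1 (δ, β) = some false := by
    have := h β (by simp)
    rw [this]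
    simp only [Option.some.injEq, decide_eq_false_iff_not]
    exact fun h => hαβ h.symm
  refine ⟨q', hq', δ, ?_⟩
  rw [RO.mem_compl]
  intro r hr hcon
  rw [RO.mem_iff] at hcon
  have hA : (cohA S i α δ).1 r := RO.down _ hr (cohA_true h1)
  have hB := (hcon r (le_refl _)).1 hA
  have hC := RO.down _ hr (cohA_false h2)
  rw [RO.mem_compl] at hC
  exact hC r (le_refl _) hB

theorem coh_dec_fin {P : Type} [Preorder P] (h : Om → RO P) (F : Finset Om) (q : P) :
    ∃ q', q' ≤ q ∧ ∀ α ∈ F, (h α).1 q' ∨ ((h α)ᶜ).1 q' := by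
  classical
  induction F using Finset.induction_on with
  | empty => exact ⟨q, le_refl _, by simp⟩
  | insert a F _ ih =>
    obtain ⟨q1, hq1, hF⟩ := ih
    by_cases ha : (h a).1 q1
    · refine ⟨q1, hq1, ?_⟩
      intro α hα
      rcases Finset.mem_insert.1 hα with rfl | hα
      · exact Or.inl ha
      · exact hF α hα
    · obtain ⟨q2, hq2, hc⟩ := RO.exists_compl ha
      refine ⟨q2, hq2.trans hq1, ?_⟩
      intro α hα
      rcases Finset.mem_insert.1 hα with rfl | hα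
      · exact Or.inr hc
      · rcases hF α hα with h1 | h1
        · exact Or.inl (RO.down _ hq2 h1)
        · exact Or.inr (RO.down _ hq2 h1)

theorem coh_fin (S : FSys Coh J E) (i : J) (hP : CCC (S.P i)) :
    (⨅ X : Om → RO (S.P i), ⨅ h : Om → RO (S.P i),
      bFin X ⇨ (bCtb (bCell (cohA S i) X h))ᶜ) = ⊤ := by
  classical
  rw [RO.eq_top_iff]
  intro p0
  simp only [RO.mem_iInf]
  intro X h
  rw [RO.mem_himp]
  intro p _ hp
  rw [unc_iff hP]
  intro x q hq
  rw [bFin, RO.mem_iSup] at hp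
  obtain ⟨q1, hq1, F, hF⟩ := hp q hq
  simp only [RO.mem_iInf] at hF
  obtain ⟨q2, hq2, hdec⟩ := coh_dec_fin h F q1
  obtain ⟨δ, hxδ, hδ⟩ := fresh q2 x
  obtain ⟨q3, hq3, hrow⟩ := set_row q2 hδ F (fun a => decide ((h a).1 q2))
  refine ⟨q3, hq3.trans (hq2.trans hq1), δ, hxδ, ?_⟩
  rw [bCell]
  simp only [RO.mem_iInf]
  intro α
  rw [RO.mem_himp]
  intro q4 hq4 hX
  have hαF : α ∈ F := by
    by_contra hα
    have h1 := hF α hα
    rw [RO.mem_compl] at h1
    exact h1 q4 (hq4.trans (hq3.trans hq2)) hX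
  have hr := hrow α hαF
  rw [RO.mem_iff]
  intro q5 hq5
  by_cases hα : (h α).1 q2
  · have h1 : q3.1.base.1 (δ, α) = some true := by simpa [hα] using hr
    exact ⟨fun _ => RO.down _ (hq5.trans (hq4.trans hq3)) hα,
      fun _ => RO.down _ (hq5.trans hq4) (cohA_true h1)⟩
  · have h1 : q3.1.base.1 (δ, α) = some false := by simpa [hα] using hr
    have h2 := RO.down _ (hq5.trans hq4) (cohA_false h1)
    have h3 := (hdec α hαF).resolve_left hα
    have h4 := RO.down _ (hq5.trans (hq4.trans hq3)) h3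
    rw [RO.mem_compl] at h2 h4
    exact ⟨fun h5 => absurd h5 (h2 q5 (le_refl _)), fun h5 => absurd h5 (h4 q5 (le_refl _))⟩

end BI
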