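import Pool.Agent.Helper18.BI.CohF
import Pool.Agent.Helper18.BI.Ctb

/-!
# BI-44 The Cohen family is barely independent

TO PROVE (in place).  Write `A α δ = cohA S i α δ`.  By `RO.eq_top_iff`, `RO.mem_iInf`, `RO.mem_himp`: let `X h : Om → RO (S.P i)` and
`(bCtb X ⊓ (bFin X)ᶜ).1 p`; we show `(bCtb (bCell A X h)).1 p` by `ctb_of_bdd`.
Let `D1 α q := (X α).1 q ∧ (h α).1 q`, `D0 α q := (X α).1 q ∧ ((h α)ᶜ).1 q`, monotone families `Om → S.P i → Prop`.  `ht` (tameness)
gives `E1 : ℕ → Om → Coh → Prop` for `D1` and `E0` for `D0`.  By `coh_lemma` the sets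
`{δ | ∃ p, InfB (E1 n) p ∧ SubB (E1 n) (fun e q => q.1 (δ, e) = some true) p}` and
`{δ | ∃ p, InfB (E0 n) p ∧ SubB (E0 n) (fun e q => q.1 (δ, e) = some false) p}` are countable for every `n`; let `x` be bigger than
all elements of all of them (`om_bdd` for the countable union).
Let `δ > x`, `q ≤ p` and suppose `(bCell A X h δ).1 q`.
Claim: some `q' ≤ q` has `InfB D1 q'` or `InfB D0 q'`.  Otherwise `¬ InfB D1 q`: there are `F1`, `q1 ≤ q` such that no
`r ≤ q1`, `e ∉ F1` has `D1 e r`; and `¬ InfB D0 q1`: `F0`, `q2 ≤ q1` such that no `r ≤ q2`, `e ∉ F0` has `D0 e r`.  Then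
`(bFin X).1 q2` (witness `F1 ∪ F0`; if `e` is not in it, `r ≤ q2`, `(X e).1 r` then either `(h e).1 r`, so `D1 e r`, or there is
`r' ≤ r` with `((h e)ᶜ).1 r'` (`RO.exists_compl`), so `D0 e r'`), contradiction to `((bFin X)ᶜ).1 p`.
Case `InfB D1 q'`: `SubB D1 (fun e r => r.1.base.1 (δ, e) = some true) q'`: let `r ≤ q'`, `D1 e r`; from
`(bCell A X h δ).1 q` : `(bIff (A e δ) (h e)).1 r`, so `(A e δ).1 r` (`RO.mem_iff`), and `cohA_dec` gives `r' ≤ r` with the value
`some true`.  Tameness with `T e c := c.1 (δ, e) = some true` (monotone) gives `n` and `c : Coh` with `InfB (E1 n) c`,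
`SubB (E1 n) T c`, so `δ` is in the first countable set, `δ < x`: contradiction.
Case `InfB D0 q'`: the same with `some false`: `((h e)ᶜ).1 r` and `(bIff (A e δ) (h e)).1 r` give `((A e δ)ᶜ).1 r`;
`cohA_compl_dec`.
-/

set_option autoImplicit false

namespace BI

theorem coh_inf {J E : Type} [LinearOrder J] [WellFoundedLT J] (S : FSys Coh J E) (i : J)
    (ht : RTame Coh (S.P i) Om (fun p => p.1.base)) :
    (⨅ X : Om → RO (S.P i), ⨅ h : Om → RO (S.P i),
      (bCtb X ⊓ (bFin X)ᶜ) ⇨ bCtb (bCell (cohA S i) X h)) = ⊤ := by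
  classical
  rw [RO.eq_top_iff]
  intro p0
  rw [RO.mem_iInf]
  intro X
  rw [RO.mem_iInf]
  intro h
  rw [RO.mem_himp]
  intro p hp0 hp
  rw [RO.mem_inf] at hp
  have hfin := hp.2
  have hM1 : Mon (fun α (q : S.P i) => (X α).1 q ∧ (h α).1 q) :=
    fun α p q hq hh => ⟨(X α).down hq hh.1, (h α).down hq hh.2⟩
  have hM0 : Mon (fun α (q : S.P i) => (X α).1 q ∧ ((h α)ᶜ).1 q) :=
    fun α p q hq hh => ⟨(X α).down hq hh.1, ((h α)ᶜ).down hq hh.2⟩
  obtain ⟨E1, hE1, ht1⟩ := ht _ hM1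
  obtain ⟨E0, hE0, ht0⟩ := ht _ hM0
  have hc : (⋃ n : ℕ, ({δ : Om | ∃ p : Coh, InfB (E1 n) p ∧
      SubB (E1 n) (fun e q => q.1 (δ, e) = some true) p} ∪
      {δ : Om | ∃ p : Coh, InfB (E0 n) p ∧
      SubB (E0 n) (fun e q => q.1 (δ, e) = some false) p})).Countable := by
    refine Set.countable_iUnion fun n => ?_
    exact (coh_lemma (E1 n) (hE1 n) true).union (coh_lemma (E0 n) (hE0 n) false)
  obtain ⟨x, hx⟩ := om_bdd hc
  refine ctb_of_bdd _ p x ?_
  intro δ hδ q hq hcell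
  have hclaim : ∃ q', q' ≤ q ∧ (InfB (fun α (q : S.P i) => (X α).1 q ∧ (h α).1 q) q' ∨
      InfB (fun α (q : S.P i) => (X α).1 q ∧ ((h α)ᶜ).1 q) q') := by
    by_contra hcon
    push Not at hcon
    have h1 := (hcon q (le_refl _)).1
    unfold InfB at h1
    push Not at h1
    obtain ⟨F1, q1, hq1, h1⟩ := h1
    have h0 := (hcon q1 hq1).2
    unfold InfB at h0
    push Not at h0
    obtain ⟨F0, q2, hq2, h0⟩ := h0
    have hbf : (bFin X).1 q2 := by
      rw [bFin, RO.mem_iSup]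
      intro r hr
      refine ⟨r, le_refl _, F1 ∪ F0, ?_⟩
      rw [RO.mem_iInf]
      intro e
      rw [RO.mem_iInf]
      intro he
      rw [RO.mem_compl]
      intro r' hr' hXe
      by_cases hh : (h e).1 r'
      · exact h1 r' ((hr'.trans hr).trans hq2) e
          (fun hF => he (Finset.mem_union_left _ hF)) hXe hh
      · obtain ⟨r'', hr'', hh''⟩ := RO.exists_compl hh
        exact h0 r'' (hr''.trans (hr'.trans hr)) e
          (fun hF => he (Finset.mem_union_right _ hF)) ((X e).down hr'' hXe) hh''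
    exact RO.mem_compl.1 hfin q2 ((hq2.trans hq1).trans hq) hbf
  obtain ⟨q', hq', hcase⟩ := hclaim
  have hcell' : ∀ e r, r ≤ q' → (X e).1 r → (bIff (cohA S i e δ) (h e)).1 r := by
    intro e r hr hXr
    have h1 := (bCell (cohA S i) X h δ).down (hr.trans hq') hcell
    rw [bCell, RO.mem_iInf] at h1
    exact RO.mem_himp.1 (h1 e) r (le_refl _) hXr
  rcases hcase with hI | hI
  · have hS : SubB (fun α (q : S.P i) => (X α).1 q ∧ (h α).1 q)
        (fun e r => r.1.base.1 (δ, e) = some true) q' := by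
      intro e r hr hD
      have h1 := hcell' e r hr hD.1
      have h2 := (RO.mem_iff.1 h1 r (le_refl _)).2 hD.2
      exact cohA_dec h2
    obtain ⟨n, c, hc1, hc2⟩ := ht1 (fun e (c : Coh) => c.1 (δ, e) = some true)
      (fun e p q hqp hv => hqp _ _ hv) q' hI hS
    exact absurd (hx δ (Set.mem_iUnion.2 ⟨n, Or.inl ⟨c, hc1, hc2⟩⟩)) (not_lt.2 hδ.le)
  · have hS : SubB (fun α (q : S.P i) => (X α).1 q ∧ ((h α)ᶜ).1 q)
        (fun e r => r.1.base.1 (δ, e) = some false) q' := by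
      intro e r hr hD
      have h1 := hcell' e r hr hD.1
      have h2 : ((cohA S i e δ)ᶜ).1 r := by
        rw [RO.mem_compl]
        intro r' hr' hA
        exact RO.mem_compl.1 hD.2 r' hr' ((RO.mem_iff.1 h1 r' hr').1 hA)
      exact cohA_compl_dec h2
    obtain ⟨n, c, hc1, hc2⟩ := ht0 (fun e (c : Coh) => c.1 (δ, e) = some false)
      (fun e p q hqp hv => hqp _ _ hv) q' hI hS
    exact absurd (hx δ (Set.mem_iUnion.2 ⟨n, Or.inr ⟨c, hc1, hc2⟩⟩)) (not_lt.2 hδ.le)

end BI
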