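import Pool.Agent.Helper18.BI.Defs

/-!
# Forcing notions, two step iterations, finite support iterations

A forcing notion is a type `P` with a relation `≤` (`q ≤ p`: `q` is stronger).  A name for a subset of
`K` is a monotone family `D : K → P → Prop`; `D e p` means that `p` puts `e` into the set, and `p` forces
`e ∈ D` iff the conditions `r` with `D e r` are dense below `p`.
-/

set_option autoImplicit false

namespace BI

section Basic

variable {P : Type} [LE P]

/-- monotone families -/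
def Mon {X : Type} (D : X → P → Prop) : Prop := ∀ x p q, q ≤ p → D x p → D x q

/-- regular (open) statements -/
def Reg (U : P → Prop) : Prop := ∀ p, U p ↔ ∀ q, q ≤ p → ∃ r, r ≤ q ∧ U r

/-- compatible conditions -/
def Cmp (p q : P) : Prop := ∃ c, c ≤ p ∧ c ≤ q

variable (P) in
/-- the countable chain condition -/
def CCC : Prop := ∀ S : Set P, (∀ a ∈ S, ∀ b ∈ S, a ≠ b → ¬ Cmp a b) → S.Countable

/-- `p` forces that `D` is infinite -/
def InfB {K : Type} (D : K → P → Prop) (p : P) : Prop :=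
  ∀ (F : Finset K) (q : P), q ≤ p → ∃ r, r ≤ q ∧ ∃ e, e ∉ F ∧ D e r

/-- `p` forces `D ⊆ T` -/
def SubB {K : Type} (D T : K → P → Prop) (p : P) : Prop :=
  ∀ (e : K) (q : P), q ≤ p → D e q → ∃ r, r ≤ q ∧ T e r

end Basic

/-- `P` is tame over `P0` (`f : P → P0` is the projection): for every `P`-name `D` for a subset of `K`
there are countably many `P0`-names `E n` such that whenever a condition forces that `D` is infinite and
contained in a set `T` with a `P0`-name, some condition of `P0` forces that some `E n` is infinite and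
contained in `T`. -/
def RTame (P0 P K : Type) [LE P0] [LE P] (f : P → P0) : Prop :=
  ∀ D : K → P → Prop, Mon D → ∃ E : ℕ → K → P0 → Prop, (∀ n, Mon (E n)) ∧
    ∀ T : K → P0 → Prop, Mon T → ∀ q : P, InfB D q → SubB D (fun e r => T e (f r)) q →
      ∃ n, ∃ p : P0, InfB (E n) p ∧ SubB (E n) T p

/-! ### two step iterations -/

/-- A `P`-name for a forcing notion with underlying set contained in `E`: `V p e`: `p` forces that `e`
is a condition, `L p e' e`: `p` forces `e' ≤ e`. -/
structure ESys (P E : Type) [LE P] where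
  V : P → E → Prop
  L : P → E → E → Prop
  Vm : ∀ p q e, q ≤ p → V p e → V q e
  Lm : ∀ p q e' e, q ≤ p → L p e' e → L q e' e
  Lr : ∀ p e, V p e → L p e e
  Lt : ∀ p e'' e' e, V p e'' → V p e' → V p e → L p e'' e' → L p e' e → L p e'' e

/-- the two step iteration; `none` is the trivial condition of the second forcing -/
@[ext] structure TS {P E : Type} [LE P] (S : ESys P E) where
  fst : P
  snd : Option E
  ok : ∀ e, snd = some e → S.V fst e

instance {P E : Type} [LE P] (S : ESys P E) : LE (TS S) :=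
  ⟨fun x y => x.fst ≤ y.fst ∧ ∀ e, y.snd = some e → ∃ e', x.snd = some e' ∧ S.L x.fst e' e⟩

theorem TS.le_iff {P E : Type} [LE P] {S : ESys P E} {x y : TS S} :
    x ≤ y ↔ x.fst ≤ y.fst ∧ ∀ e, y.snd = some e → ∃ e', x.snd = some e' ∧ S.L x.fst e' e := Iff.rfl

instance {P E : Type} [Preorder P] (S : ESys P E) : Preorder (TS S) where
  le x y := x ≤ y
  le_refl x := ⟨le_refl _, fun e he => ⟨e, he, S.Lr _ _ (x.ok e he)⟩⟩
  le_trans x y z hxy hyz := by
    refine ⟨hxy.1.trans hyz.1, fun e he => ?_⟩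
    obtain ⟨e', h1, h2⟩ := hyz.2 e he
    obtain ⟨e'', h3, h4⟩ := hxy.2 e' h1
    exact ⟨e'', h3, S.Lt _ _ _ _ (x.ok _ h3) (S.Vm _ _ _ hxy.1 (y.ok _ h1))
      (S.Vm _ _ _ (hxy.1.trans hyz.1) (z.ok _ he)) h4 (S.Lm _ _ _ _ hxy.1 h2)⟩

/-! ### finite support iterations -/

/-- Raw conditions of an iteration along `J` over the forcing notion `P0`. -/
@[ext] structure Con (P0 J E : Type) where
  base : P0
  ent : J → Option E

section Iteration

variable {P0 J E : Type}

/-- the restriction of a condition to the coordinates below `i` -/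
def Con.res [LinearOrder J] (i : J) (p : Con P0 J E) : Con P0 J E :=
  ⟨p.base, fun j => if j < i then p.ent j else none⟩

variable [LE P0] [LinearOrder J] (V : J → Con P0 J E → E → Prop) (L : J → Con P0 J E → E → E → Prop)

/-- the order of the iteration -/
def cle (p q : Con P0 J E) : Prop :=
  p.base ≤ q.base ∧ ∀ (j : J) (e : E), q.ent j = some e → ∃ e', p.ent j = some e' ∧ L j (p.res j) e' e

omit [LE P0] in
/-- `p` is a condition of `P_i` -/
def IsC (i : J) (p : Con P0 J E) : Prop :=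
  {j | p.ent j ≠ none}.Finite ∧ ∀ (j : J) (e : E), p.ent j = some e → j < i ∧ V j (p.res j) e

/-- the forcing notion `P_i` -/
def PT (_L : J → Con P0 J E → E → E → Prop) (i : J) : Type := {p : Con P0 J E // IsC V i p}

instance (i : J) : LE (PT V L i) := ⟨fun a b => cle L a.1 b.1⟩

end Iteration

/-- a finite support iteration -/
structure FSys (P0 J E : Type) [Preorder P0] [LinearOrder J] where
  V : J → Con P0 J E → E → Prop
  L : J → Con P0 J E → E → E → Prop
  Vm : ∀ j p q e, IsC V j p → IsC V j q → cle L q p → V j p e → V j q e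
  Lm : ∀ j p q e' e, IsC V j p → IsC V j q → cle L q p → L j p e' e → L j q e' e
  Lr : ∀ j p e, IsC V j p → V j p e → L j p e e
  Lt : ∀ j p e'' e' e, IsC V j p → V j p e'' → V j p e' → V j p e → L j p e'' e' → L j p e' e →
    L j p e'' e

/-! ### the two kinds of forcing notions used in the iteration -/

/-- nodes of the binary tree -/
abbrev Nd : Type := List Bool

/-- values of names for side conditions -/
abbrev Val : Type := Finset Om × ℕ

/-- `v ≤ w` -/
def vle (v w : Val) : Prop := v.1 ⊆ w.1 ∧ v.2 ≤ w.2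

/-- Entries: nodes of a Suslin tree, or pairs of a stem and a function with values in (codes of) names
for side conditions. -/
inductive Ent (Cd : Type) : Type
  | nd : Om → Ent Cd
  | hd : List Nd → (List Nd → Cd) → Ent Cd

section Stage

variable {P Cd : Type} [LE P]

/-- `p` forces that `n` is an initial segment of the `α`-th real;
`r α j` is the truth value of: the `j`-th entry of the `α`-th real is `true` -/
def Ext (r : Om → ℕ → P → Prop) (α : Om) (n : Nd) (p : P) : Prop :=
  ∀ j : Fin n.length, if n[j] = true then r α j p else ∀ q, q ≤ p → ¬ r α j q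

/-- `p` forces that `n` belongs to the set of nodes with code `v` -/
def InS (r : Om → ℕ → P → Prop) (v : Val) (n : Nd) (p : P) : Prop :=
  v.2 ≤ n.length ∧ ∀ α ∈ v.1, ∀ q, q ≤ p → ¬ Ext r α n q

/-- `c` is a name (below `p`) for a side condition; `nm c q v`: `q` decides that the value is `v` -/
def Okc (A : Om → P → Prop) (nm : Cd → P → Val → Prop) (p : P) (c : Cd) : Prop :=
  (∀ q, q ≤ p → ∃ q', q' ≤ q ∧ ∃ v, nm c q' v) ∧
  (∀ q, q ≤ p → ∀ v w, nm c q v → nm c q w → v = w) ∧
  (∀ q, q ≤ p → ∀ v, nm c q v → ∀ α ∈ v.1, A α q)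

/-- conditions of the Laver type forcing -/
def VQ (A : Om → P → Prop) (nm : Cd → P → Val → Prop) (p : P) : Ent Cd → Prop
  | .hd _ Φ => ∀ t, Okc A nm p (Φ t)
  | .nd _ => False

/-- the order of the Laver type forcing -/
def LQ (r : Om → ℕ → P → Prop) (nm : Cd → P → Val → Prop) (p : P) : Ent Cd → Ent Cd → Prop
  | .hd s' Φ', .hd s Φ => s <+: s' ∧
      (∀ (t : List Nd) (q : P), q ≤ p → ∀ v v', nm (Φ t) q v → nm (Φ' t) q v' → vle v v') ∧
      (∀ (u : List Nd) (n : Nd), s <+: u → (u ++ [n]) <+: s' → ∀ q, q ≤ p → ∀ v, nm (Φ u) q v →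
        InS r v n q)
  | _, _ => False

/-- `p` forces that `R` is a Suslin tree order (without the clause on chains) -/
structure PreSus (R : Om → Om → P → Prop) (p : P) : Prop where
  lt : ∀ a b q, q ≤ p → R a b q → a < b
  trans : ∀ a b c q, q ≤ p → R a b q → R b c q → R a c q
  tree : ∀ a b c q, q ≤ p → a < b → R a c q → R b c q → R a b q
  succ : ∀ a x q, q ≤ p → ∃ q', q' ≤ q ∧ ∃ b, x < b ∧ R a b q'
  anti : ∀ X : Om → P → Prop, Mon X → ∀ q, q ≤ p →
    (∀ x q', q' ≤ q → ∃ q'', q'' ≤ q' ∧ ∃ b, x < b ∧ X b q'') →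
    ∃ q', q' ≤ q ∧ ∃ a b, a < b ∧ X a q' ∧ X b q' ∧ R a b q'

/-- conditions of the forcing with the tree `R` (below `p0`) -/
def VR (R : Om → Om → P → Prop) (p0 p : P) : Ent Cd → Prop
  | .nd _ => p ≤ p0 ∧ PreSus R p0
  | .hd _ _ => False

/-- the order of the forcing with the tree `R` -/
def LR (R : Om → Om → P → Prop) (p : P) : Ent Cd → Ent Cd → Prop
  | .nd a', .nd a => a = a' ∨ R a a' p
  | _, _ => False

/-- names for side conditions can be mixed -/
def Mix (nm : Cd → P → Val → Prop) : Prop :=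
  ∀ (p : P) (Θ : P → Val → Prop), (∀ q q' v, q' ≤ q → Θ q v → Θ q' v) →
    (∀ q, q ≤ p → ∃ q', q' ≤ q ∧ ∃ v, Θ q' v) →
    ∃ c : Cd, (∀ q, q ≤ p → ∃ q', q' ≤ q ∧ ∃ v, nm c q' v) ∧
      (∀ q, q ≤ p → ∀ v w, nm c q v → nm c q w → v = w) ∧
      (∀ q, q ≤ p → ∀ v, nm c q v → Θ q v)

/-- `S` is the name of the Laver type forcing -/
structure IsQS (S : ESys P (Ent Cd)) (r : Om → ℕ → P → Prop) (A : Om → P → Prop)
    (nm : Cd → P → Val → Prop) : Prop where
  V_iff : ∀ p e, S.V p e ↔ VQ A nm p e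
  L_iff : ∀ p e' e, S.L p e' e ↔ LQ r nm p e' e
  rreg : ∀ α n, Reg (r α n)
  areg : ∀ α, Reg (A α)
  nmon : ∀ c p q v, q ≤ p → nm c p v → nm c q v
  mix : Mix nm

/-- `S` is the name of the forcing with the tree `R` -/
structure IsTR (S : ESys P (Ent Cd)) (R : Om → Om → P → Prop) (p0 : P) : Prop where
  V_iff : ∀ p e, S.V p e ↔ VR R p0 p e
  L_iff : ∀ p e' e, S.L p e' e ↔ LR R p e' e
  rreg : ∀ a b, Reg (R a b)

end Stage

/-! ### codes for names and the iteration -/

/-- parameters of the stages of the iteration -/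
inductive Par (P0 J Cd : Type) : Type
  | qs : (Om → ℕ → Cd) → (Om → Cd) → Par P0 J Cd
  | tr : Con P0 J (Ent Cd) → (Om → Om → Cd) → Par P0 J Cd

section Codes

variable {P0 J Cd : Type} [LE P0] [LinearOrder J]
  (dec : Cd → ℕ → Option (Con P0 J (Ent Cd) × Val)) (b : J → Par P0 J Cd)
  (V : J → Con P0 J (Ent Cd) → Ent Cd → Prop) (L : J → Con P0 J (Ent Cd) → Ent Cd → Ent Cd → Prop)

/-- the truth value coded by `c`, in the forcing notion `P_i` -/
def tv (i : J) (c : Cd) (q : PT V L i) : Prop :=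
  ∀ q', q' ≤ q → ∃ q'', q'' ≤ q' ∧ ∃ k x v, dec c k = some (x, v) ∧
    ∃ h : IsC V i x, q'' ≤ (⟨x, h⟩ : PT V L i)

/-- the name for a side condition coded by `c`, in the forcing notion `P_i` -/
def nmc (i : J) (c : Cd) (q : PT V L i) (v : Val) : Prop :=
  ∃ k x, dec c k = some (x, v) ∧ ∃ h : IsC V i x, q ≤ (⟨x, h⟩ : PT V L i)

/-- the conditions at stage `i` -/
def stV (i : J) (p : Con P0 J (Ent Cd)) (e : Ent Cd) : Prop :=
  ∃ h : IsC V i p, match b i with
    | .qs _ A => VQ (fun α => tv dec V L i (A α)) (nmc dec V L i) ⟨p, h⟩ e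
    | .tr p0 R => ∃ h0 : IsC V i p0, VR (fun a b => tv dec V L i (R a b)) ⟨p0, h0⟩ ⟨p, h⟩ e

/-- the order at stage `i` -/
def stL (i : J) (p : Con P0 J (Ent Cd)) (e' e : Ent Cd) : Prop :=
  ∃ h : IsC V i p, match b i with
    | .qs r _ => LQ (fun α n => tv dec V L i (r α n)) (nmc dec V L i) ⟨p, h⟩ e' e
    | .tr _ R => LR (fun a b => tv dec V L i (R a b)) ⟨p, h⟩ e' e

end Codes

section FS

variable {P0 J E : Type} [Preorder P0] [LinearOrder J]

/-- the forcing notions `P_i` of a finite support iteration -/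
abbrev FSys.P (S : FSys P0 J E) (i : J) : Type := PT S.V S.L i

end FS

/-- `S` is the finite support iteration with the parameters `b` -/
def IsIter {P0 J Cd : Type} [Preorder P0] [LinearOrder J]
    (dec : Cd → ℕ → Option (Con P0 J (Ent Cd) × Val)) (b : J → Par P0 J Cd)
    (S : FSys P0 J (Ent Cd)) : Prop :=
  ∀ i, S.V i = stV dec b S.V S.L i ∧ S.L i = stL dec b S.V S.L i

/-- the properties of codes and of the bookkeeping function -/
structure Book {P0 J Cd : Type} [LinearOrder J] [OrderTop J]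
    (dec : Cd → ℕ → Option (Con P0 J (Ent Cd) × Val)) (b : J → Par P0 J Cd) : Prop where
  /-- every sequence of conditions is coded -/
  code : ∀ s : ℕ → Option (Con P0 J (Ent Cd) × Val),
    (∀ k x v, s k = some (x, v) → {j | x.ent j ≠ none}.Finite) → ∃ c, dec c = s
  /-- the top is a limit -/
  ne : ∃ j : J, j < ⊤
  lim : ∀ j : J, j < ⊤ → ∃ k, j < k ∧ k < ⊤
  /-- of cofinality bigger than aleph one -/
  cof : ∀ f : Om → J, (∀ a, f a < ⊤) → ∃ i, i < ⊤ ∧ ∀ a, f a < i
  /-- parameters of the first kind are treated cofinally often -/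
  qs : ∀ (r : Om → ℕ → Cd) (A : Om → Cd) (i : J), i < ⊤ → ∃ j, i ≤ j ∧ j < ⊤ ∧ b j = .qs r A
  /-- parameters of the second kind are treated cofinally often -/
  tr : ∀ (p : Con P0 J (Ent Cd)) (R : Om → Om → Cd) (i : J), {j | p.ent j ≠ none}.Finite → i < ⊤ →
    ∃ j, i ≤ j ∧ j < ⊤ ∧ b j = .tr p R

end BI
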