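import Pool.Agent.Helper18.BI.Core

/-!
# BI-09 Countable names for infinite subsets

TO PROVE (in place): if `P` has the countable chain condition and `D : K → P → Prop` is monotone then there is a
countable set `Z` of pairs `(a, e)` with `D e a` such that below every condition forcing `D` to be
infinite, every condition is compatible with some `a`, `(a, e) ∈ Z`, `e` outside a given finite set.

Proof.  For every `n` let `W n := {a | ∃ s : Finset K, s.card = n ∧ ∀ e ∈ s, D e a}`.  By Zorn (`zorn_subset`, as in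
`LM.ae_of_dense` of Pool/Agent/Helper18/LM/Gen.lean) there is a maximal antichain `𝒜 n ⊆ W n` (a set of pairwise
incompatible conditions, maximal among the antichains contained in `W n`); it is countable by `CCC`, and every
`a ∈ W n` is compatible with an element of `𝒜 n`.  For `a ∈ 𝒜 n` choose such a finset `s n a`.  Put
`Z := {(a, e) | ∃ n, a ∈ 𝒜 n ∧ e ∈ s n a}`, a countable set.
Let `InfB D q`, `F`, `q' ≤ q`, `n := F.card + 1`.  By induction on `k` there are `r ≤ q'` and a finset `s` with
`s.card = k` and `∀ e ∈ s, D e r` (apply `InfB D q` with the finset found so far, and monotonicity).  So for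
`k = n` we get `r ∈ W n`, `r ≤ q'`, hence `r` is compatible with some `a ∈ 𝒜 n`; a common extension `c` is `≤ q'` and
`≤ a`.  Since `(s n a).card = n > F.card` there is `e ∈ s n a` with `e ∉ F`.
-/

set_option autoImplicit false

namespace BI

theorem exists_ctbName {P K : Type} [Preorder P] (hP : CCC P) (D : K → P → Prop) (hD : Mon D) :
    ∃ Z : Set (P × K), Z.Countable ∧ (∀ z ∈ Z, D z.2 z.1) ∧
      ∀ q, InfB D q → ∀ (F : Finset K) (q' : P), q' ≤ q → ∃ z ∈ Z, z.2 ∉ F ∧ Cmp q' z.1 := by
  classical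
  have hmax : ∀ n : ℕ, ∃ A : Set P, A ⊆ {a | ∃ s : Finset K, s.card = n ∧ ∀ e ∈ s, D e a} ∧
      A.Countable ∧ ∀ r ∈ {a | ∃ s : Finset K, s.card = n ∧ ∀ e ∈ s, D e a}, ∃ a ∈ A, Cmp r a := by
    intro n
    set W : Set P := {a | ∃ s : Finset K, s.card = n ∧ ∀ e ∈ s, D e a} with hW
    obtain ⟨A, hA⟩ := zorn_subset {A : Set P | A ⊆ W ∧ ∀ a ∈ A, ∀ b ∈ A, a ≠ b → ¬ Cmp a b} (by
      intro c hc hchain
      refine ⟨⋃₀ c, ⟨?_, ?_⟩, fun s hs => Set.subset_sUnion_of_mem hs⟩
      · exact Set.sUnion_subset fun s hs => (hc hs).1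
      · rintro a ⟨s, hs, has⟩ b ⟨t, ht, hbt⟩ hab
        rcases hchain.total hs ht with hst | hst
        · exact (hc ht).2 a (hst has) b hbt hab
        · exact (hc hs).2 a has b (hst hbt) hab)
    obtain ⟨⟨hAW, hanti⟩, hmax⟩ := hA
    refine ⟨A, hAW, hP A hanti, fun r hr => ?_⟩
    by_contra hcon
    push Not at hcon
    have h1 : insert r A ⊆ A := by
      refine hmax ⟨Set.insert_subset hr hAW, ?_⟩ (Set.subset_insert _ _)
      rintro a (rfl | ha) b (rfl | hb) hab hc
      · exact hab rfl
      · exact hcon b hb hc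
      · obtain ⟨c, h1, h2⟩ := hc
        exact hcon a ha ⟨c, h2, h1⟩
      · exact hanti a ha b hb hab hc
    exact hcon r (h1 (Set.mem_insert _ _)) ⟨r, le_refl r, le_refl r⟩
  choose A hAW hAc hAm using hmax
  have hs : ∀ (n : ℕ) (a : P), ∃ s : Finset K, a ∈ A n → (s.card = n ∧ ∀ e ∈ s, D e a) := by
    intro n a
    by_cases ha : a ∈ A n
    · obtain ⟨s, h⟩ := hAW n ha
      exact ⟨s, fun _ => h⟩
    · exact ⟨∅, fun h => absurd h ha⟩
  choose s hs using hs
  refine ⟨⋃ n, ⋃ a ∈ A n, (fun e => (a, e)) '' (s n a : Set K), ?_, ?_, ?_⟩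
  · exact Set.countable_iUnion fun n => (hAc n).biUnion fun a _ => (s n a).countable_toSet.image _
  · intro z hz
    simp only [Set.mem_iUnion, Set.mem_image] at hz
    obtain ⟨n, a, ha, e, he, rfl⟩ := hz
    exact (hs n a ha).2 e he
  · intro q hq F q' hq'
    have key : ∀ k : ℕ, ∃ r, r ≤ q' ∧ ∃ t : Finset K, t.card = k ∧ ∀ e ∈ t, D e r := by
      intro k
      induction k with
      | zero => exact ⟨q', le_refl q', ∅, Finset.card_empty, by simp⟩
      | succ k ih =>
        obtain ⟨r, hr, t, ht, htr⟩ := ih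
        obtain ⟨r', hr', e, he, hDe⟩ := hq t r (hr.trans hq')
        refine ⟨r', hr'.trans hr, insert e t, by rw [Finset.card_insert_of_notMem he, ht], ?_⟩
        intro x hx
        rcases Finset.mem_insert.1 hx with rfl | hx
        · exact hDe
        · exact hD x r r' hr' (htr x hx)
    obtain ⟨r, hr, t, ht, htr⟩ := key (F.card + 1)
    obtain ⟨a, ha, c, hcr, hca⟩ := hAm (F.card + 1) r ⟨t, ht, htr⟩
    obtain ⟨e, he, heF⟩ : ∃ e ∈ s (F.card + 1) a, e ∉ F := by
      by_contra hcon
      push Not at hcon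
      have := Finset.card_le_card (show s (F.card + 1) a ⊆ F from hcon)
      rw [(hs _ a ha).1] at this
      omega
    refine ⟨(a, e), ?_, heF, c, hcr.trans hr, hca⟩
    simp only [Set.mem_iUnion, Set.mem_image]
    exact ⟨F.card + 1, a, ha, e, he, rfl⟩

end BI
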