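import Mathlib

/-!
# Barely independent families of cardinality aleph one and Luzin spaces: definitions

`Om` is the first uncountable ordinal.  The first section contains the notions of ZFC, the second
section their truth values in the Boolean valued model over a complete Boolean algebra `B`.
A name for a subset of a set `X` is a function `X → B`, a name for a function from `X` to `Y` is an
element of `Fn B X Y`; quantifiers over subsets and functions are suprema and infima over names.
-/

set_option autoImplicit false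

namespace BI

/-- the well-ordered type of the countable ordinals -/
abbrev Om : Type := (Ordinal.omega 1).ToType

section ZFC

/-- Luzin spaces: uncountable regular Hausdorff spaces without isolated points in which every nowhere
dense set is countable. -/
structure LuzinSpace (X : Type*) [TopologicalSpace X] : Prop where
  unc : Uncountable X
  t3 : T3Space X
  noiso : ∀ x : X, ¬ IsOpen ({x} : Set X)
  nwd : ∀ N : Set X, IsNowhereDense N → N.Countable

/-- the finite sequence `s` is an initial segment of `x` -/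
def Pre (s : List Bool) (x : ℕ → Bool) : Prop := ∀ j : Fin s.length, s[j] = x j

/-- Every subset of a set of reals of cardinality aleph one is a relative `F_σ`: for every injective
family `r` of elements of Cantor space indexed by the countable ordinals and every set `A` of indices
there is a sequence `z` of finite sequences such that `α ∈ A` iff `z i` is an initial segment of `r α`
for only finitely many `i`.  (For every `k` the set of all `x` which extend no `z i`, `i ≥ k`,
is closed.) -/
def QSets : Prop := ∀ r : Om → ℕ → Bool, Function.Injective r → ∀ A : Set Om,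
  ∃ z : ℕ → List Bool, ∀ α : Om, α ∈ A ↔ ∃ k : ℕ, ∀ i : ℕ, k ≤ i → ¬ Pre (z i) (r α)

/-- `R` is a Suslin tree order on the countable ordinals: a tree order contained in the order of the
ordinals such that every node has uncountably many successors, without uncountable chains and
antichains. -/
structure SuslinTree (R : Om → Om → Prop) : Prop where
  lt : ∀ a b, R a b → a < b
  trans : ∀ a b c, R a b → R b c → R a c
  tree : ∀ a b c, a < b → R a c → R b c → R a b
  succ : ∀ a, ¬ {b | R a b}.Countable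
  noantichain : ∀ X : Set Om, ¬ X.Countable → ∃ a ∈ X, ∃ b ∈ X, R a b
  nochain : ∀ X : Set Om, ¬ X.Countable → ∃ a ∈ X, ∃ b ∈ X, a ≠ b ∧ ¬ R a b ∧ ¬ R b a

/-- the set `⋂ {A α ^ h(α) : α ∈ X}`, where `A α ^ 1 = A α` and `A α ^ 0` is the complement -/
def Cell (A : Om → Set Om) (X : Set Om) (h : Om → Prop) : Set Om := {δ | ∀ α ∈ X, (δ ∈ A α ↔ h α)}

/-- `{A α : α < ω₁}` is a barely independent family over `ω₁` of cardinality `ω₁` (with `A`
injective). -/
structure Barely (A : Om → Set Om) : Prop where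
  inj : ∀ α β, α ≠ β → A α ≠ A β
  fin : ∀ (X : Set Om) (h : Om → Prop), X.Finite → ¬ (Cell A X h).Countable
  ctb : ∀ (X : Set Om) (h : Om → Prop), X.Countable → ¬ X.Finite → (Cell A X h).Countable

end ZFC

section Boolean

/-- Names for functions from `X` to `Y`: `val x y` is the truth value of `f(x) = y`. -/
structure Fn (B : Type) [CompleteBooleanAlgebra B] (X Y : Type) where
  val : X → Y → B
  total : ∀ x, ⨆ y, val x y = ⊤
  uniq : ∀ x y y', y ≠ y' → val x y ⊓ val x y' = ⊥

variable {B : Type} [CompleteBooleanAlgebra B]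

/-- the truth value of `a ↔ b` -/
def bIff (a b : B) : B := (a ⇨ b) ⊓ (b ⇨ a)

/-- the truth value of: the subset of `X` with the name `S` is countable, i.e. contained in the range
of a function from `ℕ` to `X` -/
def bCtb {X : Type} (S : X → B) : B := ⨆ f : Fn B ℕ X, ⨅ x : X, S x ⇨ ⨆ n : ℕ, f.val n x

/-- the truth value of: the subset of `X` with the name `S` is finite -/
def bFin {X : Type} (S : X → B) : B := ⨆ F : Finset X, ⨅ x : X, ⨅ _ : x ∉ F, (S x)ᶜ

/-- the truth value of: the finite sequence `s` is an initial segment of the real with the name `x`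
(`x n` is the truth value of: the `n`-th entry is `true`) -/
def bPre (s : List Bool) (x : ℕ → B) : B := ⨅ j : Fin s.length, if s[j] then x j else (x j)ᶜ

variable (B) in
/-- the truth value of `QSets` -/
def bQSets : B := ⨅ r : Om → ℕ → B, ⨅ A : Om → B,
  (⨅ α : Om, ⨅ β : Om, ⨅ _ : α ≠ β, ⨆ n : ℕ, (bIff (r α n) (r β n))ᶜ) ⇨
    ⨆ z : Fn B ℕ (List Bool), ⨅ α : Om,
      bIff (A α) (⨆ k : ℕ, ⨅ i : ℕ, ⨅ _ : k ≤ i, (⨆ s : List Bool, z.val i s ⊓ bPre s (r α))ᶜ)

/-- the truth value of: the relation `R` is a Suslin tree order (see `SuslinTree`) -/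
def bSuslin (R : Om → Om → B) : B :=
  (⨅ a : Om, ⨅ b : Om, ⨅ _ : ¬ a < b, (R a b)ᶜ) ⊓
  (⨅ a : Om, ⨅ b : Om, ⨅ c : Om, (R a b ⊓ R b c) ⇨ R a c) ⊓
  (⨅ a : Om, ⨅ b : Om, ⨅ c : Om, ⨅ _ : a < b, (R a c ⊓ R b c) ⇨ R a b) ⊓
  (⨅ a : Om, (bCtb (fun b => R a b))ᶜ) ⊓
  (⨅ X : Om → B, (bCtb X)ᶜ ⇨ ⨆ a : Om, ⨆ b : Om, X a ⊓ X b ⊓ R a b) ⊓
  (⨅ X : Om → B, (bCtb X)ᶜ ⇨ ⨆ a : Om, ⨆ b : Om, ⨆ _ : a ≠ b, X a ⊓ X b ⊓ ((R a b)ᶜ ⊓ (R b a)ᶜ))

/-- the name of `Cell A X h`; `A α δ` is the truth value of `δ ∈ A α` -/
def bCell (A : Om → Om → B) (X h : Om → B) (δ : Om) : B := ⨅ α : Om, X α ⇨ bIff (A α δ) (h α)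

/-- the truth value of: the family with the name `A` is barely independent over `ω₁` of cardinality
`ω₁` (see `Barely`) -/
def bBarely (A : Om → Om → B) : B :=
  (⨅ α : Om, ⨅ β : Om, ⨅ _ : α ≠ β, ⨆ δ : Om, (bIff (A α δ) (A β δ))ᶜ) ⊓
  (⨅ X : Om → B, ⨅ h : Om → B, bFin X ⇨ (bCtb (bCell A X h))ᶜ) ⊓
  (⨅ X : Om → B, ⨅ h : Om → B, (bCtb X ⊓ (bFin X)ᶜ) ⇨ bCtb (bCell A X h))

variable (B) in
/-- the countable chain condition -/
def bCCC : Prop := ∀ S : Set B, (∀ a ∈ S, a ≠ ⊥) → (∀ a ∈ S, ∀ b ∈ S, a ≠ b → a ⊓ b = ⊥) → S.Countable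

end Boolean

end BI
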