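import Pool.Agent.Helper18.BI.Core

/-!
# BI-12 Initial segments of the named reals

TO PROVE (in place).  All statements are about a forcing notion `P` and regular statements `r α j`.
`Ext r α n p` says that `p` forces that `n` is an initial segment of the `α`-th real.

* `ext_mono`: by `hr`, `r α j` is monotone (`(hr α j q).2 (fun q' hq' => (hr α j p).1 h q' _)`), and the other case is a
  universal statement.
* `ext_reg`: (→) by `ext_mono`, taking `q` itself.  (←) for `n[j] = true` use `(hr α j p).2`; for `n[j] = false`: if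
  `q ≤ p` and `r α j q`, take `q' ≤ q` with `Ext r α n q'`; then `¬ r α j q'`, but `r α j` is monotone.
* `ext_dec`: induction on `l`.  From `q`, `n` of length `l` decide `r α l`: either some `q' ≤ q` has `r α l q'` (append
  `true`), or no `q' ≤ q` has it (append `false`).  (For the indices: the entries of `n ++ [b]` at `j < l` are those
  of `n`, the entry at `l` is `b`.)
* `ext_prefix`: the entries of a prefix agree (`List.IsPrefix.getElem` or `List.prefix_iff_eq_take`).
* `ext_uniq`: if `n ≠ m` have the same length, there is `j` with `n[j] ≠ m[j]` (`List.ext_getElem`), say `n[j] = true`,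
  `m[j] = false`; then `r α j p` and `∀ q ≤ p, ¬ r α j q`, contradiction with `le_refl`.
* `ins_mono`, `ins_anti`: clear.  `ins_dense`: the first part does not depend on the condition; if `α ∈ v.1`, `q ≤ p`
  and `Ext r α n q`, take `q' ≤ q` with `InS r v n q'`; then `¬ Ext r α n q'`, contradiction with `ext_mono`.
-/

set_option autoImplicit false

namespace BI

variable {P : Type} [Preorder P] {r : Om → ℕ → P → Prop}

theorem Reg.mono {U : P → Prop} (hU : Reg U) {p q : P} (h : q ≤ p) (hp : U p) : U q :=
  (hU q).2 fun q' hq' => (hU p).1 hp q' (hq'.trans h)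

theorem Reg.dense {U : P → Prop} (hU : Reg U) {p : P} (h : ∀ q, q ≤ p → ∃ q', q' ≤ q ∧ U q') : U p :=
  (hU p).2 h

theorem ext_mono (hr : ∀ α n, Reg (r α n)) {α : Om} {n : Nd} {p q : P} (h : q ≤ p)
    (he : Ext r α n p) : Ext r α n q := by
  intro j
  have hj := he j
  by_cases hb : n[j] = true
  · rw [if_pos hb] at hj ⊢
    exact (hr α j).mono h hj
  · rw [if_neg hb] at hj ⊢
    exact fun q' hq' => hj q' (hq'.trans h)

theorem ext_reg (hr : ∀ α n, Reg (r α n)) (α : Om) (n : Nd) : Reg (Ext r α n) := by
  intro p
  constructor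
  · intro h q hq
    exact ⟨q, le_refl _, ext_mono hr hq h⟩
  · intro h j
    by_cases hb : n[j] = true
    · rw [if_pos hb]
      refine (hr α j p).2 fun q hq => ?_
      obtain ⟨q', hq', he⟩ := h q hq
      have hj := he j
      rw [if_pos hb] at hj
      exact ⟨q', hq', hj⟩
    · rw [if_neg hb]
      intro q hq hrq
      obtain ⟨q', hq', he⟩ := h q hq
      have hj := he j
      rw [if_neg hb] at hj
      exact hj q' (le_refl _) ((hr α j).mono hq' hrq)

theorem ext_dec (hr : ∀ α n, Reg (r α n)) (α : Om) (l : ℕ) (p : P) :
    ∃ q, q ≤ p ∧ ∃ n : Nd, n.length = l ∧ Ext r α n q := by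
  induction l with
  | zero =>
    refine ⟨p, le_refl _, [], rfl, ?_⟩
    intro j
    exact absurd j.2 (by simp)
  | succ l ih =>
    obtain ⟨q, hq, n, hn, he⟩ := ih
    by_cases hex : ∃ q', q' ≤ q ∧ r α l q'
    · obtain ⟨q', hq', hr'⟩ := hex
      refine ⟨q', hq'.trans hq, n ++ [true], by simp [hn], ?_⟩
      intro j
      have hj2 : (j : ℕ) < l + 1 := by
        have := j.2
        simp only [List.length_append, List.length_singleton, hn] at this
        exact this
      by_cases hjl : (j : ℕ) < l
      · have hjn : (j : ℕ) < n.length := by rw [hn]; exact hjl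
        have e : (n ++ [true])[j] = n[(⟨j, hjn⟩ : Fin n.length)] := by
          change (n ++ [true])[(j : ℕ)] = n[(j : ℕ)]
          exact List.getElem_append_left hjn
        rw [e]
        exact ext_mono hr hq' he ⟨j, hjn⟩
      · have hjl' : (j : ℕ) = n.length := by omega
        have e : (n ++ [true])[j] = true := by
          change (n ++ [true])[(j : ℕ)] = true
          rw [List.getElem_append_right (by omega)]
          simp
        rw [if_pos e]
        have : (j : ℕ) = l := by omega
        rw [this]
        exact hr'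
    · refine ⟨q, hq, n ++ [false], by simp [hn], ?_⟩
      intro j
      have hj2 : (j : ℕ) < l + 1 := by
        have := j.2
        simp only [List.length_append, List.length_singleton, hn] at this
        exact this
      by_cases hjl : (j : ℕ) < l
      · have hjn : (j : ℕ) < n.length := by rw [hn]; exact hjl
        have e : (n ++ [false])[j] = n[(⟨j, hjn⟩ : Fin n.length)] := by
          change (n ++ [false])[(j : ℕ)] = n[(j : ℕ)]
          exact List.getElem_append_left hjn
        rw [e]
        exact he ⟨j, hjn⟩
      · have hjl' : (j : ℕ) = n.length := by omega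
        have e : ¬ (n ++ [false])[j] = true := by
          change ¬ (n ++ [false])[(j : ℕ)] = true
          rw [List.getElem_append_right (by omega)]
          simp
        rw [if_neg e]
        have : (j : ℕ) = l := by omega
        rw [this]
        intro q' hq' hr'
        exact hex ⟨q', hq', hr'⟩

theorem ext_prefix {α : Om} {n m : Nd} {p : P} (h : m <+: n) (he : Ext r α n p) : Ext r α m p := by
  intro j
  have hjn : (j : ℕ) < n.length := lt_of_lt_of_le j.2 h.length_le
  have hj := he ⟨j, hjn⟩
  have e : m[j] = n[(⟨j, hjn⟩ : Fin n.length)] := by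
    change m[(j : ℕ)] = n[(j : ℕ)]
    exact h.getElem j.2
  rw [e]
  exact hj

theorem ext_uniq {α : Om} {n m : Nd} {p : P} (hn : Ext r α n p) (hm : Ext r α m p)
    (h : n.length = m.length) : n = m := by
  apply List.ext_getElem h
  intro i h1 h2
  have a := hn ⟨i, h1⟩
  have b := hm ⟨i, h2⟩
  have ea : n[(⟨i, h1⟩ : Fin n.length)] = n[i] := rfl
  have eb : m[(⟨i, h2⟩ : Fin m.length)] = m[i] := rfl
  rw [ea] at a
  rw [eb] at b
  by_cases ha : n[i] = true
  · by_cases hb : m[i] = true
    · rw [ha, hb]
    · rw [if_pos ha] at a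
      rw [if_neg hb] at b
      exact absurd a (b p (le_refl _))
  · by_cases hb : m[i] = true
    · rw [if_neg ha] at a
      rw [if_pos hb] at b
      exact absurd b (a p (le_refl _))
    · rw [Bool.not_eq_true] at ha hb
      rw [ha, hb]

theorem ins_mono {v : Val} {n : Nd} {p q : P} (h : q ≤ p) (hp : InS r v n p) : InS r v n q :=
  ⟨hp.1, fun α hα q' hq' => hp.2 α hα q' (hq'.trans h)⟩

theorem ins_anti {v w : Val} {n : Nd} {p : P} (h : vle v w) (hp : InS r w n p) : InS r v n p :=
  ⟨h.2.trans hp.1, fun α hα q hq => hp.2 α (h.1 hα) q hq⟩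

theorem ins_dense (hr : ∀ α n, Reg (r α n)) {v : Val} {n : Nd} {p : P}
    (h : ∀ q, q ≤ p → ∃ q', q' ≤ q ∧ InS r v n q') : InS r v n p := by
  obtain ⟨q0, _, h0⟩ := h p (le_refl _)
  refine ⟨h0.1, fun α hα q hq he => ?_⟩
  obtain ⟨q', hq', hi⟩ := h q hq
  exact hi.2 α hα q' (le_refl _) (ext_mono hr hq' he)

end BI
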