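import Pool.Agent.Helper18.BI.Base

/-!
# Finite support iterations: lifting extensions of the two step iteration
-/

set_option autoImplicit false

namespace BI

variable {P0 J E : Type} [Preorder P0] [LinearOrder J] [WellFoundedLT J]

namespace FSys

/-- Changing a condition coordinate by coordinate. -/
theorem patch (S : FSys P0 J E) {i : J} (p : S.P i) (c : Con P0 J E) (hfin : {j | c.ent j ≠ none}.Finite)
    (hbase : c.base ≤ p.1.base) (hsup : ∀ k e, c.ent k = some e → k < i)
    (hst : ∀ k, k < i → IsC S.V k (c.res k) → cle S.L (c.res k) (p.1.res k) →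
      (∀ e, c.ent k = some e → S.V k (c.res k) e) ∧
      ∀ e, p.1.ent k = some e → ∃ e', c.ent k = some e' ∧ S.L k (c.res k) e' e) :
    ∃ c' : S.P i, c'.1 = c ∧ c' ≤ p := by
  have key : ∀ k, k ≤ i → IsC S.V k (c.res k) ∧ cle S.L (c.res k) (p.1.res k) := by
    intro k
    induction k using WellFoundedLT.induction with
    | ind k ih =>
      intro hk
      constructor
      · refine ⟨hfin.subset fun l hl => ?_, fun l e hl => ?_⟩
        · intro h1
          apply hl
          by_cases h2 : l < k
          · rw [Con.ent_res_of_lt _ h2]; exact h1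
          · simp [Con.res, h2]
        · obtain ⟨h1, h2⟩ := Con.ent_res_eq_some hl
          refine ⟨h1, ?_⟩
          rw [Con.res_res_of_le _ h1.le]
          obtain ⟨h4, h5⟩ := ih l h1 (h1.le.trans hk)
          exact (hst l (h1.trans_le hk) h4 h5).1 e h2
      · refine ⟨hbase, fun l e hl => ?_⟩
        obtain ⟨h1, h2⟩ := Con.ent_res_eq_some hl
        rw [Con.res_res_of_le _ h1.le]
        obtain ⟨h4, h5⟩ := ih l h1 (h1.le.trans hk)
        obtain ⟨e', h6, h7⟩ := (hst l (h1.trans_le hk) h4 h5).2 e h2
        exact ⟨e', (Con.ent_res_of_lt _ h1).trans h6, h7⟩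
  have hres : c.res i = c := by
    ext1
    · rfl
    · funext k
      by_cases h1 : k < i
      · exact Con.ent_res_of_lt _ h1
      · have h3 : c.ent k = none := by
          rcases h3 : c.ent k with _ | e
          · rfl
          · exact absurd (hsup k e h3) h1
        simp [Con.res, h1, h3]
  obtain ⟨h1, h2⟩ := key i le_rfl
  rw [hres] at h1 h2
  rw [p.2.res_eq le_rfl] at h2
  exact ⟨⟨c, h1⟩, rfl, h2⟩

/-- Extensions in the two step iteration of `P_j` and the forcing of stage `j` can be lifted. -/
theorem lift (S : FSys P0 J E) {i j : J} (h : j < i) (p : S.P i) (x : TS (S.es j))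
    (hx : x ≤ S.pj h p) :
    ∃ p' : S.P i, p' ≤ p ∧ S.pj h p' = x ∧ ∀ k, j < k → p'.1.ent k = p.1.ent k := by
  let c : Con P0 J E := ⟨x.fst.1.base, fun k => if k < j then x.fst.1.ent k else
    if k = j then x.snd else p.1.ent k⟩
  have hlt : ∀ k, k < j → c.ent k = x.fst.1.ent k := fun k hk => by simp [c, hk]
  have heq : c.ent j = x.snd := by simp [c]
  have hgt : ∀ k, j < k → c.ent k = p.1.ent k := fun k hk => by
    simp [c, not_lt.2 hk.le, hk.ne']
  have hres : c.res j = x.fst.1 := by
    ext1
    · rfl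
    · funext k
      by_cases h1 : k < j
      · rw [Con.ent_res_of_lt _ h1, hlt k h1]
      · have h3 : x.fst.1.ent k = none := by
          rcases h3 : x.fst.1.ent k with _ | e
          · rfl
          · exact absurd (x.fst.2.2 k e h3).1 h1
        simp [Con.res, h1, h3]
  have hres' : ∀ k, k ≤ j → c.res k = x.fst.1.res k := fun k hk => by
    rw [← hres, Con.res_res_of_le _ hk]
  have hfin : {k | c.ent k ≠ none}.Finite := by
    refine ((x.fst.2.1.union p.2.1).union (Set.finite_singleton j)).subset fun k hk => ?_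
    rcases lt_trichotomy k j with h1 | h1 | h1
    · left; left
      show x.fst.1.ent k ≠ none
      rw [← hlt k h1]; exact hk
    · right; exact h1
    · left; right
      show p.1.ent k ≠ none
      rw [← hgt k h1]; exact hk
  obtain ⟨c', hc, hcp⟩ := S.patch p c hfin hx.1.1 (by
    intro k e hk
    rcases lt_trichotomy k j with h1 | h1 | h1
    · exact h1.trans h
    · exact h1 ▸ h
    · exact (p.2.2 k e ((hgt k h1).symm.trans hk)).1) (by
    intro k hk h4 h5
    rcases lt_trichotomy k j with h1 | h1 | h1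
    · refine ⟨fun e he => ?_, fun e he => ?_⟩
      · rw [hres' k h1.le]
        exact (x.fst.2.2 k e ((hlt k h1).symm.trans he)).2
      · have h6 : (S.rs i j p).1.ent k = some e := (Con.ent_res_of_lt _ h1).trans he
        obtain ⟨e', h7, h8⟩ := hx.1.2 k e h6
        refine ⟨e', (hlt k h1).trans h7, ?_⟩
        rw [hres' k h1.le]; exact h8
    · subst h1
      refine ⟨fun e he => ?_, fun e he => ?_⟩
      · rw [hres]
        exact x.ok e (heq.symm.trans he)
      · obtain ⟨e', h7, h8⟩ := hx.2 e he
        refine ⟨e', heq.trans h7, ?_⟩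
        rw [hres]; exact h8
    · refine ⟨fun e he => ?_, fun e he => ?_⟩
      · rw [hgt k h1] at he
        exact S.Vm _ _ _ _ (p.2.res k) h4 h5 (p.2.2 k e he).2
      · exact ⟨e, (hgt k h1).trans he, S.Lr _ _ _ h4 (S.Vm _ _ _ _ (p.2.res k) h4 h5 (p.2.2 k e he).2)⟩)
  refine ⟨c', hcp, ?_, hc ▸ hgt⟩
  refine TS.ext (Subtype.ext ?_) ?_
  · show c'.1.res j = x.fst.1
    rw [hc]; exact hres
  · show c'.1.ent j = x.snd
    rw [hc]; exact heq

/-- the weakest condition of the two step iteration over `q` -/
def bas (S : FSys P0 J E) {j : J} (q : S.P j) : TS (S.es j) := ⟨q, none, fun _ h => by simp at h⟩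

theorem pj_surj (S : FSys P0 J E) {i j : J} (h : j < i) (x : TS (S.es j)) :
    ∃ p : S.P i, S.pj h p = x := by
  have h1 : x ≤ S.pj h (S.rs j i x.fst) := by
    refine ⟨?_, fun e he => ?_⟩
    · show x.fst ≤ S.rs i j (S.rs j i x.fst)
      rw [S.rs_rs_self h.le]
    · exfalso
      have h2 : (S.rs j i x.fst).1.ent j = some e := he
      rw [S.rs_incl h.le] at h2
      exact lt_irrefl _ (x.fst.2.2 j e h2).1
  obtain ⟨p', _, h3, _⟩ := S.lift h _ x h1
  exact ⟨p', h3⟩

omit [WellFoundedLT J] in
theorem pj_le_iff (S : FSys P0 J E) {i j : J} (h : j ⋖ i) {p q : S.P i} :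
    S.pj h.lt p ≤ S.pj h.lt q ↔ p ≤ q := by
  constructor
  · intro h1
    refine ⟨h1.1.1, fun k e he => ?_⟩
    have hk : k < i := (q.2.2 k e he).1
    rcases lt_or_ge k j with h2 | h2
    · have h3 : (S.rs i j q).1.ent k = some e := (Con.ent_res_of_lt _ h2).trans he
      obtain ⟨e', h4, h5⟩ := h1.1.2 k e h3
      have h6 : (S.rs i j p).1.ent k = p.1.ent k := Con.ent_res_of_lt _ h2
      refine ⟨e', h6.symm.trans h4, ?_⟩
      have h7 : (S.rs i j p).1.res k = p.1.res k := Con.res_res_of_le _ h2.le
      rw [← h7]; exact h5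
    · have h3 : k = j := le_antisymm (not_lt.1 fun h4 => h.2 h4 hk) h2
      subst h3
      exact h1.2 e he
  · exact S.pj_mono h.lt

end FSys

end BI
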