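import Pool.Agent.Helper18.BI.Core

/-!
# BI-05 Transfer of the chain condition and of tameness

TO PROVE (in place): the four theorems.

`ccc_of_map`: let `S` be an antichain of `P`.  `f` is injective on `S`: if `f a = f b` then `a ≤ b` by `hle`
(`le_refl`), so `a` is a common extension (`le_refl a`, `a ≤ b`), hence `a = b`.  `f '' S` is an antichain of `Q`: if
`c ≤ f a`, `c ≤ f b`, write `c = f c'`; then `c' ≤ a`, `c' ≤ b`; so `a = b`.  Hence `f '' S` is countable and
`S` is countable (`Set.MapsTo`/`Set.InjOn`: `Set.Countable.of_injOn`-style lemmas, or `Set.countable_of_injective_of_countable_image`).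

`tame_of_map`: given `D : K → P → Prop` monotone, put `D' e q := ∃ p, D e p ∧ q ≤ f p`, a monotone family over
`Q`.  Let `E` be the names given by `h` for `D'`.  Let `T`, `p : P` with `InfB D p`, `SubB D (T ∘ (g ∘ f)) p`.
`InfB D' (f p)`: for `F`, `q ≤ f p` write `q = f q'`, `q' ≤ p`; get `r ≤ q'`, `e ∉ F`, `D e r`; then
`f r ≤ q` (by `hle`) and `D' e (f r)`.  `SubB D' (fun e r => T e (g r)) (f p)`: let `q ≤ f p`, `D e r`, `q ≤ f r`; write
`q = f q'`; `q' ≤ p`, `q' ≤ r`, so `D e q'`, and `SubB` gives `r' ≤ q'` with `T e (g (f r'))`; take `f r' ≤ f q'`.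
So `h` gives `n`, `p0` for the condition `f p`.

`tame_comp`: given `D : K → Q → Prop`, let `E n` be the `P`-names from `h2`, and for every `n` let `E' n m` be the
`P0`-names from `h1` for `E n`; the family is `fun k => E' k.unpair.1 k.unpair.2`.  For `T : K → P0 → Prop` monotone,
`fun e p => T e (f p)` is monotone because `f` is.  If `q` is as in the definition, `h2` gives `n`, `p : P` with
`InfB (E n) p`, `SubB (E n) (fun e r => T e (f r)) p`, and then `h1` gives `m` and `p0`.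

`tame_refl`: `E n = D` for all `n`.
-/

set_option autoImplicit false

namespace BI

theorem ccc_of_map {P Q : Type} [Preorder P] [Preorder Q] (f : P → Q) (hs : Function.Surjective f)
    (hle : ∀ a b, f a ≤ f b ↔ a ≤ b) (h : CCC Q) : CCC P := by
  intro S hS
  have hinj : Set.InjOn f S := by
    intro a ha b hb hab
    by_contra hne
    exact hS a ha b hb hne ⟨a, le_refl a, (hle a b).1 hab.le⟩
  refine Set.countable_of_injective_of_countable_image hinj (h _ ?_)
  rintro _ ⟨a, ha, rfl⟩ _ ⟨b, hb, rfl⟩ hab ⟨c, hc1, hc2⟩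
  obtain ⟨c', rfl⟩ := hs c
  exact hS a ha b hb (fun h => hab (by rw [h])) ⟨c', (hle _ _).1 hc1, (hle _ _).1 hc2⟩

theorem tame_of_map {P0 P Q K : Type} [Preorder P0] [Preorder P] [Preorder Q] (f : P → Q) (g : Q → P0)
    (hs : Function.Surjective f) (hle : ∀ a b, f a ≤ f b ↔ a ≤ b) (h : RTame P0 Q K g) :
    RTame P0 P K (fun p => g (f p)) := by
  intro D hD
  obtain ⟨E, hE, hE2⟩ := h (fun e q => ∃ p, D e p ∧ q ≤ f p)
    (fun e q q' hq ⟨p, h1, h2⟩ => ⟨p, h1, hq.trans h2⟩)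
  refine ⟨E, hE, fun T hT p hinf hsub => hE2 T hT (f p) ?_ ?_⟩
  · intro F q hq
    obtain ⟨q', rfl⟩ := hs q
    obtain ⟨r, h1, e, h2, h3⟩ := hinf F q' ((hle _ _).1 hq)
    exact ⟨f r, (hle _ _).2 h1, e, h2, r, h3, le_refl _⟩
  · rintro e q hq ⟨r, h1, h2⟩
    obtain ⟨q', rfl⟩ := hs q
    obtain ⟨r', h3, h4⟩ := hsub e q' ((hle _ _).1 hq) (hD e r q' ((hle _ _).1 h2) h1)
    exact ⟨f r', (hle _ _).2 h3, h4⟩

theorem tame_comp {P0 P Q K : Type} [Preorder P0] [Preorder P] [Preorder Q] (f : P → P0) (g : Q → P)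
    (hf : ∀ a b, a ≤ b → f a ≤ f b) (h1 : RTame P0 P K f) (h2 : RTame P Q K g) :
    RTame P0 Q K (fun q => f (g q)) := by
  intro D hD
  obtain ⟨E, hE, hE2⟩ := h2 D hD
  have h3 := fun n => h1 (E n) (hE n)
  choose E' hE' hE'2 using h3
  refine ⟨fun k => E' k.unpair.1 k.unpair.2, fun k => hE' _ _, fun T hT q hinf hsub => ?_⟩
  obtain ⟨n, p, h4, h5⟩ := hE2 (fun e p => T e (f p))
    (fun e p p' hp h => hT e (f p) (f p') (hf _ _ hp) h) q hinf hsub
  obtain ⟨m, p0, h6, h7⟩ := hE'2 n T hT p h4 h5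
  have h8 : E' (Nat.pair n m).unpair.1 (Nat.pair n m).unpair.2 = E' n m := by
    rw [Nat.unpair_pair]
  refine ⟨Nat.pair n m, p0, ?_, ?_⟩
  · change InfB (E' (Nat.pair n m).unpair.1 (Nat.pair n m).unpair.2) p0
    rw [h8]
    exact h6
  · change SubB (E' (Nat.pair n m).unpair.1 (Nat.pair n m).unpair.2) T p0
    rw [h8]
    exact h7

theorem tame_refl {P0 K : Type} [Preorder P0] : RTame P0 P0 K (fun p => p) :=
  fun D hD => ⟨fun _ => D, fun _ => hD, fun _ _ q h1 h2 => ⟨0, q, h1, h2⟩⟩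

end BI
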