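import Pool.Agent.Helper18.BI.Codes
import Pool.Agent.Helper18.BI.Lift
import Pool.Agent.Helper18.BI.Trans

/-!
# BI-33 The stages of the iteration

* `isQS_stage`: `(hI j).1 : S.V j = stV ...`, `(hI j).2 : S.L j = stL ...`; `V_iff`: `(S.es j).V p e` is `S.V j p.1 e`, rewrite and
  unfold `stV` with `hb`; `∃ h : IsC S.V j p.1, VQ .. ⟨p.1, h⟩ e ↔ VQ .. p e`.  `rreg`, `areg` are `tv_reg`, `nmon` is
  `nmc_mono`, `mix` is `mix_nmc`.
* `isTR_stage`: the same.
* `none_stage`: if `b j = .tr p0 R` and `p0` is not a condition of `P_j` then `stV` is `False`, so every element of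
  `TS (S.es j)` has `snd = none`.
* `ccc_succ`: by `ccc_of_map` for `S.pj` (`pj_surj`, `pj_le_iff`).  `tame_succ`: `tame_of_map` for `f = S.pj hji.lt`,
  `g = fun x => x.fst.1.base`; `(S.pj _ p).fst.1.base = p.1.base`.
-/

set_option autoImplicit false

namespace BI

variable {P0 J Cd : Type} [Preorder P0] [LinearOrder J]
  {dec : Cd → ℕ → Option (Con P0 J (Ent Cd) × Val)} {b : J → Par P0 J Cd} {S : FSys P0 J (Ent Cd)}

theorem isQS_stage (hI : IsIter dec b S)
    (hcode : ∀ s : ℕ → Option (Con P0 J (Ent Cd) × Val),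
      (∀ k x v, s k = some (x, v) → {j | x.ent j ≠ none}.Finite) → ∃ c, dec c = s)
    {j : J} (hP : CCC (S.P j)) {r : Om → ℕ → Cd} {A : Om → Cd} (hb : b j = .qs r A) :
    IsQS (S.es j) (fun α n => tv dec S.V S.L j (r α n)) (fun α => tv dec S.V S.L j (A α))
      (nmc dec S.V S.L j) where
  V_iff p e := by
    have h1 : (S.es j).V p e ↔ stV dec b S.V S.L j p.1 e :=
      iff_of_eq (congrFun (congrFun (hI j).1 p.1) e)
    rw [h1]
    simp only [stV, hb]
    exact ⟨fun ⟨_, h⟩ => h, fun h => ⟨p.2, h⟩⟩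
  L_iff p e' e := by
    have h1 : (S.es j).L p e' e ↔ stL dec b S.V S.L j p.1 e' e :=
      iff_of_eq (congrFun (congrFun (congrFun (hI j).2 p.1) e') e)
    rw [h1]
    simp only [stL, hb]
    exact ⟨fun ⟨_, h⟩ => h, fun h => ⟨p.2, h⟩⟩
  rreg α n := tv_reg dec S j (r α n)
  areg α := tv_reg dec S j (A α)
  nmon c p q v h hp := nmc_mono dec S j c p q v h hp
  mix := mix_nmc dec S hcode j hP

theorem isTR_stage (hI : IsIter dec b S) {j : J} {p0 : Con P0 J (Ent Cd)} {R : Om → Om → Cd}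
    (hb : b j = .tr p0 R) (h0 : IsC S.V j p0) :
    IsTR (S.es j) (fun a c => tv dec S.V S.L j (R a c)) ⟨p0, h0⟩ where
  V_iff p e := by
    have h1 : (S.es j).V p e ↔ stV dec b S.V S.L j p.1 e :=
      iff_of_eq (congrFun (congrFun (hI j).1 p.1) e)
    rw [h1]
    simp only [stV, hb]
    exact ⟨fun ⟨_, _, h⟩ => h, fun h => ⟨p.2, h0, h⟩⟩
  L_iff p e' e := by
    have h1 : (S.es j).L p e' e ↔ stL dec b S.V S.L j p.1 e' e :=
      iff_of_eq (congrFun (congrFun (congrFun (hI j).2 p.1) e') e)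
    rw [h1]
    simp only [stL, hb]
    exact ⟨fun ⟨_, h⟩ => h, fun h => ⟨p.2, h⟩⟩
  rreg a c := tv_reg dec S j (R a c)

theorem none_stage (hI : IsIter dec b S) {j : J} {p0 : Con P0 J (Ent Cd)} {R : Om → Om → Cd}
    (hb : b j = .tr p0 R) (h0 : ¬ IsC S.V j p0) (x : TS (S.es j)) : x.snd = none := by
  rcases hx : x.snd with _ | e
  · rfl
  · exfalso
    have h1 : (S.es j).V x.fst e ↔ stV dec b S.V S.L j x.fst.1 e :=
      iff_of_eq (congrFun (congrFun (hI j).1 x.fst.1) e)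
    have h2 := h1.1 (x.ok e hx)
    simp only [stV, hb] at h2
    obtain ⟨_, h3, _⟩ := h2
    exact h0 h3

theorem ccc_succ {E : Type} {S : FSys P0 J E} [WellFoundedLT J] {i j : J} (hji : j ⋖ i)
    (h : CCC (TS (S.es j))) : CCC (S.P i) :=
  ccc_of_map (S.pj hji.lt) (S.pj_surj hji.lt) (fun _ _ => S.pj_le_iff hji) h

theorem tame_succ {E : Type} {S : FSys P0 J E} [WellFoundedLT J] {i j : J} (K : Type) (hji : j ⋖ i)
    (h : RTame P0 (TS (S.es j)) K (fun x => x.fst.1.base)) : RTame P0 (S.P i) K (fun p => p.1.base) :=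
  tame_of_map (S.pj hji.lt) (fun x => x.fst.1.base) (S.pj_surj hji.lt) (fun _ _ => S.pj_le_iff hji) h

end BI
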