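import Pool.Agent.Helper18.BI.ZA

/-!
# BI-28 The generic sequence of the Laver type forcing avoids the branches in `A`

Proof.  By `hd_start` we may assume `x.snd = some (.hd s Φ)` (the condition `y'` of `hd_start` has the same
first coordinate).  `const_code` gives a code `c0` for `({α}, 0)` below `x.fst`.  For every `u` let `Ψ u` be the code given
by `join_code` for `Φ u` and `c0`.  `hd_extend` (with `p = x.fst`, `t = s`; the third hypothesis is vacuous by lengths) gives
`y ≤ x` with `y.fst = x.fst`, `y.snd = some (.hd s Ψ)`.  Take `k = s.length`.  Let `w ≤ y`, `k ≤ i`, `Zz S i n w`, `q ≤ w.fst` and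
suppose `Ext r α n q`.  `hd_le`: `w.snd = some (.hd t Θ)` with `s <+: t`, and `t[i]? = some n`.  Let `u = t.take i`; then
`s <+: u` (`s.length ≤ i`) and `u ++ [n] <+: t` (`List.take_append_getElem`/`List.take_succ`).  Choose
`q' ≤ q`, `v` with `nm (Ψ u) q' v` (`Okc` of `Ψ u`).  The third clause of `hd_le` gives `InS r v n q'`.  Since
`nm c0` is decided densely: choose `q'' ≤ q'`, `w0` with `nm c0 q'' w0`; `w0 = ({α}, 0)`, and `vle w0 v`, so
`α ∈ v.1`.  So `¬ Ext r α n q'`, contradiction to `ext_mono`.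
-/

set_option autoImplicit false

namespace BI

theorem zz_in {P Cd : Type} [Preorder P] {S : ESys P (Ent Cd)} {r : Om → ℕ → P → Prop} {A : Om → P → Prop}
    {nm : Cd → P → Val → Prop} (h : IsQS S r A nm) {x : TS S} {α : Om} (hα : A α x.fst) :
    ∃ y, y ≤ x ∧ ∃ k : ℕ, ∀ w, w ≤ y → ∀ (i : ℕ) (n : Nd), k ≤ i → Zz S i n w →
      ∀ q, q ≤ w.fst → ¬ Ext r α n q := by
  obtain ⟨y0, hy0x, hy0f, s, Φ, hy0⟩ := hd_start h x
  obtain ⟨c0, hc0, hc0v⟩ := const_code h (p := y0.fst) (({α}, 0) : Val) (by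
    intro β hβ
    have : β = α := by simpa using hβ
    rw [this, hy0f]; exact hα)
  have hj : ∀ u : List Nd, ∃ c, Okc A nm y0.fst c ∧
      (∀ q, q ≤ y0.fst → ∀ v1 v, nm (Φ u) q v1 → nm c q v → vle v1 v) ∧
      (∀ q, q ≤ y0.fst → ∀ v2 v, nm c0 q v2 → nm c q v → vle v2 v) := fun u =>
    join_code h (okc_of_hd h hy0 (le_refl _) u) hc0
  choose Ψ hΨ1 hΨ2 hΨ3 using hj
  obtain ⟨y, hyy0, hyf, hys⟩ := hd_extend h hy0 (le_refl y0.fst) (List.prefix_refl s) hΨ1
    (fun u q hq v w hv hw => hΨ2 u q hq v w hv hw) (by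
      intro u n h1 h2
      exfalso
      have h3 := h1.length_le
      have h4 := h2.length_le
      simp at h4
      omega)
  refine ⟨y, hyy0.trans hy0x, s.length, ?_⟩
  intro w hwy i n hi hZ q hq hE
  obtain ⟨t, Θ, hws, hst, h2, h3⟩ := hd_le h hys hwy
  obtain ⟨t', Θ', hws', hti⟩ := hZ
  have htt : t' = t := by
    rw [hws] at hws'
    have := Option.some.inj hws'
    injection this with h1 h2
    exact h1.symm
  subst htt
  have hil : i < t'.length := by
    rw [List.getElem?_eq_some_iff] at hti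
    exact hti.1
  have hget : t'[i] = n := by
    rw [List.getElem?_eq_some_iff] at hti
    exact hti.2
  have hsu : s <+: t'.take i := by
    rw [List.prefix_take_iff]
    exact ⟨hst, hi⟩
  have hut : (t'.take i ++ [n]) <+: t' := by
    have : t'.take i ++ [n] = t'.take (i + 1) := by
      rw [List.take_add_one, hti]; rfl
    rw [this]
    exact List.take_prefix _ _
  have hqy0 : q ≤ y0.fst := by
    have h5 : w.fst ≤ y.fst := hwy.1
    rw [hyf] at h5
    exact hq.trans h5
  obtain ⟨q', hq'q, v, hv⟩ := (hΨ1 (t'.take i)).1 q hqy0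
  have hIn : InS r v n q' := h3 _ n hsu hut q' (hq'q.trans hq) v hv
  obtain ⟨q'', hq''q', w0, hw0⟩ := hc0.1 q' (hq'q.trans hqy0)
  have hw0v := hc0v q'' (hq''q'.trans (hq'q.trans hqy0)) w0 hw0
  subst hw0v
  have hv' := h.nmon _ _ _ _ hq''q' hv
  have hvle := hΨ3 (t'.take i) q'' (hq''q'.trans (hq'q.trans hqy0)) _ v hw0 hv'
  have hαv : α ∈ v.1 := hvle.1 (by simp)
  exact hIn.2 α hαv q' (le_refl _) (ext_mono h.rreg hq'q hE)

end BI
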