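import Pool.Agent.Helper18.BI.ZA

/-!
# BI-29 The generic sequence of the Laver type forcing meets the branches outside `A`

TO PROVE (in place).  By `stem_long` there is `y0 ≤ x` with `y0.snd = some (.hd s Φ)`, `k ≤ s.length`.  Choose
`q1 ≤ y0.fst`, `v` with `nm (Φ s) q1 v`.  For `β ∈ v.1` we have `A β q1` (`Okc`), so `β ≠ α` by `hα`.
By induction on the finset `v.1` (`hinj`; `Diff` is monotone) there is `q2 ≤ q1` such that for every `β ∈ v.1` there is
`m` with `Diff r α β m q2`; let `l` be bigger than all these `m` and `v.2 ≤ l`.  `ext_dec` gives `q3 ≤ q2` and `n` of length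
`l` with `Ext r α n q3`.  `InS r v n q3`: `v.2 ≤ l`; let `β ∈ v.1`, `q ≤ q3`, `Ext r β n q`; at the position `m < l` the
entries of `n` are described by `r α m` (at `q`, `ext_mono`) and by `r β m`: if `n[m] = true` then `r α m q` and
`r β m q`, if `n[m] = false` then `¬ r α m q'` and `¬ r β m q'` for all `q' ≤ q`; both contradict `Diff r α β m q`.
`hd_extend` (for `y0`, `p = q3`, `t = s ++ [n]`, `Ψ = Φ`; third hypothesis: `u = s`, `m = n`, and `w = v` by uniqueness) gives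
`y ≤ y0` with `y.fst = q3`, `y.snd = some (.hd (s ++ [n]) Φ)`.  Take `i = s.length`.
-/

set_option autoImplicit false

namespace BI

/-- the condition `q` forces that the `m`-th entries of the reals `α` and `β` are different -/
def Diff {P : Type} [Preorder P] (r : Om → ℕ → P → Prop) (α β : Om) (m : ℕ) (q : P) : Prop :=
  (r α m q ∧ ∀ q', q' ≤ q → ¬ r β m q') ∨ (r β m q ∧ ∀ q', q' ≤ q → ¬ r α m q')

private theorem diff_mono {P : Type} [Preorder P] {r : Om → ℕ → P → Prop} (hr : ∀ α n, Reg (r α n))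
    {α β : Om} {m : ℕ} {q q' : P} (hq : q' ≤ q) (h : Diff r α β m q) : Diff r α β m q' := by
  rcases h with ⟨h1, h2⟩ | ⟨h1, h2⟩
  · exact Or.inl ⟨(hr α m).mono hq h1, fun q'' hq'' => h2 q'' (hq''.trans hq)⟩
  · exact Or.inr ⟨(hr β m).mono hq h1, fun q'' hq'' => h2 q'' (hq''.trans hq)⟩

private theorem all_diff {P : Type} [Preorder P] {r : Om → ℕ → P → Prop} (hr : ∀ α n, Reg (r α n))
    {α : Om} {p0 : P}
    (hinj : ∀ β, β ≠ α → ∀ q, q ≤ p0 → ∃ q', q' ≤ q ∧ ∃ m, Diff r α β m q') (F : Finset Om)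
    (hF : ∀ β ∈ F, β ≠ α) (q1 : P) (hq1 : q1 ≤ p0) :
    ∃ q2, q2 ≤ q1 ∧ ∃ l : ℕ, ∀ β ∈ F, ∃ m, m < l ∧ Diff r α β m q2 := by
  classical
  induction F using Finset.induction_on with
  | empty => exact ⟨q1, le_refl _, 0, fun β hβ => by simp at hβ⟩
  | insert b F hb ih =>
    obtain ⟨q2, hq2, l, hl⟩ := ih (fun β hβ => hF β (Finset.mem_insert_of_mem hβ))
    obtain ⟨q3, hq3, m, hm⟩ := hinj b (hF b (Finset.mem_insert_self _ _)) q2 (hq2.trans hq1)
    refine ⟨q3, hq3.trans hq2, max l (m + 1), fun β hβ => ?_⟩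
    rcases Finset.mem_insert.1 hβ with h | h
    · subst h
      exact ⟨m, lt_of_lt_of_le (Nat.lt_succ_self m) (le_max_right _ _), hm⟩
    · obtain ⟨m', hm', hd⟩ := hl β h
      exact ⟨m', lt_of_lt_of_le hm' (le_max_left _ _), diff_mono hr hq3 hd⟩

theorem zz_out {P Cd : Type} [Preorder P] {S : ESys P (Ent Cd)} {r : Om → ℕ → P → Prop}
    {A : Om → P → Prop} {nm : Cd → P → Val → Prop} (h : IsQS S r A nm) {x : TS S} {α : Om}
    (hα : ∀ q, q ≤ x.fst → ¬ A α q)
    (hinj : ∀ β, β ≠ α → ∀ q, q ≤ x.fst → ∃ q', q' ≤ q ∧ ∃ m, Diff r α β m q') (k : ℕ) :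
    ∃ y, y ≤ x ∧ ∃ (i : ℕ) (n : Nd), k ≤ i ∧ Zz S i n y ∧ Ext r α n y.fst := by
  obtain ⟨y0, hy0, s, Φ, hs, hk⟩ := stem_long h k x
  have hy0x : y0.fst ≤ x.fst := hy0.1
  have hok := okc_of_hd h hs (le_refl y0.fst) s
  obtain ⟨q1, hq1, v, hv⟩ := hok.1 y0.fst (le_refl _)
  have hne : ∀ β ∈ v.1, β ≠ α := by
    intro β hβ hβα
    subst hβα
    exact hα q1 (hq1.trans hy0x) (hok.2.2 q1 hq1 v hv β hβ)
  obtain ⟨q2, hq2, l, hl⟩ := all_diff h.rreg hinj v.1 hne q1 (hq1.trans hy0x)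
  obtain ⟨q3, hq3, n, hn, hE⟩ := ext_dec h.rreg α (max l v.2) q2
  have hq30 : q3 ≤ y0.fst := hq3.trans (hq2.trans hq1)
  have hIn : InS r v n q3 := by
    refine ⟨by rw [hn]; exact le_max_right _ _, fun β hβ q hq hEβ => ?_⟩
    obtain ⟨m, hm, hd⟩ := hl β hβ
    have hmn : m < n.length := by rw [hn]; exact lt_of_lt_of_le hm (le_max_left _ _)
    have hEα := ext_mono h.rreg hq hE
    have h1 := hEα ⟨m, hmn⟩
    have h2 := hEβ ⟨m, hmn⟩
    have hd' := diff_mono h.rreg (hq.trans hq3) hd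
    by_cases hc : n[(⟨m, hmn⟩ : Fin n.length)] = true
    · rw [if_pos hc] at h1 h2
      rcases hd' with ⟨_, h4⟩ | ⟨_, h4⟩
      · exact h4 q (le_refl _) h2
      · exact h4 q (le_refl _) h1
    · rw [if_neg hc] at h1 h2
      rcases hd' with ⟨h3, _⟩ | ⟨h3, _⟩
      · exact h1 q (le_refl _) h3
      · exact h2 q (le_refl _) h3
  obtain ⟨y, hy, hyf, hys⟩ := hd_extend h hs (p := q3) hq30 (t := s ++ [n]) (Ψ := Φ)
    (List.prefix_append _ _) (fun u => okc_of_hd h hs hq30 u)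
    (fun u q hq v' w hv' hw => by
      have := (okc_of_hd h hs hq30 u).2.1 q hq v' w hv' hw
      subst this
      exact ⟨Finset.Subset.refl _, le_refl _⟩)
    (fun u n' hsu hun q hq w hw => by
      have hlen := hun.length_le
      simp only [List.length_append, List.length_singleton] at hlen
      have hlen2 := hsu.length_le
      have hus : s = u := hsu.eq_of_length (by omega)
      subst hus
      have hnn : s ++ [n'] = s ++ [n] := hun.eq_of_length (by simp)
      have hnn' : n' = n := by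
        simpa using hnn
      subst hnn'
      have hwv : w = v := hok.2.1 q (hq.trans hq30) w v hw
        (h.nmon _ q1 q v (hq.trans (hq3.trans hq2)) hv)
      subst hwv
      exact ins_mono hq hIn)
  refine ⟨y, hy.trans hy0, s.length, n, hk, ⟨s ++ [n], Φ, hys, by simp⟩, ?_⟩
  rw [hyf]
  exact hE

end BI
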