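import Pool.Agent.Helper18.BI.StageF
import Pool.Agent.Helper18.BI.Stage
import Pool.Agent.Helper18.BI.ZB
import Pool.Agent.Helper18.BI.ZC

/-!
# BI-39 In the final model all sets of reals of cardinality aleph one are Q-sets

TO PROVE (in place).  Let `P = S.P ⊤`.  By `RO.eq_top_iff` we show `(bQSets (RO P)).1 p` for all `p`.  Unfold: `RO.mem_iInf` for
`r`, `A`, then `RO.mem_himp`: let `p` be such that
(I) `(⨅ α β (_ : α ≠ β), ⨆ n, (bIff (r α n) (r β n))ᶜ).1 p`.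
`stage_qs` gives `j`, `rc`, `Ac`.  By `isQS_stage` (with `hP j`, `hB.code`) we have
`hS : IsQS (S.es j) r' A' nm` with `r' α n = tv .. (rc α n)`, `A' α = tv .. (Ac α)`.  For `q : P` write `q_j = S.rs ⊤ j q`; so
(a) `r' α n q_j ↔ (r α n).1 q`, `A' α q_j ↔ (A α).1 q`; (b) for `u ≤ q_j` in `S.P j` there is `w ≤ q` with
`S.rs ⊤ j w = u` (`S.amalgam`), hence: `(∀ u ≤ q_j, ¬ A' α u) ↔ (∀ w ≤ q, ¬ (A α).1 w)`, and the same for `r`;
(c) `S.pj hj q : TS (S.es j)` (with `hj : j < ⊤`) has first coordinate `q_j`; extensions can be lifted (`S.lift`).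
Hence, for `s : List Bool`: (d) `(bPre s (r α)).1 q ↔ Ext r' α s q_j` (compare the definitions; `Fin s.length`, the
`if`; `RO.mem_compl` and (b)).

The name `z`: `z.val k s = RO.cl (fun q => Zz (S.es j) k s (S.pj hj q)) _` (monotone by `zz_mono` and `pj_mono`).
`total`: by `RO.eq_top_iff`, `zz_dense` and `S.lift`.  `uniq`: if `(z.val k s ⊓ z.val k s').1 q` then there are
`q1 ≤ q` with `Zz k s (pj q1)` and `q2 ≤ q1` with `Zz k s' (pj q2)`; `zz_mono`, `zz_uniq` give `s = s'`.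

By `RO.mem_iSup` (or `le_iSup`) it suffices to show for this `z` and all `α`, with
`W = ⨆ k, ⨅ i, ⨅ (_ : k ≤ i), (⨆ s, z.val i s ⊓ bPre s (r α))ᶜ`: `(bIff (A α) W).1 p`, i.e. (`RO.mem_iff`)
for `q ≤ p`: `(A α).1 q ↔ W.1 q`.
(→) Let `(A α).1 q`.  `RO.mem_iSup`: let `q' ≤ q`.  `A' α q'_j`.  `zz_in` (for `x = S.pj hj q'`) gives `y ≤ x`, `k`; lift `y` to
`q'' ≤ q'` with `S.pj hj q'' = y`.  Claim: `(⨅ i, ⨅ (_ : k ≤ i), (⨆ s, z.val i s ⊓ bPre s (r α))ᶜ).1 q''`.  Let `k ≤ i`,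
`w ≤ q''` and suppose `(⨆ s, z.val i s ⊓ bPre s (r α)).1 w`.  Then there are `w1 ≤ w`, `s` with `(z.val i s).1 w1`,
`(bPre s (r α)).1 w1`, and `w2 ≤ w1` with `Zz i s (pj w2)`; `pj w2 ≤ y`.  By (d) `Ext r' α s (w2)_j`, and
`(pj w2).fst = (w2)_j`.  This contradicts `zz_in`.
(←) Let `W.1 q` and suppose `¬ (A α).1 q`.  `RO.exists_compl`: there is `q0 ≤ q` with `∀ w ≤ q0, ¬ (A α).1 w`.  By `W.1 q` there
are `q1 ≤ q0`, `k` with `(⨅ i, ⨅ (_ : k ≤ i), (⨆ s, ...)ᶜ).1 q1`.  Let `x = S.pj hj q1`.  `hα` of `zz_out` holds by (b).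
`hinj` of `zz_out`: let `β ≠ α`, `u ≤ x.fst = (q1)_j`; let `w ≤ q1` with `w_j = u`.  By (I) (for `α`, `β`, at `w ≤ p`) there are
`w' ≤ w`, `m` with `((bIff (r α m) (r β m))ᶜ).1 w'`, so `¬ (bIff (r α m) (r β m)).1 w'`; by `RO.mem_iff` there is `w'' ≤ w'` with
`¬ ((r α m).1 w'' ↔ (r β m).1 w'')`, say `(r α m).1 w''` and `¬ (r β m).1 w''`; then (`RO.exists_compl`) there is
`w3 ≤ w''` with `∀ v ≤ w3, ¬ (r β m).1 v`; hence `Diff r' α β m (w3)_j` by (a), (b), and `(w3)_j ≤ u`.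
`zz_out` gives `y ≤ x`, `i ≥ k`, `n` with `Zz i n y`, `Ext r' α n y.fst`; lift `y` to `q2 ≤ q1`.  Then
`(z.val i n).1 q2` and `(bPre n (r α)).1 q2` by (d), so `(⨆ s, z.val i s ⊓ bPre s (r α)).1 q2`, contradiction.
-/

set_option autoImplicit false

namespace BI

theorem final_qsets {P0 J Cd : Type} [Preorder P0] [LinearOrder J] [WellFoundedLT J] [OrderTop J]
    {dec : Cd → ℕ → Option (Con P0 J (Ent Cd) × Val)} {b : J → Par P0 J Cd} {S : FSys P0 J (Ent Cd)}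
    (hB : Book dec b) (hI : IsIter dec b S) (hP : ∀ i, CCC (S.P i)) : bQSets (RO (S.P ⊤)) = ⊤ := by
  rw [RO.eq_top_iff]
  intro p0
  rw [bQSets, RO.mem_iInf]
  intro r
  rw [RO.mem_iInf]
  intro A
  rw [RO.mem_himp]
  intro p1 _ hinj1
  obtain ⟨j, rc, Ac, hj, hb, hr1, hA1, hr2, hA2⟩ := stage_qs hB (hP ⊤) r A
  have hS := isQS_stage hI hB.code (hP j) hb
  set r' : Om → ℕ → S.P j → Prop := fun α n => tv dec S.V S.L j (rc α n) with hr'
  set A' : Om → S.P j → Prop := fun α => tv dec S.V S.L j (Ac α) with hA'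
  have hra : ∀ α n (q : S.P ⊤), r' α n (S.rs ⊤ j q) ↔ (r α n).1 q := fun α n q =>
    (hr1 α n _).trans (hr2 α n q).symm
  have hAa : ∀ α (q : S.P ⊤), A' α (S.rs ⊤ j q) ↔ (A α).1 q := fun α q =>
    (hA1 α _).trans (hA2 α q).symm
  have hlow : ∀ (q : S.P ⊤) (u : S.P j), u ≤ S.rs ⊤ j q → ∃ w, w ≤ q ∧ S.rs ⊤ j w = u := by
    intro q u hu
    obtain ⟨w, h1, _, h3, _⟩ := S.amalgam le_top q u hu
    exact ⟨w, h1, h3⟩
  have hpre : ∀ α (s : List Bool) (q : S.P ⊤), (bPre s (r α)).1 q ↔ Ext r' α s (S.rs ⊤ j q) := by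
    intro α s q
    rw [bPre, RO.mem_iInf, Ext]
    refine forall_congr' fun i => ?_
    by_cases h : s[i] = true
    · rw [if_pos h, if_pos h]
      exact (hra α i q).symm
    · rw [if_neg h, if_neg h, RO.mem_compl]
      constructor
      · intro h1 u hu hru
        obtain ⟨w, hw, rfl⟩ := hlow q u hu
        exact h1 w hw ((hra _ _ _).1 hru)
      · intro h1 w hw hrw
        exact h1 _ (S.rs_mono ⊤ j hw) ((hra _ _ _).2 hrw)
  have hmono : ∀ (k : ℕ) (s : List Bool) (q q' : S.P ⊤), q' ≤ q →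
      Zz (S.es j) k s (S.pj hj q) → Zz (S.es j) k s (S.pj hj q') :=
    fun k s q q' h hz => zz_mono hS (S.pj_mono hj h) hz
  let z : Fn (RO (S.P ⊤)) ℕ (List Bool) :=
    { val := fun k s => RO.cl (fun q => Zz (S.es j) k s (S.pj hj q)) (hmono k s)
      total := by
        intro k
        rw [RO.eq_top_iff]
        intro q
        rw [RO.mem_iSup]
        intro q' _
        obtain ⟨y, hy, n, hn⟩ := zz_dense hS k (S.pj hj q')
        obtain ⟨q'', h1, h2, _⟩ := S.lift hj q' y hy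
        refine ⟨q'', h1, n, ?_⟩
        rw [RO.mem_cl]
        intro t ht
        exact ⟨t, le_refl _, hmono k n _ _ ht (by rw [h2]; exact hn)⟩
      uniq := by
        intro k s s' hne
        rw [RO.eq_bot_iff]
        intro q hq
        rw [RO.mem_inf] at hq
        obtain ⟨q1, h1, h2⟩ := (RO.mem_cl (hU := hmono k s)).1 hq.1 q (le_refl _)
        obtain ⟨q2, h3, h4⟩ := (RO.mem_cl (hU := hmono k s')).1 hq.2 q1 h1
        exact hne (zz_uniq (hmono k s _ _ h3 h2) h4) }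
  rw [RO.mem_iSup]
  intro p hp
  have hinj := RO.down _ hp hinj1
  refine ⟨p, le_refl _, z, ?_⟩
  rw [RO.mem_iInf]
  intro α
  rw [RO.mem_iff]
  intro q hq
  constructor
  · intro hA
    rw [RO.mem_iSup]
    intro q' hq'
    have hA2' : A' α (S.pj hj q').fst := (hAa α q').2 ((A α).down hq' hA)
    obtain ⟨y, hy, k, hk⟩ := zz_in hS hA2'
    obtain ⟨q'', h1, h2, _⟩ := S.lift hj q' y hy
    refine ⟨q'', h1, k, ?_⟩
    rw [RO.mem_iInf]
    intro i
    rw [RO.mem_iInf]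
    intro hki
    rw [RO.mem_compl]
    intro w hw hsup
    obtain ⟨w1, hw1, s, hs⟩ := RO.mem_iSup.1 hsup w (le_refl _)
    rw [RO.mem_inf] at hs
    obtain ⟨w2, hw2, hz2⟩ := (RO.mem_cl (hU := hmono i s)).1 hs.1 w1 (le_refl _)
    refine hk (S.pj hj w2) ?_ i s hki hz2 (S.rs ⊤ j w2) (le_refl _) ?_
    · rw [← h2]
      exact S.pj_mono hj (hw2.trans (hw1.trans hw))
    · exact (hpre α s w2).1 (RO.down _ hw2 hs.2)
  · intro hW
    by_contra hnA
    obtain ⟨q0, hq0, hc⟩ := RO.exists_compl hnA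
    rw [RO.mem_compl] at hc
    obtain ⟨q1, hq1, k, hk⟩ := RO.mem_iSup.1 hW q0 hq0
    have h1 : ∀ u, u ≤ (S.pj hj q1).fst → ¬ A' α u := by
      intro u hu hAu
      obtain ⟨w, hw, rfl⟩ := hlow q1 u hu
      exact hc w (hw.trans hq1) ((hAa α w).1 hAu)
    have h2 : ∀ β, β ≠ α → ∀ u, u ≤ (S.pj hj q1).fst →
        ∃ u', u' ≤ u ∧ ∃ m, Diff r' α β m u' := by
      intro β hβ u hu
      obtain ⟨w, hw, rfl⟩ := hlow q1 u hu
      have h3 := RO.mem_iInf.1 (RO.mem_iInf.1 (RO.mem_iInf.1 hinj α) β) (Ne.symm hβ)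
      obtain ⟨w', hw', m, hm⟩ := RO.mem_iSup.1 h3 w (hw.trans (hq1.trans (hq0.trans hq)))
      rw [RO.mem_compl] at hm
      have h4 := hm w' (le_refl _)
      rw [RO.mem_iff] at h4
      rw [not_forall] at h4
      obtain ⟨w'', h4⟩ := h4
      rw [Classical.not_imp] at h4
      obtain ⟨hw'', h5⟩ := h4
      by_cases h6 : (r α m).1 w''
      · have h7 : ¬ (r β m).1 w'' := fun h => h5 ⟨fun _ => h, fun _ => h6⟩
        obtain ⟨w3, hw3, hc3⟩ := RO.exists_compl h7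
        refine ⟨S.rs ⊤ j w3, S.rs_mono ⊤ j (hw3.trans (hw''.trans hw')), m,
          Or.inl ⟨(hra α m w3).2 (RO.down _ hw3 h6), fun v hv hvr => ?_⟩⟩
        obtain ⟨t, ht, rfl⟩ := hlow w3 v hv
        exact hc3 t ht ((hra β m t).1 hvr)
      · have h7 : (r β m).1 w'' := by
          by_contra h
          exact h5 ⟨fun h' => absurd h' h6, fun h' => absurd h' h⟩
        obtain ⟨w3, hw3, hc3⟩ := RO.exists_compl h6
        refine ⟨S.rs ⊤ j w3, S.rs_mono ⊤ j (hw3.trans (hw''.trans hw')), m,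
          Or.inr ⟨(hra β m w3).2 (RO.down _ hw3 h7), fun v hv hvr => ?_⟩⟩
        obtain ⟨t, ht, rfl⟩ := hlow w3 v hv
        exact hc3 t ht ((hra α m t).1 hvr)
    obtain ⟨y, hy, i, n, hki, hz, hE⟩ := zz_out hS h1 h2 k
    obtain ⟨q2, h5, h6, _⟩ := S.lift hj q1 y hy
    have h7 := RO.mem_iInf.1 (RO.mem_iInf.1 hk i) hki
    refine (RO.mem_compl.1 h7) q2 h5 ?_
    rw [RO.mem_iSup]
    intro t ht
    refine ⟨t, le_refl _, n, ?_⟩
    rw [RO.mem_inf]
    constructor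
    · rw [RO.mem_cl]
      intro t' ht'
      exact ⟨t', le_refl _, hmono i n _ _ (ht'.trans ht) (by rw [h6]; exact hz)⟩
    · rw [hpre]
      refine ext_mono hS.rreg (S.rs_mono ⊤ j ht) ?_
      rw [← h6] at hE
      exact hE

end BI
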