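import Pool.Agent.Helper18.BI.AxS

/-!
# BI-31 Existence of the finite support iteration

TO PROVE (in place).

1. Recursion.  Let `X = (Con P0 J (Ent Cd) → Ent Cd → Prop) × (Con P0 J (Ent Cd) → Ent Cd → Ent Cd → Prop)`.  For a function
   `G` assigning to every `j < i` an element of `X` let `V' j = if h : j < i then (G j h).1 else fun _ _ => False`,
   `L' j = if h : j < i then (G j h).2 else fun _ _ _ => True`, and let the value at `i` be
   `(stV dec b V' L' i, stL dec b V' L' i)`.  `WellFounded.fix` (`wellFounded_lt`, `WellFounded.fix_eq`) gives `V`, `L` with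
   `V i = stV dec b V' L' i`, `L i = stL dec b V' L' i` where now `V' j = V j`, `L' j = L j` for `j < i`; by `st_congr`:
   `V i = stV dec b V L i` and `L i = stL dec b V L i` for all `i`.
2. Axioms.  Prove by well-founded induction on `j`: the four axioms (`Vm`, `Lm`, `Lr`, `Lt` of `FSys`) hold for `V`, `L` at `j`.
   Suppose they hold at all `k < j`.  Let `V1 k = if k < j then V k else fun _ _ => False`,
   `L1 k = if k < j then L k else fun _ _ _ => True`.  These form a finite support iteration `S : FSys P0 J (Ent Cd)`: at `k < j`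
   we have `V1 l = V l`, `L1 l = L l` for all `l < k`, so `IsC V1 k p ↔ IsC V k p` (`isC_congr`) and
   `cle L1 q p ↔ cle L q p` for `p` with `IsC V1 k p` (`cle_congr`), and the axioms follow from the induction hypothesis; at
   `k ≥ j` they are trivial (`V1 k` is `False`, `L1 k` is `True`).  By `AxS.lean` the four statements
   `st_Vm`, `st_Lm`, `st_Lr`, `st_Lt` hold for `S` at `i = j`.  By `st_congr`, `stV dec b V1 L1 j = stV dec b V L j = V j`, the same
   for `L`, and `IsC V1 j p ↔ IsC V j p`, `cle L1 q p ↔ cle L q p` for `IsC V j p`.  So the axioms hold at `j`.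
3. So `V`, `L` form a finite support iteration, which satisfies `IsIter` by 1.
-/

set_option autoImplicit false

namespace BI

section Rec

variable {P0 J Cd : Type} [Preorder P0] [LinearOrder J]

/-- the type of the values of the recursion -/
abbrev XT (P0 J Cd : Type) : Type :=
  (Con P0 J (Ent Cd) → Ent Cd → Prop) × (Con P0 J (Ent Cd) → Ent Cd → Ent Cd → Prop)

/-- one step of the recursion -/
def stepX (dec : Cd → ℕ → Option (Con P0 J (Ent Cd) × Val)) (b : J → Par P0 J Cd) (i : J)
    (G : ∀ j, j < i → XT P0 J Cd) : XT P0 J Cd :=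
  (stV dec b (fun j => if h : j < i then (G j h).1 else fun _ _ => False)
      (fun j => if h : j < i then (G j h).2 else fun _ _ _ => True) i,
    stL dec b (fun j => if h : j < i then (G j h).1 else fun _ _ => False)
      (fun j => if h : j < i then (G j h).2 else fun _ _ _ => True) i)

theorem exists_VL [WellFoundedLT J] (dec : Cd → ℕ → Option (Con P0 J (Ent Cd) × Val))
    (b : J → Par P0 J Cd) : ∃ (V : J → Con P0 J (Ent Cd) → Ent Cd → Prop)
      (L : J → Con P0 J (Ent Cd) → Ent Cd → Ent Cd → Prop),
      ∀ i, V i = stV dec b V L i ∧ L i = stL dec b V L i := by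
  let F : J → XT P0 J Cd := WellFounded.fix wellFounded_lt (stepX dec b)
  have hF : ∀ i, F i = stepX dec b i (fun j _ => F j) := fun i => WellFounded.fix_eq _ _ i
  refine ⟨fun i => (F i).1, fun i => (F i).2, fun i => ?_⟩
  have h := st_congr dec b (V := fun j => if _ : j < i then (F j).1 else fun _ _ => False)
    (V' := fun j => (F j).1) (L := fun j => if _ : j < i then (F j).2 else fun _ _ _ => True)
    (L' := fun j => (F j).2) (i := i) (fun j hj => by simp [hj]) (fun j hj => by simp [hj])
  have h2 := hF i
  constructor
  · exact (congrArg Prod.fst h2).trans h.1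
  · exact (congrArg Prod.snd h2).trans h.2

/-- the axioms of `FSys` at `j` -/
structure Ax {E : Type} (V : J → Con P0 J E → E → Prop) (L : J → Con P0 J E → E → E → Prop)
    (j : J) : Prop where
  Vm : ∀ p q e, IsC V j p → IsC V j q → cle L q p → V j p e → V j q e
  Lm : ∀ p q e' e, IsC V j p → IsC V j q → cle L q p → L j p e' e → L j q e' e
  Lr : ∀ p e, IsC V j p → V j p e → L j p e e
  Lt : ∀ p e'' e' e, IsC V j p → V j p e'' → V j p e' → V j p e → L j p e'' e' → L j p e' e →
    L j p e'' e

/-- the truncation of an iteration below `j` -/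
def truncS {E : Type} (V : J → Con P0 J E → E → Prop) (L : J → Con P0 J E → E → E → Prop)
    (j : J) (h : ∀ k, k < j → Ax V L k) : FSys P0 J E where
  V k := if k < j then V k else fun _ _ => False
  L k := if k < j then L k else fun _ _ _ => True
  Vm k p q e hp hq hqp he := by
    by_cases hk : k < j
    · simp only [hk, if_true] at he ⊢
      have hV : ∀ l, l < k → (fun k => if k < j then V k else fun _ _ => False) l = V l :=
        fun l hl => by simp [hl.trans hk]
      have hL : ∀ l, l < k → (fun k => if k < j then L k else fun _ _ _ => True) l = L l :=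
        fun l hl => by simp [hl.trans hk]
      exact (h k hk).Vm p q e ((isC_congr hV p).1 hp) ((isC_congr hV q).1 hq)
        ((cle_congr hL hp).1 hqp) he
    · simp only [hk, if_false] at he
  Lm k p q e' e hp hq hqp he := by
    by_cases hk : k < j
    · simp only [hk, if_true] at he ⊢
      have hV : ∀ l, l < k → (fun k => if k < j then V k else fun _ _ => False) l = V l :=
        fun l hl => by simp [hl.trans hk]
      have hL : ∀ l, l < k → (fun k => if k < j then L k else fun _ _ _ => True) l = L l :=
        fun l hl => by simp [hl.trans hk]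
      exact (h k hk).Lm p q e' e ((isC_congr hV p).1 hp) ((isC_congr hV q).1 hq)
        ((cle_congr hL hp).1 hqp) he
    · simp only [hk, if_false]
  Lr k p e hp he := by
    by_cases hk : k < j
    · simp only [hk, if_true] at he ⊢
      have hV : ∀ l, l < k → (fun k => if k < j then V k else fun _ _ => False) l = V l :=
        fun l hl => by simp [hl.trans hk]
      exact (h k hk).Lr p e ((isC_congr hV p).1 hp) he
    · simp only [hk, if_false]
  Lt k p e'' e' e hp h1 h2 h3 h4 h5 := by
    by_cases hk : k < j
    · simp only [hk, if_true] at h1 h2 h3 h4 h5 ⊢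
      have hV : ∀ l, l < k → (fun k => if k < j then V k else fun _ _ => False) l = V l :=
        fun l hl => by simp [hl.trans hk]
      exact (h k hk).Lt p e'' e' e ((isC_congr hV p).1 hp) h1 h2 h3 h4 h5
    · simp only [hk, if_false]

theorem ax_of_iter [WellFoundedLT J] (dec : Cd → ℕ → Option (Con P0 J (Ent Cd) × Val))
    (b : J → Par P0 J Cd) (V : J → Con P0 J (Ent Cd) → Ent Cd → Prop)
    (L : J → Con P0 J (Ent Cd) → Ent Cd → Ent Cd → Prop)
    (hI : ∀ i, V i = stV dec b V L i ∧ L i = stL dec b V L i) (j : J) : Ax V L j := by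
  induction j using WellFoundedLT.induction with
  | ind j ih =>
    have hV : ∀ l, l < j → (truncS V L j ih).V l = V l := fun l hl => by simp [truncS, hl]
    have hL : ∀ l, l < j → (truncS V L j ih).L l = L l := fun l hl => by simp [truncS, hl]
    have hst := st_congr dec b hV hL
    have e1 : V j = stV dec b (truncS V L j ih).V (truncS V L j ih).L j :=
      (hI j).1.trans hst.1.symm
    have e2 : L j = stL dec b (truncS V L j ih).V (truncS V L j ih).L j :=
      (hI j).2.trans hst.2.symm
    refine ⟨?_, ?_, ?_, ?_⟩
    · intro p q e hp hq hqp he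
      rw [e1] at he ⊢
      exact st_Vm dec b (truncS V L j ih) j p q e ((isC_congr hV p).2 hp) ((isC_congr hV q).2 hq)
        ((cle_congr hL hp).2 hqp) he
    · intro p q e' e hp hq hqp he
      rw [e2] at he ⊢
      exact st_Lm dec b (truncS V L j ih) j p q e' e ((isC_congr hV p).2 hp)
        ((isC_congr hV q).2 hq) ((cle_congr hL hp).2 hqp) he
    · intro p e hp he
      rw [e1] at he
      rw [e2]
      exact st_Lr dec b (truncS V L j ih) j p e ((isC_congr hV p).2 hp) he
    · intro p e'' e' e hp h1 h2 h3 h4 h5
      rw [e1] at h1 h2 h3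
      rw [e2] at h4 h5 ⊢
      exact st_Lt dec b (truncS V L j ih) j p e'' e' e ((isC_congr hV p).2 hp) h1 h2 h3 h4 h5

end Rec

theorem exists_iter {P0 J Cd : Type} [Preorder P0] [LinearOrder J] [WellFoundedLT J]
    (dec : Cd → ℕ → Option (Con P0 J (Ent Cd) × Val)) (b : J → Par P0 J Cd) :
    ∃ S : FSys P0 J (Ent Cd), IsIter dec b S := by
  obtain ⟨V, L, hI⟩ := exists_VL dec b
  have hax := ax_of_iter dec b V L hI
  exact ⟨⟨V, L, fun j => (hax j).Vm, fun j => (hax j).Lm, fun j => (hax j).Lr,
    fun j => (hax j).Lt⟩, hI⟩

end BI
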