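import Pool.Agent.Helper18.BI.Codes
import Pool.Agent.Helper18.BI.RO

/-!
# BI-38 Names in the final model are treated at some stage

TO PROVE (in place).  Use `code_of` for the regular statements `(r α n).1` and `(A α).1` (regular by `.2`), `(R a c).1`.

* `stage_qs`: choose codes `rc α n` with bounds `i1 (α, n) < ⊤` and codes `Ac α` with bounds `i2 α < ⊤`.  Using `om_surj_nat` and
  `hB.cof` there is `i < ⊤` bigger than all `i1 (α, n)`, and one bigger than all `i2 α`; take the maximum.  `hB.qs rc Ac i`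
  gives `j ≥ i`, `j < ⊤`, `b j = .qs rc Ac`; and `code_of` applies to `j`.
* `stage_tr`: the same with `om_surj_prod`; `p.1` has finite support, consisting of elements `< ⊤`, so also a bound `< ⊤` of the
  support is needed (finite set: maximum and `hB.lim`, `hB.ne`; or `hB.cof`); then `IsC S.V j p.1` for `j` above the support:
  `p.2` gives the conditions on the entries.
-/

set_option autoImplicit false

namespace BI

variable {P0 J Cd : Type} [Preorder P0] [LinearOrder J] [WellFoundedLT J] [OrderTop J]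
  {dec : Cd → ℕ → Option (Con P0 J (Ent Cd) × Val)} {b : J → Par P0 J Cd} {S : FSys P0 J (Ent Cd)}

theorem stage_qs (hB : Book dec b) (hP : CCC (S.P ⊤)) (r : Om → ℕ → RO (S.P ⊤)) (A : Om → RO (S.P ⊤)) :
    ∃ (j : J) (rc : Om → ℕ → Cd) (Ac : Om → Cd), j < ⊤ ∧ b j = .qs rc Ac ∧
      (∀ α n (q : S.P j), tv dec S.V S.L j (rc α n) q ↔ (r α n).1 (S.rs j ⊤ q)) ∧
      (∀ α (q : S.P j), tv dec S.V S.L j (Ac α) q ↔ (A α).1 (S.rs j ⊤ q)) ∧
      (∀ α n (q : S.P ⊤), (r α n).1 q ↔ (r α n).1 (S.rs j ⊤ (S.rs ⊤ j q))) ∧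
      (∀ α (q : S.P ⊤), (A α).1 q ↔ (A α).1 (S.rs j ⊤ (S.rs ⊤ j q))) := by
  choose rc i1 hi1 hrc using fun x : Om × ℕ =>
    code_of dec b hB S hP (r x.1 x.2).1 (r x.1 x.2).2
  choose Ac i2 hi2 hAc using fun α : Om => code_of dec b hB S hP (A α).1 (A α).2
  obtain ⟨g, hg⟩ := om_surj_nat
  obtain ⟨k1, hk1, hb1⟩ := hB.cof (fun a => i1 (g a)) (fun a => hi1 (g a))
  obtain ⟨k2, hk2, hb2⟩ := hB.cof i2 hi2
  obtain ⟨j, hj, hjt, hbj⟩ := hB.qs (fun α n => rc (α, n)) Ac (max k1 k2) (max_lt hk1 hk2)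
  have h1 : ∀ α n, i1 (α, n) ≤ j := by
    intro α n
    obtain ⟨a, ha⟩ := hg (α, n)
    have h2 := hb1 a
    simp only [ha] at h2
    exact h2.le.trans ((le_max_left _ _).trans hj)
  have h2 : ∀ α, i2 α ≤ j := fun α => (hb2 α).le.trans ((le_max_right _ _).trans hj)
  exact ⟨j, fun α n => rc (α, n), Ac, hjt, hbj,
    fun α n => (hrc (α, n) j (h1 α n)).1, fun α => (hAc α j (h2 α)).1,
    fun α n => (hrc (α, n) j (h1 α n)).2, fun α => (hAc α j (h2 α)).2⟩

theorem stage_tr (hB : Book dec b) (hP : CCC (S.P ⊤)) (R : Om → Om → RO (S.P ⊤)) (p : S.P ⊤) :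
    ∃ (j : J) (Rc : Om → Om → Cd), j < ⊤ ∧ b j = .tr p.1 Rc ∧ IsC S.V j p.1 ∧
      (∀ a c (q : S.P j), tv dec S.V S.L j (Rc a c) q ↔ (R a c).1 (S.rs j ⊤ q)) ∧
      (∀ a c (q : S.P ⊤), (R a c).1 q ↔ (R a c).1 (S.rs j ⊤ (S.rs ⊤ j q))) := by
  classical
  choose Rc i1 hi1 hRc using fun x : Om × Om =>
    code_of dec b hB S hP (R x.1 x.2).1 (R x.1 x.2).2
  obtain ⟨g, hg⟩ := om_surj_prod
  obtain ⟨k1, hk1, hb1⟩ := hB.cof (fun a => i1 (g a)) (fun a => hi1 (g a))
  have hfin : ∀ s : Finset J, (∀ k ∈ s, k < ⊤) → ∃ i : J, i < ⊤ ∧ ∀ k ∈ s, k < i := by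
    intro s
    induction s using Finset.induction_on with
    | empty =>
      intro _
      obtain ⟨i, hi⟩ := hB.ne
      exact ⟨i, hi, fun k hk => absurd hk (Finset.notMem_empty k)⟩
    | insert a s _ ih =>
      intro h
      obtain ⟨i, hi, h1⟩ := ih fun k hk => h k (Finset.mem_insert_of_mem hk)
      obtain ⟨m, hm1, hm2⟩ := hB.lim a (h a (Finset.mem_insert_self _ _))
      refine ⟨max i m, max_lt hi hm2, fun k hk => ?_⟩
      rcases Finset.mem_insert.1 hk with rfl | hk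
      · exact hm1.trans_le (le_max_right _ _)
      · exact (h1 k hk).trans_le (le_max_left _ _)
  obtain ⟨k2, hk2, hb2⟩ := hfin p.2.1.toFinset (by
    intro k hk
    rw [Set.Finite.mem_toFinset] at hk
    obtain ⟨e, he⟩ := Option.ne_none_iff_exists'.1 hk
    exact (p.2.2 k e he).1)
  obtain ⟨j, hj, hjt, hbj⟩ := hB.tr p.1 (fun a c => Rc (a, c)) (max k1 k2) p.2.1
    (max_lt hk1 hk2)
  have h1 : ∀ a c, i1 (a, c) ≤ j := by
    intro a c
    obtain ⟨x, hx⟩ := hg (a, c)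
    have h2 := hb1 x
    simp only [hx] at h2
    exact h2.le.trans ((le_max_left _ _).trans hj)
  have h2 : IsC S.V j p.1 := by
    refine ⟨p.2.1, fun k e he => ⟨?_, (p.2.2 k e he).2⟩⟩
    have h3 : k ∈ p.2.1.toFinset := by
      rw [Set.Finite.mem_toFinset]
      change p.1.ent k ≠ none
      rw [he]
      exact Option.some_ne_none e
    exact (hb2 k h3).trans_le ((le_max_right _ _).trans hj)
  exact ⟨j, fun a c => Rc (a, c), hjt, hbj, h2,
    fun a c => (hRc (a, c) j (h1 a c)).1, fun a c => (hRc (a, c) j (h1 a c)).2⟩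

end BI
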