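import Pool.Agent.Helper18.BI.SusA
import Pool.Agent.Helper18.BI.StageF
import Pool.Agent.Helper18.BI.Stage

/-!
# BI-41 There are no Suslin trees in the final model

TO PROVE (in place).  By `RO.eq_bot_iff` suppose `(bSuslin R).1 p`, `p : S.P ⊤`.  `stage_tr` gives `j < ⊤`, `Rc`,
`b j = .tr p.1 Rc`, `h0 : IsC S.V j p.1`; let `pj0 : S.P j := ⟨p.1, h0⟩`; `S.rs j ⊤ pj0 = p` (`Subtype.ext`, `rs_incl`).  By
`isTR_stage`: `hT : IsTR (S.es j) R' pj0` with `R' a c = tv .. (Rc a c)`.  `presus_top` and `presus_down` give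
`hS : PreSus R' pj0`.  Hence for `x : TS (S.es j)` (or any pair) with first coordinate `≤ pj0` the entry `.nd a` is allowed
(`hT.V_iff`, `VR`).
The generic branch: `C a w := ∃ a', w.1.ent j = some (.nd a') ∧ (a = a' ∨ R' a a' (S.rs ⊤ j w))`.
* `C` is monotone: let `w' ≤ w`, `C a w`.  From `w' ≤ w` (`cle`, at the coordinate `j`; or use `S.pj_mono` and `TS.le_iff`):
  `w'.1.ent j = some (.nd a'')` with `a' = a'' ∨ R' a' a'' (S.rs ⊤ j w')` (`hT.L_iff`, `LR`).  If `a = a'` this is the claim for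
  `a`.  If `R' a a' (S.rs ⊤ j w)`, then also at `S.rs ⊤ j w'` (`R'` is regular, `hT.rreg`), and if
  `R' a' a''` then transitivity `hS.trans` applies, since `S.rs ⊤ j w' ≤ pj0`: this holds because the entry `.nd a''` of `w'` at
  `j` is allowed (`w'.2.2 j _ _`, `hT.V_iff`, `VR` gives `≤ pj0`).
* `C` is unbounded below `p`: let `x : Om`, `q ≤ p`.  `S.rs ⊤ j q ≤ pj0` (`le_rs_iff`).  If `q.1.ent j = none`: let `a > x`
  (`om_exists_gt`); `y = ⟨S.rs ⊤ j q, some (.nd a), _⟩ ≤ S.pj hj q`; lift it (`S.lift`) to `q' ≤ q`; `C a q'`.  If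
  `q.1.ent j = some (.nd a')` (`.hd` is impossible): `hS.succ` gives `u ≤ S.rs ⊤ j q`, `a > x` with `R' a' a u`;
  `y = ⟨u, some (.nd a), _⟩ ≤ S.pj hj q`; lift it.
`chain_top` gives `q ≤ p`, `a ≠ c` with `C a q`, `C c q`, and no `q' ≤ q` has `(R a c).1 q'` or `(R c a).1 q'`.  The entry
`q.1.ent j = some (.nd a')` is the same for both; `a = a' ∨ R' a a' q_j`, `c = a' ∨ R' c a' q_j` with `q_j = S.rs ⊤ j q ≤ pj0`.
If `a = a'` then `R' c a q_j` (`c ≠ a`); if `c = a'` then `R' a c q_j`; otherwise `hS.tree` for `a < c` or `c < a` gives `R' a c q_j` or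
`R' c a q_j`.  By `stage_tr` (third and fourth property) `R' a c q_j ↔ (R a c).1 q`: contradiction.
-/

set_option autoImplicit false

namespace BI

theorem final_suslin {P0 J Cd : Type} [Preorder P0] [LinearOrder J] [WellFoundedLT J] [OrderTop J]
    {dec : Cd → ℕ → Option (Con P0 J (Ent Cd) × Val)} {b : J → Par P0 J Cd} {S : FSys P0 J (Ent Cd)}
    (hB : Book dec b) (hI : IsIter dec b S) (hP : ∀ i, CCC (S.P i)) (R : Om → Om → RO (S.P ⊤)) :
    bSuslin R = ⊥ := by
  rw [RO.eq_bot_iff]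
  intro p hp
  obtain ⟨j, Rc, hj, hb, h0, hR1, hR2⟩ := stage_tr (S := S) hB (hP ⊤) R p
  set pj0 : S.P j := ⟨p.1, h0⟩ with hpj0
  have hpp : S.rs j ⊤ pj0 = p := by
    apply Subtype.ext
    rw [S.rs_incl le_top]
  have hT := isTR_stage hI hb h0
  have hS : PreSus (fun a c => tv dec S.V S.L j (Rc a c)) pj0 := by
    refine presus_down S j _ (fun a c q => (R a c).1 q) hR1 hR2 pj0 ?_
    rw [hpp]
    exact presus_top (hP ⊤) R p hp
  set R' : Om → Om → S.P j → Prop := fun a c => tv dec S.V S.L j (Rc a c) with hR'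
  -- entries at `j`
  have hent : ∀ (w : S.P ⊤) (e : Ent Cd), w.1.ent j = some e →
      (∃ a, e = .nd a) ∧ S.rs ⊤ j w ≤ pj0 := by
    intro w e he
    have h1 : (S.es j).V (S.rs ⊤ j w) e := (S.pj hj w).ok e he
    have h2 := (hT.V_iff _ _).1 h1
    cases e with
    | nd a => exact ⟨⟨a, rfl⟩, h2.1⟩
    | hd s Φ => exact absurd h2 (by simp [VR])
  have hV : ∀ (u : S.P j) (a : Om), u ≤ pj0 → (S.es j).V u (.nd a) := by
    intro u a hu
    exact (hT.V_iff _ _).2 ⟨hu, hS⟩
  set C : Om → S.P ⊤ → Prop := fun a w =>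
    ∃ a', w.1.ent j = some (.nd a') ∧ (a = a' ∨ R' a a' (S.rs ⊤ j w)) with hC
  have hmon : Mon C := by
    intro a w w' hw'
    rintro ⟨a', h1, h2⟩
    have h3 := S.pj_mono hj hw'
    obtain ⟨h4, h5⟩ := TS.le_iff.1 h3
    obtain ⟨e'', h6, h7⟩ := h5 _ h1
    obtain ⟨⟨a'', rfl⟩, h8⟩ := hent w' e'' h6
    have h9 := (hT.L_iff _ _ _).1 h7
    refine ⟨a'', h6, ?_⟩
    rcases h2 with rfl | h2
    · exact h9
    · have h10 : R' a a' (S.rs ⊤ j w') := (hT.rreg a a').mono h4 h2
      rcases h9 with rfl | h9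
      · exact Or.inr h10
      · exact Or.inr (hS.trans a a' a'' _ h8 h10 h9)
  have hunb : ∀ (x : Om) (q : S.P ⊤), q ≤ p → ∃ q', q' ≤ q ∧ ∃ a, x < a ∧ C a q' := by
    intro x q hq
    have hqj : S.rs ⊤ j q ≤ pj0 := by
      rw [← S.le_rs_iff le_top, hpp]
      exact hq
    rcases he : q.1.ent j with _ | e
    · obtain ⟨a, ha⟩ := om_exists_gt x
      obtain ⟨q', h1, h2, _⟩ := S.lift hj q
        (⟨S.rs ⊤ j q, some (.nd a), fun e he => by
          rw [Option.some.injEq] at he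
          rw [← he]
          exact hV _ a hqj⟩ : TS (S.es j))
        (by
          rw [TS.le_iff]
          exact ⟨le_refl _, fun e he' => by
            have h3 : q.1.ent j = some e := he'
            rw [he] at h3
            exact absurd h3 (by simp)⟩)
      refine ⟨q', h1, a, ha, a, ?_, Or.inl rfl⟩
      exact congrArg TS.snd h2
    · obtain ⟨⟨a', rfl⟩, _⟩ := hent q e he
      obtain ⟨u, hu, a, ha, hua⟩ := hS.succ a' x _ hqj
      obtain ⟨q', h1, h2, _⟩ := S.lift hj q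
        (⟨u, some (.nd a), fun e he => by
          rw [Option.some.injEq] at he
          rw [← he]
          exact hV _ a (hu.trans hqj)⟩ : TS (S.es j))
        (by
          rw [TS.le_iff]
          refine ⟨hu, fun e he' => ?_⟩
          have h3 : q.1.ent j = some e := he'
          rw [he, Option.some.injEq] at h3
          rw [← h3]
          exact ⟨.nd a, rfl, (hT.L_iff _ _ _).2 (Or.inr hua)⟩)
      refine ⟨q', h1, a, ha, a, ?_, Or.inl rfl⟩
      exact congrArg TS.snd h2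
  obtain ⟨q, hq, a, c, hac, ⟨a', h1, h2⟩, ⟨c', h3, h4⟩, h5, h6⟩ := chain_top (hP ⊤) R p hp C hmon hunb
  have hqj : S.rs ⊤ j q ≤ pj0 := by
    rw [← S.le_rs_iff le_top, hpp]
    exact hq
  have h7 : c' = a' := by
    rw [h1] at h3
    simpa using h3.symm
  subst h7
  have key : ∀ a c, R' a c (S.rs ⊤ j q) → (R a c).1 q := by
    intro a c h
    rw [hR2]
    exact (hR1 a c _).1 h
  rcases h2 with rfl | h2
  · rcases h4 with rfl | h4
    · exact hac rfl
    · exact h6 q (le_refl _) (key _ _ h4)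
  · rcases h4 with rfl | h4
    · exact h5 q (le_refl _) (key _ _ h2)
    · rcases lt_or_gt_of_ne hac with hlt | hlt
      · exact h5 q (le_refl _) (key _ _ (hS.tree a c _ _ hqj hlt h2 h4))
      · exact h6 q (le_refl _) (key _ _ (hS.tree c a _ _ hqj hlt h4 h2))

end BI
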