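import Pool.Agent.Helper18.BI.MainI
import Pool.Agent.Helper18.BI.Rec
import Pool.Agent.Helper18.BI.BookC
import Pool.Agent.Helper18.BI.FinQ
import Pool.Agent.Helper18.BI.SusB
import Pool.Agent.Helper18.BI.CohG
import Pool.Agent.Helper18.BI.CohH

/-!
# The forcing part
-/

set_option autoImplicit false

namespace BI

theorem forcing_part : ∃ (B : Type) (_ : CompleteBooleanAlgebra B), Nontrivial B ∧ bCCC B ∧
    bQSets B = ⊤ ∧ (∀ R : Om → Om → B, bSuslin R = ⊥) ∧ ∃ A : Om → Om → B, bBarely A = ⊤ := by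
  have hne : Nonempty Coh := ⟨⟨fun _ => none, by simp⟩⟩
  obtain ⟨J, _, _, _, Cd, dec, b, hB⟩ := exists_book Coh mk_coh hne
  obtain ⟨S, hI⟩ := exists_iter dec b
  have hmain := main_ind hI coh_ccc hB.code Om
  have hP : ∀ i, CCC (S.P i) := fun i => (hmain i).1
  have hn : Nonempty (S.P ⊤) := by
    obtain ⟨c⟩ := hne
    exact ⟨⟨⟨c, fun _ => none⟩, by simp, fun j e h => by simp at h⟩⟩
  refine ⟨RO (S.P ⊤), inferInstance, ro_nontrivial, ro_ccc (hP ⊤), final_qsets hB hI hP,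
    final_suslin hB hI hP, cohA S ⊤, ?_⟩
  unfold bBarely
  rw [coh_inj S ⊤, coh_fin S ⊤ (hP ⊤), coh_inf S ⊤ (hmain ⊤).2, top_inf_eq, top_inf_eq]

end BI
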