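import Pool.Agent.Helper18.BI.FrD

/-!
# BI-18 The leftmost positive branch

TO PROVE (in place).

* `pos_mono`: clear.  `br_mono`: clear, by `pos_mono` and transitivity.  `off_mono` from `br_mono`.
* `pos_step`: if `p` forces that `u` is positive and no `q ≤ p` has `Pos (u ++ [false]) q`, then
  `Pos (u ++ [true]) p`.  Proof: let `q ≤ p`, `v` with `A α q` for `α ∈ v.1`.  `¬ Pos (u ++ [false]) q`, so there
  are `q1 ≤ q`, `v1` with `A α q1` for `α ∈ v1.1` and no `q' ≤ q1`, `n ⊇ u ++ [false]` with `N n q'` and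
  `InS r v1 n q'`.  Apply `Pos u p` to `q1` and `w = (v.1 ∪ v1.1, max (max v.2 v1.2) (u.length + 1))` (the
  `A α` are monotone by `hA`): `q' ≤ q1`, `n ⊇ u`, `N n q'`, `InS r w n q'`.  So `InS r v n q'` and
  `InS r v1 n q'` (`ins_anti`-style), and `n.length ≥ u.length + 1`, so `u ++ [false] <+: n` or `u ++ [true] <+: n`;
  the first is excluded, so `u ++ [true] <+: n`.
* `br_take`: if `w <+: u` and `Br u p` then `Br w p` (`w = u.take w.length`; `w[j] = u[j]`, `w.take j = u.take j`).
* `br_uniq`: `u ≠ w` of the same length: let `j` be the least index with `u[j] ≠ w[j]`; then `u.take j = w.take j =: x`;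
  say `u[j] = true`, `w[j] = false`: `Pos (x ++ [false]) p` and `∀ q ≤ p, ¬ Pos (x ++ [false]) q`: contradiction.
* `br_snoc`: `Br (u ++ [false]) p ↔ Br u p ∧ Pos (u ++ [false]) p` and
  `Br (u ++ [true]) p ↔ Br u p ∧ ∀ q ≤ p, ¬ Pos (u ++ [false]) q` (recommended as auxiliary lemmas; everything
  else follows from them).
* `br_pos`: induction on `u` from the right (`List.reverseRecOn` or `List.reverseRec`), with `br_snoc` and `pos_step`.
* `br_dense`: induction on `k`: given `q`, `u` of length `k` with `Br u q`; either some `q' ≤ q` has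
  `Pos (u ++ [false]) q'` (take `u ++ [false]`) or not (take `u ++ [true]` at `q`).
* `on_or_off`: let `w.length = n.length` and `Br w p`.  If `w ≠ n` let `j` be the first difference, `x := n.take j`,
  `x ++ [n[j]] <+: n`, `x ++ [!n[j]] <+: w`; `br_take` gives `Off n p`.
-/

set_option autoImplicit false

namespace BI

variable {P : Type} [Preorder P] {r : Om → ℕ → P → Prop} {A : Om → P → Prop} {N : Nd → P → Prop}

theorem pos_mono {u : Nd} {p q : P} (h : q ≤ p) (hp : Pos r A N u p) : Pos r A N u q :=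
  fun q' hq' v hv => hp q' (hq'.trans h) v hv

theorem br_mono {u : Nd} {p q : P} (h : q ≤ p) (hp : Br r A N u p) : Br r A N u q := by
  intro j
  have h1 := hp j
  split_ifs at h1 ⊢ with hj
  · exact fun q' hq' => h1 q' (hq'.trans h)
  · exact pos_mono h h1

theorem off_mono {u : Nd} {p q : P} (h : q ≤ p) (hp : Off r A N u p) : Off r A N u q := by
  obtain ⟨w, b, h1, h2⟩ := hp
  exact ⟨w, b, h1, br_mono h h2⟩

/-- The condition for one letter. -/
def LetA (r : Om → ℕ → P → Prop) (A : Om → P → Prop) (N : Nd → P → Prop) (x : Nd) (b : Bool)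
    (p : P) : Prop :=
  if b = true then ∀ q, q ≤ p → ¬ Pos r A N (x ++ [false]) q else Pos r A N (x ++ [false]) p

theorem br_iff {u : Nd} {p : P} :
    Br r A N u p ↔ ∀ (x : Nd) (b : Bool), (x ++ [b]) <+: u → LetA r A N x b p := by
  constructor
  · intro h x b hx
    obtain ⟨t, rfl⟩ := hx
    have hlt : x.length < (x ++ [b] ++ t).length := by simp
    have h1 := h ⟨x.length, hlt⟩
    have h2 : (x ++ [b] ++ t)[(⟨x.length, hlt⟩ : Fin _)] = b := by
      simp
    have h3 : (x ++ [b] ++ t).take ((⟨x.length, hlt⟩ : Fin (x ++ [b] ++ t).length) : ℕ) = x := by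
      simp
    rw [h2, h3] at h1
    exact h1
  · intro h j
    have h1 : u.take j ++ [u[j]] <+: u := by
      have h2 : u.take j ++ [u[j]] = u.take (j + 1) := by
        rw [List.take_succ_eq_append_getElem j.2]
        rfl
      rw [h2]
      exact List.take_prefix _ _
    exact h _ _ h1

theorem br_take {u w : Nd} {p : P} (h : w <+: u) (hp : Br r A N u p) : Br r A N w p := by
  rw [br_iff] at hp ⊢
  exact fun x b hx => hp x b (hx.trans h)

theorem first_diff : ∀ {u w : Nd}, u.length = w.length → u ≠ w →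
    ∃ (x : Nd) (b : Bool), (x ++ [b]) <+: u ∧ (x ++ [!b]) <+: w
  | [], [], _, h => absurd rfl h
  | [], _ :: _, h, _ => by simp at h
  | _ :: _, [], h, _ => by simp at h
  | a :: u, c :: w, h, hne => by
    by_cases hac : a = c
    · subst hac
      have h1 : u ≠ w := fun e => hne (by rw [e])
      obtain ⟨x, b, hx, hx'⟩ := first_diff (u := u) (w := w) (by simpa using h) h1
      refine ⟨a :: x, b, ?_, ?_⟩
      · exact List.cons_prefix_cons.2 ⟨rfl, hx⟩
      · exact List.cons_prefix_cons.2 ⟨rfl, hx'⟩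
    · refine ⟨[], a, ?_, ?_⟩
      · exact List.cons_prefix_cons.2 ⟨rfl, List.nil_prefix⟩
      · have h1 : (!a) = c := by
          cases a <;> cases c <;> simp_all
        exact List.cons_prefix_cons.2 ⟨h1, List.nil_prefix⟩

theorem letA_excl {x : Nd} {b : Bool} {p : P} (h : LetA r A N x b p) (h' : LetA r A N x (!b) p) :
    False := by
  unfold LetA at h h'
  cases b
  · simp only [Bool.not_false, if_true] at h'
    simp only [Bool.false_eq_true, if_false] at h
    exact h' p le_rfl h
  · simp only [Bool.not_true, Bool.false_eq_true, if_false] at h'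
    simp only [if_true] at h
    exact h p le_rfl h'

theorem br_uniq {u w : Nd} {p : P} (h : u.length = w.length) (hu : Br r A N u p)
    (hw : Br r A N w p) : u = w := by
  by_contra hne
  obtain ⟨x, b, h1, h2⟩ := first_diff h hne
  exact letA_excl (br_iff.1 hu x b h1) (br_iff.1 hw x (!b) h2)

theorem br_snoc {u : Nd} {b : Bool} {p : P} :
    Br r A N (u ++ [b]) p ↔ Br r A N u p ∧ LetA r A N u b p := by
  constructor
  · intro h
    exact ⟨br_take (List.prefix_append _ _) h, br_iff.1 h u b (List.prefix_refl _)⟩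
  · rintro ⟨h1, h2⟩
    rw [br_iff]
    intro x c hx
    rcases List.prefix_concat_iff.1 hx with h3 | h3
    · obtain ⟨rfl, h4⟩ := List.append_inj' h3 rfl
      have h5 : c = b := by simpa using h4
      rw [h5]
      exact h2
    · exact br_iff.1 h1 x c h3

theorem pos_step (hA : ∀ α p q, q ≤ p → A α p → A α q) {u : Nd} {p : P} (h : Pos r A N u p)
    (h0 : ∀ q, q ≤ p → ¬ Pos r A N (u ++ [false]) q) : Pos r A N (u ++ [true]) p := by
  intro q hq v hv
  have h1 := h0 q hq
  unfold Pos at h1
  push Not at h1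
  obtain ⟨q1, hq1, v1, hv1, hno⟩ := h1
  obtain ⟨q', hq', n, hn, hN, hI⟩ := h q1 (hq1.trans hq)
    (v.1 ∪ v1.1, max (max v.2 v1.2) (u.length + 1)) (by
      intro α hα
      rcases Finset.mem_union.1 hα with h2 | h2
      · exact hA α q q1 hq1 (hv α h2)
      · exact hv1 α h2)
  have hI1 : InS r v n q' := ins_anti
    ⟨Finset.subset_union_left, le_trans (le_max_left _ _) (le_max_left _ _)⟩ hI
  have hI2 : InS r v1 n q' := ins_anti
    ⟨Finset.subset_union_right, le_trans (le_max_right _ _) (le_max_left _ _)⟩ hI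
  have hlen : u.length + 1 ≤ n.length := le_trans (le_max_right _ _) hI.1
  refine ⟨q', hq'.trans hq1, n, ?_, hN, hI1⟩
  obtain ⟨t, rfl⟩ := hn
  cases t with
  | nil => simp at hlen
  | cons b t =>
    cases b
    · exact absurd hI2 (hno q' hq' (u ++ false :: t) ⟨t, by simp⟩ hN)
    · exact ⟨t, by simp⟩

theorem br_pos (hA : ∀ α p q, q ≤ p → A α p → A α q) {u : Nd} {p : P} (h : Pos r A N [] p)
    (hu : Br r A N u p) : Pos r A N u p := by
  induction u using List.reverseRecOn with
  | nil => exact h
  | append_singleton u b ih =>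
    obtain ⟨h1, h2⟩ := br_snoc.1 hu
    have h3 := ih h1
    unfold LetA at h2
    cases b
    · simpa using h2
    · simp only [if_true] at h2
      exact pos_step hA h3 h2

theorem br_dense (k : ℕ) (p : P) : ∃ q, q ≤ p ∧ ∃ u : Nd, u.length = k ∧ Br r A N u q := by
  induction k with
  | zero => exact ⟨p, le_rfl, [], rfl, fun j => absurd j.2 (by simp)⟩
  | succ k ih =>
    obtain ⟨q, hq, u, hu, hb⟩ := ih
    by_cases h : ∃ q', q' ≤ q ∧ Pos r A N (u ++ [false]) q'
    · obtain ⟨q', hq', hpos⟩ := h
      refine ⟨q', hq'.trans hq, u ++ [false], by simp [hu], br_snoc.2 ⟨br_mono hq' hb, ?_⟩⟩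
      unfold LetA
      simpa using hpos
    · push Not at h
      refine ⟨q, hq, u ++ [true], by simp [hu], br_snoc.2 ⟨hb, ?_⟩⟩
      unfold LetA
      simpa using h

theorem on_or_off {n w : Nd} {p : P} (h : w.length = n.length) (hw : Br r A N w p) :
    w = n ∨ Off r A N n p := by
  by_cases hne : w = n
  · exact Or.inl hne
  · obtain ⟨x, b, h1, h2⟩ := first_diff h.symm (fun e => hne e.symm)
    exact Or.inr ⟨x, b, h1, br_take h2 hw⟩

end BI
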