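import Pool.Agent.Helper18.BI.FrA

/-!
# BI-19 The chosen elements of a positive set of nodes

TO PROVE (in place).

* `en_mono`: by `br_mono`, `off_mono`, `hN`, transitivity.
* `en_uniq`: let `u`, `u'` be the witnesses for `n`, `m`; `u = u'` by `br_uniq`.  By symmetry suppose
  `encode n < encode m` (if the codes are equal then `n = m`, `Encodable.encode_injective`).  If `m` is of the second
  kind then `¬ N n p` (`q = p`): contradiction.  If `m` is of the first kind, then `¬ (N n p ∧ Off n p)`, so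
  `n` is not off, so `n` is of the second kind, and then `¬ (N m p ∧ Off m p)`: contradiction.
* `en_spec`: clear (`u <+: n` gives `k ≤ n.length`).
* `en_dense`: let `Pos [] p`.  `br_dense` gives `q1 ≤ p`, `u` of length `k` with `Br u q1`; `Pos u q1` by `br_pos`.
  Case A: the set of all `n' ⊇ u` such that `∃ q ≤ q1, N n' q ∧ Off n' q` is nonempty; let `n'` be an element with
  minimal code (well-founded minimum on `Encodable.encode`) and `q` as there.  Then `En k n' q` by the first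
  alternative.  Case B: it is empty.  By `Pos u q1` (with `v = (∅, 0)`) the set of all `n' ⊇ u` with `∃ q ≤ q1, N n' q` is
  nonempty; let `n'` be an element with minimal code; `En k n' q` by the second alternative.
-/

set_option autoImplicit false

namespace BI

variable {P : Type} [Preorder P] {r : Om → ℕ → P → Prop} {A : Om → P → Prop} {N : Nd → P → Prop}

theorem en_mono (hN : Mon N) {k : ℕ} {n : Nd} {p q : P} (h : q ≤ p) (hp : En r A N k n p) :
    En r A N k n q := by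
  obtain ⟨u, h1, h2, h3, h4, h5⟩ := hp
  refine ⟨u, h1, br_mono h h2, h3, hN n p q h h4, ?_⟩
  rcases h5 with ⟨h6, h7⟩ | ⟨h6, h7⟩
  · exact Or.inl ⟨off_mono h h6, fun n' h8 h9 q' h10 => h7 n' h8 h9 q' (h10.trans h)⟩
  · exact Or.inr ⟨fun n' h8 q' h9 => h6 n' h8 q' (h9.trans h),
      fun n' h8 h9 q' h10 => h7 n' h8 h9 q' (h10.trans h)⟩

theorem en_lt_absurd {k : ℕ} {n m : Nd} {p : P} (hn : En r A N k n p) (hm : En r A N k m p)
    (hlt : Encodable.encode n < Encodable.encode m) : False := by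
  obtain ⟨u, h1, h2, h3, h4, h5⟩ := hn
  obtain ⟨w, g1, g2, g3, g4, g5⟩ := hm
  have huw : u = w := br_uniq (h1.trans g1.symm) h2 g2
  subst huw
  rcases g5 with ⟨g6, g7⟩ | ⟨g6, g7⟩
  · have h8 : ¬ Off r A N n p := fun h => g7 n hlt h3 p le_rfl ⟨h4, h⟩
    rcases h5 with ⟨h6, h7⟩ | ⟨h6, h7⟩
    · exact h8 h6
    · exact h6 m g3 p le_rfl ⟨g4, g6⟩
  · exact g7 n hlt h3 p le_rfl h4

theorem en_uniq {k : ℕ} {n m : Nd} {p : P} (hn : En r A N k n p) (hm : En r A N k m p) : n = m := by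
  rcases lt_trichotomy (Encodable.encode n) (Encodable.encode m) with h | h | h
  · exact (en_lt_absurd hn hm h).elim
  · exact Encodable.encode_injective h
  · exact (en_lt_absurd hm hn h).elim

theorem en_spec {k : ℕ} {n : Nd} {p : P} (h : En r A N k n p) : N n p ∧ k ≤ n.length := by
  obtain ⟨u, h1, h2, h3, h4, h5⟩ := h
  exact ⟨h4, h1 ▸ h3.length_le⟩

theorem en_dense (hA : ∀ α p q, q ≤ p → A α p → A α q) (k : ℕ) {p : P} (h : Pos r A N [] p) :
    ∃ q, q ≤ p ∧ ∃ n, En r A N k n q := by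
  classical
  obtain ⟨q1, hq1, u, hu, hbr⟩ := br_dense (r := r) (A := A) (N := N) k p
  have hpos : Pos r A N u q1 := br_pos hA (pos_mono hq1 h) hbr
  by_cases hc : ∃ n' : Nd, u <+: n' ∧ ∃ q, q ≤ q1 ∧ N n' q ∧ Off r A N n' q
  · have hex : ∃ c : ℕ, ∃ n' : Nd, Encodable.encode n' = c ∧ u <+: n' ∧
        ∃ q, q ≤ q1 ∧ N n' q ∧ Off r A N n' q := by
      obtain ⟨n', h1⟩ := hc
      exact ⟨_, n', rfl, h1⟩
    obtain ⟨n', h1, h2, q, h3, h4, h5⟩ := Nat.find_spec hex
    refine ⟨q, h3.trans hq1, n', u, hu, br_mono h3 hbr, h2, h4, Or.inl ⟨h5, ?_⟩⟩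
    intro n'' h6 h7 q' h8 h9
    rw [h1] at h6
    exact Nat.find_min hex h6 ⟨n'', rfl, h7, q', h8.trans h3, h9⟩
  · push Not at hc
    have hex : ∃ c : ℕ, ∃ n' : Nd, Encodable.encode n' = c ∧ u <+: n' ∧ ∃ q, q ≤ q1 ∧ N n' q := by
      obtain ⟨q', h1, n, h2, h3, _⟩ := hpos q1 le_rfl (∅, 0) (fun α hα => absurd hα (by simp))
      exact ⟨_, n, rfl, h2, q', h1, h3⟩
    obtain ⟨n', h1, h2, q, h3, h4⟩ := Nat.find_spec hex
    refine ⟨q, h3.trans hq1, n', u, hu, br_mono h3 hbr, h2, h4, Or.inr ⟨?_, ?_⟩⟩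
    · intro n'' h5 q' h6 h7
      exact hc n'' h5 q' (h6.trans h3) h7.1 h7.2
    · intro n'' h5 h6 q' h7 h8
      rw [h1] at h5
      exact Nat.find_min hex h5 ⟨n'', rfl, h6, q', h7.trans h3, h8⟩

end BI
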