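import Pool.Agent.Helper18.BI.FrB

/-!
# BI-20 Positive sets of nodes contain infinite sets almost disjoint from the branches

TO PROVE (in place).  Take `E n p := ∃ k, En k n p`.  It is monotone (`en_mono`), `E n p → N n p` (`en_spec`).
Let `Pos [] p`.
* `InfB E p`: given `F`, `q ≤ p`, let `k` be bigger than the lengths of all elements of `F`; `en_dense` (for `q`,
  `pos_mono`) gives `q' ≤ q`, `En k n q'`, and `k ≤ n.length`, so `n ∉ F`.
* almost disjointness: let `A α p`, `q ≤ p`.
  Case 1: there are `q1 ≤ q`, `u ≠ w` of the same length `l` with `Ext r α u q1` and `Br w q1`.  By induction on `l`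
  (using `en_dense` and `en_mono`) there is `q2 ≤ q1` such that for every `k < l` there is `n` with `En k n q2`; choose
  `n_k` and let `m` be bigger than all `encode n_k`, `k < l`.  Let `encode n ≥ m`, `q'' ≤ q2`, `En k n q''` and suppose
  `Ext r α n q''`.  If `k < l` then `n = n_k` by `en_uniq`, contradiction to `encode n_k < m`.  So `k ≥ l`; let `u'` be
  the witness (`u'.length = k`, `Br u' q''`, `u' <+: n`).  `Br (u'.take l) q''` (`br_take`) and `Br w q''` give
  `w = u'.take l`, so `w <+: n` and `Ext r α w q''` (`ext_prefix`); with `Ext r α u q''` (`ext_mono`) and `ext_uniq`: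
  `u = w`, contradiction.  Take `q' = q2`.
  Case 2: for all `q1 ≤ q`, `u`, `w` of the same length: `Ext r α u q1 → Br w q1 → u = w`.  Take `q' = q`, `m = 0`.
  Let `q'' ≤ q`, `En k n q''` with witness `u`, and suppose `Ext r α n q''`.
  First alternative: `Off n q''`: `u1 ++ [b] <+: n`, `Br (u1 ++ [!b]) q''`; `Ext r α (u1 ++ [b]) q''` by `ext_prefix`, so
  `u1 ++ [b] = u1 ++ [!b]`, contradiction.
  Second alternative: `∀ n' ⊇ u, ∀ q ≤ q'', ¬ (N n' q ∧ Off n' q)`.  `Pos u q''` (`br_pos`, `pos_mono`), applied to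
  `v = ({α}, 0)`, gives `q3 ≤ q''`, `n' ⊇ u`, `N n' q3`, `InS r ({α}, 0) n' q3`.  `br_dense` and `ext_dec` give
  `q5 ≤ q3` and `w`, `w'` of the length of `n'` with `Br w q5`, `Ext r α w' q5`; `w' = w` by the assumption of
  case 2.  `on_or_off`: if `w = n'` then `Ext r α n' q5` contradicts `InS`; if `Off n' q5` then `N n' q5` gives a
  contradiction.
-/

set_option autoImplicit false

namespace BI

variable {P : Type} [Preorder P] {r : Om → ℕ → P → Prop} {A : Om → P → Prop}

theorem fr_name (hr : ∀ α n, Reg (r α n)) (hA : ∀ α, Reg (A α)) (N : Nd → P → Prop) (hN : Mon N) :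
    ∃ E : Nd → P → Prop, Mon E ∧ (∀ n p, E n p → N n p) ∧
      ∀ p, Pos r A N [] p → InfB E p ∧ ∀ α, A α p → ∀ q, q ≤ p → ∃ q', q' ≤ q ∧ ∃ m : ℕ,
        ∀ n : Nd, m ≤ Encodable.encode n → ∀ q'', q'' ≤ q' → E n q'' → ¬ Ext r α n q'' := by
  classical
  have hAm : ∀ α p q, q ≤ p → A α p → A α q := fun α p q h => (hA α).mono h
  refine ⟨fun n p => ∃ k, En r A N k n p, fun n p q h ⟨k, hk⟩ => ⟨k, en_mono hN h hk⟩,
    fun n p ⟨k, hk⟩ => (en_spec hk).1, fun p hp => ⟨?_, ?_⟩⟩
  · intro F q hq
    obtain ⟨q', hq', n, hn⟩ := en_dense hAm (F.sup List.length + 1) (pos_mono hq hp)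
    refine ⟨q', hq', n, fun hF => ?_, _, hn⟩
    have h1 := (en_spec hn).2
    have h2 : n.length ≤ F.sup List.length := Finset.le_sup (f := List.length) hF
    omega
  · intro α hα q hq
    by_cases hc : ∃ q1, q1 ≤ q ∧ ∃ u w : Nd, u.length = w.length ∧ u ≠ w ∧ Ext r α u q1 ∧
        Br r A N w q1
    · obtain ⟨q1, hq1, u, w, hlen, huw, hu, hw⟩ := hc
      have hall : ∀ l : ℕ, ∃ q2, q2 ≤ q1 ∧ ∀ k, k < l → ∃ n, En r A N k n q2 := by
        intro l
        induction l with
        | zero => exact ⟨q1, le_rfl, fun k hk => absurd hk (Nat.not_lt_zero k)⟩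
        | succ l ih =>
          obtain ⟨q2, h1, h2⟩ := ih
          obtain ⟨q3, h3, n, h4⟩ := en_dense hAm l (pos_mono (h1.trans (hq1.trans hq)) hp)
          refine ⟨q3, h3.trans h1, fun k hk => ?_⟩
          rcases Nat.lt_succ_iff_lt_or_eq.1 hk with h5 | h5
          · obtain ⟨n', h6⟩ := h2 k h5
            exact ⟨n', en_mono hN h3 h6⟩
          · exact ⟨n, h5 ▸ h4⟩
      obtain ⟨q2, hq2, hn⟩ := hall w.length
      choose! f hf using hn
      refine ⟨q2, hq2.trans hq1, (Finset.range w.length).sup (fun k => Encodable.encode (f k)) + 1,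
        fun n hn q'' hq'' hE hext => ?_⟩
      obtain ⟨k, hk⟩ := hE
      by_cases hkl : k < w.length
      · have h1 : n = f k := en_uniq hk (en_mono hN hq'' (hf k hkl))
        have h2 : Encodable.encode (f k) ≤
            (Finset.range w.length).sup (fun k => Encodable.encode (f k)) :=
          Finset.le_sup (f := fun k => Encodable.encode (f k)) (Finset.mem_range.2 hkl)
        rw [h1] at hn
        omega
      · obtain ⟨u', h1, h2, h3, h4, -⟩ := hk
        have h5 : u'.take w.length <+: u' := List.take_prefix _ _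
        have h6 : (u'.take w.length).length = w.length := by
          rw [List.length_take, h1]
          omega
        have h7 : u'.take w.length = w :=
          br_uniq h6 (br_take h5 h2) (br_mono (hq''.trans hq2) hw)
        have h8 : w <+: n := by
          rw [← h7]
          exact h5.trans h3
        exact huw (ext_uniq (ext_mono hr (hq''.trans hq2) hu) (ext_prefix h8 hext) hlen)
    · have key : ∀ q1, q1 ≤ q → ∀ u w : Nd, u.length = w.length → Ext r α u q1 →
          Br r A N w q1 → u = w := by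
        intro q1 h1 u w h2 h3 h4
        by_contra h5
        exact hc ⟨q1, h1, u, w, h2, h5, h3, h4⟩
      refine ⟨q, le_rfl, 0, fun n _ q'' hq'' hE hext => ?_⟩
      obtain ⟨k, hk⟩ := hE
      obtain ⟨u, h1, h2, h3, h4, h5⟩ := hk
      rcases h5 with ⟨h6, -⟩ | ⟨h6, -⟩
      · obtain ⟨u1, b, g1, g2⟩ := h6
        have h7 := key q'' hq'' (u1 ++ [b]) (u1 ++ [!b]) (by simp) (ext_prefix g1 hext) g2
        have h8 : b = !b := by simpa using h7
        cases b <;> simp at h8
      · have hpos : Pos r A N u q'' := br_pos hAm (pos_mono (hq''.trans hq) hp) h2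
        obtain ⟨q3, g1, n', g2, g3, g4⟩ := hpos q'' le_rfl ({α}, 0) (fun β hβ => by
          have : β = α := by simpa using hβ
          rw [this]
          exact hAm α p q'' (hq''.trans hq) hα)
        obtain ⟨q4, g5, w, g6, g7⟩ := br_dense (r := r) (A := A) (N := N) n'.length q3
        obtain ⟨q5, g8, w', g9, g10⟩ := ext_dec hr α n'.length q4
        have h54 : Br r A N w q5 := br_mono g8 g7
        have h51 : q5 ≤ q'' := g8.trans (g5.trans g1)
        have h7 : w' = w := key q5 (h51.trans hq'') w' w (g9.trans g6.symm) g10 h54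
        rcases on_or_off g6 h54 with h8 | h8
        · refine g4.2 α (by simp) q5 (g8.trans g5) ?_
          rw [← h8, ← h7]
          exact g10
        · exact h6 n' g2 q5 h51 ⟨hN n' q3 q5 (g8.trans g5) g3, h8⟩

end BI
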