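import Pool.Agent.Helper18.BI.ExtL

/-!
# Names for infinite sets of nodes which are almost disjoint from the branches: definitions

`N : Nd → P → Prop` is a name for a set of nodes of the binary tree.  `Pos u` says that the part of `N`
above `u` is positive with respect to the filter generated by the complements of the branches
`r α`, `α ∈ A`, and of the finite sets.
-/

set_option autoImplicit false

namespace BI

variable {P : Type} [Preorder P] (r : Om → ℕ → P → Prop) (A : Om → P → Prop) (N : Nd → P → Prop)

/-- `p` forces that the set of all `n ∈ N` extending `u` is positive -/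
def Pos (u : Nd) (p : P) : Prop :=
  ∀ q, q ≤ p → ∀ v : Val, (∀ α ∈ v.1, A α q) → ∃ q', q' ≤ q ∧ ∃ n, u <+: n ∧ N n q' ∧ InS r v n q'

/-- `p` forces that `u` is an initial segment of the leftmost branch of positive nodes -/
def Br (u : Nd) (p : P) : Prop :=
  ∀ j : Fin u.length, if u[j] = true then ∀ q, q ≤ p → ¬ Pos r A N (u.take j ++ [false]) q
    else Pos r A N (u.take j ++ [false]) p

/-- `p` forces that `n` is not on the leftmost positive branch -/
def Off (n : Nd) (p : P) : Prop := ∃ (u : Nd) (b : Bool), (u ++ [b]) <+: n ∧ Br r A N (u ++ [!b]) p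

/-- `p` forces that `n` is the `k`-th chosen element of `N` -/
def En (k : ℕ) (n : Nd) (p : P) : Prop :=
  ∃ u : Nd, u.length = k ∧ Br r A N u p ∧ u <+: n ∧ N n p ∧
    ((Off r A N n p ∧ ∀ n' : Nd, Encodable.encode n' < Encodable.encode n → u <+: n' →
        ∀ q, q ≤ p → ¬ (N n' q ∧ Off r A N n' q)) ∨
      ((∀ n' : Nd, u <+: n' → ∀ q, q ≤ p → ¬ (N n' q ∧ Off r A N n' q)) ∧
        ∀ n' : Nd, Encodable.encode n' < Encodable.encode n → u <+: n' → ∀ q, q ≤ p → ¬ N n' q))

end BI
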