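import Pool.Agent.Helper18.BI.AxQ

/-!
# BI-15 The Laver type forcing: joins of side conditions

TO PROVE (in place).

* `join_code`: apply `h.mix` to `p` and `Θ q v := ∃ v1 v2, nm c1 q v1 ∧ nm c2 q v2 ∧ v = (v1.1 ∪ v2.1, max v1.2 v2.2)`
  (monotone by `h.nmon`; dense below `p` by the first clause of `Okc` twice).  The code `c` satisfies `Okc`: the third
  clause because `α ∈ v1.1 ∪ v2.1`.  If `nm c1 q v1'` and `nm c q v` then `Θ q v` holds with some `v1`, and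
  `v1' = v1` by the second clause of `Okc` for `c1`.
* `const_code`: use `Θ q w := w = v` (monotone and dense); the third clause of `Okc` holds
  because `A α` is monotone (`(h.areg α).mono`).
* `hd_join`: choose codes with `join_code` for every `t`; `z = ⟨c, some (.hd s Θ), _⟩`; the orders `z ≤ x`, `z ≤ y`: first
  clause `s <+: s`, second clause from `join_code`, third clause vacuous (lengths).  Here one uses
  `h.V_iff`, `h.L_iff`, and that `Okc A nm x.fst (Φ t)` gives `Okc A nm c (Φ t)` (`vq_mono`).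
* `hd_start`: a condition `x` with `x.snd = none` has the extension `⟨x.fst, some (.hd [] Φ), _⟩`, where `Φ t` is
  `const_code` for `v = (∅, 0)`.
* `hd_extend`, `okc_of_hd`, `hd_le`: unfold with `h.V_iff`, `h.L_iff` and `TS.le_iff`; in `hd_le` the entry of `y` is some
  `e` with `S.L y.fst e (.hd s Φ)`, and `LQ` is `False` unless `e = .hd t Ψ`.
-/

set_option autoImplicit false

namespace BI

variable {P Cd : Type} [Preorder P] {S : ESys P (Ent Cd)} {r : Om → ℕ → P → Prop} {A : Om → P → Prop}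
  {nm : Cd → P → Val → Prop}

theorem join_code (h : IsQS S r A nm) {p : P} {c1 c2 : Cd} (h1 : Okc A nm p c1) (h2 : Okc A nm p c2) :
    ∃ c, Okc A nm p c ∧ (∀ q, q ≤ p → ∀ v1 v, nm c1 q v1 → nm c q v → vle v1 v) ∧
      (∀ q, q ≤ p → ∀ v2 v, nm c2 q v2 → nm c q v → vle v2 v) := by
  classical
  obtain ⟨c, hc1, hc2, hc3⟩ := h.mix p (fun q v => ∃ v1 v2, nm c1 q v1 ∧ nm c2 q v2 ∧
      v = (v1.1 ∪ v2.1, max v1.2 v2.2))
    (by
      rintro q q' v hq ⟨v1, v2, e1, e2, e3⟩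
      exact ⟨v1, v2, h.nmon _ _ _ _ hq e1, h.nmon _ _ _ _ hq e2, e3⟩)
    (by
      intro q hq
      obtain ⟨q', hq', v1, hv1⟩ := h1.1 q hq
      obtain ⟨q'', hq'', v2, hv2⟩ := h2.1 q' (hq'.trans hq)
      exact ⟨q'', hq''.trans hq', _, v1, v2, h.nmon _ _ _ _ hq'' hv1, hv2, rfl⟩)
  refine ⟨c, ⟨hc1, hc2, ?_⟩, ?_, ?_⟩
  · intro q hq v hv α hα
    obtain ⟨v1, v2, e1, e2, rfl⟩ := hc3 q hq v hv
    rcases Finset.mem_union.1 hα with h3 | h3
    · exact h1.2.2 q hq v1 e1 α h3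
    · exact h2.2.2 q hq v2 e2 α h3
  · intro q hq v1 v hv1 hv
    obtain ⟨w1, w2, e1, e2, rfl⟩ := hc3 q hq v hv
    have := h1.2.1 q hq v1 w1 hv1 e1
    subst this
    exact ⟨Finset.subset_union_left, le_max_left _ _⟩
  · intro q hq v2 v hv2 hv
    obtain ⟨w1, w2, e1, e2, rfl⟩ := hc3 q hq v hv
    have := h2.2.1 q hq v2 w2 hv2 e2
    subst this
    exact ⟨Finset.subset_union_right, le_max_right _ _⟩

theorem const_code (h : IsQS S r A nm) {p : P} (v : Val) (hv : ∀ α ∈ v.1, A α p) :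
    ∃ c, Okc A nm p c ∧ ∀ q, q ≤ p → ∀ w, nm c q w → w = v := by
  obtain ⟨c, hc1, hc2, hc3⟩ := h.mix p (fun _ w => w = v) (fun _ _ _ _ hw => hw)
    (fun q _ => ⟨q, le_refl q, v, rfl⟩)
  refine ⟨c, ⟨hc1, hc2, ?_⟩, fun q hq w hw => hc3 q hq w hw⟩
  intro q hq w hw α hα
  rw [hc3 q hq w hw] at hα
  exact (h.areg α).mono hq (hv α hα)

theorem okc_of_hd (h : IsQS S r A nm) {x : TS S} {s : List Nd} {Φ : List Nd → Cd}
    (hx : x.snd = some (.hd s Φ)) {p : P} (hp : p ≤ x.fst) (t : List Nd) : Okc A nm p (Φ t) := by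
  have h1 : VQ A nm x.fst (.hd s Φ) := (h.V_iff _ _).1 (x.ok _ hx)
  exact vq_mono hp h1 t

/-- how to extend a condition -/
theorem hd_extend (h : IsQS S r A nm) {x : TS S} {s t : List Nd} {Φ Ψ : List Nd → Cd}
    (hx : x.snd = some (.hd s Φ)) {p : P} (hp : p ≤ x.fst) (hst : s <+: t)
    (hΨ : ∀ u, Okc A nm p (Ψ u))
    (hle : ∀ u q, q ≤ p → ∀ v w, nm (Φ u) q v → nm (Ψ u) q w → vle v w)
    (hin : ∀ (u : List Nd) (n : Nd), s <+: u → (u ++ [n]) <+: t → ∀ q, q ≤ p → ∀ v, nm (Φ u) q v →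
      InS r v n q) :
    ∃ y : TS S, y ≤ x ∧ y.fst = p ∧ y.snd = some (.hd t Ψ) := by
  refine ⟨⟨p, some (.hd t Ψ), ?_⟩, ?_, rfl, rfl⟩
  · intro e he
    rw [Option.some.injEq] at he
    subst he
    exact (h.V_iff _ _).2 hΨ
  · rw [TS.le_iff]
    refine ⟨hp, fun e he => ?_⟩
    rw [hx, Option.some.injEq] at he
    subst he
    exact ⟨.hd t Ψ, rfl, (h.L_iff _ _ _).2 ⟨hst, hle, hin⟩⟩

/-- conditions with the same stem -/
theorem hd_join (h : IsQS S r A nm) {x y : TS S} {s : List Nd} {Φ Ψ : List Nd → Cd}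
    (hx : x.snd = some (.hd s Φ)) (hy : y.snd = some (.hd s Ψ)) {c : P} (hcx : c ≤ x.fst)
    (hcy : c ≤ y.fst) : ∃ z : TS S, z ≤ x ∧ z ≤ y ∧ z.fst = c ∧ ∃ Θ, z.snd = some (.hd s Θ) := by
  have hΦ := fun t => okc_of_hd h hx hcx t
  have hΨ := fun t => okc_of_hd h hy hcy t
  choose Θ hΘ1 hΘ2 hΘ3 using fun t => join_code h (hΦ t) (hΨ t)
  have hvac : ∀ (u : List Nd) (n : Nd), s <+: u → (u ++ [n]) <+: s → False := by
    intro u n hu hn
    have h1 := hu.length_le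
    have h2 := hn.length_le
    simp only [List.length_append, List.length_cons, List.length_nil] at h2
    omega
  refine ⟨⟨c, some (.hd s Θ), ?_⟩, ?_, ?_, rfl, Θ, rfl⟩
  · intro e he
    rw [Option.some.injEq] at he
    subst he
    exact (h.V_iff _ _).2 hΘ1
  · rw [TS.le_iff]
    refine ⟨hcx, fun e he => ?_⟩
    rw [hx, Option.some.injEq] at he
    subst he
    exact ⟨.hd s Θ, rfl, (h.L_iff _ _ _).2 ⟨List.prefix_rfl, hΘ2,
      fun u n hu hn => (hvac u n hu hn).elim⟩⟩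
  · rw [TS.le_iff]
    refine ⟨hcy, fun e he => ?_⟩
    rw [hy, Option.some.injEq] at he
    subst he
    exact ⟨.hd s Θ, rfl, (h.L_iff _ _ _).2 ⟨List.prefix_rfl, hΘ3,
      fun u n hu hn => (hvac u n hu hn).elim⟩⟩

theorem hd_start (h : IsQS S r A nm) (x : TS S) :
    ∃ y : TS S, y ≤ x ∧ y.fst = x.fst ∧ ∃ s Φ, y.snd = some (.hd s Φ) := by
  cases hx : x.snd with
  | none =>
    obtain ⟨c, hc, _⟩ := const_code h (p := x.fst) (∅, 0) (fun α hα => by simp at hα)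
    refine ⟨⟨x.fst, some (.hd [] (fun _ => c)), ?_⟩, ?_, rfl, [], fun _ => c, rfl⟩
    · intro e he
      rw [Option.some.injEq] at he
      subst he
      exact (h.V_iff _ _).2 fun _ => hc
    · rw [TS.le_iff]
      refine ⟨le_refl _, fun e he => ?_⟩
      rw [hx] at he
      exact absurd he (by simp)
  | some e =>
    have h1 : VQ A nm x.fst e := (h.V_iff _ _).1 (x.ok _ hx)
    cases e with
    | nd a => exact h1.elim
    | hd s Φ => exact ⟨x, le_refl _, rfl, s, Φ, hx⟩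

/-- the meaning of `y ≤ x` -/
theorem hd_le (h : IsQS S r A nm) {x y : TS S} {s : List Nd} {Φ : List Nd → Cd}
    (hx : x.snd = some (.hd s Φ)) (hyx : y ≤ x) :
    ∃ t Ψ, y.snd = some (.hd t Ψ) ∧ s <+: t ∧
      (∀ u q, q ≤ y.fst → ∀ v w, nm (Φ u) q v → nm (Ψ u) q w → vle v w) ∧
      (∀ (u : List Nd) (n : Nd), s <+: u → (u ++ [n]) <+: t → ∀ q, q ≤ y.fst → ∀ v, nm (Φ u) q v →
        InS r v n q) := by
  rw [TS.le_iff] at hyx
  obtain ⟨e, he, hL⟩ := hyx.2 _ hx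
  have h1 : LQ r nm y.fst e (.hd s Φ) := (h.L_iff _ _ _).1 hL
  cases e with
  | nd a => exact h1.elim
  | hd t Ψ => exact ⟨t, Ψ, he, h1⟩

end BI
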