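import Pool.Agent.Helper18.BI.Base

/-!
# BI-08 Finite support limits with a countable cofinal set: tameness

TO PROVE (in place).  Let `D : K → S.P i → Prop` be monotone.  For `j < i` define the name
`Dj j : K → S.P j → Prop`, `Dj j e p := ∀ p' ≤ p, ∃ q : S.P i, q ≤ S.rs j i p' ∧ D e q`
(the element `e` is a possible member of `D`); it is monotone.  For `j < i` let `E j : ℕ → K → P0 → Prop` be given by
`ih j` for `Dj j` (for `¬ j < i` take anything, e.g. constantly `False`).  `C` is countable and nonempty (`hne`, `hcof`);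
let `g : ℕ → J` be an enumeration of `C` (`Set.Countable.exists_eq_range`), and use the family
`fun k => E (g k.unpair.1) k.unpair.2`.

Let `T : K → P0 → Prop` be monotone, `q : S.P i`, `InfB D q`, `SubB D (fun e r => T e r.1.base) q`.
The support of `q` is finite, so there is `j ∈ C` with `∀ l, q.1.ent l ≠ none → l < j` (if the support is
empty take any element of `C`; otherwise let `l` be its maximum, `l < i` by `q.2.2`; `hlim` gives `k` with
`l < k < i` and `hcof` gives `j ∈ C` with `k ≤ j`).  Let `q0 := S.rs i j q : S.P j`.  Then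
`S.rs j i q0 = q` (`Subtype.ext`, compare coordinates).
* `InfB (Dj j) q0`: let `F`, `p' ≤ q0`.  `S.rs j i p' ≤ q` (`rs_mono`).  `InfB D q` gives
  `r ≤ S.rs j i p'`, `e ∉ F`, `D e r`.  Put `p'' := S.rs i j r`; `p'' ≤ p'` (`rs_mono`, `rs_rs_self`).  `Dj j e p''`:
  for `p3 ≤ p''` apply `S.amalgam` to `r` and `p3`: get `r' ≤ r`, `r' ≤ S.rs j i p3`; `D e r'` by monotonicity.
* `SubB (Dj j) (fun e r => T e r.1.base) q0`: let `p' ≤ q0`, `Dj j e p'`.  There is `r ≤ S.rs j i p'` with
  `D e r`; `r ≤ q`; so `SubB D` gives `r' ≤ r` with `T e r'.1.base`; take `S.rs i j r' ≤ p'`, which has the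
  same base.
So `ih j` gives `n` and `p0`; use `k = Nat.pair m n` where `g m = j`.
-/

set_option autoImplicit false

namespace BI

theorem rs_supp_self {P0 J E : Type} [Preorder P0] [LinearOrder J] (S : FSys P0 J E) {i j : J}
    (hj : j < i) (q : S.P i) (hs : ∀ l, q.1.ent l ≠ none → l < j) :
    S.rs j i (S.rs i j q) = q := by
  apply Subtype.ext
  show (q.1.res j).res i = q.1
  ext1
  · rfl
  · funext l
    by_cases hl : l < j
    · rw [Con.ent_res_of_lt _ (hl.trans hj), Con.ent_res_of_lt _ hl]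
    · have h1 : q.1.ent l = none := by
        by_contra h
        exact hl (hs l h)
      simp [Con.res, hl, h1]

theorem tame_limA {P0 J E : Type} [Preorder P0] [LinearOrder J] [WellFoundedLT J] (S : FSys P0 J E)
    (K : Type) (i : J) (hne : ∃ j, j < i) (hlim : ∀ j, j < i → ∃ k, j < k ∧ k < i)
    (C : Set J) (hC : C.Countable) (hCi : ∀ j ∈ C, j < i) (hcof : ∀ j, j < i → ∃ k ∈ C, j ≤ k)
    (ih : ∀ j, j < i → RTame P0 (S.P j) K (fun p => p.1.base)) :
    RTame P0 (S.P i) K (fun p => p.1.base) := by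
  intro D hD
  have hMon : ∀ j : J, Mon (fun (e : K) (p : S.P j) =>
      ∀ p' : S.P j, p' ≤ p → ∃ q : S.P i, q ≤ S.rs j i p' ∧ D e q) := by
    intro j e p q hqp h p' hp'
    exact h p' (le_trans hp' hqp)
  have hEx : ∀ j : J, ∃ E : ℕ → K → P0 → Prop, (∀ n, Mon (E n)) ∧ (j < i →
      ∀ T : K → P0 → Prop, Mon T → ∀ q : S.P j,
        InfB (fun (e : K) (p : S.P j) =>
          ∀ p' : S.P j, p' ≤ p → ∃ q : S.P i, q ≤ S.rs j i p' ∧ D e q) q →
        SubB (fun (e : K) (p : S.P j) =>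
          ∀ p' : S.P j, p' ≤ p → ∃ q : S.P i, q ≤ S.rs j i p' ∧ D e q)
          (fun e r => T e r.1.base) q →
        ∃ n, ∃ p : P0, InfB (E n) p ∧ SubB (E n) T p) := by
    intro j
    by_cases hj : j < i
    · obtain ⟨E, hE1, hE2⟩ := ih j hj _ (hMon j)
      exact ⟨E, hE1, fun _ => hE2⟩
    · exact ⟨fun _ _ _ => False, fun n x p q _ h => h, fun h => absurd h hj⟩
  choose E hEm hE using hEx
  have hCne : C.Nonempty := by
    obtain ⟨j, hj⟩ := hne
    obtain ⟨k, hk, _⟩ := hcof j hj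
    exact ⟨k, hk⟩
  obtain ⟨g, hg⟩ := hC.exists_eq_range hCne
  refine ⟨fun k => E (g k.unpair.1) k.unpair.2, fun k => hEm _ _, ?_⟩
  intro T hT q hInf hSub
  obtain ⟨j, hjC, hs⟩ : ∃ j ∈ C, ∀ l, q.1.ent l ≠ none → l < j := by
    by_cases hne : {l | q.1.ent l ≠ none}.Nonempty
    · obtain ⟨l, hl, hmax⟩ := Set.exists_max_image _ id q.2.1 hne
      have hli : l < i := by
        rcases h : q.1.ent l with _ | e
        · exact absurd h hl
        · exact (q.2.2 l e h).1
      obtain ⟨k, hlk, hki⟩ := hlim l hli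
      obtain ⟨j, hjC, hkj⟩ := hcof k hki
      refine ⟨j, hjC, ?_⟩
      intro l' hl'
      exact lt_of_le_of_lt (hmax l' hl') (lt_of_lt_of_le hlk hkj)
    · obtain ⟨j, hjC⟩ := hCne
      refine ⟨j, hjC, ?_⟩
      intro l hl
      exact absurd ⟨l, hl⟩ hne
  have hj : j < i := hCi j hjC
  have hq0 : S.rs j i (S.rs i j q) = q := rs_supp_self S hj q hs
  obtain ⟨n, p0, h1, h2⟩ := hE j hj T hT (S.rs i j q) (by
    intro F p' hp'
    have h1 : S.rs j i p' ≤ q := by
      have := S.rs_mono j i hp'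
      rwa [hq0] at this
    obtain ⟨r, hr, e, heF, hDe⟩ := hInf F _ h1
    refine ⟨S.rs i j r, ?_, e, heF, ?_⟩
    · have := S.rs_mono i j hr
      rwa [S.rs_rs_self hj.le] at this
    · intro p3 hp3
      obtain ⟨r', hr1, hr2, _, _⟩ := S.amalgam hj.le r p3 hp3
      exact ⟨r', hr2, hD e r r' hr1 hDe⟩) (by
    intro e p' hp' hDj
    obtain ⟨r, hr, hDr⟩ := hDj p' (le_refl _)
    have h1 : S.rs j i p' ≤ q := by
      have := S.rs_mono j i hp'
      rwa [hq0] at this
    obtain ⟨r', hr1, hr2⟩ := hSub e r (le_trans hr h1) hDr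
    refine ⟨S.rs i j r', ?_, hr2⟩
    have := S.rs_mono i j (le_trans hr1 hr)
    rwa [S.rs_rs_self hj.le] at this)
  have hjr : j ∈ Set.range g := by rw [← hg]; exact hjC
  obtain ⟨m, hm⟩ := hjr
  refine ⟨Nat.pair m n, p0, ?_, ?_⟩
  · simp only [Nat.unpair_pair]
    rw [hm]
    exact h1
  · simp only [Nat.unpair_pair]
    rw [hm]
    exact h2

end BI
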