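import Pool.Agent.Helper18.BI.CtbN
import Pool.Agent.Helper18.BI.Base

/-!
# BI-10 Finite support limits without countable cofinal set: tameness

TO PROVE (in place).  Let `D : K → S.P i → Prop` be monotone; `exists_ctbName` gives `Z`.  All elements `a` of
`S.P i` have finite support below `i`, so the set of all `l` with `∃ z ∈ Z, z.1.1.ent l ≠ none` is a countable set
of elements `< i`.  By `hcof` there is `j < i` with `l < j` for all these `l`.  Hence
`S.rs j i (S.rs i j z.1) = z.1` for `z ∈ Z`.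
Define `D' : K → S.P j → Prop`, `D' e p := ∃ z ∈ Z, z.2 = e ∧ p ≤ S.rs i j z.1`, a monotone family, and let `E` be given
by `ih j` for `D'`.  Let `T`, `q : S.P i` with `InfB D q`, `SubB D (fun e r => T e r.1.base) q`; put
`q0 := S.rs i j q`.
* `InfB D' q0`: let `F`, `p' ≤ q0`.  `S.amalgam` gives `r ≤ q` with `r ≤ S.rs j i p'`.  There are `z ∈ Z`, `z.2 ∉ F`
  and `c ≤ r`, `c ≤ z.1`.  Take `S.rs i j c`: it is `≤ p'` (`le_rs_iff`) and `≤ S.rs i j z.1`.
* `SubB D' (fun e r => T e r.1.base) q0`: let `p' ≤ q0`, `D' e p'` with `z`.  `S.amalgam` gives `r ≤ q` with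
  `r ≤ S.rs j i p'`, so `r ≤ S.rs j i (S.rs i j z.1) = z.1` and `D e r` by monotonicity.  `SubB D` gives
  `r' ≤ r` with `T e r'.1.base`; take `S.rs i j r' ≤ p'`.
So `ih j` gives `n` and `p0`.
-/

set_option autoImplicit false

namespace BI

theorem tame_limB {P0 J E : Type} [Preorder P0] [LinearOrder J] [WellFoundedLT J] (S : FSys P0 J E)
    (K : Type) (i : J) (hccc : CCC (S.P i))
    (hcof : ∀ C : Set J, C.Countable → (∀ j ∈ C, j < i) → ∃ k, k < i ∧ ∀ j ∈ C, j < k)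
    (ih : ∀ j, j < i → RTame P0 (S.P j) K (fun p => p.1.base)) :
    RTame P0 (S.P i) K (fun p => p.1.base) := by
  intro D hD
  obtain ⟨Z, hZc, hZD, hZ⟩ := exists_ctbName hccc D hD
  have hC : (⋃ z ∈ Z, {l : J | z.1.1.ent l ≠ none}).Countable :=
    hZc.biUnion (fun z _ => z.1.2.1.countable)
  have hCi : ∀ l ∈ (⋃ z ∈ Z, {l : J | z.1.1.ent l ≠ none}), l < i := by
    intro l hl
    obtain ⟨z, _, h2⟩ := Set.mem_iUnion₂.1 hl
    obtain ⟨e, he⟩ := Option.ne_none_iff_exists'.1 h2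
    exact (z.1.2.2 l e he).1
  obtain ⟨j, hji, hj⟩ := hcof _ hC hCi
  have hrs : ∀ z ∈ Z, S.rs j i (S.rs i j z.1) = z.1 := by
    intro z hz
    apply Subtype.ext
    show (z.1.1.res j).res i = z.1.1
    ext1
    · rfl
    · funext k
      by_cases h : z.1.1.ent k = none
      · simp [Con.res, h]
      · have h1 : k < j := hj k (Set.mem_iUnion₂.2 ⟨z, hz, h⟩)
        rw [Con.ent_res_of_lt _ (h1.trans hji), Con.ent_res_of_lt _ h1]
  have hD' : Mon (fun (e : K) (p : S.P j) => ∃ z ∈ Z, z.2 = e ∧ p ≤ S.rs i j z.1) := by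
    rintro e p q hqp ⟨z, hz, h1, h2⟩
    exact ⟨z, hz, h1, hqp.trans h2⟩
  obtain ⟨E, hE, hE'⟩ := ih j hji _ hD'
  refine ⟨E, hE, fun T hT q hInf hSub => hE' T hT (S.rs i j q) ?_ ?_⟩
  · intro F p' hp'
    obtain ⟨r, hr1, hr2, _, _⟩ := S.amalgam hji.le q p' hp'
    obtain ⟨z, hz, hzF, c, hc1, hc2⟩ := hZ q hInf F r hr1
    exact ⟨S.rs i j c, (S.le_rs_iff hji.le).1 (hc1.trans hr2), z.2, hzF, z, hz, rfl,
      S.rs_mono i j hc2⟩
  · rintro e p' hp' ⟨z, hz, rfl, hle⟩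
    obtain ⟨r, hr1, hr2, _, _⟩ := S.amalgam hji.le q p' hp'
    have h1 : r ≤ z.1 := by
      have h2 : S.rs j i p' ≤ S.rs j i (S.rs i j z.1) := S.rs_mono j i hle
      rw [hrs z hz] at h2
      exact hr2.trans h2
    obtain ⟨r', h3, h4⟩ := hSub z.2 r hr1 (hD z.2 _ _ h1 (hZD z hz))
    exact ⟨S.rs i j r', (S.le_rs_iff hji.le).1 (h3.trans hr2), h4⟩

end BI
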