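import Pool.Agent.Helper18.BI.Lift
import Pool.Agent.Helper18.BI.Delta

/-!
# BI-07 Finite support limits: the countable chain condition

TO PROVE (in place): if `i` is a limit and all `P_j`, `j < i`, have the countable chain condition, then so does
`P_i`.

Proof.  Let `A` be an antichain of `S.P i` and suppose it is uncountable.  Apply `delta_system` with
`f p := p.2.1.toFinset` (the support, a `Finset J`) and `A`: `T ⊆ A` uncountable and `ρ` with
`f x ∩ f y = ρ` for `x ≠ y` in `T`.  Since `T` has two different elements, `ρ ⊆ supp x`, so all elements of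
`ρ` are `< i`.  Choose `k < i` with `∀ j ∈ ρ, j < k` (if `ρ = ∅` take any `k < i` from `hne`, otherwise apply `hlim` to the
maximum of `ρ`).  Consider the restrictions `S.rs i k x`, `x ∈ T`.
There are `x ≠ y` in `T` such that `S.rs i k x` and `S.rs i k y` are compatible: otherwise `x ↦ S.rs i k x` would be
injective on `T` (`le_refl` shows that equal restrictions are compatible) with image an antichain of `S.P k`,
so the image would be countable by `ih k` and `T` would be countable.
Let `r : S.P k` be a common extension.  Define `c : Con P0 J E`, `c.base = r.1.base`, `c.ent l = r.1.ent l` for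
`l < k`, and for `¬ l < k`: `c.ent l = x.1.ent l` if this is not `none`, otherwise `y.1.ent l`.
It has finite support.  Note `c.res k = r.1` and `c.res l = r.1.res l` for `l ≤ k` (compare `glu_res_of_le`).
We use `FSys.patch` twice, for `x` and for `y`, to see that `c` is a condition with `c ≤ x` and `c ≤ y`.  To verify
the hypothesis `hst` of `patch` one needs both inequalities `cle (c.res l) (x.res l)` and
`cle (c.res l) (y.res l)` at the same time; so either prove the simultaneous statement
`∀ l ≤ i, IsC S.V l (c.res l) ∧ cle S.L (c.res l) (x.1.res l) ∧ cle S.L (c.res l) (y.1.res l)` by well-founded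
induction exactly as in the proof of `FSys.patch` (recommended), or otherwise.  In the induction step, for a
coordinate `m < l`: if `m < k` everything follows from `r.2` and `r ≤ S.rs i k x`, `r ≤ S.rs i k y`; if `¬ m < k` and
`x.1.ent m = some e`: then `y.1.ent m = none` (otherwise `m ∈ supp x ∩ supp y = ρ`, so `m < k`), `c.ent m = some e`,
`S.V m (c.res m) e` by `S.Vm` from `x.2.2` and the induction hypothesis, `S.L m (c.res m) e e` by `S.Lr`; if
`x.1.ent m = none` then `c.ent m = y.1.ent m` and the same argument works with `y`.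
Finally `c.res i = c`, so `c` is an element of `S.P i` below `x` and `y`: contradiction.
-/

set_option autoImplicit false

namespace BI

/-- Amalgamation of two conditions whose supports are disjoint from `k` on, over a common extension of
their restrictions to `k`. -/
theorem amalgam_two {P0 J E : Type} [Preorder P0] [LinearOrder J] [WellFoundedLT J]
    (S : FSys P0 J E) {i k : J} (hk : k < i) (x y : S.P i) (r : S.P k)
    (hrx : r ≤ S.rs i k x) (hry : r ≤ S.rs i k y)
    (hdis : ∀ m, ¬ m < k → x.1.ent m ≠ none → y.1.ent m = none) : Cmp x y := by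
  classical
  let c : Con P0 J E := ⟨r.1.base, fun m => if m < k then r.1.ent m else (x.1.ent m).or (y.1.ent m)⟩
  have hlt : ∀ m, m < k → c.ent m = r.1.ent m := fun m hm => by simp [c, hm]
  have hge : ∀ m, ¬ m < k → c.ent m = (x.1.ent m).or (y.1.ent m) := fun m hm => by simp [c, hm]
  have hcx : ∀ m e, ¬ m < k → x.1.ent m = some e → c.ent m = some e := by
    intro m e hm he
    rw [hge m hm, he, Option.some_or]
  have hcy : ∀ m e, ¬ m < k → y.1.ent m = some e → c.ent m = some e := by
    intro m e hm he
    have h1 : x.1.ent m = none := by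
      by_contra h
      rw [hdis m hm h] at he
      exact absurd he (by simp)
    rw [hge m hm, h1, Option.none_or, he]
  have hcxy : ∀ m e, ¬ m < k → c.ent m = some e → x.1.ent m = some e ∨ y.1.ent m = some e := by
    intro m e hm he
    rw [hge m hm] at he
    rcases h : x.1.ent m with _ | e'
    · rw [h, Option.none_or] at he
      exact Or.inr he
    · rw [h, Option.some_or] at he
      exact Or.inl he
  have hres : ∀ m, m ≤ k → c.res m = r.1.res m := by
    intro m hm
    ext1
    · rfl
    · funext l
      by_cases h1 : l < m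
      · rw [Con.ent_res_of_lt _ h1, Con.ent_res_of_lt _ h1, hlt l (h1.trans_le hm)]
      · simp [Con.res, h1]
  have hfin : {m | c.ent m ≠ none}.Finite := by
    refine ((r.2.1.union x.2.1).union y.2.1).subset fun m hm => ?_
    by_cases h1 : m < k
    · left; left
      show r.1.ent m ≠ none
      rw [← hlt m h1]; exact hm
    · obtain ⟨e, he⟩ := Option.ne_none_iff_exists'.1 hm
      rcases hcxy m e h1 he with h2 | h2
      · left; right
        show x.1.ent m ≠ none
        rw [h2]; simp
      · right
        show y.1.ent m ≠ none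
        rw [h2]; simp
  have hsup : ∀ m e, c.ent m = some e → m < i := by
    intro m e he
    by_cases h1 : m < k
    · exact h1.trans hk
    · rcases hcxy m e h1 he with h2 | h2
      · exact (x.2.2 m e h2).1
      · exact (y.2.2 m e h2).1
  have stepV : ∀ m, IsC S.V m (c.res m) → cle S.L (c.res m) (x.1.res m) →
      cle S.L (c.res m) (y.1.res m) → ∀ e, c.ent m = some e → S.V m (c.res m) e := by
    intro m h1 h2 h3 e he
    by_cases h4 : m < k
    · rw [hres m h4.le]
      exact (r.2.2 m e ((hlt m h4).symm.trans he)).2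
    · rcases hcxy m e h4 he with h5 | h5
      · exact S.Vm _ _ _ _ (x.2.res m) h1 h2 (x.2.2 m e h5).2
      · exact S.Vm _ _ _ _ (y.2.res m) h1 h3 (y.2.2 m e h5).2
  have stepL : ∀ z : S.P i, r ≤ S.rs i k z →
      (∀ m e, ¬ m < k → z.1.ent m = some e → c.ent m = some e) →
      ∀ m, IsC S.V m (c.res m) → (∀ e, c.ent m = some e → S.V m (c.res m) e) →
      ∀ e, z.1.ent m = some e → ∃ e', c.ent m = some e' ∧ S.L m (c.res m) e' e := by
    intro z hz hcz m h1 h2 e he
    by_cases h4 : m < k
    · have h6 : (S.rs i k z).1.ent m = some e := (Con.ent_res_of_lt _ h4).trans he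
      obtain ⟨e', h7, h8⟩ := hz.2 m e h6
      refine ⟨e', (hlt m h4).trans h7, ?_⟩
      rw [hres m h4.le]; exact h8
    · exact ⟨e, hcz m e h4 he, S.Lr _ _ _ h1 (h2 e (hcz m e h4 he))⟩
  have key : ∀ l, l ≤ i → IsC S.V l (c.res l) ∧ cle S.L (c.res l) (x.1.res l) ∧
      cle S.L (c.res l) (y.1.res l) := by
    intro l
    induction l using WellFoundedLT.induction with
    | ind l ih =>
      intro hl
      have hstep : ∀ z : S.P i, r ≤ S.rs i k z →
          (∀ m e, ¬ m < k → z.1.ent m = some e → c.ent m = some e) →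
          cle S.L (c.res l) (z.1.res l) := by
        intro z hz hcz
        refine ⟨hz.1, fun m e hm => ?_⟩
        obtain ⟨h1, h2⟩ := Con.ent_res_eq_some hm
        rw [Con.res_res_of_le _ h1.le]
        obtain ⟨h4, h5, h6⟩ := ih m h1 (h1.le.trans hl)
        obtain ⟨e', h7, h8⟩ := stepL z hz hcz m h4 (stepV m h4 h5 h6) e h2
        exact ⟨e', (Con.ent_res_of_lt _ h1).trans h7, h8⟩
      refine ⟨⟨hfin.subset fun m hm => ?_, fun m e hm => ?_⟩, hstep x hrx hcx, hstep y hry hcy⟩
      · intro h1
        apply hm
        by_cases h2 : m < l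
        · rw [Con.ent_res_of_lt _ h2]; exact h1
        · simp [Con.res, h2]
      · obtain ⟨h1, h2⟩ := Con.ent_res_eq_some hm
        refine ⟨h1, ?_⟩
        rw [Con.res_res_of_le _ h1.le]
        obtain ⟨h4, h5, h6⟩ := ih m h1 (h1.le.trans hl)
        exact stepV m h4 h5 h6 e h2
  have hresi : c.res i = c := by
    ext1
    · rfl
    · funext m
      by_cases h1 : m < i
      · exact Con.ent_res_of_lt _ h1
      · have h3 : c.ent m = none := by
          rcases h3 : c.ent m with _ | e
          · rfl
          · exact absurd (hsup m e h3) h1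
        simp [Con.res, h1, h3]
  obtain ⟨h1, h2, h3⟩ := key i le_rfl
  rw [hresi] at h1 h2 h3
  rw [x.2.res_eq le_rfl] at h2
  rw [y.2.res_eq le_rfl] at h3
  exact ⟨⟨c, h1⟩, h2, h3⟩

theorem ccc_limit {P0 J E : Type} [Preorder P0] [LinearOrder J] [WellFoundedLT J] (S : FSys P0 J E) (i : J)
    (hne : ∃ j, j < i) (hlim : ∀ j, j < i → ∃ k, j < k ∧ k < i) (ih : ∀ j, j < i → CCC (S.P j)) :
    CCC (S.P i) := by
  classical
  intro A hA
  by_contra hcon
  obtain ⟨T, hTA, hT, ρ, hρ⟩ := delta_system (fun p : S.P i => p.2.1.toFinset) A hcon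
  obtain ⟨x0, hx0, y0, hy0, hxy0⟩ : T.Nontrivial := by
    by_contra hn
    exact hT (Set.not_nontrivial_iff.1 hn).countable
  have hρi : ∀ j ∈ ρ, j < i := by
    intro j hj
    rw [← hρ x0 hx0 y0 hy0 hxy0, Finset.mem_inter, Set.Finite.mem_toFinset] at hj
    obtain ⟨e, he⟩ := Option.ne_none_iff_exists'.1 hj.1
    exact (x0.2.2 j e he).1
  obtain ⟨k, hk, hρk⟩ : ∃ k, k < i ∧ ∀ j ∈ ρ, j < k := by
    rcases ρ.eq_empty_or_nonempty with h | h
    · obtain ⟨k, hk⟩ := hne
      exact ⟨k, hk, fun j hj => by rw [h] at hj; exact absurd hj (Finset.notMem_empty j)⟩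
    · obtain ⟨k, h1, h2⟩ := hlim (ρ.max' h) (hρi _ (ρ.max'_mem h))
      exact ⟨k, h2, fun j hj => (ρ.le_max' j hj).trans_lt h1⟩
  obtain ⟨x, hx, y, hy, hxy, r, hrx, hry⟩ : ∃ x ∈ T, ∃ y ∈ T, x ≠ y ∧
      Cmp (S.rs i k x) (S.rs i k y) := by
    by_contra hn
    push Not at hn
    have hinj : Set.InjOn (S.rs i k) T := by
      intro x hx y hy h
      by_contra hxy
      exact hn x hx y hy hxy ⟨S.rs i k x, le_refl _, h ▸ le_refl _⟩
    have him : (S.rs i k '' T).Countable := by
      apply ih k hk
      rintro _ ⟨x, hx, rfl⟩ _ ⟨y, hy, rfl⟩ hxy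
      exact hn x hx y hy (fun h => hxy (by rw [h]))
    exact hT (Set.countable_of_injective_of_countable_image hinj him)
  refine hA x (hTA hx) y (hTA hy) hxy (amalgam_two S hk x y r hrx hry ?_)
  intro m hm hxm
  by_contra hym
  apply hm
  apply hρk
  rw [← hρ x hx y hy hxy, Finset.mem_inter, Set.Finite.mem_toFinset, Set.Finite.mem_toFinset]
  exact ⟨hxm, hym⟩

end BI
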