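import Pool.Agent.Helper18.BI.Base

/-!
# The definitions of stage `i` only depend on the stages below `i`
-/

set_option autoImplicit false

namespace BI

variable {P0 J Cd : Type} [Preorder P0] [LinearOrder J]

/-- the definition of `stV`, for an arbitrary set of conditions with an arbitrary order -/
def gV (dec : Cd → ℕ → Option (Con P0 J (Ent Cd) × Val)) (C : Con P0 J (Ent Cd) → Prop)
    (I : LE {p // C p}) (π : Par P0 J Cd) (p : Con P0 J (Ent Cd)) (e : Ent Cd) : Prop :=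
  ∃ h : C p, match π with
    | .qs _ A => VQ (fun α (q : {p // C p}) => ∀ q', q' ≤ q → ∃ q'', q'' ≤ q' ∧ ∃ k x v,
        dec (A α) k = some (x, v) ∧ ∃ h : C x, q'' ≤ (⟨x, h⟩ : {p // C p}))
        (fun c (q : {p // C p}) v => ∃ k x, dec c k = some (x, v) ∧ ∃ h : C x, q ≤ (⟨x, h⟩ : {p // C p}))
        (⟨p, h⟩ : {p // C p}) e
    | .tr p0 R => ∃ h0 : C p0, VR (fun a b (q : {p // C p}) => ∀ q', q' ≤ q → ∃ q'', q'' ≤ q' ∧
        ∃ k x v, dec (R a b) k = some (x, v) ∧ ∃ h : C x, q'' ≤ (⟨x, h⟩ : {p // C p}))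
        (⟨p0, h0⟩ : {p // C p}) ⟨p, h⟩ e

/-- the definition of `stL`, for an arbitrary set of conditions with an arbitrary order -/
def gL (dec : Cd → ℕ → Option (Con P0 J (Ent Cd) × Val)) (C : Con P0 J (Ent Cd) → Prop)
    (I : LE {p // C p}) (π : Par P0 J Cd) (p : Con P0 J (Ent Cd)) (e' e : Ent Cd) : Prop :=
  ∃ h : C p, match π with
    | .qs r _ => LQ (fun α n (q : {p // C p}) => ∀ q', q' ≤ q → ∃ q'', q'' ≤ q' ∧ ∃ k x v,
        dec (r α n) k = some (x, v) ∧ ∃ h : C x, q'' ≤ (⟨x, h⟩ : {p // C p}))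
        (fun c (q : {p // C p}) v => ∃ k x, dec c k = some (x, v) ∧ ∃ h : C x, q ≤ (⟨x, h⟩ : {p // C p}))
        (⟨p, h⟩ : {p // C p}) e' e
    | .tr _ R => LR (fun a b (q : {p // C p}) => ∀ q', q' ≤ q → ∃ q'', q'' ≤ q' ∧
        ∃ k x v, dec (R a b) k = some (x, v) ∧ ∃ h : C x, q'' ≤ (⟨x, h⟩ : {p // C p}))
        (⟨p, h⟩ : {p // C p}) e' e

theorem stV_eq (dec : Cd → ℕ → Option (Con P0 J (Ent Cd) × Val)) (b : J → Par P0 J Cd)
    (V : J → Con P0 J (Ent Cd) → Ent Cd → Prop) (L : J → Con P0 J (Ent Cd) → Ent Cd → Ent Cd → Prop)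
    (i : J) : stV dec b V L i = gV dec (IsC V i) ⟨fun a b => cle L a.1 b.1⟩ (b i) := rfl

theorem stL_eq (dec : Cd → ℕ → Option (Con P0 J (Ent Cd) × Val)) (b : J → Par P0 J Cd)
    (V : J → Con P0 J (Ent Cd) → Ent Cd → Prop) (L : J → Con P0 J (Ent Cd) → Ent Cd → Ent Cd → Prop)
    (i : J) : stL dec b V L i = gL dec (IsC V i) ⟨fun a b => cle L a.1 b.1⟩ (b i) := rfl

theorem gV_congr (dec : Cd → ℕ → Option (Con P0 J (Ent Cd) × Val)) {C C' : Con P0 J (Ent Cd) → Prop}
    (I : LE {p // C p}) (I' : LE {p // C' p}) (π : Par P0 J Cd) (hC : ∀ p, C p ↔ C' p)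
    (hI : ∀ a b (ha : C a) (hb : C b) (ha' : C' a) (hb' : C' b),
      (I.le ⟨a, ha⟩ ⟨b, hb⟩ ↔ I'.le ⟨a, ha'⟩ ⟨b, hb'⟩)) :
    gV dec C I π = gV dec C' I' π ∧ gL dec C I π = gL dec C' I' π := by
  have h1 : C = C' := funext fun p => propext (hC p)
  subst h1
  have h2 : I = I' := by
    cases I
    cases I'
    congr
    funext a b
    exact propext (hI a.1 b.1 a.2 b.2 a.2 b.2)
  subst h2
  exact ⟨rfl, rfl⟩

omit [Preorder P0] in
theorem isC_congr {E : Type} {V V' : J → Con P0 J E → E → Prop} {i : J} (hV : ∀ j, j < i → V j = V' j)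
    (p : Con P0 J E) : IsC V i p ↔ IsC V' i p := by
  unfold IsC
  refine and_congr_right fun _ => forall_congr' fun j => forall_congr' fun e => forall_congr' fun _ => ?_
  refine and_congr_right fun h => ?_
  rw [hV j h]

theorem cle_congr {E : Type} {V : J → Con P0 J E → E → Prop} {L L' : J → Con P0 J E → E → E → Prop}
    {i : J} (hL : ∀ j, j < i → L j = L' j) {p q : Con P0 J E} (hq : IsC V i q) :
    cle L p q ↔ cle L' p q := by
  unfold cle
  refine and_congr_right fun _ => forall_congr' fun j => forall_congr' fun e => ?_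
  constructor
  · intro h he
    rw [← hL j (hq.2 j e he).1]
    exact h he
  · intro h he
    rw [hL j (hq.2 j e he).1]
    exact h he

theorem st_congr (dec : Cd → ℕ → Option (Con P0 J (Ent Cd) × Val)) (b : J → Par P0 J Cd)
    {V V' : J → Con P0 J (Ent Cd) → Ent Cd → Prop} {L L' : J → Con P0 J (Ent Cd) → Ent Cd → Ent Cd → Prop}
    {i : J} (hV : ∀ j, j < i → V j = V' j) (hL : ∀ j, j < i → L j = L' j) :
    stV dec b V L i = stV dec b V' L' i ∧ stL dec b V L i = stL dec b V' L' i := by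
  rw [stV_eq, stV_eq, stL_eq, stL_eq]
  exact gV_congr dec _ _ _ (isC_congr hV) fun a b ha hb _ _ => cle_congr hL hb

end BI
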