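import Pool.Agent.Helper18.BI.Trans
import Pool.Agent.Helper18.BI.Base

/-!
# BI-06 The first stage of the iteration

TO PROVE (in place): if `i` is the least element of `J` then `P_i` has the countable chain condition and is tame.

Proof.  Let `f : S.P i → P0`, `f p = p.1.base`.  If `i` is minimal, every `p : S.P i` has `p.1.ent j = none` for all `j`
(`p.2.2 j e h` gives `j < i`), so `p.1 = ⟨p.1.base, fun _ => none⟩`.  `f` is surjective: for `q : P0` the
condition `⟨⟨q, fun _ => none⟩, _⟩` works.  `f a ≤ f b ↔ a ≤ b`: the second part of `cle` is vacuous.  Now use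
`ccc_of_map`, and `tame_of_map` with `g = fun p => p` and `tame_refl`.
-/

set_option autoImplicit false

namespace BI

variable {P0 J E : Type} [Preorder P0] [LinearOrder J]


theorem min_ent_none (S : FSys P0 J E) {i : J} (hi : ∀ j, ¬ j < i) (p : S.P i) (j : J) :
    p.1.ent j = none := by
  rcases h : p.1.ent j with _ | e
  · rfl
  · exact absurd (p.2.2 j e h).1 (hi j)

theorem min_surj (S : FSys P0 J E) (i : J) :
    Function.Surjective (fun p : S.P i => p.1.base) := by
  intro q
  refine ⟨⟨⟨q, fun _ => none⟩, ?_, ?_⟩, rfl⟩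
  · refine Set.Finite.subset Set.finite_empty fun j hj => ?_
    exact absurd rfl hj
  · intro j e h
    exact absurd h (by simp)

theorem min_le_iff (S : FSys P0 J E) {i : J} (hi : ∀ j, ¬ j < i) (a b : S.P i) :
    a.1.base ≤ b.1.base ↔ a ≤ b := by
  constructor
  · intro h
    refine ⟨h, fun j e he => ?_⟩
    rw [min_ent_none S hi b j] at he
    exact absurd he (by simp)
  · intro h
    exact h.1

theorem ccc_min (S : FSys P0 J E) (h0 : CCC P0) (i : J) (hi : ∀ j, ¬ j < i) : CCC (S.P i) :=
  ccc_of_map (fun p : S.P i => p.1.base) (min_surj S i) (min_le_iff S hi) h0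

theorem tame_min (S : FSys P0 J E) (K : Type) (i : J) (hi : ∀ j, ¬ j < i) :
    RTame P0 (S.P i) K (fun p => p.1.base) :=
  tame_of_map (fun p : S.P i => p.1.base) (fun p : P0 => p) (min_surj S i) (min_le_iff S hi) tame_refl

end BI
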