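import Pool.Agent.Helper18.BI.JoinL

/-!
# BI-16 The Laver type forcing: the countable chain condition of the two step iteration

Let `𝒜` be an antichain of `TS S`.  Its elements have `snd = none` or
`snd = some (.hd s Φ)` (`x.ok` and `h.V_iff`, `VQ` is `False` on `.nd a`).
* The elements with `snd = none`: `fst` is injective on them and its image is an antichain: if `c ≤ x.fst`,
  `c ≤ y.fst` then `⟨c, none, _⟩ ≤ x`, `≤ y` (so `x = y`); if `x.fst = y.fst` use `c = x.fst`.  So there are countably
  many.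
* For every `s : List Nd` the set of all `x ∈ 𝒜` with `∃ Φ, x.snd = some (.hd s Φ)`: by `hd_join` a common extension
  `c` of `x.fst` and `y.fst` gives a common extension of `x` and `y`, so again `fst` is injective on this set with
  image an antichain of `P`; so it is countable.
`𝒜` is the union of these countably many countable sets (`List Nd` is countable).
-/

set_option autoImplicit false

namespace BI

theorem qs_ccc_aux {P E : Type} [Preorder P] {S : ESys P E} (hP : CCC P) (T : Set (TS S))
    (hT : ∀ x ∈ T, ∀ y ∈ T, Cmp x.fst y.fst → x = y) : T.Countable := by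
  have h1 : (TS.fst '' T).Countable := by
    apply hP
    rintro a ⟨x, hx, rfl⟩ b ⟨y, hy, rfl⟩ hne hc
    exact hne (by rw [hT x hx y hy hc])
  refine Set.countable_of_injective_of_countable_image (f := TS.fst) ?_ h1
  intro x hx y hy hxy
  exact hT x hx y hy ⟨x.fst, le_refl _, hxy.le⟩

theorem qs_ccc {P Cd : Type} [Preorder P] {S : ESys P (Ent Cd)} {r : Om → ℕ → P → Prop}
    {A : Om → P → Prop} {nm : Cd → P → Val → Prop} (h : IsQS S r A nm) (hP : CCC P) : CCC (TS S) := by
  intro T hT
  have h0 : (T ∩ {x | x.snd = none}).Countable := by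
    apply qs_ccc_aux hP
    rintro x ⟨hx, hxn⟩ y ⟨hy, hyn⟩ ⟨c, hcx, hcy⟩
    by_contra hne
    refine hT x hx y hy hne ⟨⟨c, none, fun e he => by simp at he⟩, ?_, ?_⟩
    · rw [TS.le_iff]
      exact ⟨hcx, fun e he => absurd (hxn.symm.trans he) (by simp)⟩
    · rw [TS.le_iff]
      exact ⟨hcy, fun e he => absurd (hyn.symm.trans he) (by simp)⟩
  have h1 : ∀ s : List Nd, (T ∩ {x | ∃ Φ, x.snd = some (.hd s Φ)}).Countable := by
    intro s
    apply qs_ccc_aux hP
    rintro x ⟨hx, Φ, hxn⟩ y ⟨hy, Ψ, hyn⟩ ⟨c, hcx, hcy⟩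
    by_contra hne
    obtain ⟨z, hzx, hzy, _⟩ := hd_join h hxn hyn hcx hcy
    exact hT x hx y hy hne ⟨z, hzx, hzy⟩
  refine Set.Countable.mono ?_ (h0.union (Set.countable_iUnion h1))
  intro x hx
  rcases hs : x.snd with _ | e
  · exact Or.inl ⟨hx, hs⟩
  · right
    rw [Set.mem_iUnion]
    have hv := (h.V_iff _ _).1 (x.ok e hs)
    cases e with
    | nd a => exact absurd hv (by simp [VQ])
    | hd s Φ => exact ⟨s, hx, Φ, hs⟩

end BI
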