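import Pool.Agent.Helper18.BI.QtA

/-!
# BI-23 The Laver type forcing: reading off an infinite subset at the splitting node

TO PROVE (in place).

`avoid`: induction on the finset `v.1` (`Finset.induction_on`, for the statement with `∀ α ∈ G, ...`): using the second
part of `hE` for one `α` at a time (at the current condition `q ≤ p'`, `A α` is monotone) one gets `q' ≤ q` and `m1` with
`∀ α ∈ v.1, ∀ n, m1 ≤ encode n → ∀ q'' ≤ q', E n q'' → ¬ Ext r α n q''`.  The set of all nodes of length `< v.2` is finite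
(`List.finite_length_lt`), let `m2` be bigger than their codes.  `m = max m1 m2`: `InS r v n q''` holds because
`E n` is monotone.

`qs_step`.  Write `F t` for `Fav S D t`.  By `Okc` for `Φ t` choose `q0 ≤ p'`, `v` with `nm (Φ t) q0 v`; `A α q0` for
`α ∈ v.1`.  `avoid` gives `q1 ≤ q0`, `k`.
(*) If `k ≤ encode n`, `q ≤ q1`, `E n q` then `Tr r nm s Φ (t ++ [n]) q`: `tr_snoc`; for `q' ≤ q`, `nm (Φ t) q' v'` we have
`v' = v` by uniqueness, and `InS r v n q'` by `avoid`.
The conclusion holds for `k`, `q1`.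
* `SubB`: if `q ≤ q1` and `Un e q` with `n`, then (*) and `fav_sub` (at the condition `q`) give `r' ≤ q` with `T e r'`.
* `InfB`: let `G : Finset K`, `q2 ≤ q1` and suppose there are no `r' ≤ q2`, `e ∉ G` with `Un e r'`.  For `e : K` and a
  condition `q` let `B e q := ∀ q' ≤ q, ∀ k', ∃ q'' ≤ q', ∃ n, k' ≤ encode n ∧ E n q'' ∧ F (t ++ [n]) e q'' ∧
  ∀ q3 ≤ q'', ¬ F s e q3`.
  Claim 1: there are `e ∈ G`, `q ≤ q2` with `B e q`.  Otherwise, by induction on the finset `G`, there are `q' ≤ q2` and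
  `k' ≥ k` such that for all `e ∈ G`, `q'' ≤ q'`, `n` with `k' ≤ encode n`, `E n q''`, `F (t ++ [n]) e q''` there is
  `q3 ≤ q''` with `F s e q3`.  `InfB E q'` (with the finite set of all nodes with code `< k'`) gives `q'' ≤ q'`, `n` with
  `k' ≤ encode n`, `E n q''`.  `hEN` gives `e` with `F (t ++ [n]) e q''` and `∀ q ≤ q'', ¬ F s e q`.  So
  `Un e q''`, hence `e ∈ G`, and we get a contradiction.
  Claim 2: `B e q` implies `F t e q` (for `q ≤ p'`).  Let `x'.fst ≤ q`, `x'.snd = some (.hd t Φ')`.  Choose `q1' ≤ x'.fst`,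
  `v'` with `nm (Φ' t) q1' v'` (`okc_of_hd`), `avoid` (for `v'`, `q1'`) gives `q2' ≤ q1'`, `k'`; `B e q` gives
  `q'' ≤ q2'`, `n` with `k' ≤ encode n`, `E n q''`, `F (t ++ [n]) e q''`.  `hd_extend` gives `z ≤ x'` with
  `z.fst = q''`, `z.snd = some (.hd (t ++ [n]) Φ')` (for `u ++ [m] <+: t ++ [n]` with `t <+: u` we have `u = t`, `m = n`, and
  for `q3 ≤ q''`, `nm (Φ' t) q3 w` gives `w = v'`, and `InS r v' n q3`).  `F (t ++ [n]) e q''` gives `y ≤ z`, `D e y`.
  So `F t e q`, hence `F s e q` by `hss`; but `B e q` gives `q'' ≤ q` with `¬ F s e q''`, contradiction to `fav_mono`.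
-/

set_option autoImplicit false

namespace BI

variable {P Cd K : Type} [Preorder P] {S : ESys P (Ent Cd)} {r : Om → ℕ → P → Prop} {A : Om → P → Prop}
  {nm : Cd → P → Val → Prop} {D : K → TS S → Prop}

theorem avoid (hA : ∀ α, Reg (A α)) {E : Nd → P → Prop} (hEm : Mon E) {p' : P}
    (hE : ∀ q, q ≤ p' → InfB E q ∧ ∀ α, A α q → ∀ q1, q1 ≤ q → ∃ q', q' ≤ q1 ∧ ∃ m : ℕ,
      ∀ n : Nd, m ≤ Encodable.encode n → ∀ q'', q'' ≤ q' → E n q'' → ¬ Ext r α n q'')
    {q : P} (hq : q ≤ p') (v : Val) (hv : ∀ α ∈ v.1, A α q) :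
    ∃ q', q' ≤ q ∧ ∃ m : ℕ, ∀ n : Nd, m ≤ Encodable.encode n → ∀ q'', q'' ≤ q' → E n q'' →
      InS r v n q'' := by
  classical
  have key : ∀ G : Finset Om, (∀ α ∈ G, A α q) → ∃ q', q' ≤ q ∧ ∃ m : ℕ, ∀ α ∈ G, ∀ n : Nd,
      m ≤ Encodable.encode n → ∀ q'', q'' ≤ q' → E n q'' → ¬ Ext r α n q'' := by
    intro G
    induction G using Finset.induction_on with
    | empty =>
      intro _
      exact ⟨q, le_refl q, 0, fun α hα => absurd hα (Finset.notMem_empty α)⟩
    | insert a G ha ih =>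
      intro hG
      obtain ⟨q1, hq1, m1, hm1⟩ := ih fun α hα => hG α (Finset.mem_insert_of_mem hα)
      obtain ⟨q', hq', m2, hm2⟩ := (hE q hq).2 a (hG a (Finset.mem_insert_self a G)) q1 hq1
      refine ⟨q', le_trans hq' hq1, max m1 m2, ?_⟩
      intro α hα n hn q'' hq'' hEn
      rcases Finset.mem_insert.mp hα with h1 | h1
      · rw [h1]
        exact hm2 n (le_trans (le_max_right _ _) hn) q'' hq'' hEn
      · exact hm1 α h1 n (le_trans (le_max_left _ _) hn) q'' (le_trans hq'' hq') hEn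
  obtain ⟨q', hq', m1, hm1⟩ := key v.1 hv
  have hfin : {n : Nd | n.length < v.2}.Finite := List.finite_length_lt Bool v.2
  obtain ⟨M, hM⟩ := (hfin.image Encodable.encode).bddAbove
  refine ⟨q', hq', max m1 (M + 1), ?_⟩
  intro n hn q'' hq'' hEn
  refine ⟨?_, ?_⟩
  · by_contra hlt
    push Not at hlt
    have h1 : Encodable.encode n ≤ M := hM ⟨n, hlt, rfl⟩
    have h2 : M + 1 ≤ Encodable.encode n := le_trans (le_max_right _ _) hn
    omega
  · intro α hα q3 hq3
    exact hm1 α hα n (le_trans (le_max_left _ _) hn) q3 (le_trans hq3 hq'') (hEm n q'' q3 hq3 hEn)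

theorem qs_step (h : IsQS S r A nm) (hD : Mon D) {T : K → P → Prop} {x : TS S} {s : List Nd}
    {Φ : List Nd → Cd} (hx : x.snd = some (.hd s Φ)) (hsub : SubB D (fun e y => T e y.fst) x)
    {t : List Nd} {p' : P} (hp' : p' ≤ x.fst) (htr : Tr r nm s Φ t p')
    (hss : ∀ e q, q ≤ p' → Fav S D t e q → Fav S D s e q)
    {E : Nd → P → Prop} (hEm : Mon E) (hEN : ∀ n p, E n p → Nn S D s t n p)
    (hE : ∀ q, q ≤ p' → InfB E q ∧ ∀ α, A α q → ∀ q1, q1 ≤ q → ∃ q', q' ≤ q1 ∧ ∃ m : ℕ,
      ∀ n : Nd, m ≤ Encodable.encode n → ∀ q'', q'' ≤ q' → E n q'' → ¬ Ext r α n q'') :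
    ∃ (k : ℕ) (q : P), InfB (Un S D E t k) q ∧ SubB (Un S D E t k) T q := by
  classical
  have okt := okc_of_hd h hx hp' t
  obtain ⟨q0, hq0, v, hv⟩ := okt.1 p' (le_refl p')
  have hAv : ∀ α ∈ v.1, A α q0 := okt.2.2 q0 hq0 v hv
  obtain ⟨q1, hq1, k, hk⟩ := avoid h.areg hEm hE hq0 v hAv
  have hq1p : q1 ≤ p' := le_trans hq1 hq0
  have star : ∀ n : Nd, k ≤ Encodable.encode n → ∀ q, q ≤ q1 → E n q →
      Tr r nm s Φ (t ++ [n]) q := by
    intro n hn q hq hEn
    refine tr_snoc (tr_mono (le_trans hq hq1p) htr) ?_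
    intro q' hq' v' hv'
    have hq'1 : q' ≤ q1 := le_trans hq' hq
    have hvv : v' = v := okt.2.1 q' (le_trans hq'1 hq1p) v' v hv'
      (h.nmon _ _ _ _ (le_trans hq'1 hq1) hv)
    rw [hvv]
    exact hk n hn q' hq'1 (hEm n q q' hq' hEn)
  refine ⟨k, q1, ?_, ?_⟩
  · intro G q2 hq2
    by_contra hcon
    have hcon' : ∀ r', r' ≤ q2 → ∀ e, e ∉ G → ¬ Un S D E t k e r' :=
      fun r' h1 e h2 h3 => hcon ⟨r', h1, e, h2, h3⟩
    have hq2p : q2 ≤ p' := le_trans hq2 hq1p
    -- the first claim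
    have claim1 : ∃ e ∈ G, ∃ q, q ≤ q2 ∧ ∀ q', q' ≤ q → ∀ k' : ℕ, ∃ q'', q'' ≤ q' ∧ ∃ n : Nd,
        k' ≤ Encodable.encode n ∧ E n q'' ∧ Fav S D (t ++ [n]) e q'' ∧
          ∀ q3, q3 ≤ q'' → ¬ Fav S D s e q3 := by
      by_contra hB
      have key : ∀ G' : Finset K, G' ⊆ G → ∃ q', q' ≤ q2 ∧ ∃ k' : ℕ, k ≤ k' ∧ ∀ e ∈ G',
          ∀ q'', q'' ≤ q' → ∀ n : Nd, k' ≤ Encodable.encode n → E n q'' →
            Fav S D (t ++ [n]) e q'' → ∃ q3, q3 ≤ q'' ∧ Fav S D s e q3 := by
        intro G'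
        induction G' using Finset.induction_on with
        | empty =>
          intro _
          exact ⟨q2, le_refl q2, k, le_refl k, fun e he => absurd he (Finset.notMem_empty e)⟩
        | insert a G' ha ih =>
          intro hG'
          obtain ⟨q', hq', k', hkk', hk'⟩ :=
            ih fun e he => hG' (Finset.mem_insert_of_mem he)
          have haG : a ∈ G := hG' (Finset.mem_insert_self a G')
          have hnB : ¬ ∀ q3, q3 ≤ q' → ∀ k' : ℕ, ∃ q'', q'' ≤ q3 ∧ ∃ n : Nd,
              k' ≤ Encodable.encode n ∧ E n q'' ∧ Fav S D (t ++ [n]) a q'' ∧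
              ∀ q3, q3 ≤ q'' → ¬ Fav S D s a q3 := fun h1 => hB ⟨a, haG, q', hq', h1⟩
          push Not at hnB
          obtain ⟨q3, hq3, k'', hk''⟩ := hnB
          refine ⟨q3, le_trans hq3 hq', max k' k'', le_trans hkk' (le_max_left _ _), ?_⟩
          intro e he q'' hq'' n hn hEn hF
          rcases Finset.mem_insert.mp he with h1 | h1
          · subst h1
            exact hk'' q'' hq'' n (le_trans (le_max_right _ _) hn) hEn hF
          · exact hk' e h1 q'' (le_trans hq'' hq3) n (le_trans (le_max_left _ _) hn) hEn hF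
      obtain ⟨q', hq', k', hkk', hk'⟩ := key G (Finset.Subset.refl G)
      have hfin : {n : Nd | Encodable.encode n < k'}.Finite :=
        (Set.finite_lt_nat k').preimage (Encodable.encode_injective.injOn)
      obtain ⟨q'', hq'', n, hnF, hEn⟩ := (hE q' (le_trans hq' hq2p)).1 hfin.toFinset q' (le_refl q')
      have hkn : k' ≤ Encodable.encode n := by
        by_contra hlt
        push Not at hlt
        exact hnF (hfin.mem_toFinset.mpr hlt)
      obtain ⟨e, he1, he2⟩ := hEN n q'' hEn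
      have heG : e ∈ G := by
        by_contra heG
        exact hcon' q'' (le_trans hq'' hq') e heG ⟨n, le_trans hkk' hkn, hEn, he1⟩
      obtain ⟨q3, hq3, hF3⟩ := hk' e heG q'' hq'' n hkn hEn he1
      exact he2 q3 hq3 hF3
    obtain ⟨e, _, q, hq, hB⟩ := claim1
    have hqp : q ≤ p' := le_trans hq hq2p
    have claim2 : Fav S D t e q := by
      intro x' hx'q hΦ
      obtain ⟨Φ', hΦ'⟩ := hΦ
      have okc' := okc_of_hd h hΦ' (le_refl x'.fst) t
      obtain ⟨q1', hq1', v', hv'⟩ := okc'.1 x'.fst (le_refl _)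
      have hq1'p : q1' ≤ p' := le_trans hq1' (le_trans hx'q hqp)
      obtain ⟨q2', hq2', k', hk'⟩ := avoid h.areg hEm hE hq1'p v'
        (okc'.2.2 q1' hq1' v' hv')
      obtain ⟨q'', hq'', n, hkn, hEn, hF, _⟩ :=
        hB q2' (le_trans hq2' (le_trans hq1' hx'q)) k'
      have hq''x : q'' ≤ x'.fst := le_trans hq'' (le_trans hq2' hq1')
      obtain ⟨z, hzx, hzf, hzs⟩ := hd_extend h hΦ' (t := t ++ [n]) (Ψ := Φ') hq''x
        (List.prefix_append t [n])
        (fun u => okc_of_hd h hΦ' hq''x u)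
        (by
          intro u q3 hq3 v3 w3 h3 h4
          have h5 := (okc_of_hd h hΦ' hq''x u).2.1 q3 hq3 v3 w3 h3 h4
          rw [h5]
          exact ⟨Finset.Subset.refl _, le_refl _⟩)
        (by
          intro u m hu hum q3 hq3 w hw
          have h3 := hu.length_le
          have h4 := hum.length_le
          simp only [List.length_append, List.length_singleton] at h4
          have h5 : u ++ [m] = t ++ [n] := hum.eq_of_length (by
            simp only [List.length_append, List.length_singleton]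
            omega)
          have h6 := List.append_inj' h5 rfl
          have hut : u = t := h6.1
          have hmn : m = n := by simpa using h6.2
          subst hut
          subst hmn
          have h7 : w = v' := okc'.2.1 q3 (le_trans hq3 hq''x) w v' hw
            (h.nmon _ _ _ _ (le_trans hq3 (le_trans hq'' hq2')) hv')
          rw [h7]
          exact hk' m hkn q3 (le_trans hq3 hq'') (hEm m q'' q3 hq3 hEn))
      obtain ⟨y, hyz, hDy⟩ := hF z (le_of_eq hzf) ⟨Φ', hzs⟩
      exact ⟨y, le_trans hyz hzx, hDy⟩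
    have hFs : Fav S D s e q := hss e q hqp claim2
    obtain ⟨q'', hq'', _, _, _, _, hn⟩ := hB q (le_refl q) 0
    exact hn q'' (le_refl q'') (fav_mono hq'' hFs)
  · rintro e q hq ⟨n, hkn, hEn, hF⟩
    have htr' := star n hkn q hq hEn
    have hs := fav_sub h hx hsub (le_trans hq (le_trans hq1p hp')) htr'
    exact hs e q (le_refl q) hF

end BI
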