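import Pool.Agent.Helper18.BI.QtB
import Pool.Agent.Helper18.BI.QtC

/-!
# BI-24 The Laver type forcing: tameness of the two step iteration

TO PROVE (in place).  Let `D : K → TS S → Prop` be monotone.  For `s t : List Nd` let `E s t` be given by `fr_name` for
`Nn S D s t` (`nn_mono`; `hr = h.rreg`, `hA = h.areg`).  The countable family: all `Fav S D s`, and all `Un S D (E s t) t k`,
`s t : List Nd`, `k : ℕ`; index it by `ℕ` through an encoding of the countable type
`List Nd ⊕ (List Nd × List Nd × ℕ)` (for example `Encodable.decode`, with a default value for `none`, or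
`exists_surjective_nat`/`Countable` with `Nonempty`).  All members are monotone (`fav_mono`, `un_mono`).

Let `T : K → P → Prop` be monotone, `x : TS S`, `InfB D x`, `SubB D (fun e y => T e y.fst) x`.  By `hd_start` there is
`x' ≤ x` with `x'.snd = some (.hd s Φ)`, and `InfB`, `SubB` hold at `x'`.
If `InfB (Fav S D s) x'.fst`, we are done: `SubB (Fav S D s) T x'.fst` by `fav_sub` and `tr_self`.
Otherwise (unfold `InfB`, `push Not`) there are `F0`, `q0 ≤ x'.fst` such that there are no `r' ≤ q0`, `e ∉ F0` with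
`Fav S D s e r'`: this is `hfin` of `qs_claim`.  It gives `t`, `p'`.  The hypothesis `hE` of `qs_step` holds for `E s t` by
`fr_name`, `pos_mono` (`Pos r A (Nn S D s t) [] q` for all `q ≤ p'`).  `qs_step` gives `k`, `q`.
-/

set_option autoImplicit false

namespace BI

theorem qs_tame {P Cd : Type} (K : Type) [Preorder P] {S : ESys P (Ent Cd)} {r : Om → ℕ → P → Prop}
    {A : Om → P → Prop} {nm : Cd → P → Val → Prop} (h : IsQS S r A nm) :
    RTame P (TS S) K TS.fst := by
  intro D hD
  have hE0 : ∀ s t : List Nd, ∃ E : Nd → P → Prop, Mon E ∧ (∀ n p, E n p → Nn S D s t n p) ∧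
      ∀ p, Pos r A (Nn S D s t) [] p → InfB E p ∧ ∀ α, A α p → ∀ q, q ≤ p → ∃ q', q' ≤ q ∧
        ∃ m : ℕ, ∀ n : Nd, m ≤ Encodable.encode n → ∀ q'', q'' ≤ q' → E n q'' →
          ¬ Ext r α n q'' :=
    fun s t => fr_name h.rreg h.areg (Nn S D s t) nn_mono
  choose E hEm hEN hE using hE0
  obtain ⟨f, hf⟩ := exists_surjective_nat (List Nd ⊕ (List Nd × List Nd × ℕ))
  obtain ⟨Fm, hFm1, hFm2⟩ : ∃ Fm : List Nd ⊕ (List Nd × List Nd × ℕ) → K → P → Prop,
      (∀ s, Fm (Sum.inl s) = Fav S D s) ∧
      ∀ s t k, Fm (Sum.inr (s, t, k)) = Un S D (E s t) t k :=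
    ⟨Sum.elim (fun s => Fav S D s) (fun x => Un S D (E x.1 x.2.1) x.2.1 x.2.2),
      fun _ => rfl, fun _ _ _ => rfl⟩
  refine ⟨fun n => Fm (f n), ?_, ?_⟩
  · intro n
    change Mon (Fm (f n))
    rcases f n with s | ⟨s, t, k⟩
    · rw [hFm1]
      exact fun e p q hq he => fav_mono hq he
    · rw [hFm2]
      exact un_mono (hEm s t)
  · intro T _ x hinf hsub
    obtain ⟨x', hx'x, _, s, Φ, hxs⟩ := hd_start h x
    have hinf' : InfB D x' := fun F q hq => hinf F q (le_trans hq hx'x)
    have hsub' : SubB D (fun e y => T e y.fst) x' := fun e q hq => hsub e q (le_trans hq hx'x)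
    by_cases hfin : InfB (Fav S D s) x'.fst
    · obtain ⟨n, hn⟩ := hf (Sum.inl s)
      refine ⟨n, x'.fst, ?_, ?_⟩
      · simp only [hn, hFm1]
        exact hfin
      · simp only [hn, hFm1]
        exact fav_sub h hxs hsub' le_rfl tr_self
    · unfold InfB at hfin
      push Not at hfin
      obtain ⟨F0, q0, hq0, hno⟩ := hfin
      obtain ⟨t, p', hp', htr, hss, hpos⟩ := qs_claim h hD hxs hinf'
        ⟨F0, q0, hq0, fun q hq e he => hno q hq e he⟩
      obtain ⟨k, q, h1, h2⟩ := qs_step h hD hxs hsub' hp' htr hss (hEm s t) (hEN s t)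
        (fun q hq => hE s t q (pos_mono hq hpos))
      obtain ⟨n, hn⟩ := hf (Sum.inr (s, t, k))
      refine ⟨n, q, ?_, ?_⟩
      · simp only [hn, hFm2]
        exact h1
      · simp only [hn, hFm2]
        exact h2

end BI
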