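import Pool.Agent.Helper18.BI.AxT
import Pool.Agent.Helper18.BI.OmL

/-!
# BI-17 The forcing with a Suslin tree: the countable chain condition of the two step iteration

TO PROVE (in place).  Let `𝒜` be an antichain of `TS S` and suppose that it is uncountable.
The elements `x` with `snd = none` form a countable set (`fst` is injective on it and the image is an antichain of
`P`, since `⟨c, none, _⟩` is a common extension whenever `c ≤ x.fst`, `c ≤ y.fst`).  So
`𝒜' = {x ∈ 𝒜 | x.snd ≠ none}` is uncountable.  By `h.V_iff` every `x ∈ 𝒜'` has `x.snd = some (.nd a)`,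
`x.fst ≤ p0`, and `PreSus R p0` holds.  For fixed `a` the set `{x ∈ 𝒜' | x.snd = some (.nd a)}` is countable by the
same argument (common extension `⟨c, some (.nd a), _⟩`, `L` is reflexive: `Or.inl rfl`).  Hence
`I = {a | ∃ x ∈ 𝒜', x.snd = some (.nd a)}` is uncountable.

Let `X b q := ∃ x ∈ 𝒜', x.snd = some (.nd b) ∧ q ≤ x.fst` (monotone).
Claim: there is `p1 ≤ p0` with `∀ ξ, ∀ q' ≤ p1, ∃ q'' ≤ q', ∃ b > ξ, X b q''`.  Suppose not: then every `p1 ≤ p0` has
an extension `q'` in `W := {q' | q' ≤ p0 ∧ ∃ ξ, ∀ q'' ≤ q', ∀ b > ξ, ¬ X b q''}`.  Let `𝒟` be a maximal antichain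
contained in `W` (Zorn, as in `exists_ctbName`, or see `ae_of_dense` in Pool/Agent/Helper18/LM/Gen.lean); it is countable by `hP`,
choose `ξ d` for `d ∈ 𝒟` and let `ξ' > ξ d` for all `d` (`om_bdd`).  By `om_unb` there is `b ∈ I`, `b > ξ'`, say
`x ∈ 𝒜'`, `x.snd = some (.nd b)`.  `x.fst ≤ p0` has an extension in `W`, which is compatible with some
`d ∈ 𝒟` by maximality; so there is `c ≤ x.fst`, `c ≤ d`; `X b c` holds and `b > ξ d`: contradiction.

Now `PreSus.anti` (for `PreSus R p0`, `X`, `q = p1`) gives `q' ≤ p1`, `a < b`, `X a q'`, `X b q'`, `R a b q'`: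
`x, y ∈ 𝒜'` with entries `.nd a`, `.nd b` and `q' ≤ x.fst`, `q' ≤ y.fst`.  `z = ⟨q', some (.nd b), _⟩` is a condition
(`q' ≤ p0`), `z ≤ y`, and `z ≤ x` because `S.L q' (.nd b) (.nd a)` is `a = b ∨ R a b q'`.  `x ≠ y` since `a ≠ b`.
This contradicts that `𝒜` is an antichain.
-/

set_option autoImplicit false

namespace BI

/-- maximal antichains inside a set of conditions -/
theorem trc_max {P : Type} [Preorder P] (W : Set P) :
    ∃ D ⊆ W, (∀ a ∈ D, ∀ b ∈ D, a ≠ b → ¬ Cmp a b) ∧ ∀ w ∈ W, ∃ d ∈ D, Cmp w d := by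
  obtain ⟨D, hD⟩ := zorn_subset
    {D : Set P | D ⊆ W ∧ ∀ a ∈ D, ∀ b ∈ D, a ≠ b → ¬ Cmp a b} (by
      intro c hc hchain
      refine ⟨⋃₀ c, ⟨?_, ?_⟩, fun s hs => Set.subset_sUnion_of_mem hs⟩
      · exact Set.sUnion_subset fun s hs => (hc hs).1
      · rintro a ⟨s, hs, has⟩ b ⟨t, ht, hbt⟩ hab
        rcases hchain.total hs ht with hst | hts
        · exact (hc ht).2 a (hst has) b hbt hab
        · exact (hc hs).2 a has b (hts hbt) hab)
  refine ⟨D, hD.prop.1, hD.prop.2, fun w hw => ?_⟩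
  by_contra hcon
  push Not at hcon
  have hwD : w ∉ D := fun h => hcon w h ⟨w, le_refl _, le_refl _⟩
  have hins : insert w D ∈ {D : Set P | D ⊆ W ∧ ∀ a ∈ D, ∀ b ∈ D, a ≠ b → ¬ Cmp a b} := by
    refine ⟨Set.insert_subset hw hD.prop.1, ?_⟩
    rintro a (rfl | ha) b (rfl | hb) hab
    · exact absurd rfl hab
    · exact hcon b hb
    · rintro ⟨c, h1, h2⟩
      exact hcon a ha ⟨c, h2, h1⟩
    · exact hD.prop.2 a ha b hb hab
  exact hwD (hD.le_of_ge hins (Set.subset_insert w D) (Set.mem_insert w D))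

theorem tr_ccc {P Cd : Type} [Preorder P] {S : ESys P (Ent Cd)} {R : Om → Om → P → Prop} {p0 : P}
    (h : IsTR S R p0) (hP : CCC P) : CCC (TS S) := by
  intro A hA
  by_contra hcon
  -- pieces with a fixed second coordinate are countable
  have hpiece : ∀ o : Option (Ent Cd), {x ∈ A | x.snd = o}.Countable := by
    intro o
    have h1 : (TS.fst '' {x ∈ A | x.snd = o}).Countable := by
      apply hP
      rintro _ ⟨x, hx, rfl⟩ _ ⟨y, hy, rfl⟩ hxy
      rintro ⟨c, hc1, hc2⟩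
      have hne : x ≠ y := fun e => hxy (by rw [e])
      apply hA x hx.1 y hy.1 hne
      have hok : ∀ e, o = some e → S.V c e := fun e he =>
        S.Vm _ _ _ hc1 (x.ok e (hx.2.trans he))
      refine ⟨⟨c, o, hok⟩, ⟨hc1, fun e he => ?_⟩, ⟨hc2, fun e he => ?_⟩⟩
      · have he' : o = some e := hx.2.symm.trans he
        exact ⟨e, he', S.Lr _ _ (hok e he')⟩
      · have he' : o = some e := hy.2.symm.trans he
        exact ⟨e, he', S.Lr _ _ (hok e he')⟩
    refine Set.MapsTo.countable_of_injOn (Set.mapsTo_image _ _) ?_ h1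
    intro x hx y hy hxy
    apply TS.ext hxy
    rw [hx.2, hy.2]
  set I : Set Om := {a | ∃ x ∈ A, x.snd = some (.nd a)} with hI
  have hIunc : ¬ I.Countable := by
    intro hIc
    apply hcon
    have hsub : A ⊆ {x ∈ A | x.snd = none} ∪ ⋃ a ∈ I, {x ∈ A | x.snd = some (.nd a)} := by
      intro x hx
      rcases hs : x.snd with _ | e
      · exact Or.inl ⟨hx, hs⟩
      · cases e with
        | nd a =>
          refine Or.inr ?_
          simp only [Set.mem_iUnion]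
          exact ⟨a, ⟨x, hx, hs⟩, hx, hs⟩
        | hd s Φ =>
          have := (h.V_iff _ _).1 (x.ok _ hs)
          exact this.elim
    exact ((hpiece none).union (Set.Countable.biUnion hIc fun a _ => hpiece _)).mono hsub
  have hAx : ∀ x ∈ A, ∀ a, x.snd = some (.nd a) → x.fst ≤ p0 ∧ PreSus R p0 := by
    intro x _ a hs
    exact (h.V_iff _ _).1 (x.ok _ hs)
  obtain ⟨a0, x0, hx0, hs0⟩ : I.Nonempty := by
    rw [Set.nonempty_iff_ne_empty]
    intro he
    apply hIunc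
    rw [he]
    exact Set.countable_empty
  have hpre : PreSus R p0 := (hAx x0 hx0 a0 hs0).2
  let X : Om → P → Prop := fun b q => ∃ x ∈ A, x.snd = some (.nd b) ∧ q ≤ x.fst
  have hX : Mon X := by
    rintro b p q hqp ⟨x, hx, hs, hp⟩
    exact ⟨x, hx, hs, hqp.trans hp⟩
  have hclaim : ∃ p1, p1 ≤ p0 ∧ ∀ ξ q', q' ≤ p1 → ∃ q'', q'' ≤ q' ∧ ∃ b, ξ < b ∧ X b q'' := by
    by_contra hno
    push Not at hno
    let W : Set P := {q' | q' ≤ p0 ∧ ∃ ξ : Om, ∀ q'', q'' ≤ q' → ∀ b, ξ < b → ¬ X b q''}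
    obtain ⟨D, hDW, hDanti, hDmax⟩ := trc_max W
    have hDc : D.Countable := hP D hDanti
    have hξ : ∀ d : P, ∃ ξ : Om, d ∈ D → ∀ q'', q'' ≤ d → ∀ b, ξ < b → ¬ X b q'' := by
      intro d
      by_cases hd : d ∈ D
      · obtain ⟨_, ξ, hξ⟩ := hDW hd
        exact ⟨ξ, fun _ => hξ⟩
      · exact ⟨a0, fun hd' => absurd hd' hd⟩
    choose ξ hξ using hξ
    obtain ⟨ξ', hξ'⟩ := om_bdd (hDc.image ξ)
    obtain ⟨b, ⟨x, hx, hs⟩, hb⟩ := om_unb hIunc ξ'
    obtain ⟨ξ1, q', hq', hq'X⟩ := hno x.fst (hAx x hx b hs).1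
    have hq'W : q' ∈ W := ⟨hq'.trans (hAx x hx b hs).1, ξ1, hq'X⟩
    obtain ⟨d, hd, c, hc1, hc2⟩ := hDmax q' hq'W
    exact hξ d hd c hc2 b ((hξ' (ξ d) ⟨d, hd, rfl⟩).trans hb) ⟨x, hx, hs, hc1.trans hq'⟩
  obtain ⟨p1, hp1, hp1X⟩ := hclaim
  obtain ⟨q', hq', a, b, hab, ⟨x, hx, hsx, hqx⟩, ⟨y, hy, hsy, hqy⟩, hR⟩ :=
    hpre.anti X hX p1 hp1 hp1X
  have hxy : x ≠ y := by
    rintro rfl
    rw [hsx] at hsy
    have := Option.some.inj hsy
    injection this with this
    exact absurd this (ne_of_lt hab)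
  apply hA x hx y hy hxy
  have hok : ∀ e, some (Ent.nd b : Ent Cd) = some e → S.V q' e := by
    intro e he
    have := Option.some.inj he
    subst this
    exact (h.V_iff _ _).2 ⟨hq'.trans hp1, hpre⟩
  refine ⟨⟨q', some (.nd b), hok⟩, ⟨hqx, fun e he => ?_⟩, ⟨hqy, fun e he => ?_⟩⟩
  · have he' : e = .nd a := Option.some.inj (he.symm.trans hsx)
    subst he'
    exact ⟨.nd b, rfl, (h.L_iff _ _ _).2 (Or.inr hR)⟩
  · have he' : e = .nd b := Option.some.inj (he.symm.trans hsy)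
    subst he'
    exact ⟨.nd b, rfl, (h.L_iff _ _ _).2 (Or.inl rfl)⟩

end BI
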