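import Pool.Agent.Helper18.BI.TtA
import Pool.Agent.Helper18.BI.TrC

/-!
# BI-26 The forcing with a Suslin tree: tameness of the two step iteration

Proof.  `TS S` has the countable chain condition (`tr_ccc`).  Let `D : K → TS S → Prop` be monotone.  Let
`𝒟 = {x' | ∃ a', x'.snd = some (.nd a') ∧ InfB (Ea S D R p0 a') x'.fst}` and let `𝒜 ⊆ 𝒟` be a maximal antichain of
elements of `𝒟` (Zorn); it is countable, and every element of `𝒟` is compatible with an element of `𝒜`.
The countable family: `E0 e p := D e ⟨p, none, _⟩` and all `Ea S D R p0 a'` such that some element of `𝒜` has the entry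
`.nd a'` (a countable set of `a'`; enumerate it together with `E0` by `ℕ`, for example as the range of a function
`ℕ → Option Om`, `Set.Countable.exists_eq_range`).  All are monotone.

Let `T : K → P → Prop` be monotone, `x : TS S`, `InfB D x`, `SubB D (fun e y => T e y.fst) x`.
Case 1: no `y ≤ x` has `y.snd = some (.nd a)` for some `a`.  Then all `y ≤ x` have `y.snd = none` (`VR` is `False` on
`.hd`), in particular `x.snd = none`, and `E0`, `p = x.fst` work:
`InfB E0 x.fst`: given `F`, `q ≤ x.fst`, apply `hinf` to `⟨q, none, _⟩ ≤ x`: `r ≤ ⟨q, none, _⟩`, `r.snd = none`, so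
`r = ⟨r.fst, none, _⟩` and `E0 e r.fst`.  `SubB`: similarly.
Case 2: some `y ≤ x` has `y.snd = some (.nd a)`.  Replace `x` by `y` (`InfB`, `SubB` pass to stronger conditions).
`tr_dense` gives `x' ≤ x` in `𝒟`, and `x'` is compatible with some `w ∈ 𝒜`, `w.snd = some (.nd a')`: `c ≤ x'`, `c ≤ w`.
Then `Ea S D R p0 a'` and the condition `c.fst` work.  `InfB (Ea a') c.fst` since `c.fst ≤ w.fst`.  `SubB`: let
`q ≤ c.fst`, `Ea a' e q`.  `c.snd = some (.nd γ)` with `a' = γ ∨ R a' γ c.fst`.  The condition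
`y = ⟨q, some (.nd γ), _⟩` is `≤ c` and satisfies `a' = γ ∨ R a' γ q` (`R` is monotone, `h.rreg`), so `Ea a' e q` gives
`z ≤ y` with `D e z`; `z ≤ c ≤ x`, so `SubB` at `x` gives `z' ≤ z` with `T e z'.fst`, and `z'.fst ≤ q`.
-/

set_option autoImplicit false

namespace BI

theorem tr_tame {P Cd : Type} (K : Type) [Preorder P] {S : ESys P (Ent Cd)} {R : Om → Om → P → Prop}
    {p0 : P} (h : IsTR S R p0) (hP : CCC P) : RTame P (TS S) K TS.fst := by
  intro D hD
  have hts : CCC (TS S) := tr_ccc h hP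
  set W : Set (TS S) := {x' | ∃ a', x'.snd = some (.nd a') ∧ InfB (Ea S D R p0 a') x'.fst} with hW
  obtain ⟨A, hAW, hAc, hAm⟩ : ∃ A : Set (TS S), A ⊆ W ∧ A.Countable ∧ ∀ r ∈ W, ∃ a ∈ A, Cmp r a := by
    obtain ⟨A, hA⟩ := zorn_subset {A : Set (TS S) | A ⊆ W ∧ ∀ a ∈ A, ∀ b ∈ A, a ≠ b → ¬ Cmp a b} (by
      intro c hc hchain
      refine ⟨⋃₀ c, ⟨?_, ?_⟩, fun s hs => Set.subset_sUnion_of_mem hs⟩
      · exact Set.sUnion_subset fun s hs => (hc hs).1
      · rintro a ⟨s, hs, has⟩ b ⟨t, ht, hbt⟩ hab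
        rcases hchain.total hs ht with hst | hst
        · exact (hc ht).2 a (hst has) b hbt hab
        · exact (hc hs).2 a has b (hst hbt) hab)
    obtain ⟨⟨hAW, hanti⟩, hmax⟩ := hA
    refine ⟨A, hAW, hts A hanti, fun r hr => ?_⟩
    by_contra hcon
    push Not at hcon
    have h1 : insert r A ⊆ A := by
      refine hmax ⟨Set.insert_subset hr hAW, ?_⟩ (Set.subset_insert _ _)
      rintro a (rfl | ha) b (rfl | hb) hab hc
      · exact hab rfl
      · exact hcon b hb hc
      · obtain ⟨c, h1, h2⟩ := hc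
        exact hcon a ha ⟨c, h2, h1⟩
      · exact hanti a ha b hb hab hc
    exact hcon r (h1 (Set.mem_insert _ _)) ⟨r, le_refl r, le_refl r⟩
  -- the countable set of nodes
  have hNc : {o : Option Om | o = none ∨ ∃ a, o = some a ∧ ∃ w ∈ A, w.snd = some (.nd a)}.Countable := by
    have h1 : {a : Om | ∃ w ∈ A, w.snd = some (.nd a)}.Countable := by
      have h2 : {e : Option (Ent Cd) | ∃ w ∈ A, w.snd = e}.Countable := by
        have : {e : Option (Ent Cd) | ∃ w ∈ A, w.snd = e} = (fun w : TS S => w.snd) '' A := by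
          ext e; simp [Set.mem_image]
        rw [this]; exact hAc.image _
      have hinj : Function.Injective (fun a : Om => (some (.nd a) : Option (Ent Cd))) := by
        intro a b hab
        simpa using hab
      exact h2.preimage hinj
    have h3 : {o : Option Om | o = none ∨ ∃ a, o = some a ∧ ∃ w ∈ A, w.snd = some (.nd a)} ⊆
        insert none (some '' {a : Om | ∃ w ∈ A, w.snd = some (.nd a)}) := by
      rintro o (rfl | ⟨a, rfl, ha⟩)
      · exact Set.mem_insert _ _
      · exact Set.mem_insert_of_mem _ ⟨a, ha, rfl⟩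
    exact ((h1.image _).insert _).mono h3
  obtain ⟨f, hf⟩ := hNc.exists_eq_range ⟨none, Or.inl rfl⟩
  let E0 : K → P → Prop := fun e p => D e ⟨p, none, fun e he => by simp at he⟩
  have hE0 : Mon E0 := by
    intro e p q hqp hp
    exact hD e _ _ ⟨hqp, fun e he => by simp at he⟩ hp
  let E : ℕ → K → P → Prop := fun n => match f n with
    | none => E0
    | some a => Ea S D R p0 a
  refine ⟨E, ?_, ?_⟩
  · intro n
    show Mon (match f n with | none => E0 | some a => Ea S D R p0 a)
    rcases f n with _ | a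
    · exact hE0
    · exact ea_mono a
  intro T hT x hinf hsub
  have hEn : ∀ o : Option Om, (o = none ∨ ∃ a, o = some a ∧ ∃ w ∈ A, w.snd = some (.nd a)) →
      ∃ n, E n = (match o with | none => E0 | some a => Ea S D R p0 a) := by
    intro o ho
    have : o ∈ Set.range f := by rw [← hf]; exact ho
    obtain ⟨n, hn⟩ := this
    exact ⟨n, by show (match f n with | none => E0 | some a => Ea S D R p0 a) = _; rw [hn]⟩
  by_cases hcase : ∃ y, y ≤ x ∧ ∃ a, y.snd = some (.nd a)
  · obtain ⟨y, hyx, a, hya⟩ := hcase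
    have hinfy : InfB D y := fun F q hq => hinf F q (hq.trans hyx)
    obtain ⟨x', hx'y, a', hx'a, hEa⟩ := tr_dense h hts hD hya hinfy
    obtain ⟨w, hwA, c, hcx', hcw⟩ := hAm x' ⟨a', hx'a, hEa⟩
    obtain ⟨b, hwb, hEb⟩ := hAW hwA
    obtain ⟨n, hn⟩ := hEn (some b) (Or.inr ⟨b, rfl, w, hwA, hwb⟩)
    refine ⟨n, c.fst, ?_, ?_⟩
    · rw [hn]
      exact fun F q hq => hEb F q (hq.trans hcw.1)
    · rw [hn]
      intro e q hq hEe
      obtain ⟨e', he', hL⟩ := hcw.2 _ hwb
      rw [h.L_iff] at hL
      have hV := (h.V_iff _ _).1 (c.ok _ he')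
      rcases e' with γ | ⟨s, Φ⟩
      · have hL' : b = γ ∨ R b γ c.fst := hL
        have hV' : VR R p0 q (.nd γ : Ent Cd) := vr_mono hq hV
        let y' : TS S := ⟨q, some (.nd γ), fun e he => by
          have : e = .nd γ := by simpa using he.symm
          rw [this]; exact (h.V_iff _ _).2 hV'⟩
        have hy'c : y' ≤ c := by
          refine ⟨hq, fun e he => ⟨.nd γ, rfl, ?_⟩⟩
          rw [he'] at he
          have : e = .nd γ := by simpa using he.symm
          rw [this]
          exact S.Lr _ _ ((h.V_iff _ _).2 hV')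
        have hy'R : b = γ ∨ R b γ q := by
          rcases hL' with h1 | h1
          · exact Or.inl h1
          · refine Or.inr ?_
            exact (h.rreg b γ q).2 fun q' hq' => (h.rreg b γ c.fst).1 h1 q' (hq'.trans hq)
        obtain ⟨z, hzy', hDz⟩ := hEe.2 y' (le_refl q) ⟨γ, rfl, hy'R⟩
        have hzx : z ≤ x := hzy'.trans (hy'c.trans (hcx'.trans (hx'y.trans hyx)))
        obtain ⟨z', hz'z, hTz'⟩ := hsub e z hzx hDz
        exact ⟨z'.fst, (hz'z.trans hzy').1, hTz'⟩
      · exact absurd hV (by simp [VR])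
  · push Not at hcase
    have hnone : ∀ y, y ≤ x → y.snd = none := by
      intro y hy
      rcases hs : y.snd with _ | e
      · rfl
      · exfalso
        rcases e with γ | ⟨s, Φ⟩
        · exact hcase y hy γ hs
        · have hV := (h.V_iff _ _).1 (y.ok _ hs)
          exact absurd hV (by simp [VR])
    have hrep : ∀ y, y ≤ x → y = ⟨y.fst, none, fun e he => by simp at he⟩ := by
      intro y hy
      ext1
      · rfl
      · exact hnone y hy
    have hmk : ∀ q, q ≤ x.fst → (⟨q, none, fun e he => by simp at he⟩ : TS S) ≤ x := by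
      intro q hq
      refine ⟨hq, fun e he => ?_⟩
      rw [hnone x (le_refl x)] at he
      simp at he
    obtain ⟨n, hn⟩ := hEn none (Or.inl rfl)
    refine ⟨n, x.fst, ?_, ?_⟩
    · rw [hn]
      intro F q hq
      obtain ⟨r, hr, e, heF, hDr⟩ := hinf F _ (hmk q hq)
      refine ⟨r.fst, hr.1, e, heF, ?_⟩
      show D e ⟨r.fst, none, _⟩
      rw [← hrep r (hr.trans (hmk q hq))]
      exact hDr
    · rw [hn]
      intro e q hq hE
      obtain ⟨r, hr, hTr⟩ := hsub e _ (hmk q hq) hE
      exact ⟨r.fst, hr.1, hTr⟩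

end BI
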