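import Pool.Agent.Helper18.BI.Stage
import Pool.Agent.Helper18.BI.QsC
import Pool.Agent.Helper18.BI.QtE
import Pool.Agent.Helper18.BI.TtB
import Pool.Agent.Helper18.BI.Min
import Pool.Agent.Helper18.BI.LimA
import Pool.Agent.Helper18.BI.LimB
import Pool.Agent.Helper18.BI.LimC

/-!
# All stages have the countable chain condition and are tame
-/

set_option autoImplicit false

namespace BI

variable {P0 J Cd : Type} [Preorder P0] [LinearOrder J] [WellFoundedLT J]
  {dec : Cd → ℕ → Option (Con P0 J (Ent Cd) × Val)} {b : J → Par P0 J Cd} {S : FSys P0 J (Ent Cd)}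

omit [WellFoundedLT J] in
theorem ts_of_none {E : Type} {S : FSys P0 J E} (K : Type) {j : J} (h : ∀ x : TS (S.es j), x.snd = none)
    (hc : CCC (S.P j)) (ht : RTame P0 (S.P j) K (fun p => p.1.base)) :
    CCC (TS (S.es j)) ∧ RTame P0 (TS (S.es j)) K (fun x => x.fst.1.base) := by
  have hs : Function.Surjective (TS.fst : TS (S.es j) → S.P j) := fun p => ⟨⟨p, none, by simp⟩, rfl⟩
  have hle : ∀ a c : TS (S.es j), a.fst ≤ c.fst ↔ a ≤ c := by
    intro a c
    rw [TS.le_iff]
    constructor
    · intro h1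
      exact ⟨h1, fun e he => by rw [h c] at he; simp at he⟩
    · exact fun h1 => h1.1
  exact ⟨ccc_of_map TS.fst hs hle hc, tame_of_map TS.fst (fun p => p.1.base) hs hle ht⟩

theorem main_ind (hI : IsIter dec b S) (h0 : CCC P0)
    (hcode : ∀ s : ℕ → Option (Con P0 J (Ent Cd) × Val),
      (∀ k x v, s k = some (x, v) → {j | x.ent j ≠ none}.Finite) → ∃ c, dec c = s) (K : Type) (i : J) :
    CCC (S.P i) ∧ RTame P0 (S.P i) K (fun p => p.1.base) := by
  induction i using WellFoundedLT.induction with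
  | ind i ih =>
    by_cases hmin : ∀ j, ¬ j < i
    · exact ⟨ccc_min S h0 i hmin, tame_min S K i hmin⟩
    push Not at hmin
    by_cases hsucc : ∃ j, j ⋖ i
    · obtain ⟨j, hj⟩ := hsucc
      obtain ⟨hc, ht⟩ := ih j hj.lt
      have key : CCC (TS (S.es j)) ∧ RTame P0 (TS (S.es j)) K (fun x => x.fst.1.base) := by
        rcases hb : b j with ⟨r, A⟩ | ⟨p0, R⟩
        · have h := isQS_stage hI hcode hc hb
          exact ⟨qs_ccc h hc, tame_comp (fun p : S.P j => p.1.base) TS.fst (fun a b h => h.1) ht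
            (qs_tame K h)⟩
        · by_cases hp0 : IsC S.V j p0
          · have h := isTR_stage hI hb hp0
            exact ⟨tr_ccc h hc, tame_comp (fun p : S.P j => p.1.base) TS.fst (fun a b h => h.1) ht
              (tr_tame K h hc)⟩
          · exact ts_of_none K (none_stage hI hb hp0) hc ht
      exact ⟨ccc_succ hj key.1, tame_succ K hj key.2⟩
    · have hlim : ∀ j, j < i → ∃ k, j < k ∧ k < i := by
        intro j hj
        by_contra hcon
        push Not at hcon
        exact hsucc ⟨j, hj, fun k h1 h2 => absurd h2 (not_lt.2 (hcon k h1))⟩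
      have hc : CCC (S.P i) := ccc_limit S i hmin hlim fun j hj => (ih j hj).1
      refine ⟨hc, ?_⟩
      by_cases hcof : ∃ C : Set J, C.Countable ∧ (∀ j ∈ C, j < i) ∧ ∀ j, j < i → ∃ k ∈ C, j ≤ k
      · obtain ⟨C, h1, h2, h3⟩ := hcof
        exact tame_limA S K i hmin hlim C h1 h2 h3 fun j hj => (ih j hj).2
      · refine tame_limB S K i hc (fun C hC hCi => ?_) fun j hj => (ih j hj).2
        push Not at hcof
        obtain ⟨j, hj, h4⟩ := hcof C hC hCi
        exact ⟨j, hj, h4⟩

end BI
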