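import Pool.Agent.Helper18.BI.QtD

/-!
# BI-21 The Laver type forcing: basic properties of `Fav` and `Tr`

TO PROVE (in place).

* `fav_mono`, `tr_mono`, `nn_mono`, `un_mono`: clear by transitivity.
* `fav_reg`: (→) clear.  (←) let `x.fst ≤ p`, `x.snd = some (.hd t Φ)`; the hypothesis gives `q' ≤ x.fst` with
  `Fav t e q'`; `x' = ⟨q', x.snd, _⟩ ≤ x` (`S.Vm`, `S.Lr`); `Fav` at `x'` gives `y ≤ x' ≤ x`.
* `fav_of`: let `x.fst ≤ y.fst` and `x.snd = some (.hd t Φ)`.  `hd_join` (same stem `t`, `c = x.fst`) gives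
  `z ≤ x`, `z ≤ y`; `D e z` by `hD`.
* `tr_self`: the second clause is vacuous (lengths).  `tr_snoc`: let `u ++ [m] <+: t ++ [n]`; either
  `u ++ [m] <+: t` or `u ++ [m] = t ++ [n]` (compare lengths), and then `u = t`, `m = n`.  `tr_prefix`: clear.
* `tr_of_le`: `hd_le`.
* `fav_sub`: let `q ≤ p'`, `Fav t e q`.  `hd_extend` (for `x`, condition `q`, `Ψ = Φ`; `okc_of_hd`; second hypothesis by the
  uniqueness clause of `Okc`, so `v = w` and `vle v v`; third hypothesis from `Tr`) gives `z ≤ x`, `z.fst = q`,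
  `z.snd = some (.hd t Φ)`.  `Fav` gives `y ≤ z`, `D e y`, and `hsub` gives `w ≤ y` with `T e w.fst`;
  `w.fst ≤ y.fst ≤ z.fst = q`.
-/

set_option autoImplicit false

namespace BI

variable {P Cd K : Type} [Preorder P] {S : ESys P (Ent Cd)} {r : Om → ℕ → P → Prop} {A : Om → P → Prop}
  {nm : Cd → P → Val → Prop} {D : K → TS S → Prop}

theorem fav_mono {t : List Nd} {e : K} {p q : P} (h : q ≤ p) (hp : Fav S D t e p) : Fav S D t e q :=
  fun x hx hΦ => hp x (hx.trans h) hΦ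

theorem fav_reg (t : List Nd) (e : K) : Reg (Fav S D t e) := by
  intro p
  constructor
  · intro h q hq
    exact ⟨q, le_refl q, fav_mono hq h⟩
  · intro h x hx hΦ
    obtain ⟨Φ, hΦ⟩ := hΦ
    obtain ⟨q', hq', hf⟩ := h x.fst hx
    have hok : ∀ e', x.snd = some e' → S.V q' e' := fun e' he' => S.Vm _ _ _ hq' (x.ok e' he')
    obtain ⟨y, hy, hD⟩ := hf ⟨q', x.snd, hok⟩ (le_refl q') ⟨Φ, hΦ⟩
    refine ⟨y, le_trans hy ?_, hD⟩
    exact TS.le_iff.2 ⟨hq', fun e' he' => ⟨e', he', S.Lr _ _ (hok e' he')⟩⟩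

theorem fav_of (h : IsQS S r A nm) (hD : Mon D) {t : List Nd} {e : K} {y : TS S} {Ψ : List Nd → Cd}
    (hy : y.snd = some (.hd t Ψ)) (he : D e y) : Fav S D t e y.fst := by
  intro x hx hΦ
  obtain ⟨Φ, hΦ⟩ := hΦ
  obtain ⟨z, hzx, hzy, _, _⟩ := hd_join h hΦ hy (le_refl x.fst) hx
  exact ⟨z, hzx, hD e y z hzy he⟩

theorem nn_mono {s t : List Nd} : Mon (Nn S D s t) := by
  intro n p q hq hn
  obtain ⟨e, h1, h2⟩ := hn
  exact ⟨e, fav_mono hq h1, fun q' hq' => h2 q' (hq'.trans hq)⟩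

theorem un_mono {E : Nd → P → Prop} (hE : Mon E) {t : List Nd} {k : ℕ} : Mon (Un S D E t k) := by
  intro e p q hq hn
  obtain ⟨n, h1, h2, h3⟩ := hn
  exact ⟨n, h1, hE n p q hq h2, fav_mono hq h3⟩

theorem tr_mono {s t : List Nd} {Φ : List Nd → Cd} {p q : P} (h : q ≤ p) (hp : Tr r nm s Φ t p) :
    Tr r nm s Φ t q :=
  ⟨hp.1, fun u n hu hn q' hq' => hp.2 u n hu hn q' (hq'.trans h)⟩

theorem tr_self {s : List Nd} {Φ : List Nd → Cd} {p : P} : Tr r nm s Φ s p := by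
  refine ⟨List.prefix_rfl, fun u n hu hn => ?_⟩
  exfalso
  have h1 := hu.length_le
  have h2 := hn.length_le
  simp only [List.length_append, List.length_cons, List.length_nil] at h2
  omega

theorem tr_snoc {s t : List Nd} {Φ : List Nd → Cd} {n : Nd} {p : P} (h : Tr r nm s Φ t p)
    (hn : ∀ q, q ≤ p → ∀ v, nm (Φ t) q v → InS r v n q) : Tr r nm s Φ (t ++ [n]) p := by
  refine ⟨h.1.trans (List.prefix_append _ _), fun u m hu hm q hq v hv => ?_⟩
  rcases List.prefix_concat_iff.1 hm with h1 | h1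
  · obtain ⟨rfl, h2⟩ := List.append_inj' h1 rfl
    have h3 : m = n := by simpa using h2
    rw [h3]
    exact hn q hq v hv
  · exact h.2 u m hu h1 q hq v hv

theorem tr_prefix {s t u : List Nd} {Φ : List Nd → Cd} {p : P} (h : Tr r nm s Φ t p) (hs : s <+: u)
    (hu : u <+: t) : Tr r nm s Φ u p :=
  ⟨hs, fun w n hw hn => h.2 w n hw (hn.trans hu)⟩

theorem tr_of_le (h : IsQS S r A nm) {x y : TS S} {s t : List Nd} {Φ Ψ : List Nd → Cd}
    (hx : x.snd = some (.hd s Φ)) (hy : y.snd = some (.hd t Ψ)) (hyx : y ≤ x) :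
    Tr r nm s Φ t y.fst := by
  obtain ⟨t', Ψ', h1, h2, _, h4⟩ := hd_le h hx hyx
  rw [hy] at h1
  have h5 : t = t' := by
    have := Option.some.inj h1
    injection this
  rw [h5]
  exact ⟨h2, h4⟩

theorem fav_sub (h : IsQS S r A nm) {T : K → P → Prop} {x : TS S} {s t : List Nd} {Φ : List Nd → Cd}
    (hx : x.snd = some (.hd s Φ)) (hsub : SubB D (fun e y => T e y.fst) x) {p' : P} (hp' : p' ≤ x.fst)
    (htr : Tr r nm s Φ t p') : SubB (Fav S D t) T p' := by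
  intro e q hq hf
  have hqx : q ≤ x.fst := hq.trans hp'
  obtain ⟨z, hz, hz1, hz2⟩ := hd_extend h hx hqx htr.1 (Ψ := Φ) (okc_of_hd h hx hqx)
    (by
      intro u q' hq' v w hv hw
      have h1 := (okc_of_hd h hx hqx u).2.1 q' hq' v w hv hw
      rw [h1]
      exact ⟨Finset.Subset.refl _, le_refl _⟩)
    (fun u n hu hn q' hq' v hv => htr.2 u n hu hn q' (hq'.trans hq) v hv)
  obtain ⟨y, hy, hD⟩ := hf z (le_of_eq hz1) ⟨Φ, hz2⟩
  obtain ⟨w, hw, hT⟩ := hsub e y (le_trans hy hz) hD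
  refine ⟨w.fst, ?_, hT⟩
  exact (hw.1.trans hy.1).trans (le_of_eq hz1)

end BI
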