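import Pool.Agent.Helper18.BI.QtA

/-!
# BI-22 The Laver type forcing: finding the splitting node

TO PROVE (in place).  Write `F t` for the name `Fav S D t`.  Suppose the conclusion fails.  Let `p = x.fst`.
For every `t : List Nd` let
`Θ t q v := (∃ w, nm (Φ t) q w ∧ vle w v) ∧ (∀ α ∈ v.1, A α q) ∧
   ((∀ q' ≤ q, ¬ (Tr r nm s Φ t q' ∧ ∀ e, ∀ q'' ≤ q', F t e q'' → F s e q'')) ∨
    (∀ n, ∀ q' ≤ q, InS r v n q' → ∀ e, F (t ++ [n]) e q' → F s e q'))`.
`Θ t` is monotone in the condition (`h.nmon`, `A α` monotone by `h.areg`).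
It is dense below `p`: let `q ≤ p`; by `Okc` (`okc_of_hd`) take `q1 ≤ q`, `w` with `nm (Φ t) q1 w`; `A α q1` for
`α ∈ w.1`.  If no `q' ≤ q1` satisfies `Tr ∧ ∀ ...`, then `Θ t q1 w`.  Otherwise let `q' ≤ q1` be such a condition.
By our assumption `¬ Pos r A (Nn S D s t) [] q'`: there are `q'' ≤ q'` and `v0` with `A α q''` for `α ∈ v0.1` such that
there are no `q3 ≤ q''`, `n` with `Nn n q3` and `InS r v0 n q3`.  Put `v = (w.1 ∪ v0.1, max w.2 v0.2)`.
Then `Θ t q'' v`, second alternative: let `q3 ≤ q''`, `InS r v n q3`, `F (t ++ [n]) e q3`.  By `fav_reg` it suffices to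
find for `q4 ≤ q3` some `q5 ≤ q4` with `F s e q5`; if there were none, then `Nn n q4` (witness `e`) and `InS r v0 n q4`
(`ins_anti`, `ins_mono`), contradiction.
`h.mix` (for `p`, `Θ t`) gives a code `Ψ t`; it satisfies `Okc A nm p (Ψ t)`.  The condition `(p, (s, Ψ))` is an
extension of `x` (`hd_extend`: if `nm (Φ t) q w'` and `nm (Ψ t) q v` then `Θ t q v` gives `w` with `nm (Φ t) q w`,
`vle w v`, and `w = w'`).  Let `F0`, `q0` be as in `hfin`, and let `x0 = (q0, (s, Ψ))` (again `hd_extend`, or lower the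
first coordinate) `≤ x`.  `hinf` (with `F0`, `x0`) gives `y ≤ x0`, `e ∉ F0`, `D e y`.  By `hd_le` `y.snd = some (.hd t Ψ')`
with `s <+: t`.  By `fav_of`, `F t e y.fst`.
Claim: for all `u` with `s <+: u`, `u <+: t`: `∀ e', ∀ q ≤ y.fst, F u e' q → F s e' q`.  Induction on `u` (from the right, or on
the length): `u = s` is trivial.  Let it hold for `u` and let `u ++ [n] <+: t`, `q ≤ y.fst`, `F (u ++ [n]) e' q`.  By
`fav_reg` it suffices to find densely below `q` conditions `q2` with `F s e' q2`.  Let `q1 ≤ q`; choose `q2 ≤ q1`, `v` with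
`nm (Ψ u) q2 v`; `Θ u q2 v` holds.  `Tr r nm s Φ u q2` holds (`tr_of_le` for `y ≤ x`, `tr_prefix`, `tr_mono`) and the
induction hypothesis holds below `q2`, so the first alternative of `Θ u q2 v` is impossible.  `InS r v n q2` by the last
clause of `hd_le` for `y ≤ x0` (`x0.snd = some (.hd s Ψ)`).  So the second alternative gives `F s e' q2`.
For `u = t`: `F s e y.fst`, which contradicts `e ∉ F0`, `y.fst ≤ q0`.
-/

set_option autoImplicit false

namespace BI

variable {P Cd K : Type} [Preorder P] {S : ESys P (Ent Cd)} {r : Om → ℕ → P → Prop} {A : Om → P → Prop}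
  {nm : Cd → P → Val → Prop} {D : K → TS S → Prop}

theorem qs_claim (h : IsQS S r A nm) (hD : Mon D) {x : TS S} {s : List Nd} {Φ : List Nd → Cd}
    (hx : x.snd = some (.hd s Φ)) (hinf : InfB D x)
    (hfin : ∃ (F0 : Finset K) (q0 : P), q0 ≤ x.fst ∧ ∀ q, q ≤ q0 → ∀ e, e ∉ F0 → ¬ Fav S D s e q) :
    ∃ (t : List Nd) (p' : P), p' ≤ x.fst ∧ Tr r nm s Φ t p' ∧
      (∀ e q, q ≤ p' → Fav S D t e q → Fav S D s e q) ∧ Pos r A (Nn S D s t) [] p' := by
  by_contra hcon
  have hno : ∀ (t : List Nd) (q : P), q ≤ x.fst → Tr r nm s Φ t q →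
      (∀ e q'', q'' ≤ q → Fav S D t e q'' → Fav S D s e q'') →
      ¬ Pos r A (Nn S D s t) [] q := fun t q h1 h2 h3 h4 => hcon ⟨t, q, h1, h2, h3, h4⟩
  have hΘ : ∀ t : List Nd, ∃ c : Cd, (∀ q, q ≤ x.fst → ∃ q', q' ≤ q ∧ ∃ v, nm c q' v) ∧
      (∀ q, q ≤ x.fst → ∀ v w, nm c q v → nm c q w → v = w) ∧
      (∀ q, q ≤ x.fst → ∀ v, nm c q v →
        (∃ w, nm (Φ t) q w ∧ vle w v) ∧ (∀ α ∈ v.1, A α q) ∧
        ((∀ q', q' ≤ q → ¬ (Tr r nm s Φ t q' ∧
            ∀ e q'', q'' ≤ q' → Fav S D t e q'' → Fav S D s e q'')) ∨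
          (∀ n q', q' ≤ q → InS r v n q' → ∀ e, Fav S D (t ++ [n]) e q' → Fav S D s e q'))) := by
    intro t
    refine h.mix x.fst (fun q v => (∃ w, nm (Φ t) q w ∧ vle w v) ∧ (∀ α ∈ v.1, A α q) ∧
        ((∀ q', q' ≤ q → ¬ (Tr r nm s Φ t q' ∧
            ∀ e q'', q'' ≤ q' → Fav S D t e q'' → Fav S D s e q'')) ∨
          (∀ n q', q' ≤ q → InS r v n q' → ∀ e, Fav S D (t ++ [n]) e q' → Fav S D s e q'))) ?_ ?_
    · rintro q q' v hq ⟨⟨w, hw1, hw2⟩, h2, h3⟩
      refine ⟨⟨w, h.nmon _ _ _ _ hq hw1, hw2⟩, fun α hα => (h.areg α).mono hq (h2 α hα), ?_⟩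
      rcases h3 with h3 | h3
      · exact Or.inl fun q'' hq'' => h3 q'' (le_trans hq'' hq)
      · exact Or.inr fun n q'' hq'' => h3 n q'' (le_trans hq'' hq)
    · intro q hq
      have hok := okc_of_hd h hx (le_refl x.fst) t
      obtain ⟨q1, hq1, w, hw⟩ := hok.1 q hq
      have hAw : ∀ α ∈ w.1, A α q1 := hok.2.2 q1 (le_trans hq1 hq) w hw
      by_cases hT : ∃ q', q' ≤ q1 ∧ (Tr r nm s Φ t q' ∧
          ∀ e q'', q'' ≤ q' → Fav S D t e q'' → Fav S D s e q'')
      · obtain ⟨q', hq', hT1, hT2⟩ := hT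
        have hq'x : q' ≤ x.fst := le_trans hq' (le_trans hq1 hq)
        have hnp := hno t q' hq'x hT1 hT2
        unfold Pos at hnp
        push Not at hnp
        obtain ⟨q'', hq'', v0, hv0, hv0n⟩ := hnp
        have hq''1 : q'' ≤ q1 := le_trans hq'' hq'
        refine ⟨q'', le_trans hq''1 hq1, (w.1 ∪ v0.1, max w.2 v0.2), ?_, ?_, ?_⟩
        · exact ⟨w, h.nmon _ _ _ _ hq''1 hw, Finset.subset_union_left, le_max_left _ _⟩
        · intro α hα
          rcases Finset.mem_union.mp hα with hα | hα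
          · exact (h.areg α).mono hq''1 (hAw α hα)
          · exact hv0 α hα
        · refine Or.inr ?_
          intro n q3 hq3 hin e hf
          refine (fav_reg s e q3).2 ?_
          intro q4 hq4
          by_contra hc
          push Not at hc
          refine hv0n q4 (le_trans hq4 hq3) n List.nil_prefix ⟨e, fav_mono hq4 hf, hc⟩ ?_
          exact ins_mono hq4 (ins_anti ⟨Finset.subset_union_right, le_max_right _ _⟩ hin)
      · refine ⟨q1, hq1, w, ⟨w, hw, Finset.Subset.refl _, le_rfl⟩, hAw, Or.inl ?_⟩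
        intro q' hq' hT'
        exact hT ⟨q', hq', hT'⟩
  choose Ψ hΨ1 hΨ2 hΨ3 using hΘ
  obtain ⟨F0, q0, hq0, hF0⟩ := hfin
  obtain ⟨x0, hx0x, hx0f, hx0s⟩ := hd_extend h hx (t := s) (Ψ := Ψ) hq0 List.prefix_rfl
    (fun u => ⟨fun q hq => hΨ1 u q (le_trans hq hq0), fun q hq => hΨ2 u q (le_trans hq hq0),
      fun q hq v hv => (hΨ3 u q (le_trans hq hq0) v hv).2.1⟩)
    (by
      intro u q hq v w hv hw
      obtain ⟨⟨w', hw'1, hw'2⟩, _⟩ := hΨ3 u q (le_trans hq hq0) w hw
      have hok := okc_of_hd h hx (le_refl x.fst) u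
      have hvw : v = w' := hok.2.1 q (le_trans hq hq0) v w' hv hw'1
      rw [hvw]
      exact hw'2)
    (by
      intro u n h1 h2
      have h3 := h1.length_le
      have h4 := h2.length_le
      rw [List.length_append, List.length_singleton] at h4
      omega)
  obtain ⟨y, hyx0, e, heF, hDe⟩ := hinf F0 x0 hx0x
  obtain ⟨t, Ψ', hys, hst, _, hlast⟩ := hd_le h hx0s hyx0
  have hfav : Fav S D t e y.fst := fav_of h hD hys hDe
  have hyq0 : y.fst ≤ q0 := by
    have := (TS.le_iff.1 hyx0).1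
    rwa [hx0f] at this
  have hyx : y ≤ x := le_trans hyx0 hx0x
  have hTr : Tr r nm s Φ t y.fst := tr_of_le h hx hys hyx
  have hclaim : ∀ u : List Nd, s <+: u → u <+: t → ∀ e' q, q ≤ y.fst → Fav S D u e' q →
      Fav S D s e' q := by
    intro u
    induction u using List.reverseRecOn with
    | nil =>
      intro h1 _ e' q _ hf
      have : s = [] := List.prefix_nil.mp h1
      rw [this]
      exact hf
    | append_singleton u n ih =>
      intro h1 h2 e' q hq hf
      rcases List.prefix_concat_iff.mp h1 with h3 | h3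
      · rw [h3]
        exact hf
      · have hut : u <+: t := (List.prefix_append u [n]).trans h2
        refine (fav_reg s e' q).2 ?_
        intro q1 hq1
        have hq1x : q1 ≤ x.fst := le_trans hq1 (le_trans hq (le_trans hyq0 hq0))
        obtain ⟨q2, hq2, v, hv⟩ := hΨ1 u q1 hq1x
        have hq2q : q2 ≤ q := le_trans hq2 hq1
        have hq2y : q2 ≤ y.fst := le_trans hq2q hq
        obtain ⟨_, _, h4⟩ := hΨ3 u q2 (le_trans hq2 hq1x) v hv
        refine ⟨q2, hq2, ?_⟩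
        rcases h4 with h4 | h4
        · exact absurd ⟨tr_mono hq2y (tr_prefix hTr h3 hut),
            fun e q'' hq'' => ih h3 hut e q'' (le_trans hq'' hq2y)⟩ (h4 q2 (le_refl q2))
        · exact h4 n q2 (le_refl q2) (hlast u n h3 h2 q2 hq2y v hv) e' (fav_mono hq2q hf)
  exact hF0 y.fst hyq0 e heF (hclaim t hst List.prefix_rfl e y.fst (le_refl _) hfav)

end BI
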