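import Pool.Agent.Helper18.BI.JoinL
import Pool.Agent.Helper18.BI.FrC

/-!
# The Laver type forcing: names read off from stems (definitions)
-/

set_option autoImplicit false

namespace BI

variable {P Cd K : Type} [Preorder P] (S : ESys P (Ent Cd)) (D : K → TS S → Prop)

/-- `p` forces that no condition with stem `t` excludes `e` from `D` -/
def Fav (t : List Nd) (e : K) (p : P) : Prop :=
  ∀ x : TS S, x.fst ≤ p → (∃ Φ, x.snd = some (.hd t Φ)) → ∃ y, y ≤ x ∧ D e y

/-- `p` forces that `t` is in the tree of the condition `(s, Φ)` -/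
def Tr (r : Om → ℕ → P → Prop) (nm : Cd → P → Val → Prop) (s : List Nd) (Φ : List Nd → Cd)
    (t : List Nd) (p : P) : Prop :=
  s <+: t ∧ ∀ (u : List Nd) (n : Nd), s <+: u → (u ++ [n]) <+: t → ∀ q, q ≤ p → ∀ v, nm (Φ u) q v →
    InS r v n q

/-- the name of the set of all `n` such that `Fav (t ++ [n])` is not contained in `Fav s` -/
def Nn (s t : List Nd) (n : Nd) (p : P) : Prop :=
  ∃ e, Fav S D (t ++ [n]) e p ∧ ∀ q, q ≤ p → ¬ Fav S D s e q

/-- the name of the union of the sets `Fav (t ++ [n])`, `n ∈ E` with code at least `k` -/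
def Un (E : Nd → P → Prop) (t : List Nd) (k : ℕ) (e : K) (p : P) : Prop :=
  ∃ n, k ≤ Encodable.encode n ∧ E n p ∧ Fav S D (t ++ [n]) e p

end BI
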