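import Pool.Agent.Helper18.BI.OmL

/-!
# The truth values for the two element Boolean algebra are the notions of ZFC
-/

set_option autoImplicit false

namespace BI

/-- a function as a name over `Prop` -/
def Fn.ofFun {X Y : Type} (f : X → Y) : Fn Prop X Y where
  val x y := f x = y
  total x := by
    rw [iSup_Prop_eq]
    exact eq_true ⟨f x, rfl⟩
  uniq x y y' h := by
    rw [eq_bot_iff]
    rintro ⟨h1, h2⟩
    exact h (h1.symm.trans h2)

theorem Fn.exists_fun {X Y : Type} (f : Fn Prop X Y) : ∃ g : X → Y, ∀ x y, f.val x y ↔ g x = y := by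
  have h1 : ∀ x, ∃ y, f.val x y := by
    intro x
    have h := f.total x
    rw [iSup_Prop_eq] at h
    exact of_eq_true h
  choose g hg using h1
  refine ⟨g, fun x y => ⟨fun h => ?_, fun h => h ▸ hg x⟩⟩
  by_contra hne
  have h2 : f.val x (g x) ⊓ f.val x y := ⟨hg x, h⟩
  rw [f.uniq x _ _ hne] at h2
  exact h2

theorem bIff_prop (a b : Prop) : bIff a b ↔ (a ↔ b) := by
  unfold bIff
  simp only [himp_iff_imp, inf_Prop_eq]
  tauto

theorem bCtb_prop {X : Type} [Nonempty X] (S : X → Prop) : bCtb S ↔ {x | S x}.Countable := by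
  rw [Set.countable_iff_exists_subset_range]
  unfold bCtb
  simp only [iSup_Prop_eq, iInf_Prop_eq, himp_iff_imp]
  constructor
  · rintro ⟨f, hf⟩
    obtain ⟨g, hg⟩ := f.exists_fun
    refine ⟨g, fun x hx => ?_⟩
    obtain ⟨n, hn⟩ := hf x hx
    exact ⟨n, (hg n x).1 hn⟩
  · rintro ⟨g, hg⟩
    refine ⟨Fn.ofFun g, fun x hx => ?_⟩
    obtain ⟨n, hn⟩ := hg hx
    exact ⟨n, hn⟩

theorem bFin_prop {X : Type} (S : X → Prop) : bFin S ↔ {x | S x}.Finite := by
  unfold bFin
  simp only [iSup_Prop_eq, iInf_Prop_eq, compl_iff_not]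
  constructor
  · rintro ⟨F, hF⟩
    refine F.finite_toSet.subset fun x hx => ?_
    by_contra hne
    exact hF x hne hx
  · intro h
    refine ⟨h.toFinset, fun x hx hS => hx ?_⟩
    rw [Set.Finite.mem_toFinset]
    exact hS

theorem bPre_prop (s : List Bool) (x : ℕ → Bool) (y : ℕ → Prop) (h : ∀ n, y n ↔ x n = true) :
    bPre s y ↔ Pre s x := by
  unfold bPre Pre
  simp only [iInf_Prop_eq]
  refine forall_congr' fun j => ?_
  by_cases hj : s[j] = true
  · rw [if_pos hj, h, hj]
    exact eq_comm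
  · rw [if_neg hj]
    rw [Bool.not_eq_true] at hj
    rw [hj, compl_iff_not, h]
    cases x j <;> simp

/-- The truth value of `QSets` over the algebra `{0, 1}`. -/
theorem bQSets_prop : bQSets Prop ↔ QSets := by
  unfold bQSets QSets
  simp only [iSup_Prop_eq, iInf_Prop_eq, himp_iff_imp, bIff_prop, compl_iff_not, inf_Prop_eq]
  constructor
  · intro h r hr A
    obtain ⟨f, hf⟩ := h (fun α n => r α n = true) (fun α => α ∈ A) (by
      intro α β hne
      by_contra hcon
      push Not at hcon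
      refine hne (hr (funext fun n => ?_))
      have := hcon n
      cases h1 : r α n <;> cases h2 : r β n <;> simp_all)
    obtain ⟨z, hz⟩ := f.exists_fun
    refine ⟨z, fun α => (hf α).trans ?_⟩
    refine exists_congr fun k => forall_congr' fun i => forall_congr' fun _ => not_congr ?_
    constructor
    · rintro ⟨s, hs1, hs2⟩
      rw [(hz i s).1 hs1]
      exact (bPre_prop s (r α) _ fun n => Iff.rfl).1 hs2
    · intro hp
      exact ⟨z i, (hz i _).2 rfl, (bPre_prop _ (r α) _ fun n => Iff.rfl).2 hp⟩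
  · classical
    intro h r A hr
    obtain ⟨z, hz⟩ := h (fun α n => decide (r α n)) (by
      intro α β hab
      by_contra hne
      obtain ⟨n, hn⟩ := hr α β hne
      refine hn ?_
      have := congrFun hab n
      simpa using this) {α | A α}
    refine ⟨Fn.ofFun z, fun α => (hz α).trans ?_⟩
    refine exists_congr fun k => forall_congr' fun i => forall_congr' fun _ => not_congr ?_
    constructor
    · intro hp
      exact ⟨z i, rfl, (bPre_prop _ _ _ fun n => by simp).2 hp⟩
    · rintro ⟨s, hs1, hs2⟩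
      have hs1' : z i = s := hs1
      rw [hs1']
      exact (bPre_prop s (fun n => decide (r α n)) _ fun n => by simp).1 hs2

/-- The truth value of `SuslinTree` over the algebra `{0, 1}`. -/
theorem bSuslin_prop (R : Om → Om → Prop) : bSuslin R ↔ SuslinTree R := by
  haveI := om_nonempty
  unfold bSuslin
  simp only [iSup_Prop_eq, iInf_Prop_eq, himp_iff_imp, compl_iff_not, inf_Prop_eq, bCtb_prop]
  constructor
  · rintro ⟨⟨⟨⟨⟨h1, h2⟩, h3⟩, h4⟩, h5⟩, h6⟩
    refine ⟨?_, ?_, ?_, ?_, ?_, ?_⟩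
    · intro a b hR
      by_contra hlt
      exact h1 a b hlt hR
    · intro a b c hab hbc
      exact h2 a b c ⟨hab, hbc⟩
    · intro a b c hlt hac hbc
      exact h3 a b c hlt ⟨hac, hbc⟩
    · exact h4
    · intro X hX
      obtain ⟨a, b, ⟨ha, hb⟩, hR⟩ := h5 X hX
      exact ⟨a, ha, b, hb, hR⟩
    · intro X hX
      obtain ⟨a, b, hne, ⟨ha, hb⟩, hR⟩ := h6 X hX
      exact ⟨a, ha, b, hb, hne, hR⟩
  · intro h
    refine ⟨⟨⟨⟨⟨?_, ?_⟩, ?_⟩, ?_⟩, ?_⟩, ?_⟩
    · intro a b hlt hR
      exact hlt (h.lt a b hR)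
    · rintro a b c ⟨hab, hbc⟩
      exact h.trans a b c hab hbc
    · rintro a b c hlt ⟨hac, hbc⟩
      exact h.tree a b c hlt hac hbc
    · exact h.succ
    · intro X hX
      obtain ⟨a, ha, b, hb, hR⟩ := h.noantichain {x | X x} hX
      exact ⟨a, b, ⟨ha, hb⟩, hR⟩
    · intro X hX
      obtain ⟨a, ha, b, hb, hne, hR⟩ := h.nochain {x | X x} hX
      exact ⟨a, b, hne, ⟨ha, hb⟩, hR⟩

theorem bCell_prop (A : Om → Om → Prop) (X h : Om → Prop) (δ : Om) :
    bCell A X h δ ↔ δ ∈ Cell (fun α => {δ | A α δ}) {α | X α} h := by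
  unfold bCell Cell
  simp only [iInf_Prop_eq, himp_iff_imp, bIff_prop]
  rfl

/-- The truth value of `Barely` over the algebra `{0, 1}`. -/
theorem bBarely_prop (A : Om → Om → Prop) : bBarely A ↔ Barely (fun α => {δ | A α δ}) := by
  haveI := om_nonempty
  unfold bBarely
  simp only [iSup_Prop_eq, iInf_Prop_eq, himp_iff_imp, compl_iff_not, inf_Prop_eq, bCtb_prop,
    bFin_prop, bCell_prop, bIff_prop]
  constructor
  · rintro ⟨⟨h1, h2⟩, h3⟩
    refine ⟨?_, ?_, ?_⟩
    · intro α β hne heq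
      obtain ⟨δ, hδ⟩ := h1 α β hne
      refine hδ ?_
      have := Set.ext_iff.1 heq δ
      exact this
    · intro X h hX
      exact h2 X h hX
    · intro X h hX hX'
      exact h3 X h ⟨hX, hX'⟩
  · intro hB
    refine ⟨⟨?_, ?_⟩, ?_⟩
    · intro α β hne
      by_contra hcon
      push Not at hcon
      exact hB.inj α β hne (Set.ext hcon)
    · intro X h hX
      exact hB.fin {α | X α} h hX
    · rintro X h ⟨hX, hX'⟩
      exact hB.ctb {α | X α} h hX hX'

end BI
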