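import Pool.Agent.Helper18.BI.Ctb
import Pool.Agent.Helper18.BI.Base

/-!
# BI-40 Suslin trees in the Boolean valued model and `PreSus`

TO PROVE (in place).

`presus_top`: decompose `h : (bSuslin R).1 p` with `RO.mem_inf` into six clauses.
* `lt`: if `q ≤ p`, `(R a b).1 q` and `¬ a < b` then the first clause gives `((R a b)ᶜ).1 p`, contradiction at `q`.
* `trans`, `tree`: `RO.mem_iInf`, `RO.mem_himp`, `RO.mem_inf`.
* `succ`: the fourth clause gives `((bCtb (fun b => R a b))ᶜ).1 p`; use `unc_iff`.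
* `anti`: let `X` be monotone, `q ≤ p`, `∀ x, ∀ q' ≤ q, ∃ q'' ≤ q', ∃ b > x, X b q''`.  Let `X' b = RO.cl (X b) _`.
  `unc_iff` (→ from the right side; `X b q''` implies `(X' b).1 q''`) gives `((bCtb X')ᶜ).1 q`.  The fifth clause gives
  `(⨆ a, ⨆ b, X' a ⊓ X' b ⊓ R a b).1 q`, so there are `q1 ≤ q`, `a`, `b` with `(X' a).1 q1`, `(X' b).1 q1`,
  `(R a b).1 q1` (note that membership in nested suprema has to be unfolded step by step, going to stronger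
  conditions); then `q2 ≤ q1` with `X a q2` and `q3 ≤ q2` with `X b q3`; `X a q3` by monotonicity, `(R a b).1 q3`, and `a < b`
  by `lt`.
* `chain_top`: the sixth clause.

`presus_down`: `p : S.P j`, `PreSus R (S.rs j ⊤ p)` at the top.  For `q ≤ p` in `S.P j` we have `S.rs j ⊤ q ≤ S.rs j ⊤ p`.
* `lt`, `trans`, `tree`: translate with `hR`.
* `succ`: there are `w ≤ S.rs j ⊤ q`, `b > x` with `R a b w`; by `hR2` and `hR`, `R' a b (S.rs ⊤ j w)`, and `S.rs ⊤ j w ≤ q`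
  (`le_rs_iff`).
* `anti`: for `X : Om → S.P j → Prop` put `X1 b w := X b (S.rs ⊤ j w)` (monotone by `rs_mono`).  It is unbounded below
  `S.rs j ⊤ q`: for `w ≤ S.rs j ⊤ q`, `S.rs ⊤ j w ≤ q`; take `q'' ≤ S.rs ⊤ j w`, `b > x` with `X b q''`; `S.amalgam` gives
  `w' ≤ w` with `S.rs ⊤ j w' = q''`.  So there are `w ≤ S.rs j ⊤ q`, `a < b` with `X1 a w`, `X1 b w`, `R a b w`; take
  `q' = S.rs ⊤ j w`.
-/

set_option autoImplicit false

namespace BI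

theorem presus_top {P : Type} [Preorder P] (hP : CCC P) (R : Om → Om → RO P) (p : P)
    (h : (bSuslin R).1 p) : PreSus (fun a b q => (R a b).1 q) p := by
  obtain ⟨⟨⟨⟨⟨h1, h2⟩, h3⟩, h4⟩, h5⟩, _⟩ := h
  simp only [RO.mem_iInf] at h1 h2 h3 h4 h5
  have hlt : ∀ a b q, q ≤ p → (R a b).1 q → a < b := by
    intro a b q hq hR
    by_contra hab
    exact h1 a b hab q hq hR
  refine ⟨hlt, ?_, ?_, ?_, ?_⟩
  · intro a b c q hq hab hbc
    exact RO.mem_himp.1 (h2 a b c) q hq ⟨hab, hbc⟩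
  · intro a b c q hq hab hac hbc
    exact RO.mem_himp.1 (h3 a b c hab) q hq ⟨hac, hbc⟩
  · intro a x q hq
    exact (unc_iff hP _ p).1 (h4 a) x q hq
  · intro X hX q hq hunb
    have h6 : ((bCtb (fun b => RO.cl (X b) (hX b)))ᶜ).1 q := by
      refine (unc_iff hP _ q).2 fun x q' hq' => ?_
      obtain ⟨q'', h7, b, hb, hXb⟩ := hunb x q' hq'
      exact ⟨q'', h7, b, hb, fun r hr => ⟨r, le_refl _, hX b _ _ hr hXb⟩⟩
    have h7 := RO.mem_himp.1 (h5 (fun b => RO.cl (X b) (hX b))) q hq h6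
    obtain ⟨q1, hq1, a, h8⟩ := RO.mem_iSup.1 h7 q (le_refl _)
    obtain ⟨q2, hq2, b, h9⟩ := RO.mem_iSup.1 h8 q1 (le_refl _)
    obtain ⟨⟨hXa, hXb⟩, hRab⟩ := h9
    obtain ⟨q3, hq3, hXa3⟩ := hXa q2 (le_refl _)
    obtain ⟨q4, hq4, hXb4⟩ := hXb q3 hq3
    have hR4 : (R a b).1 q4 := (R a b).down (hq4.trans hq3) hRab
    have hle : q4 ≤ q := ((hq4.trans hq3).trans hq2).trans hq1
    exact ⟨q4, hle, a, b, hlt a b q4 (hle.trans hq) hR4, hX a _ _ hq4 hXa3, hXb4, hR4⟩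

theorem chain_top {P : Type} [Preorder P] (hP : CCC P) (R : Om → Om → RO P) (p : P)
    (h : (bSuslin R).1 p) (C : Om → P → Prop) (hC : Mon C)
    (hunb : ∀ (x : Om) (q : P), q ≤ p → ∃ q', q' ≤ q ∧ ∃ b, x < b ∧ C b q') :
    ∃ q, q ≤ p ∧ ∃ a b, a ≠ b ∧ C a q ∧ C b q ∧ (∀ q', q' ≤ q → ¬ (R a b).1 q') ∧
      ∀ q', q' ≤ q → ¬ (R b a).1 q' := by
  obtain ⟨_, h5⟩ := h
  simp only [RO.mem_iInf] at h5
  have h6 : ((bCtb (fun b => RO.cl (C b) (hC b)))ᶜ).1 p := by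
    refine (unc_iff hP _ p).2 fun x q' hq' => ?_
    obtain ⟨q'', h7, b, hb, hXb⟩ := hunb x q' hq'
    exact ⟨q'', h7, b, hb, fun r hr => ⟨r, le_refl _, hC b _ _ hr hXb⟩⟩
  have h7 := RO.mem_himp.1 (h5 (fun b => RO.cl (C b) (hC b))) p (le_refl _) h6
  obtain ⟨q1, hq1, a, h8⟩ := RO.mem_iSup.1 h7 p (le_refl _)
  obtain ⟨q2, hq2, b, h9⟩ := RO.mem_iSup.1 h8 q1 (le_refl _)
  obtain ⟨q3, hq3, hab, h10⟩ := RO.mem_iSup.1 h9 q2 (le_refl _)
  obtain ⟨⟨hXa, hXb⟩, hR1, hR2⟩ := h10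
  obtain ⟨q4, hq4, hXa4⟩ := hXa q3 (le_refl _)
  obtain ⟨q5, hq5, hXb5⟩ := hXb q4 hq4
  refine ⟨q5, (((hq5.trans hq4).trans hq3).trans hq2).trans hq1, a, b, hab,
    hC a _ _ hq5 hXa4, hXb5, fun q' hq' => ?_, fun q' hq' => ?_⟩
  · exact hR1 q' ((hq'.trans hq5).trans hq4)
  · exact hR2 q' ((hq'.trans hq5).trans hq4)

theorem presus_down {P0 J E : Type} [Preorder P0] [LinearOrder J] [WellFoundedLT J] [OrderTop J]
    (S : FSys P0 J E) (j : J) (R' : Om → Om → S.P j → Prop) (R : Om → Om → S.P ⊤ → Prop)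
    (hR : ∀ a b q, R' a b q ↔ R a b (S.rs j ⊤ q))
    (hR2 : ∀ a b q, R a b q ↔ R a b (S.rs j ⊤ (S.rs ⊤ j q))) (p : S.P j)
    (h : PreSus R (S.rs j ⊤ p)) : PreSus R' p := by
  refine ⟨?_, ?_, ?_, ?_, ?_⟩
  · intro a b q hq hab
    exact h.lt a b _ (S.rs_mono j ⊤ hq) ((hR a b q).1 hab)
  · intro a b c q hq hab hbc
    exact (hR a c q).2 (h.trans a b c _ (S.rs_mono j ⊤ hq) ((hR a b q).1 hab) ((hR b c q).1 hbc))
  · intro a b c q hq hlt hac hbc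
    exact (hR a b q).2 (h.tree a b c _ (S.rs_mono j ⊤ hq) hlt ((hR a c q).1 hac) ((hR b c q).1 hbc))
  · intro a x q hq
    obtain ⟨w, hw, b, hb, hab⟩ := h.succ a x _ (S.rs_mono j ⊤ hq)
    refine ⟨S.rs ⊤ j w, (S.le_rs_iff le_top).1 hw, b, hb, ?_⟩
    rw [hR, ← hR2]
    exact hab
  · intro X hX q hq hunb
    obtain ⟨w, hw, a, b, hab, hXa, hXb, hRab⟩ := h.anti (fun b w => X b (S.rs ⊤ j w))
      (fun x p q hqp hx => hX x _ _ (S.rs_mono ⊤ j hqp) hx) (S.rs j ⊤ q) (S.rs_mono j ⊤ hq)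
      (by
        intro x w hw
        obtain ⟨q'', h1, b, hb, hXb⟩ := hunb x (S.rs ⊤ j w) ((S.le_rs_iff le_top).1 hw)
        obtain ⟨w', h2, _, h3, _⟩ := S.amalgam le_top w q'' h1
        refine ⟨w', h2, b, hb, ?_⟩
        rw [h3]
        exact hXb)
    refine ⟨S.rs ⊤ j w, (S.le_rs_iff le_top).1 hw, a, b, hab, hXa, hXb, ?_⟩
    rw [hR, ← hR2]
    exact hRab

end BI
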