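import Pool.Agent.Helper18.BI.AxT
import Pool.Agent.Helper18.BI.OmL
import Pool.Agent.Helper18.BI.CtbN

/-!
# BI-25 The forcing with a Suslin tree: infinite names are decided by nodes

TO PROVE (in place).  `Ea a e p` says that `p ≤ p0` and that `(p, a)` forces `e ∈ D`.

`ea_mono`: clear by transitivity.

`tr_dense`.  Let `Z` be given by `exists_ctbName hts D hD`.  The set of all ordinals `b` with
`∃ z ∈ Z, z.1.snd = some (.nd b)` is countable, so there is `δ : Om` bigger than all of them (`om_bdd`).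
From `x.snd = some (.nd a)`, `x.ok` and `h.V_iff`: `x.fst ≤ p0` and `PreSus R p0`.  `PreSus.succ` (for `a`, `δ`, `q = x.fst`)
gives `q' ≤ x.fst` and `a' > δ` with `R a a' q'`.  `x' = ⟨q', some (.nd a'), _⟩ ≤ x` (`LR`: `Or.inr`).
`InfB (Ea a') q'`: let `F`, `p' ≤ q'`.  `⟨p', some (.nd a'), _⟩ ≤ x' ≤ x`, so there are `z ∈ Z`, `z.2 ∉ F` and a common
extension `c` of `⟨p', some (.nd a'), _⟩` and `z.1`.  `c.snd = some (.nd γ)` with `c.fst ≤ p'` and
`a' = γ ∨ R a' γ c.fst`.  We show `⟨c.fst, some (.nd a'), _⟩ ≤ z.1`: `c.fst ≤ z.1.fst`; if `z.1.snd = none` nothing else is to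
be shown; if `z.1.snd = some (.nd b)` (it cannot be `.hd`) then `b = γ ∨ R b γ c.fst`, and `b < δ < a'` and
`a' ≤ γ` (`PreSus.lt`), so `b ≠ γ` and `R b γ c.fst`.  If `a' = γ` then `R b a' c.fst`; if `R a' γ c.fst` then
`PreSus.tree` (`b < a'`) gives `R b a' c.fst`.
Hence every `y` with `y.fst ≤ c.fst`, `y.snd = some (.nd γ')`, `a' = γ' ∨ R a' γ' y.fst` satisfies
`y ≤ ⟨c.fst, some (.nd a'), _⟩ ≤ z.1`, so `D z.2 y` by `hD` (take `y` itself in the definition of `Ea`); this shows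
`Ea a' z.2 c.fst`, and `c.fst ≤ p'`.
-/

set_option autoImplicit false

namespace BI

/-- the name of the set of all `e` which the node `a` forces into `D` -/
def Ea {P Cd K : Type} [Preorder P] (S : ESys P (Ent Cd)) (D : K → TS S → Prop)
    (R : Om → Om → P → Prop) (p0 : P) (a : Om) (e : K) (p : P) : Prop :=
  p ≤ p0 ∧ ∀ y : TS S, y.fst ≤ p → (∃ γ, y.snd = some (.nd γ) ∧ (a = γ ∨ R a γ y.fst)) →
    ∃ z, z ≤ y ∧ D e z

variable {P Cd K : Type} [Preorder P] {S : ESys P (Ent Cd)} {R : Om → Om → P → Prop} {p0 : P}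
  {D : K → TS S → Prop}

theorem ea_mono (a : Om) : Mon (Ea S D R p0 a) := by
  intro e p q hqp h
  exact ⟨hqp.trans h.1, fun y hy => h.2 y (hy.trans hqp)⟩

theorem tr_dense (h : IsTR S R p0) (hts : CCC (TS S)) (hD : Mon D) {x : TS S} {a : Om}
    (hx : x.snd = some (.nd a)) (hinf : InfB D x) :
    ∃ x', x' ≤ x ∧ ∃ a', x'.snd = some (.nd a') ∧ InfB (Ea S D R p0 a') x'.fst := by
  obtain ⟨Z, hZc, hZD, hZ⟩ := exists_ctbName hts D hD
  have hBc : {b : Om | ∃ z ∈ Z, z.1.snd = some (.nd b)}.Countable := by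
    have h1 : ((fun z : TS S × K => z.1.snd) '' Z).Countable := hZc.image _
    have hinj : Function.Injective (fun b : Om => (some (Ent.nd b) : Option (Ent Cd))) := by
      intro b b' hbb
      simpa using hbb
    refine (h1.preimage hinj).mono ?_
    rintro b ⟨z, hz, hzb⟩
    exact ⟨z, hz, hzb⟩
  obtain ⟨δ, hδ⟩ := om_bdd hBc
  have hV : VR R p0 x.fst (.nd a) := (h.V_iff _ _).1 (x.ok _ hx)
  obtain ⟨hxp0, hS⟩ := hV
  obtain ⟨q', hq', a', hδa', hRaa'⟩ := hS.succ a δ x.fst hxp0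
  have hq'p0 : q' ≤ p0 := hq'.trans hxp0
  have okn : ∀ (p : P) (_ : p ≤ p0) (b : Om) (e : Ent Cd), some (Ent.nd b) = some e → S.V p e := by
    intro p hp b e he
    obtain rfl : Ent.nd b = e := Option.some.inj he
    exact (h.V_iff _ _).2 ⟨hp, hS⟩
  have hmon : ∀ b c p q, q ≤ p → R b c p → R b c q := by
    intro b c p q hqp hR
    exact (h.rreg b c q).2 fun r hr => (h.rreg b c p).1 hR r (hr.trans hqp)
  have hx' : (⟨q', some (.nd a'), okn q' hq'p0 a'⟩ : TS S) ≤ x := by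
    refine ⟨hq', fun e he => ⟨.nd a', rfl, ?_⟩⟩
    obtain rfl : Ent.nd a = e := by
      rw [hx] at he
      exact Option.some.inj he
    exact (h.L_iff _ _ _).2 (Or.inr hRaa')
  refine ⟨⟨q', some (.nd a'), okn q' hq'p0 a'⟩, hx', a', rfl, ?_⟩
  intro F p' hp'
  have hp'q' : p' ≤ q' := hp'
  have hy0 : (⟨p', some (.nd a'), okn p' (hp'q'.trans hq'p0) a'⟩ : TS S) ≤
      ⟨q', some (.nd a'), okn q' hq'p0 a'⟩ := by
    refine ⟨hp'q', fun e he => ⟨.nd a', rfl, ?_⟩⟩
    obtain rfl : Ent.nd a' = e := Option.some.inj he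
    exact (h.L_iff _ _ _).2 (Or.inl rfl)
  obtain ⟨z, hz, hzF, c, hcy, hcz⟩ := hZ x hinf F _ (hy0.trans hx')
  obtain ⟨e', hce', hLe'⟩ := hcy.2 (.nd a') rfl
  rw [h.L_iff] at hLe'
  cases e' with
  | hd s Φ => exact hLe'.elim
  | nd γ =>
    have hcp' : c.fst ≤ p' := hcy.1
    have hcp0 : c.fst ≤ p0 := (hcp'.trans hp'q').trans hq'p0
    have hγ : a' = γ ∨ R a' γ c.fst := hLe'
    have ha'γ : a' ≤ γ := by
      rcases hγ with hγ | hγ
      · exact hγ.le
      · exact (hS.lt _ _ _ hcp0 hγ).le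
    refine ⟨c.fst, hcp', z.2, hzF, hcp0, ?_⟩
    rintro y hy ⟨γ', hyγ', hγ'⟩
    refine ⟨y, le_refl _, ?_⟩
    refine hD z.2 z.1 y ⟨hy.trans hcz.1, fun e he => ⟨.nd γ', hyγ', ?_⟩⟩ (hZD z hz)
    have hVe : VR R p0 z.1.fst e := (h.V_iff _ _).1 (z.1.ok _ he)
    cases e with
    | hd s Φ => exact hVe.elim
    | nd b =>
      have hbδ : b < δ := hδ b ⟨z, hz, he⟩
      obtain ⟨e'', hce'', hLe''⟩ := hcz.2 (.nd b) he
      have he'' : Ent.nd γ = e'' := by
        rw [hce'] at hce''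
        exact Option.some.inj hce''
      rw [← he'', h.L_iff] at hLe''
      have hbγ : b = γ ∨ R b γ c.fst := hLe''
      have hba' : b < a' := hbδ.trans hδa'
      have hbRγ : R b γ c.fst := by
        rcases hbγ with hbγ | hbγ
        · exact absurd hbγ (hba'.trans_le ha'γ).ne
        · exact hbγ
      have hRba' : R b a' c.fst := by
        rcases hγ with hγ | hγ
        · rw [hγ]; exact hbRγ
        · exact hS.tree b a' γ c.fst hcp0 hba' hbRγ hγ
      have hRba'y : R b a' y.fst := hmon _ _ _ _ hy hRba'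
      refine (h.L_iff _ _ _).2 (Or.inr ?_)
      rcases hγ' with hγ' | hγ'
      · rw [← hγ']; exact hRba'y
      · exact hS.trans b a' γ' y.fst (hy.trans hcp0) hRba'y hγ'

end BI
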