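import Pool.Agent.Helper18.BI.JoinL

/-!
# BI-27 The generic sequence of the Laver type forcing

TO PROVE (in place).  `Zz S k n x`: the condition `x` decides that the `k`-th entry of the generic sequence of nodes
is `n`.

* `zz_mono`: `hd_le`: `y.snd = some (.hd t Ψ)` with `s <+: t`, and the entries of a prefix agree.
* `zz_uniq`: clear.
* `one_more`: let `x.snd = some (.hd s Φ)`.  Choose `q1 ≤ x.fst`, `v` with `nm (Φ s) q1 v` (`okc_of_hd`).  Let `l` be such that
  `v.2 ≤ l` and `v.1.card < 2 ^ l`.  By induction on the finset `v.1` and `ext_dec`, `ext_mono` there is `q2 ≤ q1` such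
  that for every `α ∈ v.1` some `n` of length `l` has `Ext r α n q2`.  Since there are `2 ^ l` nodes of length `l`
  there is a node `n` of length `l` different from all of these; then `InS r v n q2`: if `q ≤ q2` and `Ext r α n q`,
  `α ∈ v.1`, then `ext_uniq` gives a contradiction.  `hd_extend` with `p = q2`, `t = s ++ [n]`, `Ψ = Φ` (third hypothesis:
  `u ++ [m] <+: s ++ [n]` and `s <+: u` give `u = s`, `m = n`; for `q ≤ q2`, `nm (Φ s) q w` we have `w = v`).
  (To count: if every node of length `l` occurred, then the map from `v.1` (choosing the node) would be onto the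
  nodes of length `l`; `List.Vector`/`Fin l → Bool` have cardinality `2 ^ l`.)
* `stem_long`: induction on `k` from `hd_start` and `one_more`.
* `zz_dense`: `stem_long` for `k + 1`.
-/

set_option autoImplicit false

namespace BI

/-- the condition `x` decides that the `k`-th node of the generic sequence is `n` -/
def Zz {P Cd : Type} [Preorder P] (S : ESys P (Ent Cd)) (k : ℕ) (n : Nd) (x : TS S) : Prop :=
  ∃ s Φ, x.snd = some (.hd s Φ) ∧ s[k]? = some n

variable {P Cd : Type} [Preorder P] {S : ESys P (Ent Cd)} {r : Om → ℕ → P → Prop} {A : Om → P → Prop}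
  {nm : Cd → P → Val → Prop}

theorem zz_mono (h : IsQS S r A nm) {k : ℕ} {n : Nd} {x y : TS S} (hyx : y ≤ x) (hx : Zz S k n x) :
    Zz S k n y := by
  obtain ⟨s, Φ, hs, hk⟩ := hx
  obtain ⟨t, Ψ, ht, hst, _, _⟩ := hd_le h hs hyx
  refine ⟨t, Ψ, ht, ?_⟩
  obtain ⟨w, hw⟩ := hst
  have hlt : k < s.length := (List.getElem?_eq_some_iff.mp hk).1
  rw [← hw, List.getElem?_append_left hlt]
  exact hk

theorem zz_uniq {k : ℕ} {n m : Nd} {x : TS S} (hn : Zz S k n x) (hm : Zz S k m x) : n = m := by
  obtain ⟨s, Φ, hs, hk⟩ := hn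
  obtain ⟨s', Φ', hs', hk'⟩ := hm
  have h1 : s = s' := by
    rw [hs] at hs'
    injection hs' with h2
    injection h2
  rw [← h1, hk] at hk'
  injection hk'

theorem one_more (h : IsQS S r A nm) {x : TS S} {s : List Nd} {Φ : List Nd → Cd}
    (hx : x.snd = some (.hd s Φ)) : ∃ y, y ≤ x ∧ ∃ n, y.snd = some (.hd (s ++ [n]) Φ) := by
  classical
  have hok := okc_of_hd h hx (le_refl x.fst) s
  obtain ⟨q1, hq1, v, hv⟩ := hok.1 x.fst (le_refl _)
  obtain ⟨l, hl1, hl2⟩ : ∃ l : ℕ, v.2 ≤ l ∧ v.1.card < 2 ^ l :=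
    ⟨max v.2 v.1.card, le_max_left _ _, lt_of_le_of_lt (le_max_right _ _) Nat.lt_two_pow_self⟩
  have key : ∀ G : Finset Om, ∃ q2, q2 ≤ q1 ∧ ∀ α ∈ G, ∃ n : Nd, n.length = l ∧ Ext r α n q2 := by
    intro G
    induction G using Finset.induction_on with
    | empty => exact ⟨q1, le_refl q1, fun α hα => absurd hα (Finset.notMem_empty α)⟩
    | insert a G ha ih =>
      obtain ⟨q2, hq2, hG⟩ := ih
      obtain ⟨q3, hq3, n, hn1, hn2⟩ := ext_dec h.rreg a l q2
      refine ⟨q3, le_trans hq3 hq2, ?_⟩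
      intro α hα
      rcases Finset.mem_insert.mp hα with h1 | h1
      · rw [h1]
        exact ⟨n, hn1, hn2⟩
      · obtain ⟨m, hm1, hm2⟩ := hG α h1
        exact ⟨m, hm1, ext_mono h.rreg hq3 hm2⟩
  obtain ⟨q2, hq2, hG⟩ := key v.1
  choose! f hf1 hf2 using hG
  have hcard : (v.1.image f).card < ((Finset.univ : Finset (Fin l → Bool)).image List.ofFn).card := by
    rw [Finset.card_image_of_injective _ List.ofFn_injective, Finset.card_univ,
      Fintype.card_fun, Fintype.card_bool, Fintype.card_fin]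
    exact lt_of_le_of_lt Finset.card_image_le hl2
  obtain ⟨n, hn1, hn2⟩ := Finset.exists_mem_notMem_of_card_lt_card hcard
  have hnl : n.length = l := by
    obtain ⟨g, _, hg⟩ := Finset.mem_image.mp hn1
    rw [← hg, List.length_ofFn]
  have hin : InS r v n q2 := by
    refine ⟨by rw [hnl]; exact hl1, ?_⟩
    intro α hα q hq hE
    apply hn2
    have h1 := ext_uniq hE (ext_mono h.rreg hq (hf2 α hα)) (by rw [hnl, hf1 α hα])
    rw [h1]
    exact Finset.mem_image_of_mem f hα
  have hq2x : q2 ≤ x.fst := le_trans hq2 hq1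
  obtain ⟨y, hyx, _, hys⟩ := hd_extend h hx (t := s ++ [n]) (Ψ := Φ) hq2x
    (List.prefix_append s [n])
    (fun u => okc_of_hd h hx hq2x u)
    (by
      intro u q3 hq3 v3 w3 h3 h4
      have h5 := (okc_of_hd h hx hq2x u).2.1 q3 hq3 v3 w3 h3 h4
      rw [h5]
      exact ⟨Finset.Subset.refl _, le_refl _⟩)
    (by
      intro u m hu hum q3 hq3 w hw
      have h3 := hu.length_le
      have h4 := hum.length_le
      simp only [List.length_append, List.length_singleton] at h4
      have h5 : u ++ [m] = s ++ [n] := hum.eq_of_length (by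
        simp only [List.length_append, List.length_singleton]
        omega)
      have h6 := List.append_inj' h5 rfl
      have hus : u = s := h6.1
      have hmn : m = n := by simpa using h6.2
      subst hus
      subst hmn
      have h7 : w = v := hok.2.1 q3 (le_trans hq3 hq2x) w v hw
        (h.nmon _ _ _ _ (le_trans hq3 hq2) hv)
      rw [h7]
      exact ins_mono hq3 hin)
  exact ⟨y, hyx, n, hys⟩

theorem stem_long (h : IsQS S r A nm) (k : ℕ) (x : TS S) :
    ∃ y, y ≤ x ∧ ∃ s Φ, y.snd = some (.hd s Φ) ∧ k ≤ s.length := by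
  induction k with
  | zero =>
    obtain ⟨y, hyx, _, s, Φ, hs⟩ := hd_start h x
    exact ⟨y, hyx, s, Φ, hs, Nat.zero_le _⟩
  | succ k ih =>
    obtain ⟨y, hyx, s, Φ, hs, hk⟩ := ih
    obtain ⟨z, hzy, n, hz⟩ := one_more h hs
    refine ⟨z, le_trans hzy hyx, s ++ [n], Φ, hz, ?_⟩
    rw [List.length_append, List.length_singleton]
    omega

theorem zz_dense (h : IsQS S r A nm) (k : ℕ) (x : TS S) : ∃ y, y ≤ x ∧ ∃ n, Zz S k n y := by
  obtain ⟨y, hyx, s, Φ, hs, hk⟩ := stem_long h (k + 1) x
  exact ⟨y, hyx, s[k]'(by omega), s, Φ, hs, List.getElem?_eq_getElem (by omega)⟩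

end BI
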